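import Pool.Agent.R401.Tr4

/-!
# The second exterior power of a matrix
-/

set_option autoImplicit false
set_option maxHeartbeats 400000

namespace Pool.Agent.R401.Ext2

open Matrix Polynomial

/-- pairs -/
abbrev I2 (n : ℕ) : Type := {p : Fin n × Fin n // p.1 < p.2}

section sums

variable {R : Type*} [CommRing R] {n : ℕ}

theorem sum_lt (f : Fin n → Fin n → R) :
    ∑ p : Fin n × Fin n, (if p.1 < p.2 then f p.1 p.2 else 0) = ∑ r : I2 n, f r.1.1 r.1.2 := by
  classical
  rw [← Finset.sum_filter]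
  exact (Finset.sum_subtype (Finset.univ.filter fun p : Fin n × Fin n => p.1 < p.2)
    (fun p => by simp) (fun p => f p.1 p.2))

theorem sum_split (f : Fin n → Fin n → R) :
    ∑ s, ∑ t, f s t = ∑ r : I2 n, (f r.1.1 r.1.2 + f r.1.2 r.1.1) + ∑ s, f s s := by
  classical
  have h1 : ∀ p : Fin n × Fin n, f p.1 p.2 = (if p.1 < p.2 then f p.1 p.2 else 0) +
      (if p.2 < p.1 then f p.1 p.2 else 0) + (if p.1 = p.2 then f p.1 p.2 else 0) := by
    intro p
    rcases lt_trichotomy p.1 p.2 with h | h | h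
    · rw [if_pos h, if_neg (not_lt.2 h.le), if_neg h.ne, add_zero, add_zero]
    · rw [if_neg (not_lt.2 h.ge), if_neg (not_lt.2 h.le), if_pos h, zero_add, zero_add]
    · rw [if_neg (not_lt.2 h.le), if_pos h, if_neg h.ne', zero_add, add_zero]
  have h2 : ∑ p : Fin n × Fin n, (if p.2 < p.1 then f p.1 p.2 else 0) =
      ∑ p : Fin n × Fin n, (if p.1 < p.2 then f p.2 p.1 else 0) := by
    rw [← Equiv.sum_comp (Equiv.prodComm (Fin n) (Fin n))]
    rfl
  have h3 : ∑ p : Fin n × Fin n, (if p.1 = p.2 then f p.1 p.2 else 0) = ∑ s, f s s := by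
    rw [Fintype.sum_prod_type]
    refine Finset.sum_congr rfl fun s _ => ?_
    rw [Finset.sum_ite_eq]
    simp
  rw [← Fintype.sum_prod_type', Finset.sum_congr rfl fun p _ => h1 p, Finset.sum_add_distrib,
    Finset.sum_add_distrib, h2, h3, sum_lt, sum_lt (fun s t => f t s), ← Finset.sum_add_distrib]

end sums

variable {R : Type*} [CommRing R] {n : ℕ}

/-- the second compound matrix -/
def c2 (A : Matrix (Fin n) (Fin n) R) : Matrix (I2 n) (I2 n) R := fun p q =>
  A p.1.1 q.1.1 * A p.1.2 q.1.2 - A p.1.1 q.1.2 * A p.1.2 q.1.1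

theorem c2_one : c2 (1 : Matrix (Fin n) (Fin n) R) = 1 := by
  ext p q
  unfold c2
  rw [Matrix.one_apply, Matrix.one_apply, Matrix.one_apply, Matrix.one_apply, Matrix.one_apply]
  have hp := p.2
  have hq := q.2
  by_cases h : p = q
  · subst h
    rw [if_pos rfl, if_pos rfl, if_pos rfl, if_neg hp.ne, zero_mul, sub_zero, one_mul]
  · rw [if_neg h]
    have h1 : ¬ (p.1.1 = q.1.1 ∧ p.1.2 = q.1.2) := by
      rintro ⟨h1, h2⟩
      exact h (Subtype.ext (Prod.ext h1 h2))
    have h2 : ¬ (p.1.1 = q.1.2 ∧ p.1.2 = q.1.1) := by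
      rintro ⟨h1, h2⟩
      rw [h1, h2] at hp
      exact lt_asymm hp hq
    have h3 : (if p.1.1 = q.1.1 then (1 : R) else 0) * (if p.1.2 = q.1.2 then 1 else 0) = 0 := by
      by_cases h4 : p.1.1 = q.1.1
      · rw [if_neg (fun h5 => h1 ⟨h4, h5⟩), mul_zero]
      · rw [if_neg h4, zero_mul]
    have h4 : (if p.1.1 = q.1.2 then (1 : R) else 0) * (if p.1.2 = q.1.1 then 1 else 0) = 0 := by
      by_cases h5 : p.1.1 = q.1.2
      · rw [if_neg (fun h6 => h2 ⟨h5, h6⟩), mul_zero]
      · rw [if_neg h5, zero_mul]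
    rw [h3, h4, sub_zero]

theorem c2_mul (A B : Matrix (Fin n) (Fin n) R) : c2 (A * B) = c2 A * c2 B := by
  ext p q
  have h1 : c2 (A * B) p q = ∑ s, ∑ t, A p.1.1 s * A p.1.2 t *
      (B s q.1.1 * B t q.1.2 - B s q.1.2 * B t q.1.1) := by
    unfold c2
    rw [Matrix.mul_apply, Matrix.mul_apply, Matrix.mul_apply, Matrix.mul_apply, Finset.sum_mul_sum,
      Finset.sum_mul_sum, ← Finset.sum_sub_distrib]
    refine Finset.sum_congr rfl fun s _ => ?_
    rw [← Finset.sum_sub_distrib]
    refine Finset.sum_congr rfl fun t _ => ?_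
    ring
  rw [h1, sum_split, Matrix.mul_apply]
  have h2 : ∑ s, A p.1.1 s * A p.1.2 s *
      (B s q.1.1 * B s q.1.2 - B s q.1.2 * B s q.1.1) = 0 :=
    Finset.sum_eq_zero fun s _ => by ring
  rw [h2, add_zero]
  refine Finset.sum_congr rfl fun r _ => ?_
  unfold c2
  ring

theorem trace_c2 (A : Matrix (Fin n) (Fin n) R) : 2 * (c2 A).trace = A.trace ^ 2 - (A * A).trace := by
  have h1 : A.trace ^ 2 - (A * A).trace = ∑ s, ∑ t, (A s s * A t t - A s t * A t s) := by
    unfold Matrix.trace
    simp only [Matrix.diag_apply, Matrix.mul_apply]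
    rw [pow_two, Finset.sum_mul_sum, ← Finset.sum_sub_distrib]
    refine Finset.sum_congr rfl fun s _ => ?_
    rw [← Finset.sum_sub_distrib]
  rw [h1, sum_split]
  have h2 : ∑ s, (A s s * A s s - A s s * A s s) = 0 :=
    Finset.sum_eq_zero fun s _ => by ring
  rw [h2, add_zero]
  unfold Matrix.trace
  rw [Finset.mul_sum]
  refine Finset.sum_congr rfl fun r _ => ?_
  rw [Matrix.diag_apply]
  unfold c2
  ring

theorem card_I2 : Fintype.card (I2 n) = n.choose 2 := by
  have h1 := sum_split (R := ℤ) (n := n) (fun _ _ => 1)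
  simp only [Finset.sum_const, Finset.card_univ, Fintype.card_fin, nsmul_eq_mul,
    mul_one] at h1
  have h2 : (n : ℤ) * n = Fintype.card (I2 n) * (1 + 1) + n := h1
  have h3 : n * n = Fintype.card (I2 n) * 2 + n := by exact_mod_cast h2
  rw [Nat.choose_two_right]
  rcases n with _ | n
  · simp at h3 ⊢
  · have h4 : (n + 1) * (n + 1 - 1) = Fintype.card (I2 (n + 1)) * 2 := by
      rw [Nat.add_sub_cancel]
      nlinarith
    rw [h4, Nat.mul_div_cancel _ (by norm_num)]

/-- the second exterior power as a homomorphism -/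
noncomputable def L2 (n : ℕ) (R : Type*) [CommRing R] :
    Matrix (Fin n) (Fin n) R →* Matrix (Fin (n.choose 2)) (Fin (n.choose 2)) R where
  toFun A := Matrix.reindexAlgEquiv R R (Fintype.equivFinOfCardEq card_I2) (c2 A)
  map_one' := by rw [c2_one, map_one]
  map_mul' A B := by rw [c2_mul, map_mul]

theorem trace_L2 (A : Matrix (Fin n) (Fin n) R) : 2 * (L2 n R A).trace = A.trace ^ 2 - (A * A).trace := by
  rw [← trace_c2]
  congr 1
  unfold L2 Matrix.trace
  rw [← Equiv.sum_comp (Fintype.equivFinOfCardEq (card_I2 (n := n)))]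
  refine Finset.sum_congr rfl fun r _ => ?_
  simp [Matrix.diag_apply, Matrix.reindex_apply]

theorem continuous_L2 {F : Type*} [NormedField F] : Continuous (L2 n F) := by
  refine continuous_matrix fun i j => ?_
  have h1 : ∀ A : Matrix (Fin n) (Fin n) F, L2 n F A i j =
      c2 A ((Fintype.equivFinOfCardEq card_I2).symm i) ((Fintype.equivFinOfCardEq card_I2).symm j) := by
    intro A
    rfl
  simp only [h1]
  unfold c2
  fun_prop

theorem coeff_one {F : Type} [Field F] [CharZero F] (A : Matrix (Fin n) (Fin n) F) :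
    A.charpolyRev.coeff 1 = - A.trace := by
  have h2 := Pool.Agent.TH658.Eq.newton A 0
  have h3 : A.charpolyRev.coeff 0 = 1 := by
    rw [coeff_zero_eq_eval_zero, Matrix.eval_charpolyRev]
  rw [Finset.Nat.sum_antidiagonal_eq_sum_range_succ
    (fun i j => A.charpolyRev.coeff i * (A ^ (j + 1)).trace) 0, Finset.sum_range_one, h3, zero_add,
    Nat.sub_self, zero_add, pow_one, one_mul, Nat.cast_zero, zero_add, mul_one] at h2
  exact h2

/-- the coefficient of the characteristic polynomial -/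
theorem coeff_two {F : Type} [Field F] [CharZero F] (A : Matrix (Fin n) (Fin n) F) :
    A.charpolyRev.coeff 2 = (L2 n F A).trace := by
  have h1 := Pool.Agent.TH658.Eq.newton A 1
  have h3 : A.charpolyRev.coeff 0 = 1 := by
    rw [coeff_zero_eq_eval_zero, Matrix.eval_charpolyRev]
  rw [Finset.Nat.sum_antidiagonal_eq_sum_range_succ
    (fun i j => A.charpolyRev.coeff i * (A ^ (j + 1)).trace) 1, Finset.sum_range_succ,
    Finset.sum_range_one, h3, coeff_one, Nat.sub_self, zero_add, pow_one, one_mul, Nat.sub_zero] at h1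
  have h4 := trace_L2 A
  rw [← pow_two] at h4
  have h5 : (2 : F) ≠ 0 := two_ne_zero
  apply mul_left_cancel₀ h5
  rw [h4]
  norm_num at h1
  linear_combination h1

end Pool.Agent.R401.Ext2
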