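import Pool.Agent.R401.Tr12
import Pool.Agent.R401.Ext2

/-!
# One place suffices for a positive density: coefficients of the Frobenius polynomials
-/

set_option autoImplicit false
set_option maxHeartbeats 400000

namespace Pool.Agent.R401.Tr13

open NumberField Filter Topology IsDedekindDomain Pool.Agent.W401.Cheb Pool.Agent.R401.Sup
open Pool.Agent.W569.FM Pool.Agent.R401.Img Pool.Agent.R401.Eng Pool.Agent.R401.Sup2
open Pool.Agent.R401.Sup3 Pool.Agent.R401.Tr1 Pool.Agent.R401.Tr3 Module Pool.Agent.R401.Tr5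
open Polynomial Matrix

variable {K : Type} [Field K] [NumberField K] {ℓ : ℕ} [Fact ℓ.Prime] {n : ℕ}

theorem gap (ρ : GK K →* GL (Fin n) ℚ_[ℓ]) (hρ : Continuous ρ)
    (B : Set (HeightOneSpectrum (𝓞 K))) (hB : B.Finite) (a : HeightOneSpectrum (𝓞 K) → ℤ) (u : ℕ)
    (htr : ∀ v, v ∉ B → (ℓ : 𝓞 K) ∉ v.asIdeal → ∀ g, IsFrob v g →
      (Img.mt ρ g⁻¹).trace = (a v : ℚ_[ℓ]))
    (C : ℝ) (hC : ∀ v, v ∉ B → |(a v : ℝ)| ≤ C * (Ideal.absNorm v.asIdeal : ℝ) ^ u)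
    (v₀ : HeightOneSpectrum (𝓞 K)) (hv₀ : v₀ ∉ B) (hℓ₀ : (ℓ : 𝓞 K) ∉ v₀.asIdeal)
    (h₀ : ¬ (Ideal.absNorm v₀.asIdeal : ℤ) ^ u ∣ a v₀) (θ : ℝ) (hθ : θ * n ^ 2 < 1) :
    ∀ᶠ N : ℕ in atTop, θ < dens (fun v : HeightOneSpectrum (𝓞 K) =>
      v ∉ B ∧ (Ideal.absNorm v.asIdeal).Prime ∧ ¬ (Ideal.absNorm v.asIdeal : ℤ) ^ u ∣ a v) N := by
  by_contra hcon
  rw [Filter.not_eventually] at hcon
  set ε : ℝ := (1 - θ * n ^ 2) / (4 * ((n : ℝ) ^ 2 + 1)) with hε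
  have hε0 : 0 < ε := div_pos (by linarith) (by positivity)
  have hθε : (θ + 2 * ε) * n ^ 2 < 1 := by
    have h1 : ε * ((n : ℝ) ^ 2 + 1) = (1 - θ * n ^ 2) / 4 := by
      rw [hε]
      field_simp
    have h2 : (θ + 2 * ε) * (n : ℝ) ^ 2 = θ * n ^ 2 + 2 * (ε * ((n : ℝ) ^ 2 + 1)) - 2 * ε := by ring
    rw [h2, h1]
    linarith
  have hBd : ∀ᶠ N : ℕ in atTop, dens (fun v : HeightOneSpectrum (𝓞 K) => v ∈ B) N ≤ ε :=
    (dens_fin (fun v : HeightOneSpectrum (𝓞 K) => v ∈ B) hB).eventually (ge_mem_nhds hε0)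
  have hpr : ∀ᶠ N : ℕ in atTop, dens (fun v : HeightOneSpectrum (𝓞 K) =>
      ¬ (Ideal.absNorm v.asIdeal).Prime) N ≤ ε :=
    Tr12.dens_not_prime.eventually (ge_mem_nhds hε0)
  refine h₀ (Tr12.all_of_most ρ hρ B hB a u htr C hC (θ + 2 * ε) hθε ?_ v₀ hv₀ hℓ₀)
  refine (hcon.and_eventually (hBd.and hpr)).mono ?_
  rintro N ⟨h1, h2, h3⟩
  rw [not_lt] at h1
  have h4 : dens (fun v : HeightOneSpectrum (𝓞 K) => ¬ (Ideal.absNorm v.asIdeal : ℤ) ^ u ∣ a v) N ≤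
      dens (fun v : HeightOneSpectrum (𝓞 K) => (v ∉ B ∧ (Ideal.absNorm v.asIdeal).Prime ∧
        ¬ (Ideal.absNorm v.asIdeal : ℤ) ^ u ∣ a v) ∨
        (v ∈ B ∨ ¬ (Ideal.absNorm v.asIdeal).Prime)) N := by
    refine dens_le ?_ N
    intro v hv
    by_cases hvB : v ∈ B
    · exact Or.inr (Or.inl hvB)
    by_cases hvp : (Ideal.absNorm v.asIdeal).Prime
    · exact Or.inl ⟨hvB, hvp, hv⟩
    · exact Or.inr (Or.inr hvp)
  have h5 := (h4.trans (card_or _ _ N)).trans (add_le_add_right (card_or _ _ N) _)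
  linarith

/-- the coefficients of the Frobenius polynomials -/
theorem coeffs (V : GK K →* GL (Fin n) ℚ_[ℓ]) (hV : Continuous V)
    (B : Set (HeightOneSpectrum (𝓞 K))) (hB : B.Finite) (L : HeightOneSpectrum (𝓞 K) → ℤ[X])
    (hL : ∀ v, v ∉ B → (ℓ : 𝓞 K) ∉ v.asIdeal → ∀ g, IsFrob v g →
      (Img.mt V g⁻¹).charpolyRev = (L v).map (Int.castRingHom ℚ_[ℓ])) (j : ℕ) (hj : j = 1 ∨ j = 2)
    (u : ℕ) (C : ℝ) (hC : ∀ v, v ∉ B →
      |((L v).coeff j : ℝ)| ≤ C * (Ideal.absNorm v.asIdeal : ℝ) ^ u)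
    (v₀ : HeightOneSpectrum (𝓞 K)) (hv₀ : v₀ ∉ B) (hℓ₀ : (ℓ : 𝓞 K) ∉ v₀.asIdeal)
    (h₀ : ¬ (Ideal.absNorm v₀.asIdeal : ℤ) ^ u ∣ (L v₀).coeff j) (θ : ℝ)
    (hθ : θ * (n.choose j : ℝ) ^ 2 < 1) :
    ∀ᶠ N : ℕ in atTop, θ < dens (fun v : HeightOneSpectrum (𝓞 K) => v ∉ B ∧
      (Ideal.absNorm v.asIdeal).Prime ∧ ¬ (Ideal.absNorm v.asIdeal : ℤ) ^ u ∣ (L v).coeff j) N := by
  have hco : ∀ (f : ℤ[X]) (i : ℕ), (f.map (Int.castRingHom ℚ_[ℓ])).coeff i = (f.coeff i : ℚ_[ℓ]) :=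
    fun f i => by rw [coeff_map]; rfl
  rcases hj with rfl | rfl
  · rw [Nat.choose_one_right] at hθ
    have h1 := gap V hV B hB (fun v => -(L v).coeff 1) u (by
      intro v hv hℓ g hg
      have h2 := Ext2.coeff_one (Img.mt V g⁻¹)
      rw [hL v hv hℓ g hg, hco] at h2
      push_cast
      rw [h2, neg_neg]) C (by
      intro v hv
      push_cast
      rw [abs_neg]
      exact hC v hv) v₀ hv₀ hℓ₀ (by rwa [dvd_neg]) θ hθ
    refine h1.mono fun N hN => ?_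
    simp only [dvd_neg] at hN
    exact hN
  · refine gap ((Units.map (Ext2.L2 n ℚ_[ℓ])).comp V) ?_ B hB (fun v => (L v).coeff 2) u (by
      intro v hv hℓ g hg
      have h2 := Ext2.coeff_two (Img.mt V g⁻¹)
      rw [hL v hv hℓ g hg, hco] at h2
      rw [h2]
      rfl) C hC v₀ hv₀ hℓ₀ h₀ θ hθ
    exact (Ext2.continuous_L2.units_map _).comp hV

end Pool.Agent.R401.Tr13
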