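import Pool.Agent.R401.Img

/-!
# Representations with finite image are semisimple
-/

set_option autoImplicit false
set_option maxHeartbeats 400000

namespace Pool.Agent.R401.Img

variable {k : Type*} [Field k] {n : ℕ} {G : Type*} [Group G]

theorem SS_of_finite [CharZero k] (ρ : G →* GL (Fin n) k) (hfin : Finite ρ.range) : SS ρ := by
  classical
  intro W hW
  have := Fintype.ofFinite ρ.range
  obtain ⟨W₀, hc⟩ := W.exists_isCompl
  let pr : (Fin n → k) →ₗ[k] (Fin n → k) := W.subtype.comp (W.projectionOnto W₀ hc)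
  have hpr1 : ∀ v, pr v ∈ W := fun v => (W.projectionOnto W₀ hc v).2
  have hpr2 : ∀ w ∈ W, pr w = w := fun w hw => by
    change ((W.projectionOnto W₀ hc w : W) : Fin n → k) = w
    exact congrArg Subtype.val (Submodule.projectionOnto_apply_left hc ⟨w, hw⟩)
  let T : ρ.range → ((Fin n → k) →ₗ[k] (Fin n → k)) := fun γ =>
    Matrix.toLin' ((γ : GL (Fin n) k) : Matrix (Fin n) (Fin n) k)
  have hT : ∀ γ δ, T (γ * δ) = (T γ).comp (T δ) := by
    intro γ δ
    change Matrix.toLin' (((γ * δ : ρ.range) : GL (Fin n) k) : Matrix (Fin n) (Fin n) k) = _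
    rw [Subgroup.coe_mul, Units.val_mul, Matrix.toLin'_mul]
  have hT1 : T 1 = LinearMap.id := by
    change Matrix.toLin' (((1 : ρ.range) : GL (Fin n) k) : Matrix (Fin n) (Fin n) k) = _
    rw [Subgroup.coe_one, Units.val_one, Matrix.toLin'_one]
  have hTW : ∀ γ, ∀ w ∈ W, T γ w ∈ W := by
    rintro ⟨_, g, rfl⟩ w hw
    exact hW g w hw
  have hTT : ∀ γ v, T γ (T γ⁻¹ v) = v := by
    intro γ v
    have h1 := congrArg (fun F => F v) (hT γ γ⁻¹)
    simp only [mul_inv_cancel, hT1] at h1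
    exact h1.symm
  have hcard : (Fintype.card ρ.range : k) ≠ 0 := Nat.cast_ne_zero.2 Fintype.card_ne_zero
  let av : (Fin n → k) →ₗ[k] (Fin n → k) :=
    (Fintype.card ρ.range : k)⁻¹ • ∑ γ : ρ.range, (T γ).comp (pr.comp (T γ⁻¹))
  have hav : ∀ v, av v = (Fintype.card ρ.range : k)⁻¹ • ∑ γ : ρ.range, T γ (pr (T γ⁻¹ v)) := by
    intro v
    simp only [av, LinearMap.smul_apply, LinearMap.sum_apply, LinearMap.comp_apply]
  have hav1 : ∀ v, av v ∈ W := by
    intro v
    rw [hav]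
    exact W.smul_mem _ (W.sum_mem fun γ _ => hTW γ _ (hpr1 _))
  have hav2 : ∀ w ∈ W, av w = w := by
    intro w hw
    rw [hav, Finset.sum_congr rfl fun γ _ => by rw [hpr2 _ (hTW γ⁻¹ w hw), hTT],
      Finset.sum_const, Finset.card_univ, ← Nat.cast_smul_eq_nsmul k, smul_smul,
      inv_mul_cancel₀ hcard, one_smul]
  have hav3 : ∀ δ v, av (T δ v) = T δ (av v) := by
    intro δ v
    rw [hav, hav, map_smul, map_sum]
    congr 1
    rw [← Equiv.sum_comp (Equiv.mulLeft δ)]
    refine Finset.sum_congr rfl fun γ _ => ?_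
    have h1 : T δ⁻¹ (T δ v) = v := by
      have := hTT δ⁻¹ v
      rwa [inv_inv] at this
    have h2 : T (δ * γ)⁻¹ (T δ v) = T γ⁻¹ v := by
      rw [mul_inv_rev, hT, LinearMap.comp_apply, h1]
    rw [Equiv.coe_mulLeft, h2, hT]
    rfl
  let F : (Fin n → k) →ₗ[k] W := av.codRestrict W hav1
  have hF : ∀ w : W, F w = w := fun w => Subtype.ext (hav2 w w.2)
  refine ⟨LinearMap.ker F, ?_, LinearMap.isCompl_of_proj hF⟩
  intro g x hx
  rw [LinearMap.mem_ker] at hx ⊢
  apply Subtype.ext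
  have h1 := hav3 ⟨ρ g, g, rfl⟩ x
  have h2 : av x = 0 := congrArg Subtype.val hx
  rw [h2, map_zero] at h1
  exact h1

open Pool.Agent.W569.FM in
theorem SS_of_open [CharZero k] (ρ : GF ℚ →* GL (Fin n) k) (h : IsOpen (ρ.ker : Set (GF ℚ))) :
    SS ρ := by
  have h1 : Finite (GF ℚ ⧸ ρ.ker) := Subgroup.quotient_finite_of_isOpen _ h
  exact SS_of_finite ρ (Finite.of_equiv _ (QuotientGroup.quotientKerEquivRange ρ).toEquiv)

open Pool.Agent.W569.FM in
theorem continuous_of_open [TopologicalSpace k] (ρ : GF ℚ →* GL (Fin n) k)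
    (h : IsOpen (ρ.ker : Set (GF ℚ))) : Continuous ρ := by
  apply IsLocallyConstant.continuous
  rw [IsLocallyConstant.iff_exists_open]
  intro x
  refine ⟨(fun g => x⁻¹ * g) ⁻¹' (ρ.ker : Set (GF ℚ)), h.preimage (continuous_const_mul _), ?_, ?_⟩
  · change x⁻¹ * x ∈ ρ.ker
    rw [inv_mul_cancel]
    exact one_mem _
  · intro y hy
    have h1 : x⁻¹ * y ∈ ρ.ker := hy
    rw [MonoidHom.mem_ker, map_mul, map_inv, inv_mul_eq_one] at h1
    exact h1.symm

end Pool.Agent.R401.Img
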