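import Pool.Agent.H914R2.Core0

/-!
# The trace form of a semisimple representation, and Burnside's counting argument
-/

set_option autoImplicit false

namespace Pool.Agent.R401.Burn

open Module Polynomial

section nil

variable {k : Type*} [Field k] {V : Type*} [AddCommGroup V] [Module k V] [Module.Finite k V]

/-- An endomorphism whose powers have trace zero is nilpotent, if the characteristic is zero or
larger than the dimension. -/
theorem isNilpotent_of_trace_pow (hk : ∀ m : ℕ, 0 < m → m ≤ finrank k V → (m : k) ≠ 0)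
    (y : Module.End k V) (h : ∀ r : ℕ, LinearMap.trace k V (y ^ (r + 1)) = 0) : IsNilpotent y := by
  obtain ⟨w, m, hw0, hw, hkw, g, hg⟩ := Pool.Agent.H914.exists_fitting y
  have hgen : ∀ g : k[X], LinearMap.trace k V (y * aeval y g) = 0 := by
    intro g
    induction g using Polynomial.induction_on' with
    | add p q hp hq => rw [map_add, mul_add, map_add, hp, hq, add_zero]
    | monomial r c =>
      rw [aeval_monomial]
      have : y * ((algebraMap k (Module.End k V)) c * y ^ r) = c • y ^ (r + 1) := by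
        rw [Algebra.algebraMap_eq_smul_one, smul_mul_assoc, one_mul, mul_smul_comm, ← pow_succ']
      rw [this, map_smul, h, smul_zero]
  have htr : LinearMap.trace k V (aeval y (1 - w)) = 0 := by
    rw [hg, map_mul, aeval_X]; exact hgen g
  have hid : aeval y (1 - w) * aeval y (1 - w) = aeval y (1 - w) := by
    rw [map_sub, map_one, mul_sub, sub_mul, sub_mul, hw]
    simp
  have h0 : aeval y (1 - w) = 0 := by
    rw [Pool.Agent.H914.trace_idem hid] at htr
    have h1 : finrank k (LinearMap.range (aeval y (1 - w))) = 0 := by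
      by_contra hne
      exact hk _ (Nat.pos_of_ne_zero hne) (Submodule.finrank_le _) htr
    rwa [Submodule.finrank_eq_zero, LinearMap.range_eq_bot] at h1
  rw [map_sub, map_one, sub_eq_zero] at h0
  refine ⟨m, ?_⟩
  rw [← h0, mul_one] at hkw
  exact hkw

end nil

section form

variable {k : Type*} [Field k] {V : Type*} [AddCommGroup V] [Module k V] [Module.Finite k V]
  {G : Type*} [Group G]

/-- **The trace form of a semisimple representation is nondegenerate**, if the characteristic is
zero or larger than the dimension. -/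
theorem eq_zero_of_trace (hk : ∀ m : ℕ, 0 < m → m ≤ finrank k V → (m : k) ≠ 0)
    (ρ : G →* Module.End k V)
    (hss : ∀ W : Submodule k V, (∀ g, ∀ x ∈ W, ρ g x ∈ W) →
      ∃ W' : Submodule k V, (∀ g, ∀ x ∈ W', ρ g x ∈ W') ∧ IsCompl W W')
    {x : Module.End k V} (hx : x ∈ Submodule.span k (Set.range ρ))
    (htr : ∀ g, LinearMap.trace k V (x * ρ g) = 0) : x = 0 := by
  classical
  set 𝒜 : Subalgebra k (Module.End k V) := Algebra.adjoin k (Set.range ρ) with h𝒜
  have hspan : Subalgebra.toSubmodule 𝒜 = Submodule.span k (Set.range ρ) := by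
    rw [h𝒜, Algebra.adjoin_eq_span]
    congr 1
    have h1 : (Set.range ρ) = ((MonoidHom.mrange ρ : Submonoid (Module.End k V)) :
        Set (Module.End k V)) := rfl
    rw [h1, Submonoid.closure_eq]
  have hx𝒜 : x ∈ 𝒜 := by
    rw [← Subalgebra.mem_toSubmodule, hspan]
    exact hx
  have htr𝒜 : ∀ y ∈ 𝒜, LinearMap.trace k V (x * y) = 0 := by
    intro y hy
    rw [← Subalgebra.mem_toSubmodule, hspan] at hy
    induction hy using Submodule.span_induction with
    | mem y hy =>
      obtain ⟨g, rfl⟩ := hy
      exact htr g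
    | zero => rw [mul_zero, map_zero]
    | add a b _ _ ha hb => rw [mul_add, map_add, ha, hb, add_zero]
    | smul c a _ ha => rw [mul_smul_comm, map_smul, ha, smul_zero]
  have hρ𝒜 : ∀ g, ρ g ∈ 𝒜 := fun g => Algebra.subset_adjoin ⟨g, rfl⟩
  have hstab : ∀ W : Submodule k V, (∀ g, ∀ x ∈ W, ρ g x ∈ W) → ∀ y ∈ 𝒜, ∀ x ∈ W, y x ∈ W := by
    intro W hW y hy x hx
    rw [← Subalgebra.mem_toSubmodule, hspan] at hy
    induction hy using Submodule.span_induction with
    | mem y hy =>
      obtain ⟨g, rfl⟩ := hy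
      exact hW g x hx
    | zero => exact W.zero_mem
    | add a b _ _ ha hb => exact W.add_mem ha hb
    | smul c a _ ha => exact W.smul_mem c ha
  have hsm : ∀ (y : 𝒜) (v : V), y • v = (y : Module.End k V) v := fun y v => rfl
  have hcompl : ComplementedLattice (Submodule 𝒜 V) := by
    refine ⟨fun W => ?_⟩
    obtain ⟨W', hW', hc⟩ := hss (W.restrictScalars k) (fun g x hx => by
      have := W.smul_mem (⟨ρ g, hρ𝒜 g⟩ : 𝒜) hx
      exact this)
    let W'' : Submodule 𝒜 V :=
      { carrier := W'
        add_mem' := fun ha hb => W'.add_mem ha hb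
        zero_mem' := W'.zero_mem
        smul_mem' := fun y v hv => hstab W' hW' y y.2 v hv }
    refine ⟨W'', ?_⟩
    rw [isCompl_iff, disjoint_iff, codisjoint_iff] at hc ⊢
    constructor
    · rw [eq_bot_iff]
      intro v hv
      have h1 : v ∈ (W.restrictScalars k) ⊓ W' := ⟨hv.1, hv.2⟩
      rw [hc.1] at h1
      exact (Submodule.mem_bot _).2 ((Submodule.mem_bot _).1 h1)
    · rw [eq_top_iff]
      intro v _
      have h1 : v ∈ (W.restrictScalars k) ⊔ W' := by rw [hc.2]; trivial
      obtain ⟨a, ha, b, hb, hab⟩ := Submodule.mem_sup.1 h1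
      exact Submodule.mem_sup.2 ⟨a, ha, b, hb, hab⟩
  have hsem : IsSemisimpleModule 𝒜 V := (isSemisimpleModule_iff 𝒜 V).2 hcompl
  by_contra hx0
  -- a simple submodule on which `x` does not vanish
  obtain ⟨W, hW, w, hwW, hxw⟩ : ∃ W : Submodule 𝒜 V, IsSimpleModule 𝒜 W ∧ ∃ w ∈ W, x w ≠ 0 := by
    by_contra hcon
    push Not at hcon
    apply hx0
    ext v
    have h1 : v ∈ sSup {m : Submodule 𝒜 V | IsSimpleModule 𝒜 m} := by
      rw [IsSemisimpleModule.sSup_simples_eq_top]
      trivial
    rw [sSup_eq_iSup'] at h1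
    induction h1 using Submodule.iSup_induction' with
    | mem i v hv => exact hcon i.1 i.2 v hv
    | zero => rw [map_zero, map_zero]
    | add a b _ _ ha hb => rw [map_add, map_add, ha, hb]
  have hxW : x w ∈ W := W.smul_mem (⟨x, hx𝒜⟩ : 𝒜) hwW
  have hne : (⟨x w, hxW⟩ : W) ≠ 0 := fun h => hxw (congrArg Subtype.val h)
  obtain ⟨y, hy⟩ := IsSimpleModule.toSpanSingleton_surjective (R := 𝒜) (M := W) hne
    (⟨w, hwW⟩ : W)
  have hyx : ((y : Module.End k V) * x) w = w := by
    have h1 := congrArg Subtype.val hy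
    exact h1
  have hnil : IsNilpotent ((y : Module.End k V) * x) := by
    apply isNilpotent_of_trace_pow hk
    intro r
    rw [pow_succ', mul_assoc, LinearMap.trace_mul_comm, mul_assoc]
    refine htr𝒜 _ (𝒜.mul_mem (𝒜.pow_mem (𝒜.mul_mem y.2 hx𝒜) r) y.2)
  obtain ⟨m, hm⟩ := hnil
  have h1 : ∀ m : ℕ, (((y : Module.End k V) * x) ^ m) w = w := by
    intro m
    induction m with
    | zero => rfl
    | succ m ih => rw [pow_succ, Module.End.mul_apply, hyx, ih]
  have h2 := h1 m
  rw [hm] at h2
  apply hxw
  rw [← h2]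
  simp

/-- A family of at most `dim² ` elements whose traces separate. -/
theorem exists_family (hk : ∀ m : ℕ, 0 < m → m ≤ finrank k V → (m : k) ≠ 0)
    (ρ : G →* Module.End k V)
    (hss : ∀ W : Submodule k V, (∀ g, ∀ x ∈ W, ρ g x ∈ W) →
      ∃ W' : Submodule k V, (∀ g, ∀ x ∈ W', ρ g x ∈ W') ∧ IsCompl W W') :
    ∃ (m : ℕ) (g : Fin m → G), m ≤ finrank k V ^ 2 ∧
      Submodule.span k (Set.range fun j => ρ (g j)) = Submodule.span k (Set.range ρ) ∧
      ∀ a b : G, (∀ j, LinearMap.trace k V (ρ (a * g j)) = LinearMap.trace k V (ρ (b * g j))) →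
        ρ a = ρ b := by
  obtain ⟨f, hf1, hf2, -⟩ := Submodule.exists_fun_fin_finrank_span_eq k (Set.range ρ)
  choose g hg using hf1
  refine ⟨_, g, ?_, ?_, ?_⟩
  · refine (Submodule.finrank_le _).trans ?_
    rw [Module.finrank_linearMap, pow_two]
  · have h1 : (fun j => ρ (g j)) = f := funext hg
    rw [h1, hf2]
  · intro a b hab
    rw [← sub_eq_zero]
    refine eq_zero_of_trace hk ρ hss (Submodule.sub_mem _ (Submodule.subset_span ⟨a, rfl⟩)
      (Submodule.subset_span ⟨b, rfl⟩)) fun h => ?_
    have h1 : ρ h ∈ Submodule.span k (Set.range f) := by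
      rw [hf2]
      exact Submodule.subset_span ⟨h, rfl⟩
    generalize ρ h = z at h1
    induction h1 using Submodule.span_induction with
    | mem y hy =>
      obtain ⟨j, rfl⟩ := hy
      rw [← hg, sub_mul, ← map_mul, ← map_mul, map_sub, hab j, sub_self]
    | zero => rw [mul_zero, map_zero]
    | add a b _ _ ha hb => rw [mul_add, map_add, ha, hb, add_zero]
    | smul c a _ ha => rw [mul_smul_comm, map_smul, ha, smul_zero]

end form

section count

/-- the counting argument -/
theorem count {Γ : Type*} [Group Γ] [Finite Γ] (V : Subgroup Γ) (D : Set Γ) {m : ℕ}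
    (g : Fin m → Γ) {Y : Type*} [Finite Y] (τ : Γ → Fin m → Y)
    (h : ∀ a b, (∀ j, a * g j ∉ D) → (∀ j, b * g j ∉ D) → τ a = τ b → a⁻¹ * b ∈ V) :
    Nat.card Γ ≤ Nat.card Y ^ m * Nat.card V + m * D.ncard := by
  classical
  have : Fintype Γ := Fintype.ofFinite Γ
  have : Fintype Y := Fintype.ofFinite Y
  have hV : Fintype V := Fintype.ofFinite V
  have hD : D.ncard = (Finset.univ.filter fun a => a ∈ D).card := by
    rw [Set.ncard_eq_toFinset_card']
    congr 1
    ext a
    simp
  set good : Finset Γ := Finset.univ.filter fun a => ∀ j, a * g j ∉ D with hgood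
  set bad : Fin m → Finset Γ := fun j => Finset.univ.filter fun a => a * g j ∈ D with hbad
  have h1 : (Finset.univ : Finset Γ) ⊆ good ∪ Finset.univ.biUnion bad := by
    intro a _
    by_cases ha : ∀ j, a * g j ∉ D
    · exact Finset.mem_union_left _ (Finset.mem_filter.2 ⟨Finset.mem_univ _, ha⟩)
    · push Not at ha
      obtain ⟨j, hj⟩ := ha
      refine Finset.mem_union_right _ (Finset.mem_biUnion.2 ⟨j, Finset.mem_univ _, ?_⟩)
      exact Finset.mem_filter.2 ⟨Finset.mem_univ _, hj⟩
  have h2 : ∀ j, (bad j).card = D.ncard := by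
    intro j
    rw [hD]
    refine Finset.card_bij (fun a _ => a * g j) ?_ ?_ ?_
    · intro a ha
      exact Finset.mem_filter.2 ⟨Finset.mem_univ _, (Finset.mem_filter.1 ha).2⟩
    · intro a _ b _ hab
      exact mul_right_cancel hab
    · intro b hb
      refine ⟨b * (g j)⁻¹, Finset.mem_filter.2 ⟨Finset.mem_univ _, ?_⟩, ?_⟩
      · rw [inv_mul_cancel_right]
        exact (Finset.mem_filter.1 hb).2
      · rw [inv_mul_cancel_right]
  have h3 : good.card ≤ Fintype.card (Fin m → Y) * Fintype.card V := by
    have h4 : good.card = ∑ y : Fin m → Y, (good.filter fun a => τ a = y).card :=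
      Finset.card_eq_sum_card_fiberwise fun a _ => Finset.mem_coe.2 (Finset.mem_univ _)
    rw [h4]
    have h5 : ∀ y : Fin m → Y, (good.filter fun a => τ a = y).card ≤ Fintype.card V := by
      intro y
      rcases (good.filter fun a => τ a = y).eq_empty_or_nonempty with he | ⟨a, ha⟩
      · rw [he]
        simp
      · rw [← Finset.card_univ]
        refine Finset.card_le_card_of_injOn (fun b => if hb : a⁻¹ * b ∈ V then ⟨a⁻¹ * b, hb⟩ else 1)
          (fun b _ => Finset.mem_coe.2 (Finset.mem_univ _)) ?_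
        intro b hb c hc hbc
        rw [Finset.coe_filter, Set.mem_ofPred_eq] at hb hc
        rw [Finset.mem_filter] at ha
        have hab : a⁻¹ * b ∈ V := h a b (Finset.mem_filter.1 ha.1).2 (Finset.mem_filter.1 hb.1).2
          (ha.2.trans hb.2.symm)
        have hac : a⁻¹ * c ∈ V := h a c (Finset.mem_filter.1 ha.1).2 (Finset.mem_filter.1 hc.1).2
          (ha.2.trans hc.2.symm)
        beta_reduce at hbc
        rw [dif_pos hab, dif_pos hac] at hbc
        exact mul_left_cancel (congrArg Subtype.val hbc)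
    calc ∑ y : Fin m → Y, (good.filter fun a => τ a = y).card
        ≤ ∑ _y : Fin m → Y, Fintype.card V := Finset.sum_le_sum fun y _ => h5 y
      _ = _ := by rw [Finset.sum_const, Finset.card_univ, smul_eq_mul]
  have h4 : Fintype.card Γ ≤ good.card + m * D.ncard := by
    rw [← Finset.card_univ]
    refine (Finset.card_le_card h1).trans ((Finset.card_union_le _ _).trans ?_)
    refine Nat.add_le_add_left (Finset.card_biUnion_le.trans ?_) _
    rw [Finset.sum_congr rfl fun j _ => h2 j, Finset.sum_const, Finset.card_univ, Fintype.card_fin,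
      smul_eq_mul]
  rw [Nat.card_eq_fintype_card, Nat.card_eq_fintype_card, Nat.card_eq_fintype_card]
  rw [Fintype.card_fun, Fintype.card_fin] at h3
  omega

end count

end Pool.Agent.R401.Burn
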