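import Mathlib

/-!
# A representation in characteristic zero from representations in infinitely many characteristics
-/

set_option autoImplicit false
set_option maxHeartbeats 400000

namespace Pool.Agent.R401.Glue

open Polynomial Matrix

section ideal

variable {J : Type} (k : J → Type) [∀ j, Field (k j)]

/-- families which are zero almost everywhere -/
def almostZero : Ideal (∀ j, k j) where
  carrier := {x | {j | x j ≠ 0}.Finite}
  add_mem' := by
    intro a b ha hb
    refine (ha.union hb).subset fun j hj => ?_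
    by_contra hcon
    simp only [Set.mem_union, not_or, Set.mem_ofPred_eq, not_not] at hcon
    exact hj (by rw [Pi.add_apply, hcon.1, hcon.2, add_zero])
  zero_mem' := by
    have : {j | (0 : ∀ j, k j) j ≠ 0} = ∅ := by
      ext j
      simp
    change Set.Finite {j | (0 : ∀ j, k j) j ≠ 0}
    rw [this]
    exact Set.finite_empty
  smul_mem' := by
    intro c x hx
    refine Set.Finite.subset hx fun j hj => ?_
    intro h
    exact hj (by rw [Pi.smul_apply', h, smul_zero])

variable {k}

theorem mem_almostZero {x : ∀ j, k j} : x ∈ almostZero k ↔ {j | x j ≠ 0}.Finite := Iff.rfl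

theorem mk_eq {x y : ∀ j, k j} :
    Ideal.Quotient.mk (almostZero k) x = Ideal.Quotient.mk (almostZero k) y ↔
      {j | x j ≠ y j}.Finite := by
  rw [Ideal.Quotient.eq, mem_almostZero]
  have : {j | (x - y) j ≠ 0} = {j | x j ≠ y j} := by
    ext j
    simp [sub_eq_zero]
  rw [this]

variable [Infinite J]

instance : Nontrivial ((∀ j, k j) ⧸ almostZero k) := by
  refine ⟨0, 1, fun h => ?_⟩
  have h1 : Ideal.Quotient.mk (almostZero k) 0 = Ideal.Quotient.mk (almostZero k) 1 := h
  rw [mk_eq] at h1
  have : {j | (0 : ∀ j, k j) j ≠ (1 : ∀ j, k j) j} = Set.univ := by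
    ext j
    simp
  rw [this] at h1
  exact Set.infinite_univ h1

end ideal

/-- **Gluing.**  Representations of a group `Γ` with at most finite exceptions having the
characteristic polynomials `φ_j (f γ)`, in infinitely many characteristics, give a representation
over a finite extension of `K`. -/
theorem exists_rep {K O : Type} [Field K] [CommRing O] [IsDomain O] [Algebra O K]
    [IsFractionRing O K] {J : Type} [Infinite J] (k : J → Type) [∀ j, Field (k j)]
    (φ : ∀ j, O →+* k j) (hφ : ∀ x : O, x ≠ 0 → {j | φ j x = 0}.Finite)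
    {Γ : Type} [Group Γ] [Finite Γ] {n : ℕ} (ρ : ∀ j, Γ →* GL (Fin n) (k j)) (f : Γ → O[X])
    (hf : ∀ γ, {j | ((ρ j γ : GL (Fin n) (k j)) : Matrix (Fin n) (Fin n) (k j)).charpoly ≠
      (f γ).map (φ j)}.Finite) :
    ∃ (L : Type) (_ : Field L) (_ : Algebra K L), FiniteDimensional K L ∧
      ∃ R : Γ →* GL (Fin n) L, ∀ γ, ((R γ : GL (Fin n) L) : Matrix (Fin n) (Fin n) L).charpoly =
        (f γ).map ((algebraMap K L).comp (algebraMap O K)) := by
  classical
  -- the ring
  let Q := (∀ j, k j) ⧸ almostZero k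
  let mk : (∀ j, k j) →+* Q := Ideal.Quotient.mk (almostZero k)
  let φ' : O →+* Q := mk.comp (Pi.ringHom φ)
  have hunit : ∀ y : nonZeroDivisors O, IsUnit (φ' y) := by
    intro y
    have hy : (y : O) ≠ 0 := nonZeroDivisors.coe_ne_zero y
    let z : ∀ j, k j := fun j => (φ j y)⁻¹
    refine IsUnit.of_mul_eq_one (mk z) ?_
    change mk (Pi.ringHom φ y) * mk z = 1
    rw [← map_mul, ← map_one mk]
    refine mk_eq.2 ((hφ y hy).subset fun j hj => ?_)
    by_contra hcon
    exact hj (mul_inv_cancel₀ hcon)
  let ψ : K →+* Q := IsLocalization.lift hunit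
  have hψ : ∀ x : O, ψ (algebraMap O K x) = φ' x := fun x => IsLocalization.lift_eq hunit x
  letI : Algebra K Q := ψ.toAlgebra
  have hψ' : ∀ x : O, algebraMap K Q (algebraMap O K x) = φ' x := hψ
  -- the matrices
  let M : Γ → Matrix (Fin n) (Fin n) (∀ j, k j) := fun γ =>
    Matrix.of fun a b => fun j => ((ρ j γ : GL (Fin n) (k j)) : Matrix (Fin n) (Fin n) (k j)) a b
  have hMj : ∀ γ j, (M γ).map (Pi.evalRingHom k j) =
      ((ρ j γ : GL (Fin n) (k j)) : Matrix (Fin n) (Fin n) (k j)) := by
    intro γ j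
    ext a b
    rfl
  have hMmul : ∀ γ δ, M (γ * δ) = M γ * M δ := by
    intro γ δ
    ext a b j
    have h1 : (M (γ * δ)).map (Pi.evalRingHom k j) = (M γ * M δ).map (Pi.evalRingHom k j) := by
      rw [hMj, map_mul, Units.val_mul, Matrix.map_mul, hMj, hMj]
    exact congrFun (congrFun h1 a) b
  have hMone : M 1 = 1 := by
    ext a b j
    have h1 : (M 1).map (Pi.evalRingHom k j) = (1 : Matrix (Fin n) (Fin n) (∀ j, k j)).map
        (Pi.evalRingHom k j) := by
      rw [hMj, map_one, Units.val_one, Matrix.map_one _ (map_zero _) (map_one _)]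
    exact congrFun (congrFun h1 a) b
  have hchar : ∀ γ, (M γ).charpoly.map mk = (f γ).map φ' := by
    intro γ
    ext i
    rw [coeff_map, coeff_map]
    refine mk_eq.2 ((hf γ).subset fun j hj => ?_)
    intro h
    apply hj
    have h1 : (M γ).charpoly.coeff i j = ((M γ).charpoly.map (Pi.evalRingHom k j)).coeff i := by
      rw [coeff_map]
      rfl
    rw [h1, ← Matrix.charpoly_map, hMj, h, coeff_map]
    rfl
  -- the algebra generated by the entries
  let S : Set Q := Set.range fun x : Γ × Fin n × Fin n => mk (M x.1 x.2.1 x.2.2)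
  have hS : S.Finite := Set.finite_range _
  let A : Subalgebra K Q := Algebra.adjoin K S
  have hA : Algebra.FiniteType K A := by
    rw [← Subalgebra.fg_iff_finiteType]
    exact Subalgebra.fg_def.2 ⟨S, hS, rfl⟩
  have hmem : ∀ γ a b, mk (M γ a b) ∈ A := fun γ a b => Algebra.subset_adjoin ⟨(γ, a, b), rfl⟩
  obtain ⟨𝔪, h𝔪⟩ := Ideal.exists_maximal A
  letI : Field (A ⧸ 𝔪) := Ideal.Quotient.field 𝔪
  let N : Γ → Matrix (Fin n) (Fin n) A := fun γ => Matrix.of fun a b => ⟨mk (M γ a b), hmem γ a b⟩
  have hN : ∀ γ, (N γ).map A.val.toRingHom = (M γ).map mk := fun γ => rfl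
  have hinj : Function.Injective (fun X : Matrix (Fin n) (Fin n) A => X.map A.val.toRingHom) :=
    Matrix.map_injective Subtype.val_injective
  have hNmul : ∀ γ δ, N (γ * δ) = N γ * N δ := by
    intro γ δ
    apply hinj
    change (N (γ * δ)).map A.val.toRingHom = (N γ * N δ).map A.val.toRingHom
    rw [Matrix.map_mul, hN, hN, hN, hMmul, Matrix.map_mul]
  have hNone : N 1 = 1 := by
    apply hinj
    change (N 1).map A.val.toRingHom = (1 : Matrix (Fin n) (Fin n) A).map A.val.toRingHom
    rw [hN, hMone, Matrix.map_one _ (map_zero _) (map_one _),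
      Matrix.map_one _ (map_zero _) (map_one _)]
  have hNchar : ∀ γ, (N γ).charpoly = (f γ).map ((algebraMap K A).comp (algebraMap O K)) := by
    intro γ
    apply Polynomial.map_injective A.val.toRingHom Subtype.val_injective
    rw [← Matrix.charpoly_map, hN, Matrix.charpoly_map, hchar, Polynomial.map_map]
    congr 1
    ext x
    exact (hψ' x).symm
  let q : A →+* A ⧸ 𝔪 := Ideal.Quotient.mk 𝔪
  let R₀ : Γ →* Matrix (Fin n) (Fin n) (A ⧸ 𝔪) :=
    { toFun := fun γ => (N γ).map q
      map_one' := by rw [hNone, Matrix.map_one _ (map_zero _) (map_one _)]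
      map_mul' := fun γ δ => by rw [hNmul, Matrix.map_mul] }
  refine ⟨A ⧸ 𝔪, inferInstance, inferInstance, ?_, R₀.toHomUnits, fun γ => ?_⟩
  · have : Algebra.FiniteType K (A ⧸ 𝔪) :=
      Algebra.FiniteType.of_surjective (Ideal.Quotient.mkₐ K 𝔪) (Ideal.Quotient.mkₐ_surjective K 𝔪)
    exact finite_of_finite_type_of_isJacobsonRing K (A ⧸ 𝔪)
  · rw [MonoidHom.coe_toHomUnits]
    change ((N γ).map q).charpoly = _
    rw [Matrix.charpoly_map, hNchar, Polynomial.map_map]
    rfl

end Pool.Agent.R401.Glue
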