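import Pool.Agent.R401.Img
import Pool.Agent.R401.Glue

/-!
# The theorem of Deligne and Serre in any dimension
-/

set_option autoImplicit false
set_option maxHeartbeats 400000

namespace Pool.Agent.R401.DS

open NumberField Filter Topology Pool.Agent.R401.Dens Pool.Agent.R401.RS Pool.Agent.R401.Img
open Pool.Agent.W569.FM Polynomial

/-- `ρ` is unramified at `p` and the geometric Frobenius elements have the characteristic
polynomial `f` -/
structure Att {k : Type*} [Field k] {n : ℕ} (ρ : GF ℚ →* GL (Fin n) k) (p : ℕ) (f : k[X]) :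
    Prop where
  unr : ∀ Q : Ideal (OO ℚ), Q.IsPrime → (p : OO ℚ) ∈ Q → ∀ g : GF ℚ, InInertia Q g → ρ g = 1
  frob : ∀ Q : Ideal (OO ℚ), Q.IsPrime → (p : OO ℚ) ∈ Q → ∀ g : GF ℚ, FrobAt p Q g →
    (mt ρ g⁻¹).charpoly = f

/-- a matrix of finite order prime to the characteristic with characteristic polynomial
`(X - 1) ^ n` is the identity -/
theorem eq_one_of_charpoly {k : Type*} [Field k] {n : ℕ} {M : Matrix (Fin n) (Fin n) k}
    (hM : M.charpoly = (X - 1) ^ n) {e : ℕ} (he : (e : k) ≠ 0) (hMe : M ^ e = 1) : M = 1 := by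
  have h1 : (M - 1) ^ n = 0 := by
    have := Matrix.aeval_self_charpoly M
    rw [hM] at this
    simpa using this
  obtain ⟨h, hh⟩ : (X - 1 : k[X]) ∣ X ^ e - 1 := by
    have := sub_dvd_pow_sub_pow (X : k[X]) 1 e
    rwa [one_pow] at this
  have he0 : 0 < e := by
    rcases Nat.eq_zero_or_pos e with h0 | h0
    · rw [h0, Nat.cast_zero] at he
      exact absurd rfl he
    · exact h0
  have h2 : h.eval 1 ≠ 0 := by
    have h3 := congrArg (fun q => (derivative q).eval 1) hh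
    simp only [derivative_sub, derivative_X_pow, derivative_one, sub_zero, derivative_mul,
      derivative_X, one_mul, eval_add, eval_mul, eval_sub, eval_X, eval_one, sub_self, zero_mul,
      add_zero, eval_natCast, eval_pow, one_pow, mul_one, map_natCast] at h3
    rw [← h3]
    exact he
  have h3 : IsCoprime h (X - 1 : k[X]) := by
    have h4 : IsCoprime (X - C (1 : k)) h := by
      rw [(irreducible_X_sub_C (1 : k)).coprime_iff_not_dvd, dvd_iff_isRoot]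
      exact h2
    rw [map_one] at h4
    exact h4.symm
  obtain ⟨u, v, huv⟩ : IsCoprime h ((X - 1 : k[X]) ^ n) := h3.pow_right
  have h5 := congrArg (aeval M) huv
  rw [map_add, map_mul, map_mul, map_pow, map_sub, aeval_X, map_one, h1, mul_zero, add_zero] at h5
  have h6 := congrArg (aeval M) hh
  rw [map_sub, map_pow, aeval_X, map_one, hMe, sub_self, map_mul, map_sub, aeval_X, map_one] at h6
  have h7 : M - 1 = (M - 1) * (aeval M u * aeval M h) := by rw [h5, mul_one]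
  have h8 : (M - 1) * (aeval M u * aeval M h) = aeval M u * ((M - 1) * aeval M h) := by
    have h9 : Commute (M - 1) (aeval M u) := by
      have : (M - 1) = aeval M (X - 1 : k[X]) := by simp
      rw [this]
      change aeval M (X - 1 : k[X]) * aeval M u = aeval M u * aeval M (X - 1 : k[X])
      rw [← map_mul, ← map_mul, mul_comm]
    rw [← mul_assoc, h9.eq, mul_assoc]
  rw [h8, ← h6, mul_zero] at h7
  exact sub_eq_zero.1 h7

/-- nonzero integers vanish in few characteristics -/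
theorem lt_of_map_eq_zero {K : Type*} [Field K] [NumberField K] {x : 𝓞 K} (hx : x ≠ 0) :
    ∃ M : ℕ, ∀ (ℓ : ℕ) (k : Type) [Field k] [CharP k ℓ] (φ : 𝓞 K →+* k), φ x = 0 → M < ℓ →
      False := by
  have h0 : Ideal.absNorm (Ideal.span {x}) ≠ 0 := by
    rw [ne_eq, Ideal.absNorm_eq_zero_iff, Ideal.span_singleton_eq_bot]
    exact hx
  refine ⟨Ideal.absNorm (Ideal.span {x}), fun ℓ k _ _ φ hφ hℓ => ?_⟩
  obtain ⟨y, hy⟩ := Ideal.mem_span_singleton.1 (Ideal.absNorm_mem (Ideal.span {x}))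
  have h2 : ((Ideal.absNorm (Ideal.span {x}) : ℕ) : k) = 0 := by
    have h3 := congrArg φ hy
    rw [map_mul, hφ, zero_mul, map_natCast] at h3
    exact h3
  rw [CharP.cast_eq_zero_iff k ℓ] at h2
  have h4 := Nat.le_of_dvd (Nat.pos_of_ne_zero h0) h2
  omega

/-- reduction is injective on finite sets of polynomials, for large characteristics -/
theorem injOn_of_finite {K : Type*} [Field K] [NumberField K] {S : Set (𝓞 K)[X]} (hS : S.Finite) :
    ∃ M : ℕ, ∀ (ℓ : ℕ) (k : Type) [Field k] [CharP k ℓ] (φ : 𝓞 K →+* k), M < ℓ →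
      ∀ f ∈ S, ∀ g ∈ S, f.map φ = g.map φ → f = g := by
  classical
  have h1 : ∀ z : (𝓞 K)[X] × (𝓞 K)[X], ∃ M : ℕ, ∀ (ℓ : ℕ) (k : Type) [Field k] [CharP k ℓ]
      (φ : 𝓞 K →+* k), M < ℓ → z.1.map φ = z.2.map φ → z.1 = z.2 := by
    rintro ⟨f, g⟩
    by_cases hfg : f = g
    · exact ⟨0, fun _ _ _ _ _ _ _ => hfg⟩
    · obtain ⟨i, hi⟩ : ∃ i, f.coeff i ≠ g.coeff i := by
        by_contra hcon
        push Not at hcon
        exact hfg (Polynomial.ext hcon)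
      obtain ⟨M, hM⟩ := lt_of_map_eq_zero (sub_ne_zero.2 hi)
      refine ⟨M, fun ℓ k _ _ φ hℓ h => (hM ℓ k φ ?_ hℓ).elim⟩
      have h2 := congrArg (fun q => q.coeff i) h
      simp only [coeff_map] at h2
      rw [map_sub, h2, sub_self]
  choose M hM using h1
  obtain ⟨b, hb⟩ := ((hS.prod hS).image M).bddAbove
  refine ⟨b, fun ℓ k _ _ φ hℓ f hf g hg h => hM (f, g) ℓ k φ ?_ h⟩
  exact lt_of_le_of_lt (hb ⟨(f, g), ⟨hf, hg⟩, rfl⟩) hℓ

/-- **Deligne–Serre in any dimension.** -/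
theorem main {K : Type} [Field K] [NumberField K] {n : ℕ} (hn : 0 < n) {B : Set ℕ} (hB : B.Finite)
    (f : ℕ → (𝓞 K)[X])
    (hRS : ∀ σ : K →+* ℂ, ∃ C : ℝ, ∀ x : ℕ,
      ∑ᶠ p ∈ primesUpTo B x, ‖σ ((f p).coeff (n - 1))‖ ^ 2 ≤ C * Nat.primeCounting x)
    (hmod : ∀ N : ℕ, ∃ ℓ, N < ℓ ∧ ℓ.Prime ∧ ∃ (k : Type) (_ : Field k) (_ : CharP k ℓ)
      (φ : 𝓞 K →+* k) (ρ : GF ℚ →* GL (Fin n) k), IsOpen (ρ.ker : Set (GF ℚ)) ∧ SS ρ ∧
        ∀ p, p.Prime → p ∉ B → p ≠ ℓ → Att ρ p ((f p).map φ)) :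
    ∃ (L : Type) (_ : Field L) (_ : Algebra K L), FiniteDimensional K L ∧
      ∃ R : GF ℚ →* GL (Fin n) L, IsOpen (R.ker : Set (GF ℚ)) ∧
        ∀ p, p.Prime → p ∉ B → Att R p ((f p).map ((algebraMap K L).comp (algebraMap (𝓞 K) K))) := by
  classical
  -- finitely many traces
  set ε : ℝ := 1 / (2 * ((n : ℝ) ^ 2 + 1)) with hε
  have hε0 : 0 < ε := by positivity
  obtain ⟨Y, hY, hYcnt⟩ := exists_finite B (fun p => (f p).coeff (n - 1)) hRS (half_pos hε0)
  set A : ℕ := 2 * (Y.ncard + 1) ^ (n ^ 2) with hA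
  -- the bound for the image
  have hbound : ∀ (ℓ : ℕ) (k : Type) [Field k] [CharP k ℓ] (φ : 𝓞 K →+* k)
      (ρ : GF ℚ →* GL (Fin n) k), ℓ.Prime → n < ℓ → IsOpen (ρ.ker : Set (GF ℚ)) → SS ρ →
      (∀ p, p.Prime → p ∉ B → p ≠ ℓ → Att ρ p ((f p).map φ)) →
      Nat.card (GF ℚ ⧸ ρ.ker) ≤ A := by
    intro ℓ k _ _ φ ρ hℓ hnℓ hker hss hatt
    have hk : ∀ m : ℕ, 0 < m → m ≤ n → (m : k) ≠ 0 := by
      intro m hm hmn h
      rw [CharP.cast_eq_zero_iff k ℓ] at h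
      exact absurd (Nat.le_of_dvd hm h) (by omega)
    have h1 := bound hk ρ hker hss (Y := (fun y => -φ y) '' Y) (hY.image _)
      (B ∪ {ℓ} ∪ {p | p ∉ B ∧ (f p).coeff (n - 1) ∉ Y}) (by
      intro p hp hpX P hP hpP g hg
      simp only [Set.mem_union, not_or, Set.mem_singleton_iff, Set.mem_ofPred_eq, not_and,
        not_not] at hpX
      obtain ⟨⟨hpB, hpℓ⟩, hpY⟩ := hpX
      refine ⟨_, hpY hpB, ?_⟩
      have h2 := (hatt p hp hpB hpℓ).frob P hP.isPrime hpP g hg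
      have : Nonempty (Fin n) := ⟨⟨0, hn⟩⟩
      rw [Matrix.trace_eq_neg_charpoly_coeff, h2, coeff_map, Fintype.card_fin]) (by
      have h7 : Tendsto (fun N : ℕ => ε / 2 * (Nat.primeCounting N : ℝ)) atTop atTop :=
        (tendsto_natCast_atTop_atTop.comp Nat.tendsto_primeCounting).const_mul_atTop (half_pos hε0)
      filter_upwards [h7.eventually_ge_atTop ((B.ncard + 1 : ℕ) : ℝ)] with N hN
      have h8 : cnt (B ∪ {ℓ} ∪ {p | p ∉ B ∧ (f p).coeff (n - 1) ∉ Y}) N ≤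
          (B.ncard + 1) + cnt {p | p ∉ B ∧ (f p).coeff (n - 1) ∉ Y} N := by
        unfold cnt
        have hfin := finite_sub {p | p ∉ B ∧ (f p).coeff (n - 1) ∉ Y} N
        have h9 : ∀ X : Set ℕ, Nat.card {p : ℕ // p ≤ N ∧ p.Prime ∧ p ∈ X} =
            ({p : ℕ | p ≤ N ∧ p.Prime ∧ p ∈ X} : Set ℕ).ncard := fun X => rfl
        rw [h9, h9]
        have h10 : ({p : ℕ | p ≤ N ∧ p.Prime ∧ p ∈ B ∪ {ℓ} ∪ {p | p ∉ B ∧ (f p).coeff (n - 1) ∉ Y}} :
            Set ℕ) ⊆ (B ∪ {ℓ}) ∪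
            {p : ℕ | p ≤ N ∧ p.Prime ∧ p ∈ {p | p ∉ B ∧ (f p).coeff (n - 1) ∉ Y}} := by
          rintro p ⟨h1, h2, h3 | h3⟩
          · exact Or.inl h3
          · exact Or.inr ⟨h1, h2, h3⟩
        refine (Set.ncard_le_ncard h10 ((hB.union (Set.finite_singleton _)).union
          ((Set.finite_Iic N).subset fun _ h => h.1))).trans ?_
        refine (Set.ncard_union_le _ _).trans (Nat.add_le_add_right ?_ _)
        refine (Set.ncard_union_le _ _).trans ?_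
        rw [Set.ncard_singleton]
      have h9 := hYcnt N
      have h10 : (cnt (B ∪ {ℓ} ∪ {p | p ∉ B ∧ (f p).coeff (n - 1) ∉ Y}) N : ℝ) ≤
          ((B.ncard + 1 : ℕ) : ℝ) + cnt {p | p ∉ B ∧ (f p).coeff (n - 1) ∉ Y} N := by
        exact_mod_cast h8
      have h11 : (1 / (2 * ((n : ℝ) ^ 2 + 1))) * (Nat.primeCounting N : ℝ) =
        ε / 2 * Nat.primeCounting N + ε / 2 * Nat.primeCounting N := by rw [← hε]; ring
      rw [h11]
      linarith)
    refine h1.trans ?_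
    rw [hA]
    refine Nat.mul_le_mul_left _ (Nat.pow_le_pow_left (Nat.succ_le_succ ?_) _)
    exact Set.ncard_image_le hY
  -- the data
  choose ℓ hℓN hℓp k ik ic φ ρ hρ hss hatt using hmod
  -- Frobenius elements
  have hFr : ∀ p : ℕ, p.Prime → ∃ (P : Ideal (OO ℚ)) (σ : GF ℚ), P.IsMaximal ∧ (p : OO ℚ) ∈ P ∧
      FrobAt p P σ := by
    intro p hp
    obtain ⟨⟨P, h1, h2, σ, h3⟩, -⟩ := W571.FM.main p hp
    exact ⟨P, σ, h1, h2, h3⟩
  have hcardN : ∀ N, n < ℓ N → Nat.card (GF ℚ ⧸ (ρ N).ker) ≤ A := fun N hN =>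
    @hbound (ℓ N) (k N) (ik N) (ic N) (φ N) (ρ N) (hℓp N) hN (hρ N) (hss N) (hatt N)
  -- finitely many polynomials
  set S : Set (𝓞 K)[X] := {q | ∃ p, p.Prime ∧ p ∉ B ∧ f p = q} with hSdef
  have hSfin : S.Finite := by
    by_contra hinf
    obtain ⟨s, hsS, hs⟩ := (show S.Infinite from hinf).exists_subset_card_eq (A + 1)
    obtain ⟨M, hM⟩ := injOn_of_finite (s.finite_toSet)
    choose! pr hpr hprB hfpr using (fun q (hq : q ∈ s) => (hsS hq : ∃ p, p.Prime ∧ p ∉ B ∧ f p = q))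
    set M' : ℕ := s.sup pr with hM'
    set N : ℕ := max M (max M' n) with hN
    have h1 : M < ℓ N := (le_max_left _ _).trans_lt (hℓN N)
    have h2 : M' < ℓ N := ((le_max_left _ _).trans (le_max_right _ _)).trans_lt (hℓN N)
    have h3 : n < ℓ N := ((le_max_right _ _).trans (le_max_right _ _)).trans_lt (hℓN N)
    choose! P σ hP hpP hσ using hFr
    have : Finite (GF ℚ ⧸ (ρ N).ker) := Subgroup.quotient_finite_of_isOpen _ (hρ N)
    have h4 : Nat.card s ≤ Nat.card (GF ℚ ⧸ (ρ N).ker) := by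
      refine Nat.card_le_card_of_injective
        (fun q : s => (((σ (pr q))⁻¹ : GF ℚ) : GF ℚ ⧸ (ρ N).ker)) ?_
      intro q q' hqq
      have h5 : ∀ q : s, (mt (ρ N) (σ (pr q))⁻¹).charpoly = (q : (𝓞 K)[X]).map (φ N) := by
        intro q
        have h6 : pr q < ℓ N := (Finset.le_sup (f := pr) q.2).trans_lt h2
        have h7 := ((hatt N) (pr q) (hpr q q.2) (hprB q q.2) h6.ne).frob (P (pr q))
          (hP _ (hpr q q.2)).isPrime (hpP _ (hpr q q.2)) _ (hσ _ (hpr q q.2))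
        rw [hfpr q q.2] at h7
        exact h7
      have h6 : mt (ρ N) (σ (pr q))⁻¹ = mt (ρ N) (σ (pr q'))⁻¹ := by
        have h7 := QuotientGroup.eq.1 hqq
        rw [MonoidHom.mem_ker, map_mul, map_inv, inv_mul_eq_one] at h7
        exact congrArg Units.val h7
      have h7 : (q : (𝓞 K)[X]).map (φ N) = (q' : (𝓞 K)[X]).map (φ N) := by
        rw [← h5 q, ← h5 q', h6]
      exact Subtype.ext (@hM (ℓ N) (k N) (ik N) (ic N) (φ N) h1 _ q.2 _ q'.2 h7)
    have h5 := h4.trans (hcardN N h3)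
    rw [Nat.card_eq_fintype_card, Fintype.card_coe, hs] at h5
    omega
  -- reduction is injective
  obtain ⟨M, hM⟩ := injOn_of_finite (hSfin.insert ((X - 1) ^ n : (𝓞 K)[X]))
  set N₀ : ℕ := max M (max n A) with hN₀
  have hlarge : ∀ N, N₀ ≤ N → M < ℓ N ∧ n < ℓ N ∧ A < ℓ N := by
    intro N hN
    have h1 := hℓN N
    have h2 : M ≤ N₀ := le_max_left _ _
    have h3 : n ≤ N₀ := (le_max_left _ _).trans (le_max_right _ _)
    have h4 : A ≤ N₀ := (le_max_right _ _).trans (le_max_right _ _)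
    omega
  have hker : ∀ N N', N₀ ≤ N → N₀ ≤ N' → (ρ N).ker ≤ (ρ N').ker := by
    intro N N' hN hN' g hg
    have hopen : IsOpen (((ρ N).ker ⊓ (ρ N').ker : Subgroup (GF ℚ)) : Set (GF ℚ)) :=
      (hρ N).inter (hρ N')
    obtain ⟨p, P, σ, hp, hpB, hP, hpP, hσ, hgσ⟩ := exists_frob ((ρ N).ker ⊓ (ρ N').ker) hopen
      (B := B ∪ {ℓ N, ℓ N'}) (hB.union (Set.toFinite _)) g
    simp only [Set.mem_union, Set.mem_insert_iff, Set.mem_singleton_iff, not_or] at hpB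
    obtain ⟨hpB, hpN, hpN'⟩ := hpB
    obtain ⟨h1, h2⟩ := Subgroup.mem_inf.1 hgσ
    rw [MonoidHom.mem_ker, map_mul, map_inv, inv_mul_eq_one] at h1 h2
    rw [MonoidHom.mem_ker] at hg ⊢
    rw [hg] at h1
    rw [h2]
    have h3 := (hatt N p hp hpB hpN).frob P hP.isPrime hpP σ hσ
    have h4 := (hatt N' p hp hpB hpN').frob P hP.isPrime hpP σ hσ
    have h5 : mt (ρ N) σ⁻¹ = 1 := by
      unfold Img.mt
      rw [map_inv, ← h1, inv_one, Units.val_one]
    rw [h5, Matrix.charpoly_one, Fintype.card_fin] at h3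
    have h6 : ((X - 1) ^ n : (𝓞 K)[X]).map (φ N) = (f p).map (φ N) := by
      rw [← h3, Polynomial.map_pow, Polynomial.map_sub, map_X, Polynomial.map_one]
    have h7 := @hM (ℓ N) (k N) (ik N) (ic N) (φ N) (hlarge N hN).1 _ (Set.mem_insert _ _) _
      (Set.mem_insert_of_mem _ ⟨p, hp, hpB, rfl⟩) h6
    rw [← h7, Polynomial.map_pow, Polynomial.map_sub, map_X, Polynomial.map_one] at h4
    have : Finite (GF ℚ ⧸ (ρ N').ker) := Subgroup.quotient_finite_of_isOpen _ (hρ N')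
    have h8 : ((ρ N') σ⁻¹) ^ Nat.card (GF ℚ ⧸ (ρ N').ker) = 1 := by
      rw [← map_pow, ← MonoidHom.mem_ker, ← QuotientGroup.eq_one_iff, QuotientGroup.mk_pow]
      exact pow_card_eq_one'
    have h9 : mt (ρ N') σ⁻¹ = 1 := by
      refine eq_one_of_charpoly h4 (e := Nat.card (GF ℚ ⧸ (ρ N').ker)) ?_ ?_
      · intro h
        have h10 := (@CharP.cast_eq_zero_iff (k N') _ (ℓ N') (ic N') _).1 h
        have h11 := Nat.le_of_dvd Nat.card_pos h10
        have h12 := hcardN N' (hlarge N' hN').2.1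
        have h13 := (hlarge N' hN').2.2
        omega
      · have h10 := congrArg Units.val h8
        rw [Units.val_pow_eq_pow_val, Units.val_one] at h10
        exact h10
    have h10 : (ρ N') σ⁻¹ = 1 := Units.ext h9
    rw [map_inv, inv_eq_one] at h10
    exact h10
  -- the finite quotient
  have hkerN₀ : ∀ N, N₀ ≤ N → (ρ N₀).ker ≤ (ρ N).ker := fun N hN => hker N₀ N le_rfl hN
  have hfin : Finite (GF ℚ ⧸ (ρ N₀).ker) := Subgroup.quotient_finite_of_isOpen _ (hρ N₀)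
  have hfrob : ∀ γ : GF ℚ ⧸ (ρ N₀).ker, ∃ (p : ℕ) (P : Ideal (OO ℚ)) (σ : GF ℚ), p.Prime ∧ p ∉ B ∧
      P.IsMaximal ∧ (p : OO ℚ) ∈ P ∧ FrobAt p P σ ∧ ((σ⁻¹ : GF ℚ) : GF ℚ ⧸ (ρ N₀).ker) = γ := by
    intro γ
    induction γ using QuotientGroup.induction_on with
    | H g =>
    obtain ⟨p, P, σ, hp, hpB, hP, hpP, hσ, hgσ⟩ := exists_frob (ρ N₀).ker (hρ N₀) hB g⁻¹
    refine ⟨p, P, σ, hp, hpB, hP, hpP, hσ, ?_⟩
    rw [inv_inv, MonoidHom.mem_ker, map_mul] at hgσ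
    rw [QuotientGroup.eq, inv_inv, MonoidHom.mem_ker, map_mul]
    rw [mul_eq_one_iff_eq_inv] at hgσ ⊢
    rw [hgσ, inv_inv]
  choose pr P σ hpr hprB hP hpP hσ hσγ using hfrob
  let ρ' : ∀ j : ℕ, (GF ℚ ⧸ (ρ N₀).ker) →* GL (Fin n) (k (N₀ + j)) := fun j =>
    QuotientGroup.lift (ρ N₀).ker (ρ (N₀ + j)) (hkerN₀ _ (Nat.le_add_right _ _))
  have hρ' : ∀ j (g : GF ℚ), ρ' j (g : GF ℚ ⧸ (ρ N₀).ker) = ρ (N₀ + j) g := fun j g => rfl
  obtain ⟨L, iL, iA, hfd, R, hR⟩ := Glue.exists_rep (K := K) (O := 𝓞 K) (J := ℕ)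
    (fun j => k (N₀ + j)) (fun j => φ (N₀ + j)) (by
      intro x hx
      obtain ⟨M₁, hM₁⟩ := lt_of_map_eq_zero hx
      refine (Set.finite_Iic M₁).subset fun j hj => ?_
      rw [Set.mem_Iic]
      by_contra hcon
      refine @hM₁ (ℓ (N₀ + j)) (k (N₀ + j)) (ik _) (ic _) (φ (N₀ + j)) hj ?_
      have := hℓN (N₀ + j)
      omega) ρ' (fun γ => f (pr γ)) (by
      intro γ
      refine (Set.finite_Iic (pr γ)).subset fun j hj => ?_
      rw [Set.mem_Iic]
      by_contra hcon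
      apply hj
      have h1 : pr γ ≠ ℓ (N₀ + j) := by
        have := hℓN (N₀ + j)
        omega
      have h2 := (hatt (N₀ + j) (pr γ) (hpr γ) (hprB γ) h1).frob (P γ) (hP γ).isPrime (hpP γ) (σ γ)
        (hσ γ)
      rw [← h2]
      have h3 := hρ' j (σ γ)⁻¹
      rw [hσγ γ] at h3
      rw [h3]
      rfl)
  refine ⟨L, iL, iA, hfd, R.comp (QuotientGroup.mk' (ρ N₀).ker), ?_, ?_⟩
  · refine Subgroup.isOpen_mono (H₁ := (ρ N₀).ker) ?_ (hρ N₀)
    intro g hg
    rw [MonoidHom.mem_ker, MonoidHom.comp_apply, QuotientGroup.mk'_apply,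
      (QuotientGroup.eq_one_iff g).2 hg, map_one]
  · intro p hp hpB
    constructor
    · intro Q hQ hpQ g hg
      have h1 := (hatt (N₀ + p) p hp hpB (by have := hℓN (N₀ + p); omega)).unr Q hQ hpQ g hg
      have h2 : g ∈ (ρ N₀).ker := hker (N₀ + p) N₀ (Nat.le_add_right _ _) le_rfl h1
      rw [MonoidHom.comp_apply, QuotientGroup.mk'_apply, (QuotientGroup.eq_one_iff g).2 h2, map_one]
    · intro Q hQ hpQ g hg
      set γ : GF ℚ ⧸ (ρ N₀).ker := ((g⁻¹ : GF ℚ) : GF ℚ ⧸ (ρ N₀).ker) with hγ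
      have h1 := hR γ
      change ((R γ : GL (Fin n) L) : Matrix (Fin n) (Fin n) L).charpoly = _
      rw [h1]
      congr 1
      set N : ℕ := N₀ + p + pr γ with hN
      have hN₀N : N₀ ≤ N := by omega
      have hlN := hℓN N
      refine @hM (ℓ N) (k N) (ik N) (ic N) (φ N) (hlarge N hN₀N).1 _
        (Set.mem_insert_of_mem _ ⟨pr γ, hpr γ, hprB γ, rfl⟩) _
        (Set.mem_insert_of_mem _ ⟨p, hp, hpB, rfl⟩) ?_
      rw [← (hatt N (pr γ) (hpr γ) (hprB γ) (by omega)).frob (P γ) (hP γ).isPrime (hpP γ) (σ γ)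
        (hσ γ), ← (hatt N p hp hpB (by omega)).frob Q hQ hpQ g hg]
      congr 1
      have h2 : (σ γ)⁻¹⁻¹ * g⁻¹ ∈ (ρ N₀).ker := QuotientGroup.eq.1 (hσγ γ)
      have h3 := hkerN₀ N hN₀N h2
      rw [MonoidHom.mem_ker, map_mul, map_inv, inv_mul_eq_one] at h3
      exact congrArg Units.val h3

end Pool.Agent.R401.DS
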