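import Pool.Agent.Y142.Split

/-!
# Consequences of Chebotarev's theorem over the rationals
-/

set_option autoImplicit false
set_option maxHeartbeats 400000

namespace Pool.Agent.R401.Dens

open NumberField Filter Topology IsDedekindDomain Pool.Agent.W569.FM Pool.Agent.W401.Cheb
open Pool.Agent

/-- the number of primes `p ≤ N` in `X` -/
noncomputable def cnt (X : Set ℕ) (N : ℕ) : ℕ := Nat.card {p : ℕ // p ≤ N ∧ p.Prime ∧ p ∈ X}

theorem finite_sub (X : Set ℕ) (N : ℕ) : Finite {p : ℕ // p ≤ N ∧ p.Prime ∧ p ∈ X} :=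
  Finite.of_injective (fun p => (⟨p.1, Nat.lt_succ_of_le p.2.1⟩ : Fin (N + 1))) fun _ _ h =>
    Subtype.ext (congrArg Fin.val h)

/-- the upper density bound -/
theorem card_le (U : Subgroup (GF ℚ)) [U.Normal] (hU : IsOpen (U : Set (GF ℚ)))
    (C : Set (GF ℚ)) (hC : ∀ σ ∈ C, ∀ τ : GF ℚ, τ * σ * τ⁻¹ ∈ C) (hCU : ∀ σ ∈ C, ∀ u ∈ U, σ * u ∈ C)
    (X : Set ℕ) (hX : ∀ p : ℕ, p.Prime → ∀ P : Ideal (OO ℚ), P.IsMaximal → (p : OO ℚ) ∈ P →
      ∀ g ∈ C, FrobAt p P g → p ∈ X)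
    (ε : ℝ) (hε : ∀ᶠ N : ℕ in atTop, (cnt X N : ℝ) ≤ ε * Nat.primeCounting N) :
    (((QuotientGroup.mk : GF ℚ → GF ℚ ⧸ U) '' C).ncard : ℝ) ≤ ε * Nat.card (GF ℚ ⧸ U) := by
  classical
  have h1 := Y142.chebK ℚ U hU C hC hCU
  have key : ∀ v : HeightOneSpectrum (𝓞 ℚ), (∃ σ ∈ C, IsFrob v σ) →
      v.asIdeal = W571.FM.pl (Ideal.absNorm v.asIdeal) ∧ (Ideal.absNorm v.asIdeal).Prime ∧
        Ideal.absNorm v.asIdeal ∈ X := by
    rintro v ⟨σ, hσC, Q, hQ, hQv, hσ⟩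
    obtain ⟨q, hq, hqQ⟩ := W569.FM.exists_char Q hQ
    have h2 : v.asIdeal = W571.FM.pl q := by
      rw [← hQv]
      exact W571.FM.cm_eq hq hQ hqQ
    have h3 : Ideal.absNorm v.asIdeal = q := by rw [h2, W571.FM.absNorm_pl]
    rw [h3] at hσ ⊢
    exact ⟨h2, hq, hX q hq Q hQ hqQ σ hσC hσ⟩
  have h2 : ∀ᶠ n : ℕ in atTop,
      dens (fun v : HeightOneSpectrum (𝓞 ℚ) => ∃ σ ∈ C, IsFrob v σ) n ≤ ε := by
    filter_upwards [hε, Nat.tendsto_primeCounting.eventually_gt_atTop 0] with n hn hn0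
    unfold dens
    have h3 : Nat.card {v : HeightOneSpectrum (𝓞 ℚ) // Ideal.absNorm v.asIdeal ≤ n ∧
        ∃ σ ∈ C, IsFrob v σ} ≤ cnt X n := by
      have hfin := finite_sub X n
      unfold cnt
      have key2 : ∀ v : {v : HeightOneSpectrum (𝓞 ℚ) // Ideal.absNorm v.asIdeal ≤ n ∧
          ∃ σ ∈ C, IsFrob v σ}, Ideal.absNorm v.1.asIdeal ≤ n ∧
            (Ideal.absNorm v.1.asIdeal).Prime ∧ Ideal.absNorm v.1.asIdeal ∈ X :=
        fun v => ⟨v.2.1, (key v.1 v.2.2).2⟩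
      refine Nat.card_le_card_of_injective (fun v : {v : HeightOneSpectrum (𝓞 ℚ) //
          Ideal.absNorm v.asIdeal ≤ n ∧ ∃ σ ∈ C, IsFrob v σ} =>
        (⟨Ideal.absNorm v.1.asIdeal, key2 v⟩ : {p : ℕ // p ≤ n ∧ p.Prime ∧ p ∈ X})) ?_
      intro v w hvw
      apply Subtype.ext
      apply HeightOneSpectrum.ext
      have h4 : Ideal.absNorm v.1.asIdeal = Ideal.absNorm w.1.asIdeal := congrArg Subtype.val hvw
      rw [(key v.1 v.2.2).1, (key w.1 w.2.2).1, h4]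
    have h4 : (0 : ℝ) < (Nat.primeCounting n : ℝ) := by exact_mod_cast hn0
    rw [div_le_iff₀ h4]
    exact le_trans (by exact_mod_cast h3) hn
  have h3 := le_of_tendsto h1 h2
  have hfin : Finite (GF ℚ ⧸ U) := Subgroup.quotient_finite_of_isOpen U hU
  have h6 : (0 : ℝ) < Nat.card (GF ℚ ⧸ U) := by exact_mod_cast Nat.card_pos
  rwa [div_le_iff₀ h6] at h3

/-- every coset of an open normal subgroup contains a Frobenius element at a prime outside of a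
finite set -/
theorem exists_frob (U : Subgroup (GF ℚ)) [U.Normal] (hU : IsOpen (U : Set (GF ℚ)))
    {B : Set ℕ} (hB : B.Finite) (g : GF ℚ) :
    ∃ (p : ℕ) (P : Ideal (OO ℚ)) (σ : GF ℚ), p.Prime ∧ p ∉ B ∧ P.IsMaximal ∧ (p : OO ℚ) ∈ P ∧
      FrobAt p P σ ∧ g⁻¹ * σ ∈ U := by
  classical
  by_contra hcon
  push Not at hcon
  set C : Set (GF ℚ) := {σ | ∃ τ : GF ℚ, (τ * g * τ⁻¹)⁻¹ * σ ∈ U} with hCdef
  have hC : ∀ σ ∈ C, ∀ τ : GF ℚ, τ * σ * τ⁻¹ ∈ C := by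
    rintro σ ⟨α, hα⟩ τ
    refine ⟨τ * α, ?_⟩
    have h1 : (τ * α * g * (τ * α)⁻¹)⁻¹ * (τ * σ * τ⁻¹) = τ * ((α * g * α⁻¹)⁻¹ * σ) * τ⁻¹ := by
      group
    rw [h1]
    exact Subgroup.Normal.conj_mem inferInstance _ hα τ
  have hCU : ∀ σ ∈ C, ∀ u ∈ U, σ * u ∈ C := by
    rintro σ ⟨α, hα⟩ u hu
    refine ⟨α, ?_⟩
    rw [← mul_assoc]
    exact U.mul_mem hα hu
  have hX : ∀ p : ℕ, p.Prime → ∀ P : Ideal (OO ℚ), P.IsMaximal → (p : OO ℚ) ∈ P →
      ∀ g ∈ C, FrobAt p P g → p ∈ B := by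
    rintro p hp P hP hpP σ ⟨α, hα⟩ hσ
    by_contra hpB
    -- conjugate
    set P' : Ideal (OO ℚ) := P.comap (MulSemiringAction.toRingHom (GF ℚ) (OO ℚ) α) with hP'def
    have hmem : ∀ x, x ∈ P' ↔ α • x ∈ P := fun x => Iff.rfl
    have hP' : P'.IsMaximal := by
      apply Ideal.comap_isMaximal_of_surjective
      intro y
      exact ⟨α⁻¹ • y, by
        change α • α⁻¹ • y = y
        rw [smul_inv_smul]⟩
    have hpP' : (p : OO ℚ) ∈ P' := by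
      rw [hmem]
      have : α • (p : OO ℚ) = (p : OO ℚ) := map_natCast (MulSemiringAction.toRingHom (GF ℚ) (OO ℚ) α) p
      rw [this]
      exact hpP
    have hF : FrobAt p P' (α⁻¹ * σ * α) := by
      intro x
      rw [hmem, smul_sub, smul_pow', smul_smul]
      have h1 := hσ (α • x)
      rw [smul_smul] at h1
      have h2 : α * (α⁻¹ * σ * α) = σ * α := by group
      rw [h2]
      exact h1
    refine hcon p P' (α⁻¹ * σ * α) hp hpB hP' hpP' hF ?_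
    have h1 : g⁻¹ * (α⁻¹ * σ * α) = α⁻¹ * ((α * g * α⁻¹)⁻¹ * σ) * α⁻¹⁻¹ := by group
    rw [h1]
    exact Subgroup.Normal.conj_mem inferInstance _ hα α⁻¹
  obtain ⟨b, hb⟩ := hB.bddAbove
  have hfin : Finite (GF ℚ ⧸ U) := Subgroup.quotient_finite_of_isOpen U hU
  have h6 : (0 : ℝ) < Nat.card (GF ℚ ⧸ U) := by exact_mod_cast Nat.card_pos
  set ε : ℝ := 1 / (2 * Nat.card (GF ℚ ⧸ U)) with hε
  have hε0 : 0 < ε := by positivity
  have hle := card_le U hU C hC hCU B hX ε (by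
    have h7 : Tendsto (fun n : ℕ => ε * (Nat.primeCounting n : ℝ)) atTop atTop :=
      (tendsto_natCast_atTop_atTop.comp Nat.tendsto_primeCounting).const_mul_atTop hε0
    filter_upwards [h7.eventually_ge_atTop ((b + 1 : ℕ) : ℝ)] with n hn
    refine le_trans ?_ hn
    have h8 : cnt B n ≤ Nat.card (Fin (b + 1)) := by
      unfold cnt
      refine Nat.card_le_card_of_injective (fun p : {p : ℕ // p ≤ n ∧ p.Prime ∧ p ∈ B} =>
        (⟨p.1, Nat.lt_succ_of_le (hb p.2.2.2)⟩ : Fin (b + 1))) ?_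
      intro p q hpq
      exact Subtype.ext (congrArg Fin.val hpq)
    rw [Nat.card_fin] at h8
    exact_mod_cast h8)
  have h5 : 0 < ((QuotientGroup.mk : GF ℚ → GF ℚ ⧸ U) '' C).ncard := by
    rw [Set.ncard_pos (Set.toFinite _)]
    refine ⟨_, g, ⟨1, ?_⟩, rfl⟩
    have : (1 * g * 1⁻¹)⁻¹ * g = 1 := by group
    rw [this]
    exact U.one_mem
  have h9 : ε * Nat.card (GF ℚ ⧸ U) = 1 / 2 := by
    rw [hε]
    field_simp
  rw [h9] at hle
  have h10 : (1 : ℝ) ≤ (((QuotientGroup.mk : GF ℚ → GF ℚ ⧸ U) '' C).ncard : ℝ) := by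
    exact_mod_cast h5
  linarith

end Pool.Agent.R401.Dens
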