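import Mathlib

/-!
# Powers of a prime number which are `N`-th powers in a number field
-/

set_option autoImplicit false

namespace Pool.Agent.R401.Ram

open NumberField IsDedekindDomain Polynomial

/-- a prime number which does not divide the discriminant is not in the square of a prime ideal -/
theorem not_mem_sq {K : Type} [Field K] [NumberField K] {p : ℕ} (hp : p.Prime)
    (hd : ¬ (p : ℤ) ∣ NumberField.discr K) (P : Ideal (𝓞 K)) (hP : P.IsMaximal)
    (hpP : (p : 𝓞 K) ∈ P) : (p : 𝓞 K) ∉ P ^ 2 := by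
  intro h
  have hpm : (Ideal.span {(p : ℤ)}).IsMaximal :=
    PrincipalIdealRing.isMaximal_of_irreducible (Nat.prime_iff_prime_int.1 hp).irreducible
  have hp0 : Ideal.span {(p : ℤ)} ≠ ⊥ := by
    rw [Ne, Ideal.span_singleton_eq_bot]
    exact_mod_cast hp.ne_zero
  have h1 : P ^ 2 ∣ (Ideal.span {(p : ℤ)}).map (algebraMap ℤ (𝓞 K)) := by
    rw [Ideal.dvd_iff_le, Ideal.map_span, Set.image_singleton, Ideal.span_singleton_le_iff_mem]
    simpa using h
  have h2 := pow_sub_one_dvd_differentIdeal (A := ℤ) (B := 𝓞 K) P 2 hp0 h1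
  rw [show 2 - 1 = 1 from rfl, pow_one, Ideal.dvd_iff_le] at h2
  have h3 : ((NumberField.discr K : ℤ) : 𝓞 K) ∈ P :=
    h2 (NumberField.discr_mem_differentIdeal K (𝓞 K))
  have hcop : IsCoprime (p : ℤ) (NumberField.discr K) :=
    ((Nat.prime_iff_prime_int.1 hp).irreducible.coprime_iff_not_dvd).2 hd
  obtain ⟨u, v, huv⟩ := hcop
  apply hP.ne_top
  rw [Ideal.eq_top_iff_one]
  have h4 := congrArg (fun z : ℤ => (z : 𝓞 K)) huv
  simp only [Int.cast_add, Int.cast_mul, Int.cast_natCast, Int.cast_one] at h4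
  rw [← h4]
  exact P.add_mem (P.mul_mem_left _ hpP) (P.mul_mem_left _ h3)

theorem dvd_of_pow {K : Type} [Field K] [NumberField K] {p : ℕ} (hp : p.Prime)
    (hd : ¬ (p : ℤ) ∣ NumberField.discr K) {x : K} {N : ℕ} (hN : 0 < N) {a : ℤ}
    (h : x ^ N = (p : K) ^ a) : (N : ℤ) ∣ a := by
  have hpu : ¬ IsUnit ((p : ℕ) : 𝓞 K) := by
    intro hu
    obtain ⟨u, hu⟩ := hu.exists_right_inv
    have h1 : ((u : 𝓞 K) : K) = algebraMap ℚ K ((p : ℚ)⁻¹) := by
      have h2 := congrArg (algebraMap (𝓞 K) K) hu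
      rw [map_mul, map_one, map_natCast (algebraMap (𝓞 K) K)] at h2
      rw [map_inv₀, map_natCast (algebraMap ℚ K)]
      exact eq_inv_of_mul_eq_one_right h2
    have h2 : IsIntegral ℤ ((p : ℚ)⁻¹) := by
      have h3 : IsIntegral ℤ ((u : 𝓞 K) : K) := u.2
      rw [h1] at h3
      exact (isIntegral_algebraMap_iff (algebraMap ℚ K).injective).1 h3
    obtain ⟨z, hz⟩ := (IsIntegrallyClosed.isIntegral_iff (R := ℤ) (K := ℚ)).1 h2
    have hp0 : (p : ℚ) ≠ 0 := by exact_mod_cast hp.ne_zero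
    have h3 : (z : ℚ) * p = 1 := by
      have h4 : (z : ℚ) = (p : ℚ)⁻¹ := hz
      rw [h4, inv_mul_cancel₀ hp0]
    have h4 : z * p = 1 := by exact_mod_cast h3
    have h5 : (p : ℤ) ∣ 1 := ⟨z, by rw [← h4, mul_comm]⟩
    exact hp.one_lt.ne' (by exact_mod_cast Int.eq_one_of_dvd_one (by positivity) h5)
  obtain ⟨P, hP, hpP⟩ := exists_max_ideal_of_mem_nonunits (a := ((p : ℕ) : 𝓞 K)) hpu
  have hP0 : P ≠ ⊥ := by
    rintro rfl
    rw [Ideal.mem_bot] at hpP
    exact hp.ne_zero (by exact_mod_cast hpP)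
  let v : HeightOneSpectrum (𝓞 K) := ⟨P, hP.isPrime, hP0⟩
  have h1 : v.intValuation ((p : ℕ) : 𝓞 K) = WithZero.exp (-1 : ℤ) := by
    have h2 : v.intValuation ((p : ℕ) : 𝓞 K) ≤ WithZero.exp (-((1 : ℕ) : ℤ)) := by
      rw [v.intValuation_le_pow_iff_mem, pow_one]
      exact hpP
    have h3 : ¬ v.intValuation ((p : ℕ) : 𝓞 K) ≤ WithZero.exp (-((2 : ℕ) : ℤ)) := by
      rw [v.intValuation_le_pow_iff_mem]
      exact not_mem_sq hp hd P hP hpP
    have hne : v.intValuation ((p : ℕ) : 𝓞 K) ≠ 0 := by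
      apply v.intValuation_ne_zero
      exact_mod_cast hp.ne_zero
    obtain ⟨m, hm⟩ : ∃ m : ℤ, v.intValuation ((p : ℕ) : 𝓞 K) = WithZero.exp m :=
      ⟨WithZero.log (v.intValuation ((p : ℕ) : 𝓞 K)), (WithZero.exp_log hne).symm⟩
    rw [hm] at h2 h3 ⊢
    rw [WithZero.exp_le_exp] at h2 h3
    congr 1
    push_cast at h2 h3
    omega
  have h2 : v.valuation K ((p : ℕ) : K) = WithZero.exp (-1 : ℤ) := by
    have h3 := v.valuation_of_algebraMap (K := K) ((p : ℕ) : 𝓞 K)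
    have h4 : v.valuation K ((p : ℕ) : K) =
        v.valuation K (algebraMap (𝓞 K) K ((p : ℕ) : 𝓞 K)) := by
      rw [map_natCast (algebraMap (𝓞 K) K) p]
    exact h4.trans (h3.trans h1)
  have hx : x ≠ 0 := by
    rintro rfl
    rw [zero_pow hN.ne'] at h
    exact zpow_ne_zero a (by exact_mod_cast hp.ne_zero) h.symm
  have hvx : v.valuation K x ≠ 0 := (Valuation.ne_zero_iff _).2 hx
  have h3 := congrArg (v.valuation K) h
  rw [map_pow, map_zpow₀, h2, ← WithZero.exp_log hvx, ← WithZero.exp_nsmul, ← WithZero.exp_zsmul,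
    WithZero.exp_inj] at h3
  refine ⟨-(WithZero.log (v.valuation K x)), ?_⟩
  rw [nsmul_eq_mul, smul_eq_mul] at h3
  linarith

end Pool.Agent.R401.Ram
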