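import Pool.Agent.R401.DS
import Pool.Agent.R401.Avg

/-!
# A continuous semisimple representation with few traces of Frobenius elements has finite image
-/

set_option autoImplicit false
set_option maxHeartbeats 400000

namespace Pool.Agent.R401.One

open NumberField Filter Topology Pool.Agent.R401.Dens Pool.Agent.R401.RS Pool.Agent.R401.Img
open Pool.Agent.W569.FM Module

variable {Ω : Type} [NormedField Ω] [IsUltrametricDist Ω] {n : ℕ}

/-- all entries are small -/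
def Le (M : Matrix (Fin n) (Fin n) Ω) (δ : ℝ) : Prop := ∀ a b, ‖M a b‖ ≤ δ

omit [IsUltrametricDist Ω] in
theorem Le.mono {M : Matrix (Fin n) (Fin n) Ω} {δ δ' : ℝ} (h : Le M δ) (hδ : δ ≤ δ') : Le M δ' :=
  fun a b => (h a b).trans hδ

theorem Le.mul {M N : Matrix (Fin n) (Fin n) Ω} {δ C : ℝ} (h : Le M δ) (hN : Le N C) (hδ : 0 ≤ δ)
    (hC : 0 ≤ C) : Le (M * N) (δ * C) := by
  intro a b
  rw [Matrix.mul_apply]
  refine IsUltrametricDist.norm_sum_le_of_forall_le_of_nonneg (mul_nonneg hδ hC) fun c _ => ?_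
  rw [norm_mul]
  exact mul_le_mul (h a c) (hN c b) (norm_nonneg _) hδ

theorem Le.add {M N : Matrix (Fin n) (Fin n) Ω} {δ : ℝ} (h : Le M δ) (hN : Le N δ) :
    Le (M + N) δ := by
  intro a b
  rw [Matrix.add_apply]
  exact (IsUltrametricDist.norm_add_le_max _ _).trans (max_le (h a b) (hN a b))

omit [IsUltrametricDist Ω] in
theorem Le.neg {M : Matrix (Fin n) (Fin n) Ω} {δ : ℝ} (h : Le M δ) : Le (-M) δ := by
  intro a b
  rw [Matrix.neg_apply, norm_neg]
  exact h a b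

theorem Le.trace {M : Matrix (Fin n) (Fin n) Ω} {δ : ℝ} (h : Le M δ) (hδ : 0 ≤ δ) :
    ‖M.trace‖ ≤ δ :=
  IsUltrametricDist.norm_sum_le_of_forall_le_of_nonneg hδ fun c _ => h c c

omit [IsUltrametricDist Ω] in
theorem Le.zero {δ : ℝ} (hδ : 0 ≤ δ) : Le (0 : Matrix (Fin n) (Fin n) Ω) δ := by
  intro a b
  rw [Matrix.zero_apply, norm_zero]
  exact hδ

/-- the subgroup of the elements acting almost trivially -/
def VV (ρ : GF ℚ →* GL (Fin n) Ω) (δ : NNReal) : Subgroup (GF ℚ) where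
  carrier := {g | ∀ h, Le (mt ρ (g * h) - mt ρ h) δ}
  mul_mem' := by
    intro a b ha hb h
    have h1 := (ha (b * h)).add (hb h)
    rw [sub_add_sub_cancel, ← mul_assoc] at h1
    exact h1
  one_mem' := by
    intro h
    rw [one_mul, sub_self]
    exact Le.zero δ.2
  inv_mem' := by
    intro a ha h
    have h1 := (ha (a⁻¹ * h)).neg
    rw [neg_sub, mul_inv_cancel_left] at h1
    exact h1

theorem mem_VV {ρ : GF ℚ →* GL (Fin n) Ω} {δ : NNReal} {g : GF ℚ} :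
    g ∈ VV ρ δ ↔ ∀ h, Le (mt ρ (g * h) - mt ρ h) δ := Iff.rfl

theorem VV_mono {ρ : GF ℚ →* GL (Fin n) Ω} {δ δ' : NNReal} (h : δ ≤ δ') : VV ρ δ ≤ VV ρ δ' :=
  fun _ hg x => (hg x).mono h

variable (ρ : GF ℚ →* GL (Fin n) Ω) (hρ : Continuous ρ)

include hρ

omit [IsUltrametricDist Ω] in
theorem continuous_entry (a b : Fin n) : Continuous fun g => mt ρ g a b := by
  have h1 : Continuous fun g => mt ρ g := Units.continuous_val.comp hρ
  exact h1.matrix_elem a b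

omit [IsUltrametricDist Ω] in
theorem exists_bound : ∃ C : ℝ, 0 < C ∧ ∀ g, Le (mt ρ g) C := by
  have h1 : ∀ x : Fin n × Fin n, ∃ C : ℝ, ∀ g : GF ℚ, ‖mt ρ g x.1 x.2‖ ≤ C := by
    intro x
    obtain ⟨C, hC⟩ := (isCompact_range (continuous_entry ρ hρ x.1 x.2).norm).bddAbove
    exact ⟨C, fun g => hC ⟨g, rfl⟩⟩
  choose C hC using h1
  refine ⟨∑ x, |C x| + 1, ?_, fun g a b => ?_⟩
  · have : 0 ≤ ∑ x, |C x| := Finset.sum_nonneg fun _ _ => abs_nonneg _
    linarith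
  · have h2 : |C (a, b)| ≤ ∑ x, |C x| :=
      Finset.single_le_sum (f := fun x => |C x|) (fun _ _ => abs_nonneg _) (Finset.mem_univ _)
    have h3 := hC (a, b) g
    have h4 := le_abs_self (C (a, b))
    linarith

theorem isOpen_VV {δ : NNReal} (hδ : 0 < δ) : IsOpen (VV ρ δ : Set (GF ℚ)) := by
  obtain ⟨C, hC0, hC⟩ := exists_bound ρ hρ
  apply Subgroup.isOpen_of_mem_nhds (VV ρ δ) (g := 1)
  have h1 : ∀ᶠ g in 𝓝 (1 : GF ℚ), ∀ a b, ‖(mt ρ g - 1) a b‖ < δ / C := by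
    rw [eventually_all]
    intro a
    rw [eventually_all]
    intro b
    have h2 : Continuous fun g => ‖(mt ρ g - 1) a b‖ := by
      have h3 := ((continuous_entry ρ hρ a b).sub
        (continuous_const (y := (1 : Matrix (Fin n) (Fin n) Ω) a b))).norm
      exact h3
    have h3 : ‖(mt ρ 1 - 1) a b‖ < δ / C := by
      have h4 : mt ρ 1 = 1 := by
        unfold Img.mt
        rw [map_one, Units.val_one]
      rw [h4, sub_self, Matrix.zero_apply, norm_zero]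
      have : (0 : ℝ) < δ := hδ
      positivity
    exact h2.continuousAt.eventually_lt continuousAt_const h3
  filter_upwards [h1] with g hg h
  have h2 : mt ρ (g * h) - mt ρ h = (mt ρ g - 1) * mt ρ h := by
    rw [mt_mul, sub_mul, one_mul]
  rw [h2]
  have h3 : Le (mt ρ g - 1) (δ / C) := fun a b => (hg a b).le
  have h4 := h3.mul (hC h) (by positivity) hC0.le
  rwa [div_mul_cancel₀ _ hC0.ne'] at h4

omit hρ in
/-- quantitative separation by traces -/
theorem exists_const [CharZero Ω] (hss : SS ρ) : ∃ (m : ℕ) (h : Fin m → GF ℚ) (C : ℝ),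
    m ≤ n ^ 2 ∧ 0 < C ∧ ∀ (a b : GF ℚ) (δ : ℝ), 0 ≤ δ →
      (∀ j, ‖(mt ρ (a * h j)).trace - (mt ρ (b * h j)).trace‖ ≤ δ) →
      Le (mt ρ a - mt ρ b) (δ * C) := by
  classical
  have hk' : ∀ m : ℕ, 0 < m → m ≤ finrank Ω (Fin n → Ω) → (m : Ω) ≠ 0 :=
    fun m h1 _ => Nat.cast_ne_zero.2 h1.ne'
  obtain ⟨m, h, hm, hspan, -⟩ := Burn.exists_family hk' (act ρ) (fun W hW => hss.act W hW)
  rw [finrank_fin_fun] at hm
  let 𝒜 : Submodule Ω (Matrix (Fin n) (Fin n) Ω) := Submodule.span Ω (Set.range (mt ρ))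
  let Φ : 𝒜 →ₗ[Ω] (Fin m → Ω) :=
    { toFun := fun x j => ((x : Matrix (Fin n) (Fin n) Ω) * mt ρ (h j)).trace
      map_add' := fun x y => by
        funext j
        rw [Pi.add_apply, Submodule.coe_add, add_mul, Matrix.trace_add]
      map_smul' := fun c x => by
        funext j
        rw [Pi.smul_apply, Submodule.coe_smul, smul_mul_assoc, Matrix.trace_smul, RingHom.id_apply] }
  have hΦ : ∀ (x : 𝒜) j, Φ x j = ((x : Matrix (Fin n) (Fin n) Ω) * mt ρ (h j)).trace :=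
    fun _ _ => rfl
  have hinj : LinearMap.ker Φ = ⊥ := by
    rw [LinearMap.ker_eq_bot']
    intro x hx
    have h1 : Matrix.toLinAlgEquiv' (x : Matrix (Fin n) (Fin n) Ω) ∈
        Submodule.span Ω (Set.range (act ρ)) := by
      have h2 : ∀ y ∈ Submodule.span Ω (Set.range (mt ρ)), (Matrix.toLinAlgEquiv' y :
          Module.End Ω (Fin n → Ω)) ∈ Submodule.span Ω (Set.range (act ρ)) := by
        intro y hy
        induction hy using Submodule.span_induction with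
        | mem y hy =>
          obtain ⟨g, rfl⟩ := hy
          exact Submodule.subset_span ⟨g, rfl⟩
        | zero =>
          rw [map_zero]
          exact Submodule.zero_mem _
        | add a b _ _ ha hb =>
          rw [map_add]
          exact Submodule.add_mem _ ha hb
        | smul c a _ ha =>
          rw [map_smul]
          exact Submodule.smul_mem _ _ ha
      exact h2 x x.2
    have htr : ∀ j, LinearMap.trace Ω _ (Matrix.toLinAlgEquiv' (x : Matrix (Fin n) (Fin n) Ω) *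
        act ρ (h j)) = 0 := by
      intro j
      have h2 := congrFun hx j
      rw [hΦ, Pi.zero_apply] at h2
      rw [act_apply, ← map_mul]
      exact (Matrix.trace_toLin'_eq _).trans h2
    have h2 := Burn.eq_zero_of_trace hk' (act ρ) (fun W hW => hss.act W hW) h1 (by
      intro g
      have h3 : act ρ g ∈ Submodule.span Ω (Set.range fun j => act ρ (h j)) := by
        rw [hspan]
        exact Submodule.subset_span ⟨g, rfl⟩
      generalize act ρ g = z at h3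
      induction h3 using Submodule.span_induction with
      | mem y hy =>
        obtain ⟨j, rfl⟩ := hy
        exact htr j
      | zero => rw [mul_zero, map_zero]
      | add a b _ _ ha hb => rw [mul_add, map_add, ha, hb, add_zero]
      | smul c a _ ha => rw [mul_smul_comm, map_smul, ha, smul_zero])
    have h3 : (x : Matrix (Fin n) (Fin n) Ω) = 0 := by
      rw [← map_zero (Matrix.toLinAlgEquiv' : Matrix (Fin n) (Fin n) Ω ≃ₐ[Ω] _)] at h2
      exact Matrix.toLinAlgEquiv'.injective h2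
    exact Subtype.ext h3
  obtain ⟨Ψ, hΨ⟩ := Φ.exists_leftInverse_of_injective hinj
  have hC : ∃ C : ℝ, 0 < C ∧ ∀ j, Le ((Ψ (Pi.single j 1) : 𝒜) : Matrix (Fin n) (Fin n) Ω) C := by
    refine ⟨∑ x : Fin m × Fin n × Fin n,
      ‖((Ψ (Pi.single x.1 1) : 𝒜) : Matrix (Fin n) (Fin n) Ω) x.2.1 x.2.2‖ + 1, ?_, fun j a b => ?_⟩
    · have : 0 ≤ ∑ x : Fin m × Fin n × Fin n,
          ‖((Ψ (Pi.single x.1 1) : 𝒜) : Matrix (Fin n) (Fin n) Ω) x.2.1 x.2.2‖ :=
        Finset.sum_nonneg fun _ _ => norm_nonneg _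
      linarith
    · have := Finset.single_le_sum (f := fun x : Fin m × Fin n × Fin n =>
        ‖((Ψ (Pi.single x.1 1) : 𝒜) : Matrix (Fin n) (Fin n) Ω) x.2.1 x.2.2‖)
        (fun _ _ => norm_nonneg _) (Finset.mem_univ (j, a, b))
      dsimp only at this
      linarith
  obtain ⟨C, hC0, hC⟩ := hC
  refine ⟨m, h, C, hm, hC0, fun a b δ hδ hab => ?_⟩
  let x : 𝒜 := ⟨mt ρ a - mt ρ b, 𝒜.sub_mem (Submodule.subset_span ⟨a, rfl⟩)
    (Submodule.subset_span ⟨b, rfl⟩)⟩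
  have hx : ∀ j, ‖Φ x j‖ ≤ δ := by
    intro j
    rw [hΦ]
    change ‖((mt ρ a - mt ρ b) * mt ρ (h j)).trace‖ ≤ δ
    rw [sub_mul, Matrix.trace_sub, ← mt_mul, ← mt_mul]
    exact hab j
  have h1 : x = ∑ j, Φ x j • Ψ (Pi.single j 1) := by
    have h2 : Ψ (Φ x) = x := by
      have := congrArg (fun F => F x) hΨ
      exact this
    conv_lhs => rw [← h2, ← Finset.univ_sum_single (Φ x)]
    rw [map_sum]
    refine Finset.sum_congr rfl fun j _ => ?_
    rw [← map_smul]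
    congr 1
    funext i
    rw [Pi.smul_apply, smul_eq_mul]
    by_cases hij : i = j
    · subst hij
      rw [Pi.single_eq_same, Pi.single_eq_same, mul_one]
    · rw [Pi.single_eq_of_ne hij, Pi.single_eq_of_ne hij, mul_zero]
  intro c d
  have h2 : (mt ρ a - mt ρ b) c d = ∑ j, Φ x j *
      ((Ψ (Pi.single j 1) : 𝒜) : Matrix (Fin n) (Fin n) Ω) c d := by
    have h3 : (x : Matrix (Fin n) (Fin n) Ω) c d =
        ((∑ j, Φ x j • Ψ (Pi.single j 1) : 𝒜) : Matrix (Fin n) (Fin n) Ω) c d := by rw [← h1]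
    rw [Submodule.coe_sum, Matrix.sum_apply] at h3
    exact h3
  rw [h2]
  refine IsUltrametricDist.norm_sum_le_of_forall_le_of_nonneg (mul_nonneg hδ hC0.le) fun j _ => ?_
  rw [norm_mul]
  exact mul_le_mul (hx j) (hC j c d) (norm_nonneg _) hδ

/-- the image modulo small elements is bounded -/
theorem index_VV [CharZero Ω] (hss : SS ρ) {Y : Set Ω} (hY : Y.Finite) (X : Set ℕ)
    (hX : ∀ p : ℕ, p.Prime → p ∉ X → ∀ P : Ideal (OO ℚ), P.IsMaximal → (p : OO ℚ) ∈ P →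
      ∀ g, FrobAt p P g → (mt ρ g⁻¹).trace ∈ Y)
    (hε : ∀ᶠ N : ℕ in atTop, (cnt X N : ℝ) ≤ 1 / (2 * (n ^ 2 + 1)) * Nat.primeCounting N)
    {δ₂ : NNReal} (hδ₂ : 0 < δ₂) : (VV ρ δ₂).index ≤ 2 * (Y.ncard + 1) ^ (n ^ 2) := by
  classical
  obtain ⟨C, hC0, hC⟩ := exists_bound ρ hρ
  obtain ⟨m, h, C', hm, hC'0, hsep⟩ := exists_const ρ hss
  obtain ⟨E, hE⟩ : ∃ E : NNReal, (E : ℝ) = C' * C := ⟨⟨C' * C, by positivity⟩, rfl⟩
  set δ : NNReal := min δ₂ (δ₂ / E) with hδ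
  have hCC : (0 : NNReal) < E := by
    have : (0 : ℝ) < E := by
      rw [hE]
      positivity
    exact_mod_cast this
  have hδ0 : 0 < δ := lt_min hδ₂ (div_pos hδ₂ hCC)
  have hδ1 : δ ≤ δ₂ := min_le_left _ _
  have hδ2 : (δ : ℝ) * C' * C ≤ δ₂ := by
    have h1 : δ ≤ δ₂ / E := min_le_right _ _
    rw [le_div_iff₀ hCC] at h1
    have h2 : ((δ * E : NNReal) : ℝ) ≤ δ₂ := by exact_mod_cast h1
    rw [NNReal.coe_mul, hE, ← mul_assoc] at h2
    exact h2
  -- the open normal subgroup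
  set U : Subgroup (GF ℚ) := (VV ρ δ).normalCore with hUdef
  have hVo := isOpen_VV ρ hρ hδ0
  have hVfin : Finite (GF ℚ ⧸ VV ρ δ) := Subgroup.quotient_finite_of_isOpen _ hVo
  have hVfi : (VV ρ δ).FiniteIndex := Subgroup.finiteIndex_of_finite_quotient
  have hU : IsOpen (U : Set (GF ℚ)) :=
    Subgroup.isOpen_of_isClosed_of_finiteIndex _
      ((VV ρ δ).normalCore_isClosed ((VV ρ δ).isClosed_of_isOpen hVo))
  have hUV : U ≤ VV ρ δ := Subgroup.normalCore_le _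
  have hUV₂ : U ≤ VV ρ δ₂ := hUV.trans (VV_mono hδ1)
  have hfin : Finite (GF ℚ ⧸ U) := Subgroup.quotient_finite_of_isOpen _ hU
  have hYf : Finite Y := hY
  -- the bad set
  set B : Set (GF ℚ) := {σ | ∀ u ∈ U, (mt ρ (σ * u)⁻¹).trace ∉ Y} with hBdef
  have hB : ∀ σ ∈ B, ∀ τ : GF ℚ, τ * σ * τ⁻¹ ∈ B := by
    intro σ hσ τ u hu
    have h1 : (mt ρ (τ * σ * τ⁻¹ * u)⁻¹).trace = (mt ρ (σ * (τ⁻¹ * u * τ⁻¹⁻¹))⁻¹).trace := by
      have h2 : (τ * σ * τ⁻¹ * u)⁻¹ = τ * ((σ * (τ⁻¹ * u * τ⁻¹⁻¹))⁻¹ * τ⁻¹) := by group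
      rw [h2, mt_mul, Matrix.trace_mul_comm, ← mt_mul, inv_mul_cancel_right]
    rw [h1]
    exact hσ _ (Subgroup.Normal.conj_mem inferInstance u hu τ⁻¹)
  have hBU : ∀ σ ∈ B, ∀ u ∈ U, σ * u ∈ B := by
    intro σ hσ u hu u' hu'
    rw [mul_assoc]
    exact hσ _ (U.mul_mem hu hu')
  have hle := card_le U hU B hB hBU X (by
    intro p hp P hP hpP g hg hgF
    by_contra hcon
    have h1 := hg 1 U.one_mem
    rw [mul_one] at h1
    exact h1 (hX p hp hcon P hP hpP g hgF)) _ hε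
  set D : Set (GF ℚ ⧸ U) := (QuotientGroup.mk : GF ℚ → GF ℚ ⧸ U) '' B with hD
  let good : (GF ℚ ⧸ U) → Prop := fun c => ∃ s : GF ℚ, (s : GF ℚ ⧸ U) = c ∧ (mt ρ s⁻¹).trace ∈ Y
  have hgood : ∀ a : GF ℚ, (a : GF ℚ ⧸ U) ∉ D → good (a : GF ℚ ⧸ U) := by
    intro a ha
    by_contra hcon
    apply ha
    refine ⟨a, fun u hu hY' => hcon ⟨a * u, ?_, hY'⟩, rfl⟩
    rw [QuotientGroup.eq, mul_inv_rev, inv_mul_cancel_right]
    exact U.inv_mem hu
  set τ : (GF ℚ ⧸ U) → Fin m → Option Y := fun a j =>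
    if hh : good (a * ((h j)⁻¹ : GF ℚ)) then some ⟨_, hh.choose_spec.2⟩ else none with hτ
  have hcount := Burn.count ((VV ρ δ₂).map (QuotientGroup.mk' U)) D
    (fun j => (((h j)⁻¹ : GF ℚ) : GF ℚ ⧸ U)) τ (by
    intro a b ha hb hab
    induction a using QuotientGroup.induction_on with
    | H a =>
    induction b using QuotientGroup.induction_on with
    | H b =>
    refine ⟨a⁻¹ * b, ?_, rfl⟩
    have hnear : ∀ (s c : GF ℚ) (j : Fin m), (s : GF ℚ ⧸ U) = ((c * (h j)⁻¹ : GF ℚ) : GF ℚ ⧸ U) →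
        ‖(mt ρ s⁻¹).trace - (mt ρ (c⁻¹ * h j)).trace‖ ≤ δ := by
      intro s c j hs
      have h1 : s⁻¹ * (c * (h j)⁻¹) ∈ U := QuotientGroup.eq.1 hs
      have h2 := mem_VV.1 (hUV h1) ((c * (h j)⁻¹)⁻¹)
      rw [mul_inv_cancel_right] at h2
      have h3 := h2.trace δ.2
      rw [Matrix.trace_sub, mul_inv_rev, inv_inv, mt_mul ρ (h j), Matrix.trace_mul_comm,
        ← mt_mul] at h3
      exact h3
    have h1 : Le (mt ρ a⁻¹ - mt ρ b⁻¹) (δ * C') := by
      apply hsep _ _ _ δ.2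
      intro j
      have hga : good ((a : GF ℚ ⧸ U) * ((h j)⁻¹ : GF ℚ)) := hgood (a * (h j)⁻¹) (ha j)
      have hgb : good ((b : GF ℚ ⧸ U) * ((h j)⁻¹ : GF ℚ)) := hgood (b * (h j)⁻¹) (hb j)
      have h2 := congrFun hab j
      simp only [hτ] at h2
      rw [dif_pos hga, dif_pos hgb] at h2
      have h3 : (mt ρ hga.choose⁻¹).trace = (mt ρ hgb.choose⁻¹).trace :=
        congrArg Subtype.val (Option.some.inj h2)
      have h4 := hnear hga.choose a j hga.choose_spec.1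
      have h5 := hnear hgb.choose b j hgb.choose_spec.1
      rw [h3] at h4
      have h6 : (mt ρ (a⁻¹ * h j)).trace - (mt ρ (b⁻¹ * h j)).trace =
          ((mt ρ hgb.choose⁻¹).trace - (mt ρ (b⁻¹ * h j)).trace) +
            -((mt ρ hgb.choose⁻¹).trace - (mt ρ (a⁻¹ * h j)).trace) := by ring
      rw [h6]
      refine (IsUltrametricDist.norm_add_le_max _ _).trans (max_le h5 ?_)
      rw [norm_neg]
      exact h4
    intro x
    have h2 : mt ρ (a⁻¹ * b * x) - mt ρ x = (mt ρ a⁻¹ - mt ρ b⁻¹) * mt ρ (b * x) := by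
      rw [sub_mul, ← mt_mul, ← mt_mul, mul_assoc, inv_mul_cancel_left]
    rw [h2]
    exact (h1.mul (hC (b * x)) (mul_nonneg δ.2 hC'0.le) hC0.le).mono hδ2)
  have hcard : Nat.card (Option Y) = Y.ncard + 1 := by
    have : Fintype Y := Fintype.ofFinite Y
    rw [Nat.card_eq_fintype_card, Fintype.card_option, ← Nat.card_eq_fintype_card]
    rfl
  rw [hcard] at hcount
  set V := (VV ρ δ₂).map (QuotientGroup.mk' U) with hV
  have h1 : (m : ℝ) * D.ncard ≤ Nat.card (GF ℚ ⧸ U) / 2 := by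
    have h2 : (m : ℝ) ≤ n ^ 2 + 1 := by
      have : (m : ℝ) ≤ (n : ℝ) ^ 2 := by exact_mod_cast hm
      linarith
    calc (m : ℝ) * D.ncard ≤ (n ^ 2 + 1) * (1 / (2 * (n ^ 2 + 1)) * Nat.card (GF ℚ ⧸ U)) := by
          apply mul_le_mul h2 hle (Nat.cast_nonneg _)
          positivity
      _ = Nat.card (GF ℚ ⧸ U) / 2 := by
          field_simp
  have h2 : (Nat.card (GF ℚ ⧸ U) : ℝ) ≤ (Y.ncard + 1) ^ m * Nat.card V + m * D.ncard := by
    exact_mod_cast hcount
  have h3 : (Nat.card (GF ℚ ⧸ U) : ℝ) ≤ 2 * (Y.ncard + 1) ^ m * Nat.card V := by linarith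
  have h4 : Nat.card (GF ℚ ⧸ U) ≤ 2 * (Y.ncard + 1) ^ m * Nat.card V := by exact_mod_cast h3
  have h5 : V.index = (VV ρ δ₂).index := by
    apply Subgroup.index_map_eq _ (QuotientGroup.mk'_surjective U)
    rw [QuotientGroup.ker_mk']
    exact hUV₂
  have h6 := V.card_mul_index
  rw [← h6, h5, mul_comm] at h4
  have h7 : (VV ρ δ₂).index ≤ 2 * (Y.ncard + 1) ^ m := Nat.le_of_mul_le_mul_right h4 Nat.card_pos
  exact h7.trans (Nat.mul_le_mul_left _ (Nat.pow_le_pow_right (Nat.succ_pos _) hm))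

/-- **Finite image.** -/
theorem finite_image [CharZero Ω] (hss : SS ρ) {Y : Set Ω} (hY : Y.Finite) (X : Set ℕ)
    (hX : ∀ p : ℕ, p.Prime → p ∉ X → ∀ P : Ideal (OO ℚ), P.IsMaximal → (p : OO ℚ) ∈ P →
      ∀ g, FrobAt p P g → (mt ρ g⁻¹).trace ∈ Y)
    (hε : ∀ᶠ N : ℕ in atTop, (cnt X N : ℝ) ≤ 1 / (2 * (n ^ 2 + 1)) * Nat.primeCounting N) :
    IsOpen (ρ.ker : Set (GF ℚ)) := by
  classical
  set A : ℕ := 2 * (Y.ncard + 1) ^ (n ^ 2) with hA
  have hpos : ∀ k : ℕ, (0 : NNReal) < 1 / (k + 1) := fun k => by positivity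
  have hidx : ∀ k : ℕ, (VV ρ (1 / (k + 1))).index ≤ A := fun k =>
    index_VV ρ hρ hss hY X hX hε (hpos k)
  have hfi : ∀ k : ℕ, (VV ρ (1 / (k + 1))).FiniteIndex := by
    intro k
    have : Finite (GF ℚ ⧸ VV ρ (1 / (k + 1))) :=
      Subgroup.quotient_finite_of_isOpen _ (isOpen_VV ρ hρ (hpos k))
    exact Subgroup.finiteIndex_of_finite_quotient
  obtain ⟨k, hk⟩ : ∃ k : ℕ, ∀ k' : ℕ, (VV ρ (1 / (k' + 1))).index ≤ (VV ρ (1 / (k + 1))).index := by
    have hbdd : BddAbove (Set.range fun k : ℕ => (VV ρ (1 / (k + 1))).index) :=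
      ⟨A, by rintro _ ⟨k, rfl⟩; exact hidx k⟩
    obtain ⟨k, hk⟩ := Nat.sSup_mem (Set.range_nonempty _) hbdd
    refine ⟨k, fun k' => ?_⟩
    simp only at hk
    rw [hk]
    exact le_csSup hbdd ⟨k', rfl⟩
  refine Subgroup.isOpen_mono (H₁ := VV ρ (1 / (k + 1))) ?_ (isOpen_VV ρ hρ (hpos k))
  intro g hg
  have hall : ∀ k' : ℕ, k ≤ k' → g ∈ VV ρ (1 / (k' + 1)) := by
    intro k' hkk
    have h1 : VV ρ (1 / (k' + 1)) ≤ VV ρ (1 / (k + 1)) := by
      apply VV_mono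
      apply one_div_le_one_div_of_le (by positivity)
      have : (k : NNReal) ≤ k' := by exact_mod_cast hkk
      exact add_le_add_left this 1
    have h2 := Subgroup.relIndex_mul_index h1
    have h3 := hk k'
    have h4 : 0 < (VV ρ (1 / (k + 1))).index := Nat.pos_of_ne_zero (hfi k).index_ne_zero
    have h5 : 0 < (VV ρ (1 / (k' + 1))).index := Nat.pos_of_ne_zero (hfi k').index_ne_zero
    have h6 : (VV ρ (1 / ((k' : NNReal) + 1))).relIndex (VV ρ (1 / ((k : NNReal) + 1))) = 1 := by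
      rw [← h2] at h3 h5
      have h7 : (VV ρ (1 / ((k' : NNReal) + 1))).relIndex (VV ρ (1 / ((k : NNReal) + 1))) ≤ 1 := by
        refine Nat.le_of_mul_le_mul_right (c := (VV ρ (1 / ((k : NNReal) + 1))).index) ?_ h4
        rw [one_mul]
        exact h3
      have h8 := Nat.pos_of_mul_pos_right h5
      omega
    exact Subgroup.relIndex_eq_one.1 h6 hg
  rw [MonoidHom.mem_ker]
  apply Units.ext
  change mt ρ g = 1
  ext a b
  rw [← sub_eq_zero, ← norm_eq_zero]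
  have h1 : ∀ k' : ℕ, k ≤ k' → ‖mt ρ g a b - (1 : Matrix (Fin n) (Fin n) Ω) a b‖ ≤ 1 / (k' + 1) := by
    intro k' hkk
    have h2 := hall k' hkk 1 a b
    have h3 : mt ρ 1 = 1 := by
      unfold Img.mt
      rw [map_one, Units.val_one]
    rw [mul_one, h3, Matrix.sub_apply] at h2
    simpa using h2
  refine le_antisymm ?_ (norm_nonneg _)
  refine ge_of_tendsto tendsto_one_div_add_atTop_nhds_zero_nat ?_
  filter_upwards [eventually_ge_atTop k] with k' hk'
  exact h1 k' hk'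

end Pool.Agent.R401.One
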