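import Pool.Agent.Y142.Split
import Pool.Agent.R401.One

/-!
# Chebotarev's theorem for closed sets, and translates
-/

set_option autoImplicit false
set_option maxHeartbeats 400000

namespace Pool.Agent.R401.Eng

open NumberField Filter Topology IsDedekindDomain Pool.Agent.W401.Cheb

section count

/-- the counting argument -/
theorem count {Γ : Type*} [Group Γ] [Finite Γ] (V : Subgroup Γ) (D : Set Γ) {m : ℕ}
    (h : Fin m → Γ) (A : Finset Γ)
    (hA : ∀ c, (∀ j, c * h j ∉ D) → ∃ a ∈ A, a⁻¹ * c ∈ V) :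
    Nat.card Γ ≤ A.card * Nat.card V + m * D.ncard := by
  classical
  set S : Set Γ := ⋃ a ∈ A, {c | a⁻¹ * c ∈ V} with hS
  set T : Set Γ := ⋃ j ∈ (Finset.univ : Finset (Fin m)), {c | c * h j ∈ D} with hT
  have h1 : (Set.univ : Set Γ) ⊆ S ∪ T := by
    intro c _
    by_cases hc : ∀ j, c * h j ∉ D
    · left
      obtain ⟨a, ha, hac⟩ := hA c hc
      exact Set.mem_biUnion ha hac
    · right
      push Not at hc
      obtain ⟨j, hj⟩ := hc
      exact Set.mem_biUnion (Finset.mem_univ j) hj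
  have h2 : S.ncard ≤ A.card * Nat.card V := by
    refine (Finset.set_ncard_biUnion_le _ _).trans ?_
    rw [← smul_eq_mul, ← Finset.sum_const]
    refine Finset.sum_le_sum fun a _ => ?_
    have h3 : {c | a⁻¹ * c ∈ V} = (fun x => a * x) '' (V : Set Γ) := by
      ext c
      constructor
      · intro hc
        exact ⟨a⁻¹ * c, hc, mul_inv_cancel_left a c⟩
      · rintro ⟨x, hx, rfl⟩
        simpa using hx
    rw [h3, Set.ncard_image_of_injective _ (mul_right_injective a)]
    exact le_of_eq (Nat.card_coe_set_eq (V : Set Γ)).symm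
  have h3 : T.ncard ≤ m * D.ncard := by
    refine (Finset.set_ncard_biUnion_le _ _).trans ?_
    have h4 : ∀ j : Fin m, {c | c * h j ∈ D}.ncard = D.ncard := by
      intro j
      have h5 : (fun x => x * h j) '' {c | c * h j ∈ D} = D := by
        ext c
        constructor
        · rintro ⟨x, hx, rfl⟩
          exact hx
        · intro hc
          exact ⟨c * (h j)⁻¹, by simpa using hc, inv_mul_cancel_right c (h j)⟩
      conv_rhs => rw [← h5]
      rw [Set.ncard_image_of_injective _ (mul_left_injective (h j))]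
    rw [Finset.sum_congr rfl fun j _ => h4 j, Finset.sum_const, Finset.card_univ, Fintype.card_fin,
      smul_eq_mul]
  calc Nat.card Γ = (Set.univ : Set Γ).ncard := (Set.ncard_univ Γ).symm
    _ ≤ (S ∪ T).ncard := Set.ncard_le_ncard h1 (Set.toFinite _)
    _ ≤ S.ncard + T.ncard := Set.ncard_union_le _ _
    _ ≤ _ := add_le_add h2 h3

end count

variable {K : Type} [Field K] [NumberField K]

theorem dens_le {P Q : HeightOneSpectrum (𝓞 K) → Prop} (h : ∀ v, P v → Q v) (N : ℕ) :
    dens P N ≤ dens Q N := by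
  have hfin := Pool.Agent.W352.ChAbs.finite_le (K := K) N
  have hfin2 : Finite {v : HeightOneSpectrum (𝓞 K) // Ideal.absNorm v.asIdeal ≤ N ∧ Q v} :=
    (hfin.subset (fun v (hv : Ideal.absNorm v.asIdeal ≤ N ∧ Q v) => hv.1)).to_subtype
  unfold dens
  apply div_le_div_of_nonneg_right _ (Nat.cast_nonneg _)
  exact_mod_cast Nat.card_le_card_of_injective
    (fun v : {v : HeightOneSpectrum (𝓞 K) // Ideal.absNorm v.asIdeal ≤ N ∧ P v} =>
      (⟨v.1, v.2.1, h v.1 v.2.2⟩ : {v : HeightOneSpectrum (𝓞 K) //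
        Ideal.absNorm v.asIdeal ≤ N ∧ Q v}))
    (fun v w hvw => by
      apply Subtype.ext
      have h1 := congrArg Subtype.val hvw
      exact h1)

/-- **Engine.** Let `Good` be a closed set, invariant under conjugation, which contains the
Frobenius elements at all places but a set of lower density at most `θ`. If the elements `g` with
`g * h j ∈ Good` for all `j` are contained in finitely many cosets of the open subgroup `W`, then
the index of `W` is bounded. -/
theorem engine (Good : Set (GK K)) (hcl : IsClosed Good)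
    (hconj : ∀ g ∈ Good, ∀ x : GK K, x * g * x⁻¹ ∈ Good) {θ : ℝ}
    (hθ : ∃ᶠ N : ℕ in atTop,
      dens (fun v : HeightOneSpectrum (𝓞 K) => ∃ g, IsFrob v g ∧ g ∉ Good) N ≤ θ)
    {m : ℕ} (h : Fin m → GK K) (W : Subgroup (GK K)) (hW : IsOpen (W : Set (GK K)))
    (A : Finset (GK K)) (hS : ∀ g, (∀ j, g * h j ∈ Good) → ∃ a ∈ A, a⁻¹ * g ∈ W) :
    (1 - m * θ) * W.index ≤ A.card := by
  classical
  -- the saturated sets
  let T : OpenNormalSubgroup (GK K) → Set (GK K) := fun U =>
    {g | ∀ j, ∃ u ∈ (U : Subgroup (GK K)), g * h j * u ∈ Good}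
  have hopen : ∀ (U : OpenNormalSubgroup (GK K)) (X : Set (GK K)),
      (∀ x ∈ X, ∀ u ∈ (U : Subgroup (GK K)), x * u ∈ X) → IsOpen X := by
    intro U X hX
    have h1 : X = ⋃ x ∈ X, (fun u => x * u) '' ((U : Subgroup (GK K)) : Set (GK K)) := by
      ext y
      constructor
      · intro hy
        exact Set.mem_biUnion hy ⟨1, (U : Subgroup (GK K)).one_mem, mul_one y⟩
      · intro hy
        rw [Set.mem_iUnion₂] at hy
        obtain ⟨x, hx, u, hu, rfl⟩ := hy
        exact hX x hx u hu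
    rw [h1]
    refine isOpen_biUnion fun x _ => ?_
    exact (Homeomorph.mulLeft x).isOpenMap _ U.isOpen'
  have hTclosed : ∀ U, IsClosed (T U) := by
    intro U
    rw [← isOpen_compl_iff]
    apply hopen U
    intro x hx u hu hxu
    apply hx
    intro j
    obtain ⟨u', hu', hg⟩ := hxu j
    refine ⟨(h j)⁻¹ * u * h j * u', ?_, ?_⟩
    · apply (U : Subgroup (GK K)).mul_mem _ hu'
      have := U.isNormal'.conj_mem u hu (h j)⁻¹
      rwa [inv_inv] at this
    · have : x * h j * ((h j)⁻¹ * u * h j * u') = x * u * h j * u' := by group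
      rw [this]
      exact hg
  have hTmono : ∀ U V : OpenNormalSubgroup (GK K), (U : Subgroup (GK K)) ≤ V → T U ⊆ T V := by
    intro U V hUV g hg j
    obtain ⟨u, hu, hgu⟩ := hg j
    exact ⟨u, hUV hu, hgu⟩
  have hTdir : Directed (fun x1 x2 => x1 ⊇ x2) T := by
    intro U V
    exact ⟨U ⊓ V, hTmono _ _ inf_le_left, hTmono _ _ inf_le_right⟩
  set O : Set (GK K) := {g | ∃ a ∈ A, a⁻¹ * g ∈ W} with hO
  have hOopen : IsOpen O := by
    have h1 : O = ⋃ a ∈ A, (fun g => a⁻¹ * g) ⁻¹' (W : Set (GK K)) := by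
      ext g
      simp [hO]
    rw [h1]
    exact isOpen_biUnion fun a _ => hW.preimage (continuous_const.mul continuous_id)
  have hne : Nonempty (OpenNormalSubgroup (GK K)) :=
    ⟨{ toSubgroup := ⊤, isOpen' := isOpen_univ, isNormal' := inferInstance }⟩
  have hTO : ∃ U, T U ⊆ O := by
    refine exists_subset_nhds_of_isCompact' hTdir (fun U => (hTclosed U).isCompact) hTclosed ?_
    intro g hg
    refine hOopen.mem_nhds (hS g fun j => ?_)
    by_contra hcon
    have h1 : (fun u => g * h j * u) ⁻¹' Goodᶜ ∈ 𝓝 (1 : GK K) := by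
      apply (hcl.isOpen_compl.preimage (continuous_const.mul continuous_id)).mem_nhds
      simpa using hcon
    obtain ⟨s, hs1, hs2, hs3⟩ := mem_nhds_iff.1 h1
    obtain ⟨U, hU⟩ := ProfiniteGrp.exist_openNormalSubgroup_sub_open_nhds_of_one hs2 hs3
    obtain ⟨u, hu, hgu⟩ := (Set.mem_iInter.1 hg U) j
    exact hs1 (hU hu) hgu
  obtain ⟨U₀, hU₀⟩ := hTO
  -- the open normal subgroup
  have hWfin : Finite (GK K ⧸ W) := Subgroup.quotient_finite_of_isOpen _ hW
  have hWfi : W.FiniteIndex := Subgroup.finiteIndex_of_finite_quotient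
  have hNo : IsOpen (W.normalCore : Set (GK K)) :=
    Subgroup.isOpen_of_isClosed_of_finiteIndex _ (W.normalCore_isClosed (W.isClosed_of_isOpen hW))
  let U₁ : OpenNormalSubgroup (GK K) :=
    { toSubgroup := W.normalCore, isOpen' := hNo, isNormal' := inferInstance }
  let U₂ : OpenNormalSubgroup (GK K) := U₀ ⊓ U₁
  set U : Subgroup (GK K) := (U₂ : Subgroup (GK K)) with hU
  have hUn : U.Normal := U₂.isNormal'
  have hUo : IsOpen (U : Set (GK K)) := U₂.isOpen'
  have hUW : U ≤ W := by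
    have h1 : U ≤ W.normalCore := inf_le_right
    exact h1.trans W.normalCore_le
  have hTU : T U₂ ⊆ O := (hTmono U₂ U₀ inf_le_left).trans hU₀
  have hfin : Finite (GK K ⧸ U) := Subgroup.quotient_finite_of_isOpen _ hUo
  -- the bad cosets
  set C : Set (GK K) := {σ | ∀ u ∈ U, σ * u ∉ Good} with hC
  have hC1 : ∀ σ ∈ C, ∀ τ : GK K, τ * σ * τ⁻¹ ∈ C := by
    intro σ hσ τ u hu hG
    refine hσ (τ⁻¹ * u * τ) ?_ ?_
    · have := hUn.conj_mem u hu τ⁻¹
      rwa [inv_inv] at this
    · have h1 := hconj _ hG τ⁻¹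
      have h2 : τ⁻¹ * (τ * σ * τ⁻¹ * u) * τ⁻¹⁻¹ = σ * (τ⁻¹ * u * τ) := by group
      rwa [h2] at h1
  have hC2 : ∀ σ ∈ C, ∀ u ∈ U, σ * u ∈ C := by
    intro σ hσ u hu u' hu'
    rw [mul_assoc]
    exact hσ _ (U.mul_mem hu hu')
  have hcheb := Pool.Agent.Y142.chebK K U hUo C hC1 hC2
  have hle : (((QuotientGroup.mk : GK K → GK K ⧸ U) '' C).ncard : ℝ) ≤ θ * Nat.card (GK K ⧸ U) := by
    have h1 : ∃ᶠ N : ℕ in atTop,
        dens (fun v : HeightOneSpectrum (𝓞 K) => ∃ σ ∈ C, IsFrob v σ) N ≤ θ := by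
      refine hθ.mono fun N hN => le_trans (dens_le ?_ N) hN
      rintro v ⟨σ, hσ, hv⟩
      refine ⟨σ, hv, ?_⟩
      have := hσ 1 U.one_mem
      rwa [mul_one] at this
    have h2 := le_of_tendsto_of_frequently hcheb h1
    have h6 : (0 : ℝ) < Nat.card (GK K ⧸ U) := by exact_mod_cast Nat.card_pos
    rwa [div_le_iff₀ h6] at h2
  set D : Set (GK K ⧸ U) := (QuotientGroup.mk : GK K → GK K ⧸ U) '' C with hD
  have hcount := count (W.map (QuotientGroup.mk' U)) D (fun j => ((h j : GK K) : GK K ⧸ U))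
    (A.image (QuotientGroup.mk : GK K → GK K ⧸ U)) (by
    intro c hc
    induction c using QuotientGroup.induction_on with
    | H g =>
    have h1 : g ∈ T U₂ := by
      intro j
      by_contra hcon
      push Not at hcon
      exact hc j ⟨g * h j, hcon, rfl⟩
    obtain ⟨a, ha, hag⟩ := hTU h1
    exact ⟨(a : GK K ⧸ U), Finset.mem_image_of_mem _ ha, a⁻¹ * g, hag, rfl⟩)
  have h5 : (W.map (QuotientGroup.mk' U)).index = W.index := by
    apply Subgroup.index_map_eq _ (QuotientGroup.mk'_surjective U)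
    rw [QuotientGroup.ker_mk']
    exact hUW
  have h6 := (W.map (QuotientGroup.mk' U)).card_mul_index
  rw [h5] at h6
  have h7 : (0 : ℝ) < Nat.card (W.map (QuotientGroup.mk' U)) := by exact_mod_cast Nat.card_pos
  have h8 : (Nat.card (GK K ⧸ U) : ℝ) ≤
      A.card * Nat.card (W.map (QuotientGroup.mk' U)) + m * D.ncard := by
    have h9 : (A.image (QuotientGroup.mk : GK K → GK K ⧸ U)).card ≤ A.card := Finset.card_image_le
    have h10 := hcount.trans (Nat.add_le_add_right (Nat.mul_le_mul_right _ h9) _)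
    exact_mod_cast h10
  have h11 : (m : ℝ) * D.ncard ≤ m * (θ * Nat.card (GK K ⧸ U)) :=
    mul_le_mul_of_nonneg_left hle (Nat.cast_nonneg m)
  have h12 : (Nat.card (W.map (QuotientGroup.mk' U)) : ℝ) * W.index = Nat.card (GK K ⧸ U) := by
    exact_mod_cast h6
  have h13 : ((1 - m * θ) * W.index) * Nat.card (W.map (QuotientGroup.mk' U)) ≤
      A.card * Nat.card (W.map (QuotientGroup.mk' U)) := by
    have h14 : ((1 - m * θ) * W.index) * Nat.card (W.map (QuotientGroup.mk' U)) =
        Nat.card (GK K ⧸ U) - m * (θ * Nat.card (GK K ⧸ U)) := by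
      rw [← h12]
      ring
    rw [h14]
    linarith
  exact le_of_mul_le_mul_right h13 h7

/-- a closed subgroup, such that finitely many cosets contain the good elements, is open -/
theorem isOpen_of_cosets (Good : Set (GK K)) (hcl : IsClosed Good)
    (hconj : ∀ g ∈ Good, ∀ x : GK K, x * g * x⁻¹ ∈ Good) {θ : ℝ}
    (hθ : ∃ᶠ N : ℕ in atTop,
      dens (fun v : HeightOneSpectrum (𝓞 K) => ∃ g, IsFrob v g ∧ g ∉ Good) N ≤ θ)
    {m : ℕ} (hm : m * θ < 1) (h : Fin m → GK K) (N : Subgroup (GK K))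
    (hN : IsClosed (N : Set (GK K))) (A : Finset (GK K))
    (hS : ∀ g, (∀ j, g * h j ∈ Good) → ∃ a ∈ A, a⁻¹ * g ∈ N) :
    IsOpen (N : Set (GK K)) := by
  classical
  have hbound : ∀ W : Subgroup (GK K), IsOpen (W : Set (GK K)) → N ≤ W →
      (W.index : ℝ) ≤ A.card / (1 - m * θ) := by
    intro W hW hNW
    rw [le_div_iff₀ (by linarith), mul_comm]
    exact engine Good hcl hconj hθ h W hW A fun g hg => by
      obtain ⟨a, ha, hag⟩ := hS g hg
      exact ⟨a, ha, hNW hag⟩
  obtain ⟨M, hM⟩ := exists_nat_ge ((A.card : ℝ) / (1 - m * θ))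
  set S : Set ℕ := {k | ∃ W : Subgroup (GK K), IsOpen (W : Set (GK K)) ∧ N ≤ W ∧ W.index = k}
    with hSdef
  have hSne : S.Nonempty := ⟨_, ⊤, isOpen_univ, le_top, rfl⟩
  have hSb : BddAbove S := by
    refine ⟨M, ?_⟩
    rintro _ ⟨W, hW, hNW, rfl⟩
    exact_mod_cast (hbound W hW hNW).trans hM
  obtain ⟨W₀, hW₀, hNW₀, hidx⟩ := Nat.sSup_mem hSne hSb
  have hmax : ∀ W : Subgroup (GK K), IsOpen (W : Set (GK K)) → N ≤ W → W.index ≤ W₀.index := by
    intro W hW hNW
    rw [hidx]
    exact le_csSup hSb ⟨W, hW, hNW, rfl⟩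
  have hfi : ∀ W : Subgroup (GK K), IsOpen (W : Set (GK K)) → W.FiniteIndex := by
    intro W hW
    have : Finite (GK K ⧸ W) := Subgroup.quotient_finite_of_isOpen _ hW
    exact Subgroup.finiteIndex_of_finite_quotient
  have hle : W₀ ≤ N := by
    intro x hx
    by_contra hxN
    have h1 : (fun u => x * u) ⁻¹' (N : Set (GK K))ᶜ ∈ 𝓝 (1 : GK K) := by
      apply (hN.isOpen_compl.preimage (continuous_const.mul continuous_id)).mem_nhds
      simpa using hxN
    obtain ⟨s, hs1, hs2, hs3⟩ := mem_nhds_iff.1 h1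
    obtain ⟨U, hU⟩ := ProfiniteGrp.exist_openNormalSubgroup_sub_open_nhds_of_one hs2 hs3
    have hUn : (U : Subgroup (GK K)).Normal := U.isNormal'
    have hUo : IsOpen (((U : Subgroup (GK K)) : Subgroup (GK K)) : Set (GK K)) := U.isOpen'
    set W₁ : Subgroup (GK K) := W₀ ⊓ (N ⊔ (U : Subgroup (GK K))) with hW₁
    have hW₁o : IsOpen (W₁ : Set (GK K)) := by
      have h2 : IsOpen ((N ⊔ (U : Subgroup (GK K)) : Subgroup (GK K)) : Set (GK K)) :=
        Subgroup.isOpen_mono le_sup_right hUo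
      rw [hW₁, Subgroup.coe_inf]
      exact hW₀.inter h2
    have hNW₁ : N ≤ W₁ := le_inf hNW₀ le_sup_left
    have h2 := Subgroup.relIndex_mul_index (inf_le_left : W₁ ≤ W₀)
    have h3 := hmax W₁ hW₁o hNW₁
    have h4 : 0 < W₀.index := Nat.pos_of_ne_zero (hfi W₀ hW₀).index_ne_zero
    have h5 : 0 < W₁.index := Nat.pos_of_ne_zero (hfi W₁ hW₁o).index_ne_zero
    have h6 : W₁.relIndex W₀ = 1 := by
      rw [← h2] at h3 h5
      have h7 : W₁.relIndex W₀ ≤ 1 := by
        refine Nat.le_of_mul_le_mul_right (c := W₀.index) ?_ h4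
        rw [one_mul]
        exact h3
      have h8 := Nat.pos_of_mul_pos_right h5
      exact le_antisymm h7 h8
    have h7 : x ∈ W₁ := Subgroup.relIndex_eq_one.1 h6 hx
    obtain ⟨a, ha, u, hu, hau⟩ := Subgroup.mem_sup_of_normal_right.1 h7.2
    have h8 : x * u⁻¹ ∈ N := by
      rw [← hau, mul_inv_cancel_right]
      exact ha
    exact hs1 (hU ((U : Subgroup (GK K)).inv_mem hu)) h8
  have : N = W₀ := le_antisymm hNW₀ hle
  rw [this]
  exact hW₀

end Pool.Agent.R401.Eng
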