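import Pool.Agent.R401.Hm

/-!
# Chebotarev's theorem and the Haar measure
-/

set_option autoImplicit false
set_option maxHeartbeats 400000

namespace Pool.Agent.R401.Hc

open MeasureTheory Topology Filter NumberField IsDedekindDomain Pool.Agent.W401.Cheb
open Pool.Agent.R401.Eng

variable {K : Type} [Field K] [NumberField K]

/-- closed sets with many Frobenius elements have positive measure -/
theorem measure_ne_zero [MeasurableSpace (GK K)] [BorelSpace (GK K)] (μ : Measure (GK K))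
    [IsProbabilityMeasure μ] [μ.IsMulLeftInvariant] [μ.OuterRegular] (C : Set (GK K))
    (hcl : IsClosed C) (hconj : ∀ g ∈ C, ∀ x : GK K, x * g * x⁻¹ ∈ C) {δ : ℝ} (hδ : 0 < δ)
    (h : ∃ᶠ N : ℕ in atTop,
      δ ≤ dens (fun v : HeightOneSpectrum (𝓞 K) => ∃ g, IsFrob v g ∧ g ∈ C) N) : μ C ≠ 0 := by
  classical
  intro h0
  obtain ⟨O, hCO, hO, hOμ⟩ := C.exists_isOpen_lt_of_lt (μ := μ) (ENNReal.ofReal δ) (by
    rw [h0]
    exact ENNReal.ofReal_pos.2 hδ)
  let T : OpenNormalSubgroup (GK K) → Set (GK K) := fun U =>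
    {g | ∃ u ∈ (U : Subgroup (GK K)), g * u ∈ C}
  have hopen : ∀ (U : OpenNormalSubgroup (GK K)) (X : Set (GK K)),
      (∀ x ∈ X, ∀ u ∈ (U : Subgroup (GK K)), x * u ∈ X) → IsOpen X := by
    intro U X hX
    have h1 : X = ⋃ x ∈ X, (fun u => x * u) '' ((U : Subgroup (GK K)) : Set (GK K)) := by
      ext y
      constructor
      · intro hy
        exact Set.mem_biUnion hy ⟨1, (U : Subgroup (GK K)).one_mem, mul_one y⟩
      · intro hy
        rw [Set.mem_iUnion₂] at hy
        obtain ⟨x, hx, u, hu, rfl⟩ := hy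
        exact hX x hx u hu
    rw [h1]
    refine isOpen_biUnion fun x _ => ?_
    exact (Homeomorph.mulLeft x).isOpenMap _ U.isOpen'
  have hTclosed : ∀ U, IsClosed (T U) := by
    intro U
    rw [← isOpen_compl_iff]
    apply hopen U
    intro x hx u hu hxu
    apply hx
    obtain ⟨u', hu', hg⟩ := hxu
    refine ⟨u * u', (U : Subgroup (GK K)).mul_mem hu hu', ?_⟩
    rw [← mul_assoc]
    exact hg
  have hTmono : ∀ U V : OpenNormalSubgroup (GK K), (U : Subgroup (GK K)) ≤ V → T U ⊆ T V := by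
    rintro U V hUV g ⟨u, hu, hgu⟩
    exact ⟨u, hUV hu, hgu⟩
  have hTdir : Directed (fun x1 x2 => x1 ⊇ x2) T := by
    intro U V
    exact ⟨U ⊓ V, hTmono _ _ inf_le_left, hTmono _ _ inf_le_right⟩
  have hne : Nonempty (OpenNormalSubgroup (GK K)) :=
    ⟨{ toSubgroup := ⊤, isOpen' := isOpen_univ, isNormal' := inferInstance }⟩
  have hTO : ∃ U, T U ⊆ O := by
    refine exists_subset_nhds_of_isCompact' hTdir (fun U => (hTclosed U).isCompact) hTclosed ?_
    intro g hg
    refine hO.mem_nhds (hCO ?_)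
    by_contra hcon
    have h1 : (fun u => g * u) ⁻¹' Cᶜ ∈ 𝓝 (1 : GK K) := by
      apply (hcl.isOpen_compl.preimage (continuous_const.mul continuous_id)).mem_nhds
      simpa using hcon
    obtain ⟨s, hs1, hs2, hs3⟩ := mem_nhds_iff.1 h1
    obtain ⟨U, hU⟩ := ProfiniteGrp.exist_openNormalSubgroup_sub_open_nhds_of_one hs2 hs3
    obtain ⟨u, hu, hgu⟩ := Set.mem_iInter.1 hg U
    exact hs1 (hU hu) hgu
  obtain ⟨U₀, hU₀⟩ := hTO
  set U : Subgroup (GK K) := (U₀ : Subgroup (GK K)) with hU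
  have hUn : U.Normal := U₀.isNormal'
  have hUo : IsOpen (U : Set (GK K)) := U₀.isOpen'
  have hfin : Finite (GK K ⧸ U) := Subgroup.quotient_finite_of_isOpen _ hUo
  have hfi : U.FiniteIndex := Subgroup.finiteIndex_of_finite_quotient
  have hcheb := Pool.Agent.Y142.chebK K U hUo (T U₀) (by
    rintro g ⟨u, hu, hgu⟩ τ
    refine ⟨τ * u * τ⁻¹, hUn.conj_mem u hu τ, ?_⟩
    have h1 := hconj _ hgu τ
    have h2 : τ * g * τ⁻¹ * (τ * u * τ⁻¹) = τ * (g * u) * τ⁻¹ := by group
    rw [h2]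
    exact h1) (by
    rintro g ⟨u, hu, hgu⟩ u' hu'
    refine ⟨u'⁻¹ * u, U.mul_mem (U.inv_mem hu') hu, ?_⟩
    rw [mul_assoc, mul_inv_cancel_left]
    exact hgu)
  set D : Set (GK K ⧸ U) := (QuotientGroup.mk : GK K → GK K ⧸ U) '' (T U₀) with hD
  have hge : δ ≤ (D.ncard : ℝ) / Nat.card (GK K ⧸ U) := by
    refine ge_of_tendsto_of_frequently hcheb (h.mono fun N hN => hN.trans (dens_le ?_ N))
    rintro v ⟨g, hg, hgC⟩
    exact ⟨g, ⟨1, U.one_mem, by rwa [mul_one]⟩, hg⟩
  -- the measure of the saturated set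
  have hcos : ∀ x : GK K ⧸ U, μ ((QuotientGroup.mk : GK K → GK K ⧸ U) ⁻¹' {x}) = μ (U : Set (GK K)) := by
    intro x
    have h1 : (QuotientGroup.mk : GK K → GK K ⧸ U) ⁻¹' {x} =
        (fun y => (x.out)⁻¹ * y) ⁻¹' (U : Set (GK K)) := by
      ext y
      rw [Set.mem_preimage, Set.mem_singleton_iff, Set.mem_preimage, SetLike.mem_coe,
        ← QuotientGroup.eq]
      have h2 : ((x.out : GK K) : GK K ⧸ U) = x := Quotient.out_eq x
      rw [h2]
      exact eq_comm
    rw [h1, measure_preimage_mul]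
  have hDf : D.Finite := Set.toFinite D
  have hmeas : (D.ncard : ENNReal) * μ (U : Set (GK K)) ≤ μ (T U₀) := by
    have h1 : μ (⋃ x ∈ hDf.toFinset, (QuotientGroup.mk : GK K → GK K ⧸ U) ⁻¹' {x}) =
        ∑ x ∈ hDf.toFinset, μ ((QuotientGroup.mk : GK K → GK K ⧸ U) ⁻¹' {x}) := by
      apply measure_biUnion_finset
      · intro x _ y _ hxy
        exact Disjoint.preimage _ (Set.disjoint_singleton.2 hxy)
      · intro x _
        apply IsOpen.measurableSet
        have h2 : (QuotientGroup.mk : GK K → GK K ⧸ U) ⁻¹' {x} =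
            (fun y => (x.out)⁻¹ * y) ⁻¹' (U : Set (GK K)) := by
          ext y
          rw [Set.mem_preimage, Set.mem_singleton_iff, Set.mem_preimage, SetLike.mem_coe,
            ← QuotientGroup.eq]
          have h2 : ((x.out : GK K) : GK K ⧸ U) = x := Quotient.out_eq x
          rw [h2]
          exact eq_comm
        rw [h2]
        exact hUo.preimage (continuous_const.mul continuous_id)
    rw [Finset.sum_congr rfl fun x _ => hcos x, Finset.sum_const, nsmul_eq_mul,
      ← Set.ncard_eq_toFinset_card _ hDf] at h1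
    rw [← h1]
    apply measure_mono
    intro y hy
    rw [Set.mem_iUnion₂] at hy
    obtain ⟨x, hx, hxy⟩ := hy
    rw [hDf.mem_toFinset] at hx
    obtain ⟨g, ⟨u, hu, hgu⟩, rfl⟩ := hx
    have h2 : (y : GK K ⧸ U) = (g : GK K ⧸ U) := hxy
    have h3 : y⁻¹ * g ∈ U := QuotientGroup.eq.1 h2
    refine ⟨y⁻¹ * g * u, U.mul_mem h3 hu, ?_⟩
    have h4 : y * (y⁻¹ * g * u) = g * u := by group
    rw [h4]
    exact hgu
  have hidx := U.index_mul_measure hUo.measurableSet μ
  rw [measure_univ] at hidx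
  have hlt : (D.ncard : ENNReal) * μ (U : Set (GK K)) < ENNReal.ofReal δ :=
    (hmeas.trans (measure_mono hU₀)).trans_lt hOμ
  -- conversion to real numbers
  have h1 : (U.index : ℝ) * (μ (U : Set (GK K))).toReal = 1 := by
    have := congrArg ENNReal.toReal hidx
    rw [ENNReal.toReal_mul, ENNReal.toReal_natCast, ENNReal.toReal_one] at this
    exact this
  have h2 : (D.ncard : ℝ) * (μ (U : Set (GK K))).toReal < δ := by
    have := (ENNReal.toReal_lt_toReal (hlt.ne_top) ENNReal.ofReal_ne_top).2 hlt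
    rw [ENNReal.toReal_mul, ENNReal.toReal_natCast, ENNReal.toReal_ofReal hδ.le] at this
    exact this
  have h3 : (Nat.card (GK K ⧸ U) : ℝ) = U.index := rfl
  have h4 : (0 : ℝ) < U.index := by
    have := hfi.index_ne_zero
    positivity
  have h5 : (μ (U : Set (GK K))).toReal = 1 / U.index := by
    rw [eq_div_iff h4.ne', mul_comm]
    exact h1
  rw [h5, mul_one_div] at h2
  rw [h3] at hge
  linarith

/-- **Zero sets with many Frobenius elements.** -/
theorem coset_of_dens {F : Type} [Field F] [TopologicalSpace F] [T2Space F]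
    (A : Submodule F (GK K → F)) [Module.Finite F A] (hA : ∀ f ∈ A, Continuous f)
    (hAt : ∀ (g : GK K), ∀ f ∈ A, Hm.tau g f ∈ A) (Y : Finset (GK K → F)) (hY : ∀ f ∈ Y, f ∈ A)
    (hconj : ∀ f ∈ Y, ∀ x y : GK K, f (x * y * x⁻¹) = f y) {δ : ℝ} (hδ : 0 < δ)
    (h : ∃ᶠ N : ℕ in atTop, δ ≤ dens (fun v : HeightOneSpectrum (𝓞 K) =>
      ∃ g, IsFrob v g ∧ ∃ f ∈ Y, f g = 0) N) :
    ∃ f ∈ Y, ∃ (H : Subgroup (GK K)) (x₀ : GK K), IsOpen (H : Set (GK K)) ∧
      ∀ h ∈ H, f (h * x₀) = 0 := by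
  classical
  letI : MeasurableSpace (GK K) := borel _
  haveI : BorelSpace (GK K) := ⟨rfl⟩
  set μ : Measure (GK K) := Measure.haarMeasure ⊤ with hμ
  have hprob : IsProbabilityMeasure μ := ⟨by
    have := Measure.haarMeasure_self (K₀ := (⊤ : TopologicalSpace.PositiveCompacts (GK K)))
    exact this⟩
  set C : Set (GK K) := {g | ∃ f ∈ Y, f g = 0} with hC
  have hCeq : C = ⋃ f ∈ Y, {g | f g = 0} := by
    ext g
    simp [hC]
  have hcl : IsClosed C := by
    rw [hCeq]
    exact Y.finite_toSet.isClosed_biUnion fun f hf =>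
      isClosed_singleton.preimage (hA f (hY f hf))
  have h1 := measure_ne_zero μ C hcl (by
    rintro g ⟨f, hf, hfg⟩ x
    exact ⟨f, hf, by rw [hconj f hf]; exact hfg⟩) hδ h
  obtain ⟨f, hf, hfμ⟩ : ∃ f ∈ Y, μ {g | f g = 0} ≠ 0 := by
    by_contra hcon
    push Not at hcon
    apply h1
    rw [hCeq]
    exact (measure_biUnion_null_iff Y.countable_toSet).2 hcon
  obtain ⟨H, x₀, hH, hx₀⟩ := Hm.exists_coset μ A hA hAt f (hY f hf) hfμ
  exact ⟨f, hf, H, x₀, hH, hx₀⟩

end Pool.Agent.R401.Hc
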