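import Pool.Agent.R401.Eng
import Mathlib.MeasureTheory.Measure.Haar.Basic

/-!
# Zero sets of positive measure
-/

set_option autoImplicit false
set_option maxHeartbeats 400000

namespace Pool.Agent.R401.Hm

open MeasureTheory Topology Filter

section translate

variable {G : Type*} [Group G] {F : Type*} [Field F]

/-- translation of functions: `f` is sent to `x ↦ f (g * x)` -/
def tau (g : G) : (G → F) ≃ₗ[F] (G → F) := LinearEquiv.funCongrLeft F F (Equiv.mulLeft g)

theorem tau_apply (g : G) (f : G → F) (x : G) : tau g f x = f (g * x) := rfl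

theorem tau_mul (g h : G) (S : Submodule F (G → F)) :
    S.map (tau (F := F) (h * g)).toLinearMap =
      (S.map (tau (F := F) h).toLinearMap).map (tau (F := F) g).toLinearMap := by
  rw [← Submodule.map_comp]
  congr 1
  ext f x
  change f (h * g * x) = f (h * (g * x))
  rw [mul_assoc]

theorem tau_one (S : Submodule F (G → F)) : S.map (tau (F := F) (1 : G)).toLinearMap = S := by
  have h1 : (tau (F := F) (1 : G)).toLinearMap = LinearMap.id := by
    ext f x
    change f (1 * x) = f x
    rw [one_mul]
  rw [h1, Submodule.map_id]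

/-- the zero set -/
def ZZ (S : Submodule F (G → F)) : Set G := {x | ∀ f ∈ S, f x = 0}

theorem ZZ_map (g : G) (S : Submodule F (G → F)) :
    ZZ (S.map (tau (F := F) g).toLinearMap) = (fun x => g * x) ⁻¹' ZZ S := by
  ext x
  constructor
  · intro h f hf
    exact h (tau g f) ⟨f, hf, rfl⟩
  · rintro h _ ⟨f, hf, rfl⟩
    exact h f hf

omit [Group G] in
theorem ZZ_sup (S T : Submodule F (G → F)) : ZZ (S ⊔ T) = ZZ S ∩ ZZ T := by
  ext x
  constructor
  · intro h
    exact ⟨fun f hf => h f (Submodule.mem_sup_left hf), fun f hf => h f (Submodule.mem_sup_right hf)⟩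
  · rintro ⟨h1, h2⟩ f hf
    obtain ⟨a, ha, b, hb, rfl⟩ := Submodule.mem_sup.1 hf
    rw [Pi.add_apply, h1 a ha, h2 b hb, add_zero]

end translate

section main

variable {G : Type*} [Group G] [TopologicalSpace G] [IsTopologicalGroup G] [CompactSpace G]
  [MeasurableSpace G] [BorelSpace G] (μ : Measure G) [IsFiniteMeasure μ] [μ.IsMulLeftInvariant]
  {F : Type*} [Field F] [TopologicalSpace F] [T2Space F]

/-- **Zero sets of positive measure contain cosets of open subgroups.** -/
theorem exists_coset (A : Submodule F (G → F)) [Module.Finite F A] (hA : ∀ f ∈ A, Continuous f)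
    (hAt : ∀ (g : G), ∀ f ∈ A, tau g f ∈ A) (f₀ : G → F) (hf₀ : f₀ ∈ A)
    (hμ : μ {x | f₀ x = 0} ≠ 0) :
    ∃ (H : Subgroup G) (x₀ : G), IsOpen (H : Set G) ∧ ∀ h ∈ H, f₀ (h * x₀) = 0 := by
  classical
  have hclosed : ∀ S : Submodule F (G → F), S ≤ A → IsClosed (ZZ S) := by
    intro S hS
    have h1 : ZZ S = ⋂ f ∈ S, {x | f x = 0} := by
      ext x
      simp [ZZ]
    rw [h1]
    refine isClosed_biInter fun f hf => ?_
    exact isClosed_singleton.preimage (hA f (hS hf))
  -- a maximal subspace
  let 𝒮 : Set (Submodule F A) := {S | f₀ ∈ S.map A.subtype ∧ μ (ZZ (S.map A.subtype)) ≠ 0}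
  have hne : 𝒮.Nonempty := by
    refine ⟨Submodule.span F {⟨f₀, hf₀⟩}, ?_, ?_⟩
    · exact ⟨⟨f₀, hf₀⟩, Submodule.subset_span rfl, rfl⟩
    · have h1 : ZZ ((Submodule.span F {(⟨f₀, hf₀⟩ : A)}).map A.subtype) = {x | f₀ x = 0} := by
        ext x
        constructor
        · intro h
          exact h f₀ ⟨⟨f₀, hf₀⟩, Submodule.subset_span rfl, rfl⟩
        · rintro h _ ⟨g, hg, rfl⟩
          obtain ⟨c, rfl⟩ := Submodule.mem_span_singleton.1 hg
          change c * f₀ x = 0
          rw [show f₀ x = 0 from h, mul_zero]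
      rw [h1]
      exact hμ
  obtain ⟨S₁, ⟨hS₁, hS₁μ⟩, hmax⟩ := (wellFounded_gt : WellFounded ((· > ·) : Submodule F A → Submodule F A → Prop)).has_min 𝒮 hne
  set S : Submodule F (G → F) := S₁.map A.subtype with hS
  have hSA : S ≤ A := by
    rintro _ ⟨f, _, rfl⟩
    exact f.2
  have hSfin : Module.Finite F S := Module.Finite.map S₁ A.subtype
  have hmax' : ∀ T : Submodule F (G → F), T ≤ A → S ≤ T → μ (ZZ T) ≠ 0 → T = S := by
    intro T hT hST hTμ
    have h1 : (T.comap A.subtype).map A.subtype = T := by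
      rw [Submodule.map_comap_subtype]
      exact inf_eq_right.2 hT
    have h2 : S₁ ≤ T.comap A.subtype := by
      intro f hf
      exact hST ⟨f, hf, rfl⟩
    have h3 : ¬ (T.comap A.subtype > S₁) := hmax _ ⟨by
      rw [h1]
      exact hST hS₁, by
      rw [h1]
      exact hTμ⟩
    have h4 : T.comap A.subtype = S₁ := by
      by_contra hne'
      exact h3 (lt_of_le_of_ne h2 (Ne.symm hne'))
    rw [← h1, h4]
  set c := μ (ZZ S) with hc
  -- translates
  let St : G → Submodule F (G → F) := fun g => S.map (tau (F := F) g).toLinearMap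
  have hStA : ∀ g, St g ≤ A := by
    rintro g _ ⟨f, hf, rfl⟩
    exact hAt g f (hSA hf)
  have hStμ : ∀ g, μ (ZZ (St g)) = c := by
    intro g
    rw [ZZ_map]
    exact measure_preimage_mul μ g _
  have hfr : ∀ g, Module.finrank F (St g) = Module.finrank F S := fun g =>
    LinearEquiv.finrank_eq ((tau (F := F) g).submoduleMap S).symm
  have hnull : ∀ g, St g ≠ S → μ (ZZ S ∩ ZZ (St g)) = 0 := by
    intro g hg
    by_contra hcon
    rw [← ZZ_sup] at hcon
    have h1 := hmax' (S ⊔ St g) (sup_le hSA (hStA g)) le_sup_left hcon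
    have h2 : St g ≤ S := by
      rw [← h1]
      exact le_sup_right
    exact hg (Submodule.eq_of_le_of_finrank_eq h2 (hfr g))
  have hnull2 : ∀ g h, St g ≠ St h → μ (ZZ (St g) ∩ ZZ (St h)) = 0 := by
    intro g h hgh
    have h1 : ZZ (St g) ∩ ZZ (St h) = (fun x => g * x) ⁻¹' (ZZ S ∩ ZZ (St (h * g⁻¹))) := by
      have h2 : St h = (St (h * g⁻¹)).map (tau (F := F) g).toLinearMap := by
        change _ = (S.map (tau (F := F) (h * g⁻¹)).toLinearMap).map (tau (F := F) g).toLinearMap
        rw [← tau_mul, inv_mul_cancel_right]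
      have e1 : ZZ (St g) = (fun x => g * x) ⁻¹' ZZ S := ZZ_map g S
      have e2 : ZZ (St h) = (fun x => g * x) ⁻¹' ZZ (St (h * g⁻¹)) := by
        rw [h2]
        exact ZZ_map g _
      rw [e1, e2, Set.preimage_inter]
    rw [h1, measure_preimage_mul]
    apply hnull
    intro h3
    apply hgh
    have h4 : St h = (St (h * g⁻¹)).map (tau (F := F) g).toLinearMap := by
      change _ = (S.map (tau (F := F) (h * g⁻¹)).toLinearMap).map (tau (F := F) g).toLinearMap
      rw [← tau_mul, inv_mul_cancel_right]
    rw [h4, h3]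
  -- the stabilizer
  let H : Subgroup G :=
    { carrier := {g | St g = S}
      mul_mem' := by
        intro g h hg hh
        change S.map (tau (F := F) (g * h)).toLinearMap = S
        rw [tau_mul]
        change (St g).map (tau (F := F) h).toLinearMap = S
        rw [show St g = S from hg]
        exact hh
      one_mem' := tau_one S
      inv_mem' := by
        intro g hg
        change S.map (tau (F := F) g⁻¹).toLinearMap = S
        conv_lhs => rw [← show St g = S from hg]
        change (S.map (tau (F := F) g).toLinearMap).map (tau (F := F) g⁻¹).toLinearMap = S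
        rw [← tau_mul, mul_inv_cancel, tau_one] }
  have hfinr : (Set.range fun g : G => St g).Finite := by
    by_contra hinf
    have hc0 : c ≠ 0 := hS₁μ
    have hcard : ∀ N : ℕ, (N : ENNReal) * c ≤ μ Set.univ := by
      intro N
      obtain ⟨T, hT, hTN⟩ := (Set.Infinite.exists_subset_card_eq hinf N)
      have hT' : ∀ t ∈ T, ∃ g, St g = t := fun t ht => hT ht
      choose! gg hgg using hT'
      have h1 : μ (⋃ t ∈ T, ZZ (St (gg t))) = ∑ t ∈ T, μ (ZZ (St (gg t))) := by
        apply measure_biUnion_finset₀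
        · intro s hs t ht hst
          apply hnull2
          intro h
          apply hst
          have h2 : St (gg s) = s := hgg s hs
          have h3 : St (gg t) = t := hgg t ht
          rw [← h2, ← h3, h]
        · intro t _
          exact (hclosed _ (hStA _)).measurableSet.nullMeasurableSet
      have h2 : ∑ t ∈ T, μ (ZZ (St (gg t))) = N * c := by
        rw [Finset.sum_congr rfl fun t _ => hStμ (gg t), Finset.sum_const, hTN, nsmul_eq_mul]
      rw [← h2, ← h1]
      exact measure_mono (Set.subset_univ _)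
    have hun : μ Set.univ ≠ ⊤ := measure_ne_top μ _
    obtain ⟨N, hN⟩ := ENNReal.exists_nat_mul_gt hc0 hun
    exact absurd (hcard N) (not_le.2 hN)
  have hHfin : Finite (G ⧸ H) := by
    have hfs : Finite (Set.range fun g : G => St g) := hfinr.to_subtype
    let φ : G ⧸ H → Set.range fun g : G => St g := fun x => ⟨St (x.out)⁻¹, ⟨_, rfl⟩⟩
    refine Finite.of_injective φ ?_
    intro x y hxy
    have h1 : St (x.out)⁻¹ = St (y.out)⁻¹ := congrArg Subtype.val hxy
    rw [← Quotient.out_eq x, ← Quotient.out_eq y]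
    apply QuotientGroup.eq.2
    change St ((x.out)⁻¹ * y.out) = S
    change S.map (tau (F := F) ((x.out)⁻¹ * y.out)).toLinearMap = S
    rw [tau_mul]
    change (St (x.out)⁻¹).map (tau (F := F) y.out).toLinearMap = S
    rw [h1]
    change (S.map (tau (F := F) (y.out)⁻¹).toLinearMap).map (tau (F := F) y.out).toLinearMap = S
    rw [← tau_mul, inv_mul_cancel, tau_one]
  have hHfi : H.FiniteIndex := Subgroup.finiteIndex_of_finite_quotient
  have hHc : H.topologicalClosure.FiniteIndex := Subgroup.finiteIndex_of_le H.le_topologicalClosure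
  obtain ⟨x₀, hx₀⟩ : (ZZ S).Nonempty := nonempty_of_measure_ne_zero hS₁μ
  refine ⟨H.topologicalClosure, x₀,
    Subgroup.isOpen_of_isClosed_of_finiteIndex _ H.isClosed_topologicalClosure, ?_⟩
  have h1 : IsClosed {h : G | f₀ (h * x₀) = 0} :=
    isClosed_singleton.preimage ((hA f₀ hf₀).comp (continuous_id.mul continuous_const))
  have h2 : (H : Set G) ⊆ {h : G | f₀ (h * x₀) = 0} := by
    intro h hh
    have h3 : tau h f₀ ∈ S := by
      have h4 : tau h f₀ ∈ St h := ⟨f₀, hS₁, rfl⟩
      rwa [show St h = S from hh] at h4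
    exact hx₀ _ h3
  intro h hh
  exact closure_minimal h2 h1 hh

end main

end Pool.Agent.R401.Hm
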