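import Pool.Agent.R401.Dens

/-!
# The mean square of the traces and finitely many values
-/

set_option autoImplicit false
set_option maxHeartbeats 400000

namespace Pool.Agent.R401.RS

open NumberField Filter Topology Pool.Agent.R401.Dens

/-- The prime numbers up to `x` which are not in `B`. -/
def primesUpTo (B : Set ℕ) (x : ℕ) : Set ℕ := {p | p ≤ x ∧ p.Prime ∧ p ∉ B}

theorem finite_primesUpTo (B : Set ℕ) (x : ℕ) : (primesUpTo B x).Finite :=
  (Set.finite_Iic x).subset fun _ h => h.1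

variable {K : Type*} [Field K] [NumberField K]

theorem exists_finite (B : Set ℕ) (t : ℕ → 𝓞 K)
    (h : ∀ σ : K →+* ℂ, ∃ C : ℝ, ∀ x : ℕ,
      ∑ᶠ p ∈ primesUpTo B x, ‖σ (t p)‖ ^ 2 ≤ C * Nat.primeCounting x) {ε : ℝ} (hε : 0 < ε) :
    ∃ Y : Set (𝓞 K), Y.Finite ∧
      ∀ x : ℕ, (cnt {p | p ∉ B ∧ t p ∉ Y} x : ℝ) ≤ ε * Nat.primeCounting x := by
  classical
  choose C hC using h
  set C' : ℝ := ∑ σ : K →+* ℂ, |C σ| with hC'
  have hC'0 : 0 ≤ C' := Finset.sum_nonneg fun _ _ => abs_nonneg _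
  set M : ℝ := Real.sqrt (C' / ε) with hM
  have hM0 : 0 ≤ M := Real.sqrt_nonneg _
  have hM2 : M ^ 2 = C' / ε := Real.sq_sqrt (by positivity)
  refine ⟨{y : 𝓞 K | ∀ σ : K →+* ℂ, ‖σ y‖ ≤ M}, ?_, fun x => ?_⟩
  · have h1 := Embeddings.finite_of_norm_le K ℂ M
    refine Set.Finite.of_finite_image (f := fun y : 𝓞 K => (y : K)) (h1.subset ?_)
      (fun a _ b _ hab => RingOfIntegers.ext hab)
    rintro _ ⟨y, hy, rfl⟩
    exact ⟨y.isIntegral_coe, hy⟩
  · set s : Finset ℕ := (finite_primesUpTo B x).toFinset with hs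
    have hsum : ∀ σ : K →+* ℂ, ∑ p ∈ s, ‖σ (t p)‖ ^ 2 ≤ |C σ| * Nat.primeCounting x := by
      intro σ
      have h1 := hC σ x
      rw [finsum_mem_eq_finite_toFinset_sum _ (finite_primesUpTo B x)] at h1
      exact h1.trans (mul_le_mul_of_nonneg_right (le_abs_self _) (Nat.cast_nonneg _))
    have htot : ∑ p ∈ s, ∑ σ : K →+* ℂ, ‖σ (t p)‖ ^ 2 ≤ C' * Nat.primeCounting x := by
      rw [Finset.sum_comm, hC', Finset.sum_mul]
      exact Finset.sum_le_sum fun σ _ => hsum σ
    set s' : Finset ℕ := s.filter fun p => ¬ ∀ σ : K →+* ℂ, ‖σ (t p)‖ ≤ M with hs'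
    have hcnt : cnt {p | p ∉ B ∧ t p ∉ {y : 𝓞 K | ∀ σ : K →+* ℂ, ‖σ y‖ ≤ M}} x = s'.card := by
      unfold cnt
      refine Nat.subtype_card s' fun p => ?_
      rw [hs', Finset.mem_filter, hs, Set.Finite.mem_toFinset]
      simp only [primesUpTo, Set.mem_setOf_eq]
      tauto
    rw [hcnt]
    rcases hC'0.eq_or_lt with h0 | h0
    · -- all traces vanish
      have hM0' : M = 0 := by rw [hM, ← h0, zero_div, Real.sqrt_zero]
      have h2 : s' = ∅ := by
        rw [Finset.eq_empty_iff_forall_notMem]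
        intro p hp
        rw [hs', Finset.mem_filter] at hp
        apply hp.2
        intro σ
        rw [← h0, zero_mul] at htot
        have h3 : ∑ σ : K →+* ℂ, ‖σ (t p)‖ ^ 2 ≤ 0 := by
          refine le_trans ?_ htot
          exact Finset.single_le_sum (f := fun p => ∑ σ : K →+* ℂ, ‖σ (t p)‖ ^ 2)
            (fun _ _ => Finset.sum_nonneg fun _ _ => by positivity) hp.1
        have h4 : ‖σ (t p)‖ ^ 2 ≤ 0 := by
          refine le_trans ?_ h3
          exact Finset.single_le_sum (f := fun σ : K →+* ℂ => ‖σ (t p)‖ ^ 2)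
            (fun _ _ => by positivity) (Finset.mem_univ σ)
        have h5 : ‖σ (t p)‖ = 0 := by nlinarith [norm_nonneg (σ (t p))]
        rw [h5]
        exact hM0
      rw [h2, Finset.card_empty, Nat.cast_zero]
      positivity
    · have h1 : (s'.card : ℝ) * M ^ 2 ≤ C' * Nat.primeCounting x := by
        refine le_trans ?_ htot
        rw [← nsmul_eq_mul, ← Finset.sum_const]
        refine (Finset.sum_le_sum (fun p hp => ?_)).trans
          (Finset.sum_le_sum_of_subset_of_nonneg (Finset.filter_subset _ _)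
            fun _ _ _ => Finset.sum_nonneg fun _ _ => by positivity)
        rw [hs', Finset.mem_filter] at hp
        obtain ⟨σ, hσ⟩ := not_forall.1 hp.2
        rw [not_le] at hσ
        refine le_trans ?_ (Finset.single_le_sum (f := fun σ : K →+* ℂ => ‖σ (t p)‖ ^ 2)
            (fun _ _ => by positivity) (Finset.mem_univ σ))
        exact pow_le_pow_left₀ hM0 hσ.le 2
      rw [hM2] at h1
      have h2 : (s'.card : ℝ) ≤ ε * Nat.primeCounting x := by
        have h3 : (s'.card : ℝ) * (C' / ε) = C' * (s'.card / ε) := by ring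
        rw [h3] at h1
        have h4 := le_of_mul_le_mul_left h1 h0
        rw [div_le_iff₀ hε] at h4
        linarith
      exact h2

end Pool.Agent.R401.RS
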