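import Pool.Agent.R401.Burn
import Pool.Agent.R401.RS

/-!
# A bound for the image of a semisimple Galois representation with few traces of Frobenius elements
-/

set_option autoImplicit false
set_option maxHeartbeats 400000

namespace Pool.Agent.R401.Img

open NumberField Filter Topology Pool.Agent.R401.Dens Pool.Agent.W569.FM Module

section act

variable {k : Type*} [Field k] {n : ℕ} {G : Type*} [Group G]

/-- the matrix -/
def mt (ρ : G →* GL (Fin n) k) (g : G) : Matrix (Fin n) (Fin n) k := (ρ g : GL (Fin n) k)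

theorem mt_mul (ρ : G →* GL (Fin n) k) (g h : G) : mt ρ (g * h) = mt ρ g * mt ρ h := by
  unfold mt
  rw [map_mul, Units.val_mul]

theorem mt_inj {ρ : G →* GL (Fin n) k} {g h : G} (H : mt ρ g = mt ρ h) : ρ g = ρ h := Units.ext H

/-- the action -/
noncomputable def act (ρ : G →* GL (Fin n) k) : G →* Module.End k (Fin n → k) :=
  ((Matrix.toLinAlgEquiv' : Matrix (Fin n) (Fin n) k ≃ₐ[k] _) :
    Matrix (Fin n) (Fin n) k →* Module.End k (Fin n → k)).comp ((Units.coeHom _).comp ρ)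

theorem act_apply (ρ : G →* GL (Fin n) k) (g : G) : act ρ g = Matrix.toLinAlgEquiv' (mt ρ g) := rfl

theorem act_eq (ρ : G →* GL (Fin n) k) (g : G) : act ρ g = Matrix.toLin' (mt ρ g) := rfl

theorem act_apply_apply (ρ : G →* GL (Fin n) k) (g : G) (x : Fin n → k) :
    act ρ g x = (mt ρ g).mulVec x := by
  rw [act_eq, Matrix.toLin'_apply]

theorem trace_act (ρ : G →* GL (Fin n) k) (g : G) :
    LinearMap.trace k _ (act ρ g) = (mt ρ g).trace := by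
  rw [act_eq, Matrix.trace_toLin'_eq]

theorem act_inj {ρ : G →* GL (Fin n) k} {g h : G} (H : act ρ g = act ρ h) : ρ g = ρ h := by
  rw [act_apply, act_apply] at H
  exact mt_inj (Matrix.toLinAlgEquiv'.injective H)

/-- a stable subspace -/
def Stab (ρ : G →* GL (Fin n) k) (W : Submodule k (Fin n → k)) : Prop :=
  ∀ g, ∀ x ∈ W, (mt ρ g).mulVec x ∈ W

/-- semisimple -/
def SS (ρ : G →* GL (Fin n) k) : Prop := ∀ W, Stab ρ W → ∃ W', Stab ρ W' ∧ IsCompl W W'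

theorem SS.act {ρ : G →* GL (Fin n) k} (h : SS ρ) (W : Submodule k (Fin n → k))
    (hW : ∀ g, ∀ x ∈ W, act ρ g x ∈ W) :
    ∃ W' : Submodule k (Fin n → k), (∀ g, ∀ x ∈ W', Img.act ρ g x ∈ W') ∧ IsCompl W W' := by
  obtain ⟨W', hW', hc⟩ := h W (fun g x hx => by
    have := hW g x hx
    rwa [act_apply_apply] at this)
  refine ⟨W', fun g x hx => ?_, hc⟩
  rw [act_apply_apply]
  exact hW' g x hx

end act

variable {k : Type*} [Field k] {n : ℕ}

/-- **Bounded image.** -/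
theorem bound (hk : ∀ m : ℕ, 0 < m → m ≤ n → (m : k) ≠ 0) (ρ : GF ℚ →* GL (Fin n) k)
    (hker : IsOpen (ρ.ker : Set (GF ℚ))) (hss : SS ρ) {Y : Set k} (hY : Y.Finite) (X : Set ℕ)
    (hX : ∀ p : ℕ, p.Prime → p ∉ X → ∀ P : Ideal (OO ℚ), P.IsMaximal → (p : OO ℚ) ∈ P →
      ∀ g, FrobAt p P g → (mt ρ g⁻¹).trace ∈ Y)
    (hε : ∀ᶠ N : ℕ in atTop, (cnt X N : ℝ) ≤ 1 / (2 * (n ^ 2 + 1)) * Nat.primeCounting N) :
    Nat.card (GF ℚ ⧸ ρ.ker) ≤ 2 * (Y.ncard + 1) ^ (n ^ 2) := by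
  classical
  have hk' : ∀ m : ℕ, 0 < m → m ≤ finrank k (Fin n → k) → (m : k) ≠ 0 := by
    intro m h1 h2
    rw [finrank_fin_fun] at h2
    exact hk m h1 h2
  obtain ⟨m, h, hm, -, hsep⟩ := Burn.exists_family hk' (act ρ) (fun W hW => hss.act W hW)
  rw [finrank_fin_fun] at hm
  have hfin : Finite (GF ℚ ⧸ ρ.ker) := Subgroup.quotient_finite_of_isOpen _ hker
  have hYf : Finite Y := hY
  -- the bad set
  set C : Set (GF ℚ) := {σ | (mt ρ σ⁻¹).trace ∉ Y} with hCdef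
  have hC : ∀ σ ∈ C, ∀ τ : GF ℚ, τ * σ * τ⁻¹ ∈ C := by
    intro σ hσ τ
    have h1 : (mt ρ (τ * σ * τ⁻¹)⁻¹).trace = (mt ρ σ⁻¹).trace := by
      have h2 : (τ * σ * τ⁻¹)⁻¹ = τ * (σ⁻¹ * τ⁻¹) := by group
      rw [h2, mt_mul, Matrix.trace_mul_comm, ← mt_mul, inv_mul_cancel_right]
    change (mt ρ (τ * σ * τ⁻¹)⁻¹).trace ∉ Y
    rw [h1]
    exact hσ
  have hCU : ∀ σ ∈ C, ∀ u ∈ ρ.ker, σ * u ∈ C := by
    intro σ hσ u hu
    have h1 : mt ρ (σ * u)⁻¹ = mt ρ σ⁻¹ := by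
      unfold mt
      rw [map_inv, map_mul, MonoidHom.mem_ker.1 hu, mul_one, ← map_inv]
    change (mt ρ (σ * u)⁻¹).trace ∉ Y
    rw [h1]
    exact hσ
  have hle := card_le ρ.ker hker C hC hCU X (by
    intro p hp P hP hpP g hg hgF
    by_contra hcon
    exact hg (hX p hp hcon P hP hpP g hgF)) _ hε
  set D : Set (GF ℚ ⧸ ρ.ker) := (QuotientGroup.mk : GF ℚ → GF ℚ ⧸ ρ.ker) '' C with hD
  have hmemD : ∀ a : GF ℚ, (a : GF ℚ ⧸ ρ.ker) ∈ D → a ∈ C := by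
    rintro a ⟨b, hb, hab⟩
    rw [QuotientGroup.eq] at hab
    have := hCU b hb _ hab
    rwa [mul_inv_cancel_left] at this
  -- the function
  set τ : (GF ℚ ⧸ ρ.ker) → Fin m → Option Y := fun a j =>
    if hh : (mt ρ ((a * ((h j)⁻¹ : GF ℚ) : GF ℚ ⧸ ρ.ker).out)⁻¹).trace ∈ Y then some ⟨_, hh⟩
    else none with hτ
  have hout : ∀ a : GF ℚ, (mt ρ ((a : GF ℚ ⧸ ρ.ker).out)⁻¹) = mt ρ a⁻¹ := by
    intro a
    have h1 : (((a : GF ℚ ⧸ ρ.ker).out : GF ℚ) : GF ℚ ⧸ ρ.ker) = (a : GF ℚ ⧸ ρ.ker) :=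
      Quotient.out_eq _
    rw [QuotientGroup.eq, MonoidHom.mem_ker, map_mul] at h1
    unfold mt
    rw [mul_eq_one_iff_eq_inv, ← map_inv] at h1
    rw [h1]
  have hcount := Burn.count (⊥ : Subgroup (GF ℚ ⧸ ρ.ker)) D
    (fun j => (((h j)⁻¹ : GF ℚ) : GF ℚ ⧸ ρ.ker)) τ (by
    intro a b ha hb hab
    rw [Subgroup.mem_bot, inv_mul_eq_one]
    induction a using QuotientGroup.induction_on with
    | H a =>
    induction b using QuotientGroup.induction_on with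
    | H b =>
    have h1 : act ρ a⁻¹ = act ρ b⁻¹ := by
      apply hsep
      intro j
      have h2 := congrFun hab j
      simp only [hτ] at h2
      have h3 : ∀ c : GF ℚ, ((c : GF ℚ ⧸ ρ.ker) * (((h j)⁻¹ : GF ℚ) : GF ℚ ⧸ ρ.ker)) =
          ((c * (h j)⁻¹ : GF ℚ) : GF ℚ ⧸ ρ.ker) := fun c => rfl
      rw [h3, h3] at h2
      have ha' : (mt ρ (a * (h j)⁻¹)⁻¹).trace ∈ Y := by
        by_contra hcon
        exact ha j ⟨_, hcon, rfl⟩
      have hb' : (mt ρ (b * (h j)⁻¹)⁻¹).trace ∈ Y := by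
        by_contra hcon
        exact hb j ⟨_, hcon, rfl⟩
      simp only [hout] at h2
      rw [dif_pos ha', dif_pos hb'] at h2
      have h4 : (mt ρ (a * (h j)⁻¹)⁻¹).trace = (mt ρ (b * (h j)⁻¹)⁻¹).trace :=
        congrArg Subtype.val (Option.some.inj h2)
      rw [trace_act, trace_act, mt_mul, mt_mul, Matrix.trace_mul_comm, ← mt_mul,
        Matrix.trace_mul_comm (mt ρ b⁻¹), ← mt_mul]
      rwa [mul_inv_rev, mul_inv_rev, inv_inv] at h4
    have h2 := act_inj h1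
    rw [map_inv, map_inv, inv_inj] at h2
    rw [QuotientGroup.eq, MonoidHom.mem_ker, map_mul, map_inv, h2, inv_mul_cancel])
  have hcard : Nat.card (Option Y) = Y.ncard + 1 := by
    have : Fintype Y := Fintype.ofFinite Y
    rw [Nat.card_eq_fintype_card, Fintype.card_option, ← Nat.card_eq_fintype_card]
    rfl
  have hbot : Nat.card (⊥ : Subgroup (GF ℚ ⧸ ρ.ker)) = 1 := Subgroup.card_bot
  rw [hcard, hbot, mul_one] at hcount
  have h1 : (m : ℝ) * D.ncard ≤ Nat.card (GF ℚ ⧸ ρ.ker) / 2 := by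
    have h2 : (m : ℝ) ≤ n ^ 2 + 1 := by
      have : (m : ℝ) ≤ (n : ℝ) ^ 2 := by exact_mod_cast hm
      linarith
    calc (m : ℝ) * D.ncard ≤ (n ^ 2 + 1) * (1 / (2 * (n ^ 2 + 1)) * Nat.card (GF ℚ ⧸ ρ.ker)) := by
          apply mul_le_mul h2 hle (Nat.cast_nonneg _)
          positivity
      _ = Nat.card (GF ℚ ⧸ ρ.ker) / 2 := by
          field_simp
  have h2 : (Nat.card (GF ℚ ⧸ ρ.ker) : ℝ) ≤ (Y.ncard + 1) ^ m + m * D.ncard := by
    exact_mod_cast hcount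
  have h3 : (Nat.card (GF ℚ ⧸ ρ.ker) : ℝ) ≤ 2 * (Y.ncard + 1) ^ m := by linarith
  have h4 : Nat.card (GF ℚ ⧸ ρ.ker) ≤ 2 * (Y.ncard + 1) ^ m := by exact_mod_cast h3
  refine h4.trans (Nat.mul_le_mul_left _ (Nat.pow_le_pow_right (Nat.succ_pos _) hm))

end Pool.Agent.R401.Img
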