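import Pool.Agent.R401.Pf

/-!
# Potential subquotients are subquotients of the tensor product with a permutation representation
-/

set_option autoImplicit false
set_option maxHeartbeats 400000

namespace Pool.Agent.R401.Ind

open Matrix Pool.Agent.R401.Img

section alg

variable {G : Type*} [Group G] {k : Type*} [Field k] {n m : ℕ}

/-- action on functions on `G / H` -/
def act (H : Subgroup G) (W : G →* GL (Fin m) k) (g : G) (y : G ⧸ H → Fin m → k) :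
    G ⧸ H → Fin m → k := fun x => mt W g *ᵥ y (g⁻¹ • x)

theorem mt_inv_mulVec (W : G →* GL (Fin m) k) (g : G) (x : Fin m → k) :
    mt W g⁻¹ *ᵥ (mt W g *ᵥ x) = x := by
  rw [Matrix.mulVec_mulVec, ← mt_mul, inv_mul_cancel]
  change ((W 1 : GL (Fin m) k) : Matrix (Fin m) (Fin m) k) *ᵥ x = x
  rw [map_one, Units.val_one, one_mulVec]

theorem mt_mulVec_mulVec (W : G →* GL (Fin m) k) (g h : G) (x : Fin m → k) :
    mt W g *ᵥ (mt W h *ᵥ x) = mt W (g * h) *ᵥ x := by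
  rw [Matrix.mulVec_mulVec, ← mt_mul]

theorem induced (H : Subgroup G) [Finite (G ⧸ H)] (V : G →* GL (Fin n) k) (W : G →* GL (Fin m) k)
    (Y₀ : Submodule k (Fin m → k)) (f₀ : (Fin m → k) →ₗ[k] (Fin n → k))
    (hY : ∀ h ∈ H, ∀ y ∈ Y₀, mt W h *ᵥ y ∈ Y₀) (hf : Y₀.map f₀ = ⊤)
    (he : ∀ h ∈ H, ∀ y ∈ Y₀, f₀ (mt W h *ᵥ y) = mt V h *ᵥ f₀ y) :
    ∃ (Y : Submodule k (G ⧸ H → Fin m → k)) (f : (G ⧸ H → Fin m → k) →ₗ[k] (Fin n → k)),
      (∀ g, ∀ y ∈ Y, act H W g y ∈ Y) ∧ Y.map f = ⊤ ∧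
      ∀ g, ∀ y ∈ Y, f (act H W g y) = mt V g *ᵥ f y := by
  classical
  have := Fintype.ofFinite (G ⧸ H)
  let Y : Submodule k (G ⧸ H → Fin m → k) :=
    { carrier := {y | ∀ g : G, mt W g⁻¹ *ᵥ y (g : G ⧸ H) ∈ Y₀}
      add_mem' := by
        intro a b ha hb g
        rw [Pi.add_apply, mulVec_add]
        exact Y₀.add_mem (ha g) (hb g)
      zero_mem' := by
        intro g
        rw [Pi.zero_apply, mulVec_zero]
        exact Y₀.zero_mem
      smul_mem' := by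
        intro c a ha g
        rw [Pi.smul_apply, mulVec_smul]
        exact Y₀.smul_mem c (ha g) }
  let f : (G ⧸ H → Fin m → k) →ₗ[k] (Fin n → k) :=
    ∑ x : G ⧸ H, (Matrix.mulVecLin (mt V x.out)) ∘ₗ f₀ ∘ₗ (Matrix.mulVecLin (mt W x.out⁻¹)) ∘ₗ
      LinearMap.proj x
  have hfv : ∀ y, f y = ∑ x : G ⧸ H, mt V x.out *ᵥ f₀ (mt W x.out⁻¹ *ᵥ y x) := by
    intro y
    change (∑ x : G ⧸ H, (Matrix.mulVecLin (mt V x.out)) ∘ₗ f₀ ∘ₗ
      (Matrix.mulVecLin (mt W x.out⁻¹)) ∘ₗ LinearMap.proj x) y = _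
    rw [LinearMap.sum_apply]
    rfl
  -- independence of the representative
  have hrep : ∀ y ∈ Y, ∀ (g : G) (x : G ⧸ H), (g : G ⧸ H) = x →
      mt V g *ᵥ f₀ (mt W g⁻¹ *ᵥ y x) = mt V x.out *ᵥ f₀ (mt W x.out⁻¹ *ᵥ y x) := by
    intro y hy g x hgx
    obtain ⟨h, hh⟩ : ∃ h : H, g = x.out * h := by
      have h1 : (x.out : G ⧸ H) = (g : G ⧸ H) := by rw [hgx, QuotientGroup.out_eq']
      exact ⟨⟨(x.out)⁻¹ * g, QuotientGroup.eq.1 h1⟩, by simp⟩
    have hz : mt W x.out⁻¹ *ᵥ y x ∈ Y₀ := by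
      have := hy x.out
      rwa [QuotientGroup.out_eq'] at this
    rw [hh, _root_.mul_inv_rev, ← mt_mulVec_mulVec W, he _ (H.inv_mem h.2) _ hz, mt_mulVec_mulVec V]
    congr 2
    group
  have hstab : ∀ g, ∀ y ∈ Y, act H W g y ∈ Y := by
    intro a y hy g
    change mt W g⁻¹ *ᵥ (mt W a *ᵥ y (a⁻¹ • (g : G ⧸ H))) ∈ Y₀
    rw [mt_mulVec_mulVec]
    have := hy (a⁻¹ * g)
    rw [_root_.mul_inv_rev, inv_inv] at this
    exact this
  refine ⟨Y, f, hstab, ?_, ?_⟩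
  · rw [eq_top_iff]
    rintro v -
    obtain ⟨y₀, hy₀, rfl⟩ : v ∈ Y₀.map f₀ := by rw [hf]; trivial
    refine ⟨Pi.single ((1 : G) : G ⧸ H) y₀, ?_, ?_⟩
    · intro g
      by_cases hg : (g : G ⧸ H) = ((1 : G) : G ⧸ H)
      · rw [hg, Pi.single_eq_same]
        apply hY _ _ _ hy₀
        rw [QuotientGroup.eq, mul_one] at hg
        exact hg
      · rw [Pi.single_eq_of_ne hg, mulVec_zero]
        exact Y₀.zero_mem
    · rw [hfv, Finset.sum_eq_single ((1 : G) : G ⧸ H)]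
      · rw [Pi.single_eq_same]
        have h1 : (((1 : G) : G ⧸ H).out)⁻¹ ∈ H := by
          have h2 : ((((1 : G) : G ⧸ H).out : G) : G ⧸ H) = ((1 : G) : G ⧸ H) :=
            QuotientGroup.out_eq' _
          rw [QuotientGroup.eq, mul_one] at h2
          exact h2
        rw [he _ h1 _ hy₀, mt_mulVec_mulVec, mul_inv_cancel]
        change ((V 1 : GL (Fin n) k) : Matrix (Fin n) (Fin n) k) *ᵥ f₀ y₀ = f₀ y₀
        rw [map_one, Units.val_one, one_mulVec]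
      · intro x _ hx
        rw [Pi.single_eq_of_ne hx, mulVec_zero, map_zero, mulVec_zero]
      · intro h
        exact absurd (Finset.mem_univ _) h
  · intro a y hy
    rw [hfv, hfv, Matrix.mulVec_sum]
    rw [← Equiv.sum_comp (MulAction.toPerm a : Equiv.Perm (G ⧸ H))]
    refine Finset.sum_congr rfl fun x _ => ?_
    change mt V (a • x).out *ᵥ f₀ (mt W (a • x).out⁻¹ *ᵥ (act H W a y) (a • x)) = _
    rw [← hrep _ (hstab a y hy) (a * x.out) (a • x) (by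
      rw [show ((a * x.out : G) : G ⧸ H) = a • ((x.out : G) : G ⧸ H) from rfl,
        QuotientGroup.out_eq'])]
    have h1 : act H W a y (a • x) = mt W a *ᵥ y x := by
      change mt W a *ᵥ y (a⁻¹ • a • x) = _
      rw [inv_smul_smul]
    rw [h1, mt_mulVec_mulVec W, mt_mulVec_mulVec V]
    congr 3
    group

end alg

end Pool.Agent.R401.Ind
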