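import Mathlib

/-!
# The algebraic closure of the `ℓ`-adic numbers is isomorphic to the complex numbers
-/

set_option autoImplicit false
set_option maxHeartbeats 400000

namespace Pool.Agent.R401.Iso

open Cardinal

theorem mk_padic (ℓ : ℕ) [Fact ℓ.Prime] : #ℚ_[ℓ] = 𝔠 := by
  apply le_antisymm
  · have h1 : #ℚ_[ℓ] ≤ #(CauSeq ℚ (padicNorm ℓ)) := Cardinal.mk_quotient_le
    have h2 : #(CauSeq ℚ (padicNorm ℓ)) ≤ #(ℕ → ℚ) := Cardinal.mk_subtype_le _
    refine h1.trans (h2.trans ?_)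
    rw [Cardinal.mk_arrow]
    simp
  · exact continuum_le_cardinal_of_nontriviallyNormedField ℚ_[ℓ]

theorem mk_algCl (ℓ : ℕ) [Fact ℓ.Prime] : #(PadicAlgCl ℓ) = 𝔠 := by
  apply le_antisymm
  · refine (Algebra.IsAlgebraic.cardinalMk_le_max ℚ_[ℓ] (PadicAlgCl ℓ)).trans ?_
    rw [mk_padic]
    exact max_le le_rfl Cardinal.aleph0_le_continuum
  · rw [← mk_padic ℓ]
    exact Cardinal.mk_le_of_injective (algebraMap ℚ_[ℓ] (PadicAlgCl ℓ)).injective

theorem exists_iso (ℓ : ℕ) [Fact ℓ.Prime] : Nonempty (PadicAlgCl ℓ ≃+* ℂ) := by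
  apply IsAlgClosed.ringEquiv_of_equiv_of_charZero
  · rw [mk_algCl]
    exact Cardinal.aleph0_lt_continuum
  · rw [← Cardinal.eq, mk_algCl, Cardinal.mk_complex]

end Pool.Agent.R401.Iso
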