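import Pool.Agent.R401.Sbq

/-!
# Traces which agree on a coset
-/

set_option autoImplicit false
set_option maxHeartbeats 400000

namespace Pool.Agent.R401.Pd

open Module Matrix Pool.Agent.R401.Sbq

variable {G : Type*} [Group G] {k : Type*} [Field k] {n m : ℕ}

/-- full matrix algebra -/
def Full (R : G →* Matrix (Fin n) (Fin n) k) : Prop :=
  Submodule.span k (Set.range fun g => R g) = ⊤

theorem Full.irr {R : G →* Matrix (Fin n) (Fin n) k} (hR : Full R) (hn : 0 < n) : Irr R := by
  refine ⟨hn, fun X hX => ?_⟩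
  by_cases h0 : X = ⊥
  · exact Or.inl h0
  right
  obtain ⟨x, hx, hx0⟩ := Submodule.exists_mem_ne_zero_of_ne_bot h0
  have h1 : ∀ M : Matrix (Fin n) (Fin n) k, ∀ x ∈ X, M *ᵥ x ∈ X := by
    intro M
    have h2 : M ∈ Submodule.span k (Set.range fun g => R g) := by
      rw [show Submodule.span k (Set.range fun g => R g) = ⊤ from hR]
      trivial
    induction h2 using Submodule.span_induction with
    | mem M hM =>
      obtain ⟨g, rfl⟩ := hM
      exact hX g
    | zero =>
      intro x _
      rw [Matrix.zero_mulVec]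
      exact X.zero_mem
    | add A B _ _ hA hB =>
      intro x hx
      rw [Matrix.add_mulVec]
      exact X.add_mem (hA x hx) (hB x hx)
    | smul c A _ hA =>
      intro x hx
      rw [Matrix.smul_mulVec]
      exact X.smul_mem c (hA x hx)
  obtain ⟨i, hi⟩ : ∃ i, x i ≠ 0 := by
    by_contra hcon
    push Not at hcon
    exact hx0 (funext hcon)
  rw [eq_top_iff]
  intro y _
  have h2 : (Matrix.of fun r s => if s = i then y r * (x i)⁻¹ else 0) *ᵥ x = y := by
    ext r
    rw [Matrix.mulVec, dotProduct, Finset.sum_eq_single i]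
    · simp only [Matrix.of_apply, if_true]
      rw [mul_assoc, inv_mul_cancel₀ hi, mul_one]
    · intro s _ hs
      simp only [Matrix.of_apply, if_neg hs, zero_mul]
    · intro h
      exact absurd (Finset.mem_univ i) h
  rw [← h2]
  exact h1 _ x hx

variable (R : G →* Matrix (Fin n) (Fin n) k) (S : G →* Matrix (Fin m) (Fin m) k)

/-- **Traces which agree on a coset.** -/
theorem isSub_of_coset (hR : Full R) (hn : 0 < n) (X₁ : Matrix (Fin n) (Fin n) k)
    (X₂ : Matrix (Fin m) (Fin m) k) (hX : IsUnit X₁) (z y : k)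
    (h : ∀ g, (R g * X₁).trace - z * (S g * X₂).trace = y) (hne : ∃ g, R g ≠ 1) : IsSub R S := by
  classical
  apply isSub_of_inj R S (hR.irr hn)
  intro a ha
  by_contra ha0
  obtain ⟨g₀, hg₀⟩ := hne
  -- the functional
  have hΨ : ∀ b ∈ BB R S, ∀ g, (b.1 * (R g - 1) * X₁).trace - z * (b.2 * (S g - 1) * X₂).trace = 0 := by
    intro b hb
    unfold BB at hb
    induction hb using Submodule.span_induction with
    | mem b hb =>
      obtain ⟨x, rfl⟩ := hb
      intro g
      have h1 := h (x * g)
      have h2 := h x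
      rw [map_mul, map_mul] at h1
      simp only [mul_sub, sub_mul, mul_one, Matrix.trace_sub]
      linear_combination h1 - h2
    | zero =>
      intro g
      simp
    | add p q _ _ hp hq =>
      intro g
      have h1 := hp g
      have h2 := hq g
      simp only [Prod.fst_add, Prod.snd_add, add_mul, Matrix.trace_add]
      linear_combination h1 + h2
    | smul c p _ hp =>
      intro g
      have h1 := hp g
      simp only [Prod.smul_fst, Prod.smul_snd, smul_mul_assoc, Matrix.trace_smul, smul_eq_mul]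
      linear_combination c * h1
  -- all matrices are first components
  have hall : ∀ M : Matrix (Fin n) (Fin n) k, ∃ M' : Matrix (Fin m) (Fin m) k, (M, M') ∈ BB R S := by
    intro M
    have h2 : M ∈ Submodule.span k (Set.range fun g => R g) := by
      rw [show Submodule.span k (Set.range fun g => R g) = ⊤ from hR]
      trivial
    induction h2 using Submodule.span_induction with
    | mem M hM =>
      obtain ⟨g, rfl⟩ := hM
      exact ⟨S g, mem_BB R S g⟩
    | zero => exact ⟨0, (BB R S).zero_mem⟩
    | add A B _ _ hA hB =>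
      obtain ⟨A', hA'⟩ := hA
      obtain ⟨B', hB'⟩ := hB
      exact ⟨A' + B', (BB R S).add_mem hA' hB'⟩
    | smul c A _ hA =>
      obtain ⟨A', hA'⟩ := hA
      exact ⟨c • A', (BB R S).smul_mem c hA'⟩
  have hmul : ∀ M₁ M₂ : Matrix (Fin n) (Fin n) k, (M₁ * a * M₂ * (R g₀ - 1) * X₁).trace = 0 := by
    intro M₁ M₂
    obtain ⟨M₁', h1⟩ := hall M₁
    obtain ⟨M₂', h2⟩ := hall M₂
    have h3 := mul_mem_BB R S (mul_mem_BB R S h1 ha) h2
    rw [Prod.mk_mul_mk, Prod.mk_mul_mk, mul_zero, zero_mul] at h3
    have h4 := hΨ _ h3 g₀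
    rwa [zero_mul, zero_mul, Matrix.trace_zero, mul_zero, sub_zero] at h4
  obtain ⟨p, q, hpq⟩ : ∃ p q, a p q ≠ 0 := by
    by_contra hcon
    push Not at hcon
    exact ha0 (Matrix.ext hcon)
  obtain ⟨i, j, hij⟩ : ∃ i j, ((R g₀ - 1) * X₁) i j ≠ 0 := by
    by_contra hcon
    push Not at hcon
    have h1 : (R g₀ - 1) * X₁ = 0 := Matrix.ext hcon
    have h2 : R g₀ - 1 = 0 := (hX.mul_left_eq_zero).1 h1
    exact hg₀ (sub_eq_zero.1 h2)
  have h1 := hmul (Matrix.single j p 1) (Matrix.single q i 1)
  have h2 : (Matrix.single j p 1 * a * Matrix.single q i 1 * (R g₀ - 1) * X₁) =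
      Matrix.single j i (a p q) * ((R g₀ - 1) * X₁) := by
    have h3 : Matrix.single j p (1 : k) * a * Matrix.single q i 1 = Matrix.single j i (a p q) := by
      rw [Matrix.single_mul_mul_single, one_mul, mul_one]
    rw [h3, mul_assoc]
  rw [h2, Matrix.trace_single_mul] at h1
  exact mul_ne_zero hpq hij h1

end Pool.Agent.R401.Pd
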