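import Pool.Agent.R401.Pg

/-!
# Congruences at a set of places of positive upper density: conclusions
-/

set_option autoImplicit false
set_option maxHeartbeats 400000

namespace Pool.Agent.R401.Pf

open NumberField Filter Topology IsDedekindDomain Pool.Agent.W401.Cheb Pool.Agent.R401.Sup
open Pool.Agent.W569.FM Pool.Agent.R401.Img Pool.Agent.R401.Eng Pool.Agent.R401.Sup2
open Pool.Agent.R401.Sup3 Module Matrix Pool.Agent.R401.Sbq Pool.Agent.R401.Pd

section alg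

variable {G : Type*} [Group G] {k : Type*} [Field k] {n m : ℕ}

theorem Full.ne_one {R : G →* Matrix (Fin n) (Fin n) k} (hR : Full R) (hn : 2 ≤ n) :
    ∃ g, R g ≠ 1 := by
  by_contra hcon
  push Not at hcon
  let i : Fin n := ⟨0, by omega⟩
  let j : Fin n := ⟨1, by omega⟩
  have hij : i ≠ j := by
    intro h
    have := congrArg Fin.val h
    simp [i, j] at this
  have h1 : (Matrix.single i j (1 : k)) ∈ Submodule.span k (Set.range fun g => R g) := by
    rw [show Submodule.span k (Set.range fun g => R g) = ⊤ from hR]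
    trivial
  have h2 : (Set.range fun g => R g) ⊆ {(1 : Matrix (Fin n) (Fin n) k)} := by
    rintro _ ⟨g, rfl⟩
    exact hcon g
  obtain ⟨c, hc⟩ := Submodule.mem_span_singleton.1 (Submodule.span_mono h2 h1)
  have h3 := congrFun (congrFun hc i) j
  rw [Matrix.smul_apply, Matrix.one_apply_ne hij, smul_zero, Matrix.single_apply_same] at h3
  exact zero_ne_one h3

/-- a subquotient of the same dimension -/
theorem IsSub.iso {R S : G →* Matrix (Fin n) (Fin n) k} (h : IsSub R S) :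
    ∃ M : GL (Fin n) k, ∀ g, (M : Matrix (Fin n) (Fin n) k) * S g =
      R g * (M : Matrix (Fin n) (Fin n) k) := by
  classical
  obtain ⟨Y, f, hY, hf, hfg⟩ := h
  have hYtop : Y = ⊤ := by
    apply Submodule.eq_top_of_finrank_eq
    apply le_antisymm (Submodule.finrank_le Y)
    have h1 := Submodule.finrank_map_le f Y
    rw [hf, finrank_top] at h1
    exact h1
  have hsurj : Function.Surjective f := by
    rw [← LinearMap.range_eq_top, ← Submodule.map_top]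
    rwa [hYtop] at hf
  have hinj : Function.Injective f := LinearMap.injective_iff_surjective.2 hsurj
  let e : (Fin n → k) ≃ₗ[k] (Fin n → k) := LinearEquiv.ofBijective f ⟨hinj, hsurj⟩
  let M : GL (Fin n) k := ⟨LinearMap.toMatrix' e.toLinearMap, LinearMap.toMatrix' e.symm.toLinearMap,
    by
      rw [← LinearMap.toMatrix'_comp]
      have : e.toLinearMap ∘ₗ e.symm.toLinearMap = LinearMap.id := by
        ext x
        simp
      rw [this, LinearMap.toMatrix'_id], by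
      rw [← LinearMap.toMatrix'_comp]
      have : e.symm.toLinearMap ∘ₗ e.toLinearMap = LinearMap.id := by
        ext x
        simp
      rw [this, LinearMap.toMatrix'_id]⟩
  refine ⟨M, fun g => ?_⟩
  have hM : ∀ x, (M : Matrix (Fin n) (Fin n) k) *ᵥ x = f x := by
    intro x
    change LinearMap.toMatrix' e.toLinearMap *ᵥ x = f x
    rw [LinearMap.toMatrix'_mulVec]
    rfl
  have h1 : ∀ x, ((M : Matrix (Fin n) (Fin n) k) * S g) *ᵥ x =
      (R g * (M : Matrix (Fin n) (Fin n) k)) *ᵥ x := by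
    intro x
    rw [← Matrix.mulVec_mulVec, ← Matrix.mulVec_mulVec, hM, hM, hfg g x (by
      rw [hYtop]
      trivial)]
  exact Matrix.ext_of_mulVec_single fun i => h1 _

/-- **Twists.** -/
theorem twist {R S : G →* Matrix (Fin n) (Fin n) k} (hn : 0 < n) (H : Subgroup G) [hH : H.Normal]
    (hR : Full (R.comp H.subtype)) (M : GL (Fin n) k)
    (hM : ∀ h ∈ H, (M : Matrix (Fin n) (Fin n) k) * S h = R h * (M : Matrix (Fin n) (Fin n) k)) :
    ∃ χ : G →* kˣ, (∀ h ∈ H, χ h = 1) ∧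
      ∀ g, R g = (χ g : k) • ((M : Matrix (Fin n) (Fin n) k) * S g * (M⁻¹ : GL (Fin n) k)) := by
  classical
  have hMM : (M : Matrix (Fin n) (Fin n) k) * (M⁻¹ : GL (Fin n) k) = 1 := by
    rw [← Units.val_mul, mul_inv_cancel, Units.val_one]
  have hMM' : ((M⁻¹ : GL (Fin n) k) : Matrix (Fin n) (Fin n) k) * M = 1 := by
    rw [← Units.val_mul, inv_mul_cancel, Units.val_one]
  have hRi : ∀ g, R g⁻¹ * R g = 1 := fun g => by rw [← map_mul, inv_mul_cancel, map_one]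
  have hRi' : ∀ g, R g * R g⁻¹ = 1 := fun g => by rw [← map_mul, mul_inv_cancel, map_one]
  -- the conjugate
  let T : G →* Matrix (Fin n) (Fin n) k :=
    { toFun := fun g => (M : Matrix (Fin n) (Fin n) k) * S g * (M⁻¹ : GL (Fin n) k)
      map_one' := by rw [map_one, mul_one, hMM]
      map_mul' := by
        intro g h
        rw [map_mul]
        calc (M : Matrix (Fin n) (Fin n) k) * (S g * S h) * (M⁻¹ : GL (Fin n) k)
            = M * S g * 1 * S h * (M⁻¹ : GL (Fin n) k) := by rw [mul_one]; simp only [mul_assoc]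
          _ = M * S g * ((M⁻¹ : GL (Fin n) k) * M) * S h * (M⁻¹ : GL (Fin n) k) := by rw [hMM']
          _ = _ := by simp only [mul_assoc] }
  have hT : ∀ g, T g = (M : Matrix (Fin n) (Fin n) k) * S g * (M⁻¹ : GL (Fin n) k) := fun g => rfl
  have hTH : ∀ h ∈ H, T h = R h := by
    intro h hh
    rw [hT, hM h hh, mul_assoc, hMM, mul_one]
  have hTi : ∀ g, T g * T g⁻¹ = 1 := fun g => by rw [← map_mul, mul_inv_cancel, map_one]
  have hTi' : ∀ g, T g⁻¹ * T g = 1 := fun g => by rw [← map_mul, inv_mul_cancel, map_one]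
  have hcomm : ∀ g, ∀ h ∈ H, (T g⁻¹ * R g) * R h = R h * (T g⁻¹ * R g) := by
    intro g h hh
    have h1 : g * h * g⁻¹ ∈ H := hH.conj_mem h hh g
    have h2 : T (g * h * g⁻¹) = R (g * h * g⁻¹) := hTH _ h1
    rw [map_mul, map_mul, map_mul, map_mul, hTH h hh] at h2
    calc (T g⁻¹ * R g) * R h = T g⁻¹ * (R g * R h * R g⁻¹) * R g := by
          rw [mul_assoc (T g⁻¹) (R g * R h * R g⁻¹), mul_assoc (R g * R h) (R g⁻¹), hRi, mul_one,
            mul_assoc]
      _ = T g⁻¹ * (T g * R h * T g⁻¹) * R g := by rw [h2]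
      _ = (T g⁻¹ * T g) * R h * (T g⁻¹ * R g) := by simp only [mul_assoc]
      _ = _ := by rw [hTi', one_mul]
  have hall : ∀ g, ∀ X : Matrix (Fin n) (Fin n) k, (T g⁻¹ * R g) * X = X * (T g⁻¹ * R g) := by
    intro g X
    have h2 : X ∈ Submodule.span k (Set.range fun h : H => (R.comp H.subtype) h) := by
      rw [show Submodule.span k (Set.range fun h : H => (R.comp H.subtype) h) = ⊤ from hR]
      trivial
    induction h2 using Submodule.span_induction with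
    | mem X hX =>
      obtain ⟨h, rfl⟩ := hX
      exact hcomm g h h.2
    | zero => rw [mul_zero, zero_mul]
    | add A B _ _ hA hB => rw [mul_add, add_mul, hA, hB]
    | smul c A _ hA => rw [mul_smul_comm, smul_mul_assoc, hA]
  have hsc : ∀ g, ∃ c : k, T g⁻¹ * R g = c • (1 : Matrix (Fin n) (Fin n) k) := by
    intro g
    have h1 := Matrix.mem_range_scalar_of_commute_single (M := T g⁻¹ * R g)
      (fun i j _ => (hall g (Matrix.single i j 1)).symm)
    obtain ⟨c, hc⟩ := h1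
    refine ⟨c, ?_⟩
    rw [← hc, Matrix.scalar_apply, ← Matrix.smul_one_eq_diagonal]
  choose c hc using hsc
  have hRT : ∀ g, R g = c g • T g := by
    intro g
    have h1 := congrArg (fun X => T g * X) (hc g)
    simp only [← mul_assoc] at h1
    rw [hTi, one_mul, mul_smul_comm, mul_one] at h1
    exact h1
  have hinj : ∀ {a b : k} {g : G}, a • T g = b • T g → a = b := by
    intro a b g hab
    have h1 := congrArg (fun X => X * T g⁻¹) hab
    simp only [smul_mul_assoc, hTi] at h1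
    let i : Fin n := ⟨0, hn⟩
    have h2 := congrFun (congrFun h1 i) i
    rw [Matrix.smul_apply, Matrix.smul_apply, Matrix.one_apply_eq, smul_eq_mul, smul_eq_mul,
      mul_one, mul_one] at h2
    exact h2
  have hc1 : c 1 = 1 := by
    apply hinj (g := 1)
    rw [← hRT, map_one, map_one, one_smul]
  have hcm : ∀ g h, c (g * h) = c g * c h := by
    intro g h
    apply hinj (g := g * h)
    rw [← hRT, map_mul, map_mul, hRT g, hRT h, smul_mul_smul_comm]
  let χ : G →* kˣ :=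
    { toFun := fun g => ⟨c g, c g⁻¹, by rw [← hcm, mul_inv_cancel, hc1],
        by rw [← hcm, inv_mul_cancel, hc1]⟩
      map_one' := Units.ext hc1
      map_mul' := fun g h => Units.ext (hcm g h) }
  refine ⟨χ, fun h hh => Units.ext ?_, fun g => hRT g⟩
  change c h = 1
  apply hinj (g := h)
  rw [← hRT, hTH h hh, one_smul]

end alg

variable {K : Type} [Field K] [NumberField K]
variable {ℓ : ℕ} [Fact ℓ.Prime] {F : Type} [NormedField F] [NormedAlgebra ℚ_[ℓ] F] {n m : ℕ}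
variable {E : Type} [Field E] [NumberField E]

/-- strongly absolutely irreducible -/
def SF (ρ : GK K →* GL (Fin n) F) : Prop :=
  ∀ H : Subgroup (GK K), IsOpen (H : Set (GK K)) →
    Submodule.span F {X | ∃ h ∈ H, X = mt ρ h} = ⊤

theorem full_tw {ρ : GK K →* GL (Fin n) F} (hρ : SF ρ) (u : ℤ) (H : Subgroup (GK K))
    (hH : IsOpen (H : Set (GK K))) : Full ((Sup4.tw ρ (cyc K ℓ F) (-u)).comp H.subtype) := by
  unfold Full
  rw [eq_top_iff, ← hρ H hH, Submodule.span_le]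
  rintro _ ⟨h, hh, rfl⟩
  have h1 : Sup4.tw ρ (cyc K ℓ F) (-u) h ∈
      Submodule.span F (Set.range fun g : H => ((Sup4.tw ρ (cyc K ℓ F) (-u)).comp H.subtype) g) :=
    Submodule.subset_span ⟨⟨h, hh⟩, rfl⟩
  have h2 := Submodule.smul_mem _ (cyc K ℓ F h ^ u)⁻¹ h1
  rw [Sup4.tw_apply, neg_neg, smul_smul, inv_mul_cancel₀ (zpow_ne_zero _ (c_ne _ h)), one_smul] at h2
  exact h2

section concl

variable (ρ : GK K →* GL (Fin n) F) (hρ : Continuous ρ) (η : GK K →* GL (Fin m) F)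
    (hη : Continuous η) (hSF : SF ρ) (hn : 2 ≤ n) (ψ : E →+* F) (w : ℤ)
    (P : Set (HeightOneSpectrum (𝓞 K)))
    (Z : Finset E) (ζ c : HeightOneSpectrum (𝓞 K) → E) (b : HeightOneSpectrum (𝓞 K) → 𝓞 E)
    {d : ℕ} (hd : 0 < d) (hζ : ∀ v ∈ P, ζ v ∈ Z)
    (htr : ∀ v ∈ P, ∀ g, IsFrob v g →
      (Img.mt ρ g⁻¹).trace - ψ (ζ v) * (Img.mt η g⁻¹).trace = ψ (c v))
    (hdiv : ∀ v ∈ P, (d : E) * c v ^ 2 = (Ideal.absNorm v.asIdeal : E) ^ w * b v)
    {δ : ℝ} (hδ : 0 < δ) (C : ℝ)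
    (hP : ∃ᶠ N : ℕ in atTop, δ ≤ dens (fun v => v ∈ P) N ∧
      ∑ᶠ v ∈ {v : HeightOneSpectrum (𝓞 K) | Ideal.absNorm v.asIdeal ≤ N ∧ v ∈ P},
        ∑ σ : E →+* ℂ, ‖σ (b v)‖ ≤ C * Nat.primeCounting N)

include hρ hη hSF hn hd hζ htr hdiv hδ hP in
theorem sub_tw : ∃ (u : ℤ) (H : Subgroup (GK K)), H.Normal ∧ IsOpen (H : Set (GK K)) ∧
    IsSub ((Sup4.tw ρ (cyc K ℓ F) (-u)).comp H.subtype)
      ((Sup4.tw η (cyc K ℓ F) (-u)).comp H.subtype) := by
  classical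
  obtain ⟨u, z, hz, y, H₁, x₁, hH₁, hx₁⟩ := Pg.coset (ℓ := ℓ) ρ hρ η hη ψ w P Z ζ c b hd hζ htr hdiv hδ
    C hP
  have hfin : Finite (GK K ⧸ H₁) := Subgroup.quotient_finite_of_isOpen _ hH₁
  have hfi : H₁.FiniteIndex := Subgroup.finiteIndex_of_finite_quotient
  have hNo : IsOpen (H₁.normalCore : Set (GK K)) :=
    Subgroup.isOpen_of_isClosed_of_finiteIndex _ (H₁.normalCore_isClosed (H₁.isClosed_of_isOpen hH₁))
  refine ⟨u, H₁.normalCore, inferInstance, hNo, ?_⟩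
  have hfull := full_tw (ℓ := ℓ) hSF u H₁.normalCore hNo
  refine isSub_of_coset _ _ hfull (by omega) (Sup4.tw ρ (cyc K ℓ F) (-u) x₁)
    (Sup4.tw η (cyc K ℓ F) (-u) x₁) ?_ (ψ z) y ?_ (Full.ne_one hfull hn)
  · refine ⟨⟨Sup4.tw ρ (cyc K ℓ F) (-u) x₁, Sup4.tw ρ (cyc K ℓ F) (-u) x₁⁻¹, ?_, ?_⟩, rfl⟩
    · rw [← map_mul, mul_inv_cancel, map_one]
    · rw [← map_mul, inv_mul_cancel, map_one]
  · intro g
    have h1 := hx₁ g (H₁.normalCore_le g.2)
    rw [map_mul, map_mul] at h1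
    exact h1

variable (ℓ) in
include ℓ hρ hη hSF hn hd hζ htr hdiv hδ hP in
/-- potentially a subquotient -/
theorem sub : ∃ H : Subgroup (GK K), H.Normal ∧ IsOpen (H : Set (GK K)) ∧
    ∃ (Y : Submodule F (Fin m → F)) (f : (Fin m → F) →ₗ[F] (Fin n → F)),
      (∀ h ∈ H, ∀ y ∈ Y, Img.mt η h *ᵥ y ∈ Y) ∧ Y.map f = ⊤ ∧
      ∀ h ∈ H, ∀ y ∈ Y, f (Img.mt η h *ᵥ y) = Img.mt ρ h *ᵥ f y := by
  obtain ⟨u, H, hHn, hHo, Y, f, hY, hf, hfg⟩ := sub_tw (ℓ := ℓ) ρ hρ η hη hSF hn ψ w P Z ζ c b hd hζ htr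
    hdiv hδ C hP
  have hc0 : ∀ g, cyc K ℓ F g ^ u ≠ 0 := fun g => zpow_ne_zero _ (c_ne _ g)
  have htw : ∀ {r : ℕ} (ξ : GK K →* GL (Fin r) F) (g : GK K) (hg : g ∈ H),
      ((Sup4.tw ξ (cyc K ℓ F) (-u)).comp H.subtype) ⟨g, hg⟩ = cyc K ℓ F g ^ u • Img.mt ξ g := by
    intro r ξ g hg
    rw [MonoidHom.comp_apply, Subgroup.subtype_apply, Sup4.tw_apply, neg_neg]
  refine ⟨H, hHn, hHo, Y, f, ?_, hf, ?_⟩
  · intro g hg y hy
    have h2 := hY ⟨g, hg⟩ y hy
    rw [htw, Matrix.smul_mulVec] at h2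
    have h3 := Y.smul_mem (cyc K ℓ F g ^ u)⁻¹ h2
    rwa [smul_smul, inv_mul_cancel₀ (hc0 g), one_smul] at h3
  · intro g hg y hy
    have h2 := hfg ⟨g, hg⟩ y hy
    rw [htw, htw, Matrix.smul_mulVec, Matrix.smul_mulVec, map_smul] at h2
    have h3 := congrArg (fun z => (cyc K ℓ F g ^ u)⁻¹ • z) h2
    simp only [smul_smul, inv_mul_cancel₀ (hc0 g), one_smul] at h3
    exact h3

end concl

variable (ℓ) in
include ℓ in
/-- twist of finite order -/
theorem isTwist (ρ : GK K →* GL (Fin n) F) (hρ : Continuous ρ) (η : GK K →* GL (Fin n) F)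
    (hη : Continuous η) (hSF : SF ρ) (hn : 2 ≤ n) (ψ : E →+* F) (w : ℤ)
    (P : Set (HeightOneSpectrum (𝓞 K)))
    (Z : Finset E) (ζ c : HeightOneSpectrum (𝓞 K) → E) (b : HeightOneSpectrum (𝓞 K) → 𝓞 E)
    {d : ℕ} (hd : 0 < d) (hζ : ∀ v ∈ P, ζ v ∈ Z)
    (htr : ∀ v ∈ P, ∀ g, IsFrob v g →
      (Img.mt ρ g⁻¹).trace - ψ (ζ v) * (Img.mt η g⁻¹).trace = ψ (c v))
    (hdiv : ∀ v ∈ P, (d : E) * c v ^ 2 = (Ideal.absNorm v.asIdeal : E) ^ w * b v)
    {δ : ℝ} (hδ : 0 < δ) (C : ℝ)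
    (hP : ∃ᶠ N : ℕ in atTop, δ ≤ dens (fun v => v ∈ P) N ∧
      ∑ᶠ v ∈ {v : HeightOneSpectrum (𝓞 K) | Ideal.absNorm v.asIdeal ≤ N ∧ v ∈ P},
        ∑ σ : E →+* ℂ, ‖σ (b v)‖ ≤ C * Nat.primeCounting N) :
    ∃ χ : GK K →* Fˣ, IsOpen (χ.ker : Set (GK K)) ∧ ∃ M : GL (Fin n) F, ∀ g,
      Img.mt ρ g = (χ g : F) • ((M : Matrix (Fin n) (Fin n) F) * Img.mt η g *
        (M⁻¹ : GL (Fin n) F)) := by
  obtain ⟨u, H, hHn, hHo, hsub⟩ := sub_tw (ℓ := ℓ) ρ hρ η hη hSF hn ψ w P Z ζ c b hd hζ htr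
    hdiv hδ C hP
  obtain ⟨M, hM⟩ := IsSub.iso hsub
  obtain ⟨χ, hχ, hχg⟩ := twist (R := Sup4.tw ρ (cyc K ℓ F) (-u)) (S := Sup4.tw η (cyc K ℓ F) (-u))
    (by omega) H (full_tw (ℓ := ℓ) hSF u H hHo) M (fun h hh => hM ⟨h, hh⟩)
  refine ⟨χ, Subgroup.isOpen_mono (H₁ := H) (fun h hh => hχ h hh) hHo, M, fun g => ?_⟩
  have h1 := hχg g
  have hc0 : cyc K ℓ F g ^ u ≠ 0 := zpow_ne_zero _ (c_ne _ g)
  rw [Sup4.tw_apply, Sup4.tw_apply, neg_neg, mul_smul_comm, smul_mul_assoc, smul_comm] at h1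
  have h2 := congrArg (fun X => (cyc K ℓ F g ^ u)⁻¹ • X) h1
  simp only [smul_smul, inv_mul_cancel₀ hc0, inv_mul_cancel_left₀ hc0, one_smul] at h2
  exact h2

end Pool.Agent.R401.Pf
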