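import Pool.Agent.R401.Tr7
import Pool.Agent.R401.Hc
import Pool.Agent.R401.Pd
import Pool.Agent.W401.Cheb.Frob

/-!
# Congruences at a set of places of positive upper density
-/

set_option autoImplicit false
set_option maxHeartbeats 400000

namespace Pool.Agent.R401.Pg

open NumberField Filter Topology IsDedekindDomain Pool.Agent.W401.Cheb Pool.Agent.R401.Sup
open Pool.Agent.W569.FM Pool.Agent.R401.Img Pool.Agent.R401.Eng Pool.Agent.R401.Sup2
open Pool.Agent.R401.Sup3 Module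

variable {K : Type} [Field K] [NumberField K]

section general

variable {F : Type} [Field F] [TopologicalSpace F] [IsTopologicalRing F] [T2Space F] {n m : ℕ}

/-- the functions -/
noncomputable def Phi (R : GK K →* Matrix (Fin n) (Fin n) F) (S : GK K →* Matrix (Fin m) (Fin m) F) :
    (Matrix (Fin n) (Fin n) F × Matrix (Fin m) (Fin m) F × F) →ₗ[F] (GK K → F) where
  toFun a g := (a.1 * R g⁻¹).trace + (a.2.1 * S g⁻¹).trace + a.2.2
  map_add' a b := by
    ext g
    simp only [Prod.fst_add, Prod.snd_add, add_mul, Matrix.trace_add, Pi.add_apply]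
    ring
  map_smul' c a := by
    ext g
    simp only [Prod.smul_fst, Prod.smul_snd, smul_mul_assoc, Matrix.trace_smul, Pi.smul_apply,
      RingHom.id_apply, smul_eq_mul]
    ring

theorem Phi_apply (R : GK K →* Matrix (Fin n) (Fin n) F) (S : GK K →* Matrix (Fin m) (Fin m) F)
    (a : Matrix (Fin n) (Fin n) F × Matrix (Fin m) (Fin m) F × F) (g : GK K) :
    Phi R S a g = (a.1 * R g⁻¹).trace + (a.2.1 * S g⁻¹).trace + a.2.2 := rfl

theorem coset_RS (R : GK K →* Matrix (Fin n) (Fin n) F) (hR : Continuous R)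
    (S : GK K →* Matrix (Fin m) (Fin m) F) (hS : Continuous S) (Y : Finset (F × F)) {δ : ℝ}
    (hδ : 0 < δ) (h : ∃ᶠ N : ℕ in atTop, δ ≤ dens (fun v : HeightOneSpectrum (𝓞 K) =>
      ∃ g, IsFrob v g ∧ ∃ p ∈ Y, (R g⁻¹).trace - p.1 * (S g⁻¹).trace = p.2) N) :
    ∃ p ∈ Y, ∃ (H : Subgroup (GK K)) (x₁ : GK K), IsOpen (H : Set (GK K)) ∧
      ∀ h ∈ H, (R (h * x₁)).trace - p.1 * (S (h * x₁)).trace = p.2 := by
  classical
  set A : Submodule F (GK K → F) := LinearMap.range (Phi R S) with hA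
  have hAfin : Module.Finite F A := Module.Finite.range _
  let fn : F × F → (GK K → F) := fun p => Phi R S (1, -p.1 • 1, -p.2)
  have hfn : ∀ p g, fn p g = (R g⁻¹).trace - p.1 * (S g⁻¹).trace - p.2 := by
    intro p g
    simp only [fn]
    rw [Phi_apply, one_mul, smul_mul_assoc, one_mul, Matrix.trace_smul, smul_eq_mul]
    ring
  have hAc : ∀ f ∈ A, Continuous f := by
    rintro _ ⟨a, rfl⟩
    have h1 : Continuous fun g : GK K => (a.1 * R g⁻¹).trace + (a.2.1 * S g⁻¹).trace + a.2.2 := by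
      have h2 : Continuous fun g : GK K => (a.1 * R g⁻¹).trace :=
        (continuous_const.matrix_mul (hR.comp continuous_inv)).matrix_trace
      have h3 : Continuous fun g : GK K => (a.2.1 * S g⁻¹).trace :=
        (continuous_const.matrix_mul (hS.comp continuous_inv)).matrix_trace
      exact (h2.add h3).add continuous_const
    exact h1
  obtain ⟨f, hf, H, x₀, hH, hx₀⟩ := Hc.coset_of_dens A hAc (by
      rintro g _ ⟨a, rfl⟩
      refine ⟨(R g⁻¹ * a.1, S g⁻¹ * a.2.1, a.2.2), ?_⟩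
      ext x
      rw [Hm.tau_apply, Phi_apply, Phi_apply, mul_inv_rev, map_mul, map_mul,
        Matrix.mul_assoc, Matrix.mul_assoc, Matrix.trace_mul_comm (R g⁻¹),
        Matrix.trace_mul_comm (S g⁻¹), Matrix.mul_assoc, Matrix.mul_assoc]) (Y.image fn) (by
      intro f hf
      obtain ⟨p, _, rfl⟩ := Finset.mem_image.1 hf
      exact ⟨_, rfl⟩) (by
      intro f hf x y
      obtain ⟨p, _, rfl⟩ := Finset.mem_image.1 hf
      have h1 : (x * y * x⁻¹)⁻¹ = x * y⁻¹ * x⁻¹ := by group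
      have h2 : ∀ {r : ℕ} (Q : GK K →* Matrix (Fin r) (Fin r) F),
          (Q (x * y⁻¹ * x⁻¹)).trace = (Q y⁻¹).trace := by
        intro r Q
        rw [map_mul, Matrix.trace_mul_comm, ← map_mul]
        congr 2
        group
      rw [hfn, hfn, h1, h2, h2]) hδ (h.mono fun N hN => hN.trans (dens_le (by
      rintro v ⟨g, hg, p, hp, hpg⟩
      exact ⟨g, hg, fn p, Finset.mem_image_of_mem _ hp, by rw [hfn, hpg, sub_self]⟩) N))
  obtain ⟨p, hp, rfl⟩ := Finset.mem_image.1 hf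
  refine ⟨p, hp, H, x₀⁻¹, hH, fun h hh => ?_⟩
  have h1 := hx₀ h⁻¹ (H.inv_mem hh)
  rw [hfn, mul_inv_rev, inv_inv, map_mul, map_mul, Matrix.trace_mul_comm,
    Matrix.trace_mul_comm (S x₀⁻¹), ← map_mul, ← map_mul, sub_eq_zero] at h1
  exact h1

end general

variable {ℓ : ℕ} [Fact ℓ.Prime] {F : Type} [NormedField F] [NormedAlgebra ℚ_[ℓ] F] {n m : ℕ}
variable {E : Type} [Field E] [NumberField E]

theorem continuous_tw (ρ : GK K →* GL (Fin n) F) (hρ : Continuous ρ) (u : ℤ) :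
    Continuous (Sup4.tw ρ (cyc K ℓ F) (-u)) := by
  have h1 : Continuous fun g => cyc K ℓ F g ^ (-(-u)) :=
    (continuous_cyc K ℓ F).zpow₀ _ fun x => Or.inl (c_ne _ x)
  exact h1.smul (continuous_mt ρ hρ)

/-- **Congruences at a set of places of positive upper density.** -/
theorem coset (ρ : GK K →* GL (Fin n) F) (hρ : Continuous ρ) (η : GK K →* GL (Fin m) F)
    (hη : Continuous η) (ψ : E →+* F) (w : ℤ) (P : Set (HeightOneSpectrum (𝓞 K)))
    (Z : Finset E) (ζ c : HeightOneSpectrum (𝓞 K) → E) (b : HeightOneSpectrum (𝓞 K) → 𝓞 E)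
    {d : ℕ} (hd : 0 < d) (hζ : ∀ v ∈ P, ζ v ∈ Z)
    (htr : ∀ v ∈ P, ∀ g, IsFrob v g →
      (mt ρ g⁻¹).trace - ψ (ζ v) * (mt η g⁻¹).trace = ψ (c v))
    (hdiv : ∀ v ∈ P, (d : E) * c v ^ 2 = (Ideal.absNorm v.asIdeal : E) ^ w * b v)
    {δ : ℝ} (hδ : 0 < δ) (C : ℝ)
    (hP : ∃ᶠ N : ℕ in atTop, δ ≤ dens (fun v => v ∈ P) N ∧
      ∑ᶠ v ∈ {v : HeightOneSpectrum (𝓞 K) | Ideal.absNorm v.asIdeal ≤ N ∧ v ∈ P},
        ∑ σ : E →+* ℂ, ‖σ (b v)‖ ≤ C * Nat.primeCounting N) :
    ∃ (u : ℤ), ∃ z ∈ Z, ∃ (y : F) (H : Subgroup (GK K)) (x₁ : GK K), IsOpen (H : Set (GK K)) ∧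
      ∀ h ∈ H, (Sup4.tw ρ (cyc K ℓ F) (-u) (h * x₁)).trace -
        ψ z * (Sup4.tw η (cyc K ℓ F) (-u) (h * x₁)).trace = y := by
  classical
  have hchar : CharZero F := charZero_of_injective_algebraMap (algebraMap ℚ_[ℓ] F).injective
  have hε0 : 0 < δ / 4 := by positivity
  obtain ⟨Y₀, hY₀, hYd⟩ := exists_finite E P b C hε0
  have hpi : ∀ᶠ N : ℕ in atTop, 0 < Nat.primeCounting N :=
    Nat.tendsto_primeCounting.eventually_gt_atTop 0
  have hdE : (d : E) ≠ 0 := by exact_mod_cast hd.ne'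
  have hp : ∀ᶠ N : ℕ in atTop, dens (fun v : HeightOneSpectrum (𝓞 K) => (ℓ : 𝓞 K) ∈ v.asIdeal) N
      ≤ δ / 4 := by
    have h1 := dens_fin (fun v : HeightOneSpectrum (𝓞 K) => (ℓ : 𝓞 K) ∈ v.asIdeal)
      (Pool.Agent.W352.ChAbs.over_le ℓ (Fact.out : ℓ.Prime)).1
    exact h1.eventually (ge_mem_nhds hε0)
  have ha : ∀ v ∈ P, c v ^ 2 = (Ideal.absNorm v.asIdeal : E) ^ w * ((b v : E) / d) := by
    intro v hv
    have h1 := hdiv v hv
    field_simp
    linear_combination h1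
  have hN0 : ∀ v : HeightOneSpectrum (𝓞 K), (Ideal.absNorm v.asIdeal : E) ≠ 0 := fun v => by
    have : Ideal.absNorm v.asIdeal ≠ 0 := fun h0 => v.ne_bot (Ideal.absNorm_eq_zero_iff.1 h0)
    exact_mod_cast this
  by_cases hw : (2 : ℤ) ∣ w
  · obtain ⟨u, hu⟩ := hw
    -- the values
    set Yv : Set E := {e : E | ∃ y ∈ Y₀, (d : E) * e ^ 2 = (y : E)} with hYv
    have hYvf : Yv.Finite := by
      have h1 : Yv ⊆ ⋃ y ∈ Y₀, {e : E | e ∈ ((Polynomial.C (d : E) * Polynomial.X ^ 2 -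
          Polynomial.C (y : E)).roots.toFinset : Set E)} := by
        rintro e ⟨y, hy, he⟩
        refine Set.mem_biUnion hy ?_
        rw [Set.mem_setOf_eq, Finset.mem_coe, Multiset.mem_toFinset, Polynomial.mem_roots]
        · rw [Polynomial.IsRoot.def]
          simp only [Polynomial.eval_sub, Polynomial.eval_mul, Polynomial.eval_C,
            Polynomial.eval_pow, Polynomial.eval_X]
          rw [he, sub_self]
        · intro h0
          have h2 := congrArg (fun p => Polynomial.coeff p 2) h0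
          simp at h2
          omega
      refine (hY₀.biUnion fun y _ => ?_).subset h1
      exact (Finset.finite_toSet _)
    set Y : Finset (F × F) := (Z ×ˢ hYvf.toFinset).image (fun p => (ψ p.1, ψ p.2)) with hYdef
    obtain ⟨p, hp', H, x₁, hH, hx₁⟩ := coset_RS (Sup4.tw ρ (cyc K ℓ F) (-u)) (continuous_tw ρ hρ u)
      (Sup4.tw η (cyc K ℓ F) (-u)) (continuous_tw η hη u) Y (δ := δ / 2) (by positivity) (by
      refine (hP.and_eventually (hpi.and hp)).mono ?_
      rintro N ⟨⟨h1, h2⟩, h3, h4⟩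
      have h5 := hYd N h3 h2
      have h6 : dens (fun v => v ∈ P) N ≤ dens (fun v : HeightOneSpectrum (𝓞 K) =>
          (∃ g, IsFrob v g ∧ ∃ p ∈ Y, (Sup4.tw ρ (cyc K ℓ F) (-u) g⁻¹).trace -
            p.1 * (Sup4.tw η (cyc K ℓ F) (-u) g⁻¹).trace = p.2) ∨
          ((v ∈ P ∧ b v ∉ Y₀) ∨ (ℓ : 𝓞 K) ∈ v.asIdeal)) N := by
        refine dens_le ?_ N
        intro v hv
        by_cases hvℓ : (ℓ : 𝓞 K) ∈ v.asIdeal
        · exact Or.inr (Or.inr hvℓ)
        by_cases hvY : b v ∈ Y₀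
        swap
        · exact Or.inr (Or.inl ⟨hv, hvY⟩)
        left
        obtain ⟨g, hg⟩ := Pool.Agent.W401.Frob.exists_frob v
        refine ⟨g, hg, (ψ (ζ v), ψ (((Ideal.absNorm v.asIdeal : E) ^ u)⁻¹ * c v)), ?_, ?_⟩
        · rw [hYdef, Finset.mem_image]
          refine ⟨(ζ v, ((Ideal.absNorm v.asIdeal : E) ^ u)⁻¹ * c v), ?_, rfl⟩
          rw [Finset.mem_product, hYvf.mem_toFinset]
          refine ⟨hζ v hv, b v, hvY, ?_⟩
          have h7 := hdiv v hv
          have h8 : (Ideal.absNorm v.asIdeal : E) ^ w = ((Ideal.absNorm v.asIdeal : E) ^ u) ^ 2 := by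
            rw [hu, mul_comm, zpow_mul]
            exact zpow_ofNat _ 2
          have h9 : ((Ideal.absNorm v.asIdeal : E) ^ u) ≠ 0 := zpow_ne_zero _ (hN0 v)
          rw [h8] at h7
          rw [mul_pow, inv_pow, mul_left_comm, h7, ← mul_assoc, inv_mul_cancel₀ (pow_ne_zero 2 h9),
            one_mul]
        · rw [Sup4.tw_apply, Sup4.tw_apply, neg_neg, Matrix.trace_smul, Matrix.trace_smul,
            smul_eq_mul, smul_eq_mul, mul_left_comm, ← mul_sub, htr v hv g hg, c_inv,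
            cyc_frob ℓ F hvℓ hg, inv_zpow, map_mul, map_inv₀, map_zpow₀, map_natCast]
      have h7 := (h6.trans (card_or _ _ N)).trans (add_le_add_right (card_or _ _ N) _)
      linarith)
    rw [hYdef, Finset.mem_image] at hp'
    obtain ⟨⟨z, y⟩, hzy, rfl⟩ := hp'
    rw [Finset.mem_product] at hzy
    exact ⟨u, z, hzy.1, ψ y, H, x₁, hH, hx₁⟩
  · -- odd weight
    set Q : HeightOneSpectrum (𝓞 K) → Prop := fun v => ∃ y ∈ hY₀.toFinset.filter (fun y => y ≠ 0),
      ∃ x : E, x ^ 2 = (Ideal.absNorm v.asIdeal : E) ^ w * ((y : E) / d) with hQ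
    have hQlim : Tendsto (dens Q) atTop (𝓝 0) := by
      have h1 : Tendsto (fun N => ∑ y ∈ hY₀.toFinset.filter (fun y => y ≠ 0),
          dens (fun v : HeightOneSpectrum (𝓞 K) =>
            ∃ x : E, x ^ 2 = (Ideal.absNorm v.asIdeal : E) ^ w * ((y : E) / d)) N) atTop (𝓝 0) := by
        have h2 := tendsto_finsetSum (hY₀.toFinset.filter (fun y => y ≠ 0)) (fun y hy =>
          dens_odd (K := K) E (c := (y : E) / d) (div_ne_zero (by
            have := (Finset.mem_filter.1 hy).2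
            exact fun h0 => this (RingOfIntegers.ext h0)) hdE) hw)
        rwa [Finset.sum_const_zero] at h2
      refine squeeze_zero (fun N => ?_) (fun N => ?_) h1
      · unfold dens
        positivity
      · exact dens_biUnion _ _ N
    set Y : Finset (F × F) := Z.image (fun z => (ψ z, (0 : F))) with hYdef
    obtain ⟨p, hp', H, x₁, hH, hx₁⟩ := coset_RS (Sup4.tw ρ (cyc K ℓ F) (-0)) (continuous_tw ρ hρ 0)
      (Sup4.tw η (cyc K ℓ F) (-0)) (continuous_tw η hη 0) Y (δ := δ / 2) (by positivity) (by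
      refine (hP.and_eventually (hpi.and (hQlim.eventually (ge_mem_nhds hε0)))).mono ?_
      rintro N ⟨⟨h1, h2⟩, h3, h4⟩
      have h5 := hYd N h3 h2
      have h6 : dens (fun v => v ∈ P) N ≤ dens (fun v : HeightOneSpectrum (𝓞 K) =>
          (∃ g, IsFrob v g ∧ ∃ p ∈ Y, (Sup4.tw ρ (cyc K ℓ F) (-0) g⁻¹).trace -
            p.1 * (Sup4.tw η (cyc K ℓ F) (-0) g⁻¹).trace = p.2) ∨
          ((v ∈ P ∧ b v ∉ Y₀) ∨ Q v)) N := by
        refine dens_le ?_ N
        intro v hv
        by_cases hvY : b v ∈ Y₀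
        swap
        · exact Or.inr (Or.inl ⟨hv, hvY⟩)
        by_cases hb0 : b v = 0
        swap
        · right
          right
          refine ⟨b v, ?_, c v, ha v hv⟩
          rw [Finset.mem_filter, hY₀.mem_toFinset]
          exact ⟨hvY, hb0⟩
        left
        obtain ⟨g, hg⟩ := Pool.Agent.W401.Frob.exists_frob v
        refine ⟨g, hg, (ψ (ζ v), 0), ?_, ?_⟩
        · rw [hYdef, Finset.mem_image]
          exact ⟨ζ v, hζ v hv, rfl⟩
        · have h7 := ha v hv
          rw [hb0] at h7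
          have h8 : c v ^ 2 = 0 := by
            rw [h7]
            simp
          rw [Sup4.tw_apply, Sup4.tw_apply, neg_neg, zpow_zero, one_smul, one_smul,
            htr v hv g hg, pow_eq_zero_iff two_ne_zero |>.1 h8, map_zero]
      have h7 := (h6.trans (card_or _ _ N)).trans (add_le_add_right (card_or _ _ N) _)
      linarith)
    rw [hYdef, Finset.mem_image] at hp'
    obtain ⟨z, hz, rfl⟩ := hp'
    exact ⟨0, z, hz, 0, H, x₁, hH, hx₁⟩

end Pool.Agent.R401.Pg
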