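import Pool.Agent.R401.Pg

/-!
# Potential constancy of differences of traces
-/

set_option autoImplicit false
set_option maxHeartbeats 400000

namespace Pool.Agent.R401.Ph

open NumberField Filter Topology IsDedekindDomain Pool.Agent.W401.Cheb Pool.Agent.R401.Sup
open Pool.Agent.W569.FM Pool.Agent.R401.Eng Pool.Agent.R401.Pg Module

variable {K : Type} [Field K] [NumberField K]

section general

variable {F : Type} [Field F] [TopologicalSpace F] [IsTopologicalRing F] [T2Space F] {n m : ℕ}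

/-- the coefficients -/
abbrev Co (F : Type) (n m : ℕ) : Type :=
  Matrix (Fin n) (Fin n) F × Matrix (Fin m) (Fin m) F × F

/-- the functions which are given by one function on each coset -/
noncomputable def Psi (H₀ : Subgroup (GK K)) (R : GK K →* Matrix (Fin n) (Fin n) F)
    (S : GK K →* Matrix (Fin m) (Fin m) F) :
    ((GK K ⧸ H₀) → Co F n m) →ₗ[F] (GK K → F) where
  toFun a g := Phi R S (a (g : GK K ⧸ H₀)) g
  map_add' a b := by
    ext g
    rw [Pi.add_apply, map_add, Pi.add_apply, Pi.add_apply]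
  map_smul' c a := by
    ext g
    rw [Pi.smul_apply, map_smul, Pi.smul_apply, RingHom.id_apply, Pi.smul_apply]

theorem Psi_apply (H₀ : Subgroup (GK K)) (R : GK K →* Matrix (Fin n) (Fin n) F)
    (S : GK K →* Matrix (Fin m) (Fin m) F) (a : (GK K ⧸ H₀) → Co F n m) (g : GK K) :
    Psi H₀ R S a g = Phi R S (a (g : GK K ⧸ H₀)) g := rfl

theorem continuous_Phi (R : GK K →* Matrix (Fin n) (Fin n) F) (hR : Continuous R)
    (S : GK K →* Matrix (Fin m) (Fin m) F) (hS : Continuous S) (a : Co F n m) :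
    Continuous (Phi R S a) := by
  have h1 : Continuous fun g : GK K => (a.1 * R g⁻¹).trace + (a.2.1 * S g⁻¹).trace + a.2.2 := by
    have h2 : Continuous fun g : GK K => (a.1 * R g⁻¹).trace :=
      (continuous_const.matrix_mul (hR.comp continuous_inv)).matrix_trace
    have h3 : Continuous fun g : GK K => (a.2.1 * S g⁻¹).trace :=
      (continuous_const.matrix_mul (hS.comp continuous_inv)).matrix_trace
    exact (h2.add h3).add continuous_const
  exact h1

theorem coset_in (H₀ : Subgroup (GK K)) (hN : H₀.Normal) (hH₀ : IsOpen (H₀ : Set (GK K)))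
    (R : GK K →* Matrix (Fin n) (Fin n) F) (hR : Continuous R)
    (S : GK K →* Matrix (Fin m) (Fin m) F) (hS : Continuous S) (Y : Finset F) {δ : ℝ}
    (hδ : 0 < δ) (h : ∃ᶠ N : ℕ in atTop, δ ≤ dens (fun v : HeightOneSpectrum (𝓞 K) =>
      ∃ g, IsFrob v g ∧ g ∈ H₀ ∧ ∃ y ∈ Y, (R g⁻¹).trace - (S g⁻¹).trace = y) N) :
    ∃ y ∈ Y, ∃ (H : Subgroup (GK K)) (x₁ : GK K), IsOpen (H : Set (GK K)) ∧ x₁ ∈ H₀ ∧
      ∀ h ∈ H, (R (h * x₁)).trace - (S (h * x₁)).trace = y := by
  classical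
  have hfinq : Finite (GK K ⧸ H₀) := Subgroup.quotient_finite_of_isOpen H₀ hH₀
  set A : Submodule F (GK K → F) := LinearMap.range (Psi H₀ R S) with hA
  have hAfin : Module.Finite F A := Module.Finite.range _
  let co : F → (GK K ⧸ H₀) → Co F n m := fun y x =>
    if x = ((1 : GK K) : GK K ⧸ H₀) then (1, -1, -y) else (0, 0, 1)
  let fn : F → (GK K → F) := fun y => Psi H₀ R S (co y)
  have hmem : ∀ g : GK K, (g : GK K ⧸ H₀) = ((1 : GK K) : GK K ⧸ H₀) ↔ g ∈ H₀ := by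
    intro g
    rw [QuotientGroup.eq, mul_one, H₀.inv_mem_iff]
  have hfn1 : ∀ y g, g ∈ H₀ → fn y g = (R g⁻¹).trace - (S g⁻¹).trace - y := by
    intro y g hg
    simp only [fn, co]
    rw [Psi_apply, if_pos ((hmem g).2 hg), Phi_apply, one_mul, neg_mul, one_mul, Matrix.trace_neg]
    ring
  have hfn2 : ∀ y g, g ∉ H₀ → fn y g = 1 := by
    intro y g hg
    simp only [fn, co]
    rw [Psi_apply, if_neg (fun h => hg ((hmem g).1 h)), Phi_apply, zero_mul, zero_mul,
      Matrix.trace_zero, Matrix.trace_zero, zero_add, zero_add]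
  have hAc : ∀ f ∈ A, Continuous f := by
    rintro _ ⟨a, rfl⟩
    rw [continuous_iff_continuousAt]
    intro g₀
    have h1 : ContinuousAt (Phi R S (a (g₀ : GK K ⧸ H₀))) g₀ :=
      (continuous_Phi R hR S hS _).continuousAt
    refine h1.congr ?_
    have h2 : {g : GK K | (g₀ : GK K ⧸ H₀) = (g : GK K ⧸ H₀)} ∈ 𝓝 g₀ := by
      have h3 : IsOpen ((fun g : GK K => g₀⁻¹ * g) ⁻¹' (H₀ : Set (GK K))) :=
        hH₀.preimage (continuous_const.mul continuous_id)
      refine Filter.mem_of_superset (h3.mem_nhds ?_) ?_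
      · rw [Set.mem_preimage, inv_mul_cancel]
        exact H₀.one_mem
      · intro g hg
        exact QuotientGroup.eq.2 hg
    filter_upwards [h2] with g hg
    rw [Psi_apply, ← show (g₀ : GK K ⧸ H₀) = (g : GK K ⧸ H₀) from hg]
  obtain ⟨f, hf, H, x₀, hH, hx₀⟩ := Hc.coset_of_dens A hAc (by
      rintro g _ ⟨a, rfl⟩
      refine ⟨fun y => (R g⁻¹ * (a (g • y)).1, S g⁻¹ * (a (g • y)).2.1, (a (g • y)).2.2), ?_⟩
      ext x
      rw [Hm.tau_apply, Psi_apply, Psi_apply, Phi_apply, Phi_apply, mul_inv_rev, map_mul, map_mul]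
      change (R g⁻¹ * (a ((g * x : GK K) : GK K ⧸ H₀)).1 * R x⁻¹).trace +
        (S g⁻¹ * (a ((g * x : GK K) : GK K ⧸ H₀)).2.1 * S x⁻¹).trace +
        (a ((g * x : GK K) : GK K ⧸ H₀)).2.2 = _
      rw [Matrix.mul_assoc, Matrix.mul_assoc, Matrix.trace_mul_comm (R g⁻¹),
        Matrix.trace_mul_comm (S g⁻¹), Matrix.mul_assoc, Matrix.mul_assoc]) (Y.image fn) (by
      intro f hf
      obtain ⟨p, _, rfl⟩ := Finset.mem_image.1 hf
      exact ⟨_, rfl⟩) (by
      intro f hf x y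
      obtain ⟨p, _, rfl⟩ := Finset.mem_image.1 hf
      by_cases hy : y ∈ H₀
      · have hy' : x * y * x⁻¹ ∈ H₀ := hN.conj_mem y hy x
        have h1 : (x * y * x⁻¹)⁻¹ = x * y⁻¹ * x⁻¹ := by group
        have h2 : ∀ {r : ℕ} (Q : GK K →* Matrix (Fin r) (Fin r) F),
            (Q (x * y⁻¹ * x⁻¹)).trace = (Q y⁻¹).trace := by
          intro r Q
          rw [map_mul, Matrix.trace_mul_comm, ← map_mul]
          congr 2
          group
        rw [hfn1 _ _ hy, hfn1 _ _ hy', h1, h2, h2]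
      · have hy' : x * y * x⁻¹ ∉ H₀ := by
          intro h
          apply hy
          have h3 := hN.conj_mem _ h x⁻¹
          have h4 : x⁻¹ * (x * y * x⁻¹) * x⁻¹⁻¹ = y := by group
          rwa [h4] at h3
        rw [hfn2 _ _ hy, hfn2 _ _ hy']) hδ (h.mono fun N hN => hN.trans (dens_le (by
      rintro v ⟨g, hg, hgH, p, hp, hpg⟩
      exact ⟨g, hg, fn p, Finset.mem_image_of_mem _ hp, by rw [hfn1 _ _ hgH, hpg, sub_self]⟩) N))
  obtain ⟨p, hp, rfl⟩ := Finset.mem_image.1 hf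
  have hx0 : ∀ h ∈ H, h * x₀ ∈ H₀ := by
    intro h hh
    by_contra hcon
    have h1 := hx₀ h hh
    rw [hfn2 _ _ hcon] at h1
    exact one_ne_zero h1
  refine ⟨p, hp, H, x₀⁻¹, hH, ?_, fun h hh => ?_⟩
  · have h1 := hx0 1 H.one_mem
    rw [one_mul] at h1
    exact H₀.inv_mem h1
  · have h1 := hx₀ h⁻¹ (H.inv_mem hh)
    rw [hfn1 _ _ (hx0 _ (H.inv_mem hh)), mul_inv_rev, inv_inv, map_mul, map_mul,
      Matrix.trace_mul_comm, Matrix.trace_mul_comm (S x₀⁻¹), ← map_mul, ← map_mul,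
      sub_eq_zero] at h1
    exact h1

/-- the span over a subgroup -/
def sp (R : GK K →* Matrix (Fin n) (Fin n) F) (S : GK K →* Matrix (Fin m) (Fin m) F)
    (H : Subgroup (GK K)) : Submodule F (Co F n m) :=
  Submodule.span F {X | ∃ h ∈ H, X = (R h, S h, 1)}

theorem sp_mono (R : GK K →* Matrix (Fin n) (Fin n) F) (S : GK K →* Matrix (Fin m) (Fin m) F)
    {H H' : Subgroup (GK K)} (h : H ≤ H') : sp R S H ≤ sp R S H' := by
  apply Submodule.span_mono
  rintro _ ⟨x, hx, rfl⟩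
  exact ⟨x, h hx, rfl⟩

theorem exists_min (R : GK K →* Matrix (Fin n) (Fin n) F) (S : GK K →* Matrix (Fin m) (Fin m) F) :
    ∃ H₀ : Subgroup (GK K), H₀.Normal ∧ IsOpen (H₀ : Set (GK K)) ∧
      ∀ H : Subgroup (GK K), IsOpen (H : Set (GK K)) → H ≤ H₀ → sp R S H = sp R S H₀ := by
  classical
  let Q : ℕ → Prop := fun r => ∃ H : Subgroup (GK K), IsOpen (H : Set (GK K)) ∧
    finrank F (sp R S H) = r
  have hex : ∃ r, Q r := ⟨_, ⊤, isOpen_univ, rfl⟩
  obtain ⟨H₁, hH₁, hr⟩ := Nat.find_spec hex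
  obtain ⟨U, hU⟩ := ProfiniteGrp.exist_openNormalSubgroup_sub_open_nhds_of_one hH₁
    H₁.one_mem
  refine ⟨U.toSubgroup, U.isNormal', U.isOpen', fun H hH hle => ?_⟩
  have hUH : U.toSubgroup ≤ H₁ := hU
  have h1 : finrank F (sp R S H₁) ≤ finrank F (sp R S H) := by
    rw [hr]
    exact Nat.find_min' hex ⟨H, hH, rfl⟩
  have h2 : sp R S H = sp R S H₁ :=
    Submodule.eq_of_le_of_finrank_le (sp_mono R S (hle.trans hUH)) h1
  apply le_antisymm (sp_mono R S hle)
  rw [h2]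
  exact sp_mono R S hUH

theorem const_of_coset (R : GK K →* Matrix (Fin n) (Fin n) F)
    (S : GK K →* Matrix (Fin m) (Fin m) F) (H₀ : Subgroup (GK K))
    (hmin : ∀ H : Subgroup (GK K), IsOpen (H : Set (GK K)) → H ≤ H₀ → sp R S H = sp R S H₀)
    (hH₀ : IsOpen (H₀ : Set (GK K))) (y : F) (H : Subgroup (GK K)) (x₁ : GK K)
    (hH : IsOpen (H : Set (GK K))) (hx₁ : x₁ ∈ H₀)
    (h : ∀ h ∈ H, (R (h * x₁)).trace - (S (h * x₁)).trace = y) :
    ∀ g ∈ H₀, (R g).trace - (S g).trace = n - m := by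
  have h0 := hmin (H ⊓ H₀) (by
    rw [Subgroup.coe_inf]
    exact hH.inter hH₀) inf_le_right
  let L : Co F n m →ₗ[F] F :=
    { toFun := fun a => (a.1 * R x₁).trace - (a.2.1 * S x₁).trace - y * a.2.2
      map_add' := fun a b => by
        simp only [Prod.fst_add, Prod.snd_add, add_mul, Matrix.trace_add]
        ring
      map_smul' := fun c a => by
        simp only [Prod.smul_fst, Prod.smul_snd, smul_mul_assoc, Matrix.trace_smul,
          RingHom.id_apply, smul_eq_mul]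
        ring }
  have hL : ∀ a, L a = (a.1 * R x₁).trace - (a.2.1 * S x₁).trace - y * a.2.2 := fun _ => rfl
  have h1 : ∀ a ∈ sp R S (H ⊓ H₀), L a = 0 := by
    intro a ha
    have h2 : sp R S (H ⊓ H₀) ≤ LinearMap.ker L := by
      unfold sp
      rw [Submodule.span_le]
      rintro _ ⟨g, hg, rfl⟩
      rw [SetLike.mem_coe, LinearMap.mem_ker, hL, ← map_mul, ← map_mul, h g hg.1]
      ring
    exact h2 ha
  have h2 : ∀ g ∈ H₀, (R g).trace - (S g).trace = y := by
    intro g hg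
    have h3 : ((R (g * x₁⁻¹), S (g * x₁⁻¹), 1) : Co F n m) ∈ sp R S (H ⊓ H₀) := by
      rw [h0]
      exact Submodule.subset_span ⟨_, H₀.mul_mem hg (H₀.inv_mem hx₁), rfl⟩
    have h4 := h1 _ h3
    rw [hL, ← map_mul, ← map_mul, inv_mul_cancel_right, mul_one, sub_eq_zero] at h4
    exact h4
  have h3 := h2 1 H₀.one_mem
  rw [map_one, map_one, Matrix.trace_one, Matrix.trace_one, Fintype.card_fin, Fintype.card_fin] at h3
  intro g hg
  rw [h2 g hg, h3]

/-- **Potential constancy.** -/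
theorem potential (R : GK K →* Matrix (Fin n) (Fin n) F) (hR : Continuous R)
    (S : GK K →* Matrix (Fin m) (Fin m) F) (hS : Continuous S) :
    ∃ H₀ : Subgroup (GK K), H₀.Normal ∧ IsOpen (H₀ : Set (GK K)) ∧
      ∀ (Y : Finset F) (δ : ℝ), 0 < δ →
        (∃ᶠ N : ℕ in atTop, δ ≤ dens (fun v : HeightOneSpectrum (𝓞 K) =>
          ∃ g, IsFrob v g ∧ g ∈ H₀ ∧ ∃ y ∈ Y, (R g⁻¹).trace - (S g⁻¹).trace = y) N) →
        ∀ g ∈ H₀, (R g).trace - (S g).trace = n - m := by
  obtain ⟨H₀, hN, hH₀, hmin⟩ := exists_min R S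
  refine ⟨H₀, hN, hH₀, fun Y δ hδ h => ?_⟩
  obtain ⟨y, _, H, x₁, hH, hx₁, hc⟩ := coset_in H₀ hN hH₀ R hR S hS Y hδ h
  exact const_of_coset R S H₀ hmin hH₀ y H x₁ hH hx₁ hc

end general

end Pool.Agent.R401.Ph
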