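import Pool.Agent.R401.Sbq
import Pool.Agent.R401.Burn

/-!
# Trivial subquotients and traces
-/

set_option autoImplicit false
set_option maxHeartbeats 400000

namespace Pool.Agent.R401.Pt

open Module Matrix Pool.Agent.R401.Sbq

variable {G : Type*} [Group G] {k : Type*} [Field k] {n m : ℕ}

/-- a trivial subquotient over a subgroup -/
def Triv (R : G →* Matrix (Fin n) (Fin n) k) (U : Subgroup G) : Prop :=
  ∃ (Y : Submodule k (Fin n → k)) (f : (Fin n → k) →ₗ[k] k),
    (∀ g ∈ U, ∀ y ∈ Y, R g *ᵥ y ∈ Y) ∧ (∃ y ∈ Y, f y ≠ 0) ∧ ∀ g ∈ U, ∀ y ∈ Y, f (R g *ᵥ y) = f y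

/-- the span of the triples -/
def AA (R : G →* Matrix (Fin n) (Fin n) k) (S : G →* Matrix (Fin m) (Fin m) k) :
    Submodule k (Matrix (Fin n) (Fin n) k × Matrix (Fin m) (Fin m) k × k) :=
  Submodule.span k (Set.range fun g => (R g, S g, (1 : k)))

theorem mul_mem_AA (R : G →* Matrix (Fin n) (Fin n) k) (S : G →* Matrix (Fin m) (Fin m) k)
    {a b : Matrix (Fin n) (Fin n) k × Matrix (Fin m) (Fin m) k × k}
    (ha : a ∈ AA R S) (hb : b ∈ AA R S) : a * b ∈ AA R S := by
  have h : AA R S * AA R S ≤ AA R S := by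
    unfold AA
    rw [Submodule.span_mul_span]
    apply Submodule.span_mono
    rintro _ ⟨_, ⟨g, rfl⟩, _, ⟨h, rfl⟩, rfl⟩
    refine ⟨g * h, ?_⟩
    simp only [map_mul, Prod.mk_mul_mk, mul_one]
  exact h (Submodule.mul_mem_mul ha hb)

theorem pow_mem_AA (R : G →* Matrix (Fin n) (Fin n) k) (S : G →* Matrix (Fin m) (Fin m) k)
    {a : Matrix (Fin n) (Fin n) k × Matrix (Fin m) (Fin m) k × k}
    (ha : a ∈ AA R S) (r : ℕ) : a ^ (r + 1) ∈ AA R S := by
  induction r with
  | zero => rwa [zero_add, pow_one]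
  | succ r ih =>
    rw [pow_succ]
    exact mul_mem_AA R S ih ha

theorem irr_one : Irr (1 : G →* Matrix (Fin 1) (Fin 1) k) := by
  refine ⟨Nat.one_pos, fun X _ => ?_⟩
  by_cases h : X = ⊥
  · exact Or.inl h
  right
  apply Submodule.eq_top_of_finrank_eq
  rw [finrank_fin_fun]
  have h1 : finrank k X ≤ 1 := by
    have := Submodule.finrank_le X
    rwa [finrank_fin_fun] at this
  have h2 : finrank k X ≠ 0 := by
    rwa [Ne, Submodule.finrank_eq_zero]
  omega

/-- an element which acts as zero and has augmentation one -/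
theorem exists_kill (R : G →* Matrix (Fin n) (Fin n) k) (S : G →* Matrix (Fin m) (Fin m) k)
    (hS : ¬ Triv S ⊤) : ∃ e : Matrix (Fin n) (Fin n) k, (e, 0, 1) ∈ AA R S := by
  classical
  have h1 : ¬ ∀ a, (a, (0 : Matrix (Fin m) (Fin m) k)) ∈ BB (1 : G →* Matrix (Fin 1) (Fin 1) k) S →
      a = 0 := by
    intro h
    apply hS
    obtain ⟨Y, f, hY, hf, hfg⟩ := isSub_of_inj (1 : G →* Matrix (Fin 1) (Fin 1) k) S irr_one h
    refine ⟨Y, (LinearMap.proj 0).comp f, fun g _ y hy => hY g y hy, ?_, fun g _ y hy => ?_⟩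
    · have h2 : (fun _ => 1 : Fin 1 → k) ∈ Y.map f := by rw [hf]; trivial
      obtain ⟨y, hy, hy1⟩ := h2
      refine ⟨y, hy, ?_⟩
      rw [LinearMap.comp_apply, hy1]
      exact one_ne_zero
    · rw [LinearMap.comp_apply, LinearMap.comp_apply, hfg g y hy, MonoidHom.one_apply,
        Matrix.one_mulVec]
  push Not at h1
  obtain ⟨a, ha, ha0⟩ := h1
  let p : (Matrix (Fin n) (Fin n) k × Matrix (Fin m) (Fin m) k × k) →ₗ[k]
      (Matrix (Fin 1) (Fin 1) k × Matrix (Fin m) (Fin m) k) :=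
    { toFun := fun x => (x.2.2 • 1, x.2.1)
      map_add' := fun x y => by
        simp only [Prod.snd_add, Prod.fst_add, add_smul, Prod.mk_add_mk]
      map_smul' := fun c x => by
        simp only [Prod.smul_snd, Prod.smul_fst, RingHom.id_apply, Prod.smul_mk, smul_eq_mul,
          mul_smul] }
  have h2 : (AA R S).map p = BB (1 : G →* Matrix (Fin 1) (Fin 1) k) S := by
    unfold AA BB
    rw [Submodule.map_span, ← Set.range_comp]
    congr 1
    ext x
    constructor
    · rintro ⟨g, rfl⟩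
      refine ⟨g, ?_⟩
      change ((1 : Matrix (Fin 1) (Fin 1) k), S g) = ((1 : k) • 1, S g)
      rw [one_smul]
    · rintro ⟨g, rfl⟩
      refine ⟨g, ?_⟩
      change ((1 : k) • (1 : Matrix (Fin 1) (Fin 1) k), S g) = (1, S g)
      rw [one_smul]
  rw [← h2] at ha
  obtain ⟨⟨e, s, t⟩, he, hes⟩ := ha
  have h3 : t • (1 : Matrix (Fin 1) (Fin 1) k) = a := congrArg Prod.fst hes
  have h4 : s = 0 := congrArg Prod.snd hes
  have ht : t ≠ 0 := by
    rintro rfl
    apply ha0
    rw [← h3, zero_smul]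
  refine ⟨t⁻¹ • e, ?_⟩
  have h5 := (AA R S).smul_mem t⁻¹ he
  rw [h4, Prod.smul_mk, Prod.smul_mk, smul_zero, smul_eq_mul, inv_mul_cancel₀ ht] at h5
  exact h5

theorem nil_of_trace [CharZero k] {ι : Type*} [Fintype ι] [DecidableEq ι] (e : Matrix ι ι k)
    (h : ∀ r : ℕ, (e ^ (r + 1)).trace = 0) : ∃ N, e ^ N = 0 := by
  obtain ⟨N, hN⟩ := Burn.isNilpotent_of_trace_pow (k := k) (V := ι → k)
    (fun m hm _ => by exact_mod_cast hm.ne') (Matrix.toLin' e) (fun r => by
      rw [← Matrix.toLin'_pow, Matrix.trace_toLin'_eq]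
      exact h r)
  refine ⟨N, ?_⟩
  rw [← Matrix.toLin'_pow] at hN
  exact Matrix.toLin'.injective (hN.trans (map_zero _).symm)

theorem trace_AA (R : G →* Matrix (Fin n) (Fin n) k) (S : G →* Matrix (Fin m) (Fin m) k) {c : k}
    (hc : ∀ g, (R g).trace - (S g).trace = c) :
    ∀ a ∈ AA R S, a.1.trace - a.2.1.trace = c * a.2.2 := by
  intro a ha
  let L : (Matrix (Fin n) (Fin n) k × Matrix (Fin m) (Fin m) k × k) →ₗ[k] k :=
    { toFun := fun a => a.1.trace - a.2.1.trace - c * a.2.2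
      map_add' := fun a b => by
        simp only [Prod.fst_add, Prod.snd_add, Matrix.trace_add]
        ring
      map_smul' := fun c a => by
        simp only [Prod.smul_fst, Prod.smul_snd, Matrix.trace_smul, RingHom.id_apply, smul_eq_mul]
        ring }
  have h2 : AA R S ≤ LinearMap.ker L := by
    unfold AA
    rw [Submodule.span_le]
    rintro _ ⟨g, rfl⟩
    rw [SetLike.mem_coe, LinearMap.mem_ker]
    change (R g).trace - (S g).trace - c * 1 = 0
    rw [hc, mul_one, sub_self]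
  have h3 := h2 ha
  rw [LinearMap.mem_ker] at h3
  exact sub_eq_zero.1 h3

/-- the powers -/
theorem trace_kill (R : G →* Matrix (Fin n) (Fin n) k) (S : G →* Matrix (Fin m) (Fin m) k) {c : k}
    (hc : ∀ g, (R g).trace - (S g).trace = c) {e : Matrix (Fin n) (Fin n) k}
    (he : (e, 0, 1) ∈ AA R S) (r : ℕ) : (e ^ (r + 1)).trace = c := by
  have h1 := trace_AA R S hc _ (pow_mem_AA R S he r)
  rw [Prod.pow_mk, Prod.pow_mk, zero_pow (Nat.succ_ne_zero r), one_pow, mul_one,
    Matrix.trace_zero, sub_zero] at h1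
  exact h1

theorem le_of_not_triv [CharZero k] (R : G →* Matrix (Fin n) (Fin n) k)
    (S : G →* Matrix (Fin m) (Fin m) k) (hc : ∀ g, (R g).trace - (S g).trace = n - m)
    (hS : ¬ Triv S ⊤) : m ≤ n := by
  classical
  by_contra hlt
  push Not at hlt
  obtain ⟨c, hcm⟩ := Nat.exists_eq_add_of_lt hlt
  obtain ⟨e, he⟩ := exists_kill R S hS
  have h1 := trace_kill R S hc he
  let M : Matrix (Fin n ⊕ Fin (c + 1)) (Fin n ⊕ Fin (c + 1)) k := Matrix.fromBlocks e 0 0 1
  obtain ⟨N, hN⟩ := nil_of_trace M (fun r => by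
    have h2 : (Matrix.fromBlocks (e ^ (r + 1)) 0 0 (1 : Matrix (Fin (c + 1)) (Fin (c + 1)) k)).trace =
        (e ^ (r + 1)).trace + (1 : Matrix (Fin (c + 1)) (Fin (c + 1)) k).trace := by
      rw [Matrix.trace, Fintype.sum_sum_type]
      rfl
    rw [Matrix.fromBlocks_diagonal_pow, one_pow, h2, h1 r, Matrix.trace_one, Fintype.card_fin, hcm]
    push_cast
    ring)
  rw [Matrix.fromBlocks_diagonal_pow, one_pow] at hN
  have h2 := congrFun (congrFun hN (Sum.inr 0)) (Sum.inr 0)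
  rw [Matrix.fromBlocks_apply₂₂, Matrix.one_apply_eq] at h2
  exact one_ne_zero h2

theorem not_triv [CharZero k] (R : G →* Matrix (Fin n) (Fin n) k)
    (S : G →* Matrix (Fin m) (Fin m) k) (hc : ∀ g, (R g).trace - (S g).trace = 0)
    (hS : ¬ Triv S ⊤) : ¬ Triv R ⊤ := by
  classical
  rintro ⟨Y, f, hY, ⟨y, hy, hfy⟩, hf⟩
  obtain ⟨e, he⟩ := exists_kill R S hS
  obtain ⟨N, hN⟩ := nil_of_trace e (trace_kill R S hc he)
  have h1 : ∀ a ∈ AA R S, ∀ y ∈ Y, a.1 *ᵥ y ∈ Y ∧ f (a.1 *ᵥ y) = a.2.2 * f y := by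
    intro a ha y hy
    induction ha using Submodule.span_induction with
    | mem x hx =>
      obtain ⟨g, rfl⟩ := hx
      exact ⟨hY g trivial y hy, by rw [one_mul]; exact hf g trivial y hy⟩
    | zero => 
      rw [Prod.fst_zero, Matrix.zero_mulVec, Prod.snd_zero, Prod.snd_zero, zero_mul, map_zero]
      exact ⟨Y.zero_mem, rfl⟩
    | add a b _ _ ha hb =>
      rw [Prod.fst_add, Matrix.add_mulVec, Prod.snd_add, Prod.snd_add, map_add, ha.2, hb.2, add_mul]
      exact ⟨Y.add_mem ha.1 hb.1, rfl⟩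
    | smul c a _ ha =>
      rw [Prod.smul_fst, Matrix.smul_mulVec, Prod.smul_snd, Prod.smul_snd, map_smul, ha.2,
        smul_eq_mul, smul_eq_mul, mul_assoc]
      exact ⟨Y.smul_mem c ha.1, rfl⟩
  have h2 : ∀ r, (e ^ r) *ᵥ y ∈ Y ∧ f ((e ^ r) *ᵥ y) = f y := by
    intro r
    induction r with
    | zero =>
      rw [pow_zero, Matrix.one_mulVec]
      exact ⟨hy, rfl⟩
    | succ r ih =>
      rw [pow_succ', ← Matrix.mulVec_mulVec]
      have h3 := h1 _ he _ ih.1
      exact ⟨h3.1, by rw [h3.2, one_mul, ih.2]⟩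
  have h3 := (h2 N).2
  rw [hN, Matrix.zero_mulVec, map_zero] at h3
  exact hfy h3.symm

/-- restriction to a subgroup -/
theorem triv_comap (R : G →* Matrix (Fin n) (Fin n) k) (U : Subgroup G) :
    Triv (R.comp U.subtype) ⊤ ↔ Triv R U := by
  constructor
  · rintro ⟨Y, f, hY, hy, hf⟩
    exact ⟨Y, f, fun g hg y hy => hY ⟨g, hg⟩ trivial y hy, hy,
      fun g hg y hy => hf ⟨g, hg⟩ trivial y hy⟩
  · rintro ⟨Y, f, hY, hy, hf⟩
    exact ⟨Y, f, fun g _ y hy => hY g g.2 y hy, hy, fun g _ y hy => hf g g.2 y hy⟩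

theorem Triv.mono {R : G →* Matrix (Fin n) (Fin n) k} {U U' : Subgroup G} (h : U' ≤ U)
    (hU : Triv R U) : Triv R U' := by
  obtain ⟨Y, f, hY, hy, hf⟩ := hU
  exact ⟨Y, f, fun g hg => hY g (h hg), hy, fun g hg => hf g (h hg)⟩

/-- **The criterion.** -/
theorem criterion [CharZero k] [TopologicalSpace G] (R : G →* Matrix (Fin n) (Fin n) k)
    (S : G →* Matrix (Fin m) (Fin m) k) (H : Subgroup G) (hH : IsOpen (H : Set G))
    (hc : ∀ g ∈ H, (R g).trace - (S g).trace = n - m)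
    (hS : ∀ U : Subgroup G, IsOpen (U : Set G) → ¬ Triv S U) :
    m ≤ n ∧ ((∀ U : Subgroup G, IsOpen (U : Set G) → ¬ Triv R U) ↔ n = m) := by
  have h1 : m ≤ n := le_of_not_triv (R.comp H.subtype) (S.comp H.subtype) (fun g => hc g g.2)
    (fun h => hS H hH ((triv_comap S H).1 h))
  refine ⟨h1, fun hR => ?_, fun hnm U hU hT => ?_⟩
  · have h2 : n ≤ m := le_of_not_triv (S.comp H.subtype) (R.comp H.subtype) (fun g => by
      have := hc g g.2
      rw [← neg_sub ((R.comp H.subtype) g).trace, ← neg_sub (n : k)]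
      exact congrArg Neg.neg this) (fun h => hR H hH ((triv_comap R H).1 h))
    exact le_antisymm h2 h1
  · have h3 : Triv R (U ⊓ H) := hT.mono inf_le_left
    have hUH : IsOpen ((U ⊓ H : Subgroup G) : Set G) := by
      rw [Subgroup.coe_inf]
      exact hU.inter hH
    refine not_triv (R.comp (U ⊓ H).subtype) (S.comp (U ⊓ H).subtype) (fun g => ?_)
      (fun h => hS _ hUH ((triv_comap S _).1 h)) ((triv_comap R _).2 h3)
    have h4 : (n : k) - m = 0 := by rw [hnm, sub_self]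
    exact (hc g g.2.2).trans h4

end Pool.Agent.R401.Pt
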