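import Pool.Agent.R401.Ph
import Pool.Agent.R401.Pt

/-!
# Point counts modulo the norms of the places
-/

set_option autoImplicit false
set_option maxHeartbeats 400000

namespace Pool.Agent.R401.Pu

open NumberField Filter Topology IsDedekindDomain Pool.Agent.W401.Cheb Pool.Agent.R401.Sup
open Pool.Agent.W569.FM Pool.Agent.R401.Img Pool.Agent.R401.Eng Pool.Agent.R401.Sup2
open Pool.Agent.R401.Sup3 Module Matrix

variable {K : Type} [Field K] [NumberField K] {p : ℕ} [Fact p.Prime] {s t r r' : ℕ}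

/-- the matrix, over any ring -/
noncomputable def mz {R : Type} [CommRing R] {n : ℕ} (V : GK K →* GL (Fin n) R) (g : GK K) :
    Matrix (Fin n) (Fin n) R := (V g : GL (Fin n) R)

/-- no potentially trivial subquotient -/
def NT (T : GK K →* GL (Fin s) ℚ_[p]) : Prop :=
  ∀ U : Subgroup (GK K), IsOpen (U : Set (GK K)) →
    ¬ ∃ (Y : Submodule ℚ_[p] (Fin s → ℚ_[p])) (f : (Fin s → ℚ_[p]) →ₗ[ℚ_[p]] ℚ_[p]),
      (∀ g ∈ U, ∀ y ∈ Y, mz T g *ᵥ y ∈ Y) ∧ (∃ y ∈ Y, f y ≠ 0) ∧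
      ∀ g ∈ U, ∀ y ∈ Y, f (mz T g *ᵥ y) = f y

theorem finite_trace (N : GK K →* GL (Fin r) ℤ) (hN : IsOpen (N.ker : Set (GK K))) :
    (Set.range fun g => (mz N g).trace).Finite := by
  have h1 : Finite (GK K ⧸ N.ker) := Subgroup.quotient_finite_of_isOpen N.ker hN
  have h2 : Finite N.range := Finite.of_equiv _ (QuotientGroup.quotientKerEquivRange N).toEquiv
  have h3 : (Set.range fun g => N g).Finite := by
    have : (N.range : Set (GL (Fin r) ℤ)).Finite := Set.toFinite _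
    exact this
  have h4 : (Set.range fun g => (mz N g).trace) =
      (fun x : GL (Fin r) ℤ => (x : Matrix (Fin r) (Fin r) ℤ).trace) '' (Set.range fun g => N g) := by
    rw [← Set.range_comp]
    rfl
  rw [h4]
  exact h3.image _

theorem main (N : GK K →* GL (Fin r) ℤ) (hN : IsOpen (N.ker : Set (GK K)))
    (N' : GK K →* GL (Fin r') ℤ) (hN' : IsOpen (N'.ker : Set (GK K)))
    (T : GK K →* GL (Fin s) ℚ_[p]) (hT : Continuous T)
    (T' : GK K →* GL (Fin t) ℚ_[p]) (hT' : Continuous T')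
    (B : Set (HeightOneSpectrum (𝓞 K))) (hB : B.Finite) (b b' : HeightOneSpectrum (𝓞 K) → ℤ)
    (C : ℕ) (hw : ∀ v, v ∉ B → |b v| ≤ C * Ideal.absNorm v.asIdeal)
    (hw' : ∀ v, v ∉ B → |b' v| ≤ C * Ideal.absNorm v.asIdeal)
    (hb : ∀ v, v ∉ B → (p : 𝓞 K) ∉ v.asIdeal → ∀ g, IsFrob v g →
      (b v : ℚ_[p]) = Ideal.absNorm v.asIdeal * (((mz N g⁻¹).trace : ℚ_[p]) + (mz T g⁻¹).trace))
    (hb' : ∀ v, v ∉ B → (p : 𝓞 K) ∉ v.asIdeal → ∀ g, IsFrob v g →
      (b' v : ℚ_[p]) = Ideal.absNorm v.asIdeal *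
        (((mz N' g⁻¹).trace : ℚ_[p]) + (mz T' g⁻¹).trace)) :
    ∃ H₀ : Subgroup (GK K), H₀.Normal ∧ IsOpen (H₀ : Set (GK K)) ∧
      ((∀ δ : ℝ, 0 < δ → ∀ᶠ x : ℕ in atTop,
        ({v : HeightOneSpectrum (𝓞 K) | Ideal.absNorm v.asIdeal ≤ x ∧
          ((∀ g, IsFrob v g → g ∈ H₀) ∧ (Ideal.absNorm v.asIdeal : ℤ) ∣ b v - b' v)}.ncard : ℝ) ≤
            δ * Nat.primeCounting x) ∨
      ((∀ v, v ∉ B → (p : 𝓞 K) ∉ v.asIdeal → (∀ g, IsFrob v g → g ∈ H₀) →
        (Ideal.absNorm v.asIdeal : ℤ) ∣ b v - b' v) ∧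
      (∀ g ∈ H₀, (mz T g).trace - (mz T' g).trace = s - t) ∧
      (NT T' → t ≤ s ∧ (NT T ↔ s = t)))) := by
  classical
  let R : GK K →* Matrix (Fin s) (Fin s) ℚ_[p] := (Units.coeHom _).comp T
  let S : GK K →* Matrix (Fin t) (Fin t) ℚ_[p] := (Units.coeHom _).comp T'
  have hR : Continuous R := Units.continuous_val.comp hT
  have hS : Continuous S := Units.continuous_val.comp hT'
  have hRv : ∀ g, R g = mz T g := fun _ => rfl
  have hSv : ∀ g, S g = mz T' g := fun _ => rfl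
  obtain ⟨H₀, hHn, hHo, hH⟩ := Ph.potential R hR S hS
  refine ⟨H₀, hHn, hHo, ?_⟩
  have hq : ∀ v : HeightOneSpectrum (𝓞 K), (Ideal.absNorm v.asIdeal : ℤ) ≠ 0 := fun v => by
    have : Ideal.absNorm v.asIdeal ≠ 0 := fun h0 => v.ne_bot (Ideal.absNorm_eq_zero_iff.1 h0)
    exact_mod_cast this
  by_cases hδ : ∃ δ : ℝ, 0 < δ ∧ ∃ᶠ x : ℕ in atTop, δ ≤ dens (fun v : HeightOneSpectrum (𝓞 K) =>
      (∀ g, IsFrob v g → g ∈ H₀) ∧ (Ideal.absNorm v.asIdeal : ℤ) ∣ b v - b' v) x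
  swap
  · left
    intro δ hδ0
    push Not at hδ
    filter_upwards [hδ δ hδ0, Nat.tendsto_primeCounting.eventually_gt_atTop 0] with x hx hx0
    have h4 : (0 : ℝ) < (Nat.primeCounting x : ℝ) := by exact_mod_cast hx0
    unfold dens at hx
    rw [div_lt_iff₀ h4] at hx
    exact hx.le
  right
  obtain ⟨δ, hδ0, hδx⟩ := hδ
  -- the finite set of values
  set A := (finite_trace N hN).toFinset with hA
  set A' := (finite_trace N' hN').toFinset with hA'
  set Y : Finset ℚ_[p] := ((Finset.Icc (-(2 * C : ℤ)) (2 * C)) ×ˢ (A ×ˢ A')).image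
    (fun x => (((x.1 - x.2.1 + x.2.2 : ℤ)) : ℚ_[p])) with hY
  have hconst := hH Y (δ / 2) (by positivity) (by
    have h1 := dens_fin (fun v : HeightOneSpectrum (𝓞 K) => v ∈ B) hB
    have h2 := dens_fin (fun v : HeightOneSpectrum (𝓞 K) => (p : 𝓞 K) ∈ v.asIdeal)
      (Pool.Agent.W352.ChAbs.over_le p (Fact.out : p.Prime)).1
    have hδ4 : 0 < δ / 4 := by positivity
    refine (hδx.and_eventually ((h1.eventually (ge_mem_nhds hδ4)).and
      (h2.eventually (ge_mem_nhds hδ4)))).mono ?_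
    rintro x ⟨h3, h4, h5⟩
    have h6 : dens (fun v : HeightOneSpectrum (𝓞 K) =>
        (∀ g, IsFrob v g → g ∈ H₀) ∧ (Ideal.absNorm v.asIdeal : ℤ) ∣ b v - b' v) x ≤
        dens (fun v : HeightOneSpectrum (𝓞 K) =>
          (∃ g, IsFrob v g ∧ g ∈ H₀ ∧ ∃ y ∈ Y, (R g⁻¹).trace - (S g⁻¹).trace = y) ∨
          (v ∈ B ∨ (p : 𝓞 K) ∈ v.asIdeal)) x := by
      refine dens_le ?_ x
      rintro v ⟨hv1, c, hc⟩
      by_cases hvB : v ∈ B
      · exact Or.inr (Or.inl hvB)
      by_cases hvp : (p : 𝓞 K) ∈ v.asIdeal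
      · exact Or.inr (Or.inr hvp)
      left
      obtain ⟨g, hg⟩ := Pool.Agent.W401.Frob.exists_frob v
      refine ⟨g, hg, hv1 g hg, _, ?_, rfl⟩
      rw [hY, Finset.mem_image]
      refine ⟨(c, ((mz N g⁻¹).trace, (mz N' g⁻¹).trace)), ?_, ?_⟩
      · rw [Finset.mem_product, Finset.mem_product, Finset.mem_Icc]
        refine ⟨?_, ?_, ?_⟩
        · have h7 := hw v hvB
          have h8 := hw' v hvB
          have h9 : (0 : ℤ) < (Ideal.absNorm v.asIdeal : ℤ) :=
            lt_of_le_of_ne (Int.natCast_nonneg _) (hq v).symm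
          rw [abs_le] at h7 h8
          constructor
          · by_contra hcon
            push Not at hcon
            nlinarith
          · by_contra hcon
            push Not at hcon
            nlinarith
        · rw [hA, Set.Finite.mem_toFinset]
          exact ⟨g⁻¹, rfl⟩
        · rw [hA', Set.Finite.mem_toFinset]
          exact ⟨g⁻¹, rfl⟩
      · have h7 := hb v hvB hvp g hg
        have h8 := hb' v hvB hvp g hg
        have h9 : (b v : ℚ_[p]) - b' v = Ideal.absNorm v.asIdeal * (c : ℚ_[p]) := by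
          have := congrArg (fun z : ℤ => (z : ℚ_[p])) hc
          push_cast at this
          exact this
        have h10 : (Ideal.absNorm v.asIdeal : ℚ_[p]) ≠ 0 := by
          have := hq v
          exact_mod_cast this
        rw [hRv, hSv]
        push_cast
        apply mul_left_cancel₀ h10
        linear_combination (-1 : ℚ_[p]) * h9 + h7 - h8
    have h7 := (h6.trans (card_or _ _ x)).trans (add_le_add_right (card_or _ _ x) _)
    linarith)
  refine ⟨?_, fun g hg => hconst g hg, fun hNT => ?_⟩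
  · intro v hvB hvp hv
    obtain ⟨g, hg⟩ := Pool.Agent.W401.Frob.exists_frob v
    refine ⟨(mz N g⁻¹).trace - (mz N' g⁻¹).trace + (s - t), ?_⟩
    have h7 := hb v hvB hvp g hg
    have h8 := hb' v hvB hvp g hg
    have h9 := hconst g⁻¹ (H₀.inv_mem (hv g hg))
    rw [hRv, hSv] at h9
    have h10 : ((b v - b' v : ℤ) : ℚ_[p]) = (((Ideal.absNorm v.asIdeal : ℤ) *
        ((mz N g⁻¹).trace - (mz N' g⁻¹).trace + (s - t)) : ℤ) : ℚ_[p]) := by
      push_cast
      linear_combination h7 - h8 + (Ideal.absNorm v.asIdeal : ℚ_[p]) * h9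
    exact_mod_cast h10
  · exact Pt.criterion R S H₀ hHo hconst (fun U hU => hNT U hU)

end Pool.Agent.R401.Pu
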