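import Pool.Agent.R401.Img

/-!
# Trace functions which differ by a function on a quotient
-/

set_option autoImplicit false
set_option maxHeartbeats 400000

namespace Pool.Agent.R401.Sbq

open Module Matrix

variable {G : Type*} [Group G] {k : Type*} [Field k] {n m : ℕ}
  (R : G →* Matrix (Fin n) (Fin n) k) (S : G →* Matrix (Fin m) (Fin m) k)

/-- the span of the image of the group -/
def BB : Submodule k (Matrix (Fin n) (Fin n) k × Matrix (Fin m) (Fin m) k) :=
  Submodule.span k (Set.range fun g => (R g, S g))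

theorem mem_BB (g : G) : (R g, S g) ∈ BB R S := Submodule.subset_span ⟨g, rfl⟩

theorem one_mem_BB : (1 : Matrix (Fin n) (Fin n) k × Matrix (Fin m) (Fin m) k) ∈ BB R S := by
  have := mem_BB R S 1
  rwa [map_one, map_one] at this

theorem mul_mem_BB {a b : Matrix (Fin n) (Fin n) k × Matrix (Fin m) (Fin m) k}
    (ha : a ∈ BB R S) (hb : b ∈ BB R S) : a * b ∈ BB R S := by
  have h : BB R S * BB R S ≤ BB R S := by
    unfold BB
    rw [Submodule.span_mul_span]
    apply Submodule.span_mono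
    rintro _ ⟨_, ⟨g, rfl⟩, _, ⟨h, rfl⟩, rfl⟩
    refine ⟨g * h, ?_⟩
    simp only [map_mul, Prod.mk_mul_mk]
  exact h (Submodule.mul_mem_mul ha hb)

/-- subquotients -/
def IsSub : Prop :=
  ∃ (Y : Submodule k (Fin m → k)) (f : (Fin m → k) →ₗ[k] (Fin n → k)),
    (∀ g, ∀ y ∈ Y, S g *ᵥ y ∈ Y) ∧ Y.map f = ⊤ ∧ ∀ g, ∀ y ∈ Y, f (S g *ᵥ y) = R g *ᵥ f y

/-- irreducible -/
def Irr : Prop :=
  0 < n ∧ ∀ X : Submodule k (Fin n → k), (∀ g, ∀ x ∈ X, R g *ᵥ x ∈ X) → X = ⊥ ∨ X = ⊤

/-- a linear map which is determined on the range -/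
theorem exists_factor {P V W : Type*} [AddCommGroup P] [Module k P] [AddCommGroup V] [Module k V]
    [AddCommGroup W] [Module k W] (α : P →ₗ[k] V) (β : P →ₗ[k] W)
    (h : ∀ p, α p = 0 → β p = 0) : ∃ f : V →ₗ[k] W, ∀ p, f (α p) = β p := by
  obtain ⟨g, hg⟩ := LinearMap.exists_leftInverse_of_injective ((LinearMap.ker α).liftQ α le_rfl) (by
    rw [Submodule.ker_liftQ_eq_bot]
    exact le_rfl)
  refine ⟨((LinearMap.ker α).liftQ β fun p hp => h p hp).comp g, fun p => ?_⟩
  have h1 := LinearMap.congr_fun hg (Submodule.Quotient.mk p)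
  rw [LinearMap.comp_apply, Submodule.liftQ_apply] at h1
  rw [LinearMap.comp_apply, h1]
  rfl

theorem isSub_of_inj (hirr : Irr R) (h0 : ∀ a, (a, (0 : Matrix (Fin m) (Fin m) k)) ∈ BB R S → a = 0) :
    IsSub R S := by
  classical
  obtain ⟨hn, hirr⟩ := hirr
  let v : Fin n → k := fun _ => 1
  have hv : v ≠ 0 := by
    intro h
    have := congrFun h ⟨0, hn⟩
    exact one_ne_zero this
  -- the filtration
  let SS : ℕ → Submodule k (Matrix (Fin n) (Fin n) k × Matrix (Fin m) (Fin m) k) := fun j =>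
    { carrier := {b | b ∈ BB R S ∧ ∀ (i : Fin m), i.1 < j → ∀ r, b.2 r i = 0}
      add_mem' := by
        rintro a b ⟨ha, ha'⟩ ⟨hb, hb'⟩
        refine ⟨(BB R S).add_mem ha hb, fun i hi r => ?_⟩
        rw [Prod.snd_add, Matrix.add_apply, ha' i hi r, hb' i hi r, add_zero]
      zero_mem' := ⟨(BB R S).zero_mem, fun i hi r => rfl⟩
      smul_mem' := by
        rintro c a ⟨ha, ha'⟩
        refine ⟨(BB R S).smul_mem c ha, fun i hi r => ?_⟩
        rw [Prod.smul_snd, Matrix.smul_apply, ha' i hi r, smul_zero] }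
  have hSmul : ∀ j g, ∀ b ∈ SS j, (R g, S g) * b ∈ SS j := by
    rintro j g b ⟨hb, hb'⟩
    refine ⟨mul_mem_BB R S (mem_BB R S g) hb, fun i hi r => ?_⟩
    rw [Prod.snd_mul, Matrix.mul_apply]
    exact Finset.sum_eq_zero fun x _ => by rw [hb' i hi x, mul_zero]
  let β : (Matrix (Fin n) (Fin n) k × Matrix (Fin m) (Fin m) k) →ₗ[k] (Fin n → k) :=
    { toFun := fun b => b.1 *ᵥ v
      map_add' := fun a b => by rw [Prod.fst_add, Matrix.add_mulVec]
      map_smul' := fun c a => by rw [Prod.smul_fst, Matrix.smul_mulVec]; rfl }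
  have hβ : ∀ b, β b = b.1 *ᵥ v := fun _ => rfl
  have hX : ∀ j, (SS j).map β = ⊥ ∨ (SS j).map β = ⊤ := by
    intro j
    apply hirr
    rintro g _ ⟨b, hb, rfl⟩
    refine ⟨(R g, S g) * b, hSmul j g b hb, ?_⟩
    rw [hβ, hβ, Prod.fst_mul, Matrix.mulVec_mulVec]
  have hX0 : (SS 0).map β ≠ ⊥ := by
    intro h
    have h1 : β 1 ∈ (SS 0).map β := ⟨1, ⟨one_mem_BB R S, fun i hi => absurd hi (Nat.not_lt_zero _)⟩, rfl⟩
    rw [h, Submodule.mem_bot, hβ, Prod.fst_one, Matrix.one_mulVec] at h1
    exact hv h1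
  have hXm : (SS m).map β = ⊥ := by
    rw [Submodule.eq_bot_iff]
    rintro _ ⟨b, ⟨hb, hb'⟩, rfl⟩
    have h1 : b.2 = 0 := by
      ext r i
      exact hb' i i.2 r
    have h2 : b.1 = 0 := by
      apply h0
      rw [← h1]
      exact hb
    rw [hβ, h2, Matrix.zero_mulVec]
  have hex : ∃ j, (SS j).map β = ⊥ := ⟨m, hXm⟩
  obtain ⟨j, hj⟩ := Nat.exists_eq_succ_of_ne_zero (n := Nat.find hex) (by
    intro h
    have := Nat.find_spec hex
    rw [h] at this
    exact hX0 this)
  have hj1 : (SS (j + 1)).map β = ⊥ := by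
    have := Nat.find_spec hex
    rwa [hj] at this
  have hj2 : (SS j).map β = ⊤ := (hX j).resolve_left (Nat.find_min hex (by omega))
  have hjm : j < m := by
    have := Nat.find_min' hex hXm
    omega
  let i : Fin m := ⟨j, hjm⟩
  let α : (Matrix (Fin n) (Fin n) k × Matrix (Fin m) (Fin m) k) →ₗ[k] (Fin m → k) :=
    { toFun := fun b r => b.2 r i
      map_add' := fun a b => by
        ext r
        rw [Prod.snd_add, Matrix.add_apply]
        rfl
      map_smul' := fun c a => by
        ext r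
        rw [Prod.smul_snd, Matrix.smul_apply]
        rfl }
  have hα : ∀ b r, α b r = b.2 r i := fun _ _ => rfl
  have hαmul : ∀ g b, α ((R g, S g) * b) = S g *ᵥ α b := by
    intro g b
    ext r
    rw [hα, Prod.snd_mul, Matrix.mul_apply, Matrix.mulVec, dotProduct]
    rfl
  have hβmul : ∀ g b, β ((R g, S g) * b) = R g *ᵥ β b := by
    intro g b
    rw [hβ, hβ, Prod.fst_mul, Matrix.mulVec_mulVec]
  obtain ⟨f, hf⟩ := exists_factor (α.comp (SS j).subtype) (β.comp (SS j).subtype) (by
    rintro ⟨b, hb, hb'⟩ hp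
    have h1 : b ∈ SS (j + 1) := by
      refine ⟨hb, fun i' hi' r => ?_⟩
      rcases Nat.lt_succ_iff_lt_or_eq.1 hi' with h2 | h2
      · exact hb' i' h2 r
      · have h3 : i' = i := Fin.ext h2
        rw [h3]
        exact congrFun hp r
    have h2 : β b ∈ (SS (j + 1)).map β := ⟨b, h1, rfl⟩
    rw [hj1, Submodule.mem_bot] at h2
    exact h2)
  have hf' : ∀ b ∈ SS j, f (α b) = β b := fun b hb => hf ⟨b, hb⟩
  refine ⟨(SS j).map α, f, ?_, ?_, ?_⟩
  · rintro g _ ⟨b, hb, rfl⟩
    exact ⟨(R g, S g) * b, hSmul j g b hb, hαmul g b⟩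
  · rw [eq_top_iff, ← hj2]
    rintro _ ⟨b, hb, rfl⟩
    exact ⟨α b, ⟨b, hb, rfl⟩, hf' b hb⟩
  · rintro g _ ⟨b, hb, rfl⟩
    rw [← hαmul, hf' _ (hSmul j g b hb), hf' b hb, hβmul]

/-- the difference of the traces -/
def tt (b : Matrix (Fin n) (Fin n) k × Matrix (Fin m) (Fin m) k) : k := b.1.trace - b.2.trace

theorem tt_zero (U : Subgroup G) [hUn : U.Normal]
    (hU : ∀ x ∈ U, ∀ y, (R (x * y)).trace - (S (x * y)).trace = (R y).trace - (S y).trace)
    {a b : Matrix (Fin n) (Fin n) k × Matrix (Fin m) (Fin m) k} (ha : a ∈ BB R S)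
    (hb : b ∈ BB R S) {x : G} (hx : x ∈ U) : tt (a * ((R x, S x) - 1) * b) = 0 := by
  have hadd : ∀ p q : Matrix (Fin n) (Fin n) k × Matrix (Fin m) (Fin m) k,
      tt (p + q) = tt p + tt q := by
    intro p q
    unfold tt
    rw [Prod.fst_add, Prod.snd_add, Matrix.trace_add, Matrix.trace_add]
    ring
  have hsmul : ∀ (c : k) (p : Matrix (Fin n) (Fin n) k × Matrix (Fin m) (Fin m) k),
      tt (c • p) = c * tt p := by
    intro c p
    unfold tt
    rw [Prod.smul_fst, Prod.smul_snd, Matrix.trace_smul, Matrix.trace_smul, smul_eq_mul,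
      smul_eq_mul]
    ring
  have hzero : tt (0 : Matrix (Fin n) (Fin n) k × Matrix (Fin m) (Fin m) k) = 0 := by
    unfold tt
    rw [Prod.fst_zero, Prod.snd_zero, Matrix.trace_zero, Matrix.trace_zero, sub_zero]
  have h1 : ∀ g h : G, tt ((R g, S g) * ((R x, S x) - 1) * (R h, S h)) = 0 := by
    intro g h
    have h2 := hU (g * x * g⁻¹) (hUn.conj_mem x hx g) (g * h)
    have h3 : g * x * g⁻¹ * (g * h) = g * x * h := by group
    rw [h3] at h2
    unfold tt
    rw [Prod.fst_mul, Prod.fst_mul, Prod.snd_mul, Prod.snd_mul, Prod.fst_sub, Prod.snd_sub,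
      Prod.fst_one, Prod.snd_one, mul_sub, mul_sub, sub_mul, sub_mul, mul_one, mul_one,
      Matrix.trace_sub, Matrix.trace_sub, ← map_mul, ← map_mul, ← map_mul, ← map_mul, ← map_mul,
      ← map_mul]
    linear_combination h2
  unfold BB at ha hb
  induction ha using Submodule.span_induction with
  | mem a ha =>
    obtain ⟨g, rfl⟩ := ha
    induction hb using Submodule.span_induction with
    | mem b hb =>
      obtain ⟨h, rfl⟩ := hb
      exact h1 g h
    | zero => rw [mul_zero, hzero]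
    | add p q _ _ hp hq => rw [mul_add, hadd, hp, hq, add_zero]
    | smul c p _ hp => rw [mul_smul_comm, hsmul, hp, mul_zero]
  | zero => rw [zero_mul, zero_mul, hzero]
  | add p q _ _ hp hq => rw [add_mul, add_mul, hadd, hp, hq, add_zero]
  | smul c p _ hp => rw [smul_mul_assoc, smul_mul_assoc, hsmul, hp, mul_zero]

/-- **Dichotomy.** -/
theorem dichotomy [CharZero k] (hirr : Irr R) (U : Subgroup G) [hUn : U.Normal]
    (hU : ∀ x ∈ U, ∀ y, (R (x * y)).trace - (S (x * y)).trace = (R y).trace - (S y).trace) :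
    (∀ x ∈ U, R x = 1) ∨ IsSub R S := by
  classical
  by_cases h0 : ∀ a, (a, (0 : Matrix (Fin m) (Fin m) k)) ∈ BB R S → a = 0
  · exact Or.inr (isSub_of_inj R S hirr h0)
  left
  push Not at h0
  obtain ⟨a₀, ha₀, ha₀'⟩ := h0
  have hirr' := hirr.2
  -- the products vanish
  have key : ∀ a, (a, (0 : Matrix (Fin m) (Fin m) k)) ∈ BB R S → ∀ x ∈ U, a * (R x - 1) = 0 := by
    intro a ha x hx
    by_contra hne
    set z := a * (R x - 1) with hz
    obtain ⟨v, hv⟩ : ∃ v : Fin n → k, z *ᵥ v ≠ 0 := by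
      by_contra hcon
      push Not at hcon
      apply hne
      ext i j
      have := congrFun (hcon (Pi.single j 1)) i
      rwa [Matrix.mulVec_single_one, Matrix.col_apply] at this
    let X : Submodule k (Fin n → k) :=
      { carrier := {y | ∃ b ∈ BB R S, y = b.1 *ᵥ (z *ᵥ v)}
        add_mem' := by
          rintro _ _ ⟨b, hb, rfl⟩ ⟨c, hc, rfl⟩
          exact ⟨b + c, (BB R S).add_mem hb hc, by rw [Prod.fst_add, Matrix.add_mulVec]⟩
        zero_mem' := ⟨0, (BB R S).zero_mem, by rw [Prod.fst_zero, Matrix.zero_mulVec]⟩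
        smul_mem' := by
          rintro c _ ⟨b, hb, rfl⟩
          exact ⟨c • b, (BB R S).smul_mem c hb, by rw [Prod.smul_fst, Matrix.smul_mulVec]⟩ }
    have hXtop : X = ⊤ := by
      refine (hirr' X ?_).resolve_left ?_
      · rintro g _ ⟨b, hb, rfl⟩
        refine ⟨(R g, S g) * b, mul_mem_BB R S (mem_BB R S g) hb, ?_⟩
        rw [Prod.fst_mul, Matrix.mulVec_mulVec]
      · intro hX
        have h1 : z *ᵥ v ∈ X := ⟨1, one_mem_BB R S, by rw [Prod.fst_one, Matrix.one_mulVec]⟩
        rw [hX, Submodule.mem_bot] at h1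
        exact hv h1
    obtain ⟨b, hb, hbv⟩ : v ∈ X := by
      rw [hXtop]
      trivial
    have hv0 : v ≠ 0 := by
      rintro rfl
      exact hv (Matrix.mulVec_zero _)
    -- the element `y`
    have hzB : (z, (0 : Matrix (Fin m) (Fin m) k)) ∈ BB R S := by
      have h1 : (z, (0 : Matrix (Fin m) (Fin m) k)) = (a, 0) * ((R x, S x) - 1) := by
        rw [Prod.ext_iff]
        constructor
        · rfl
        · simp
      rw [h1]
      exact mul_mem_BB R S ha ((BB R S).sub_mem (mem_BB R S x) (one_mem_BB R S))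
    set y := b * (z, (0 : Matrix (Fin m) (Fin m) k)) with hy
    have hyB : y ∈ BB R S := mul_mem_BB R S hb hzB
    have hypow : ∀ r, y ^ r ∈ BB R S := by
      intro r
      induction r with
      | zero =>
        rw [pow_zero]
        exact one_mem_BB R S
      | succ r ih =>
        rw [pow_succ]
        exact mul_mem_BB R S ih hyB
    have htr : ∀ r, (y.1 ^ (r + 1)).trace = 0 := by
      intro r
      have h1 := tt_zero R S U hU (mul_mem_BB R S hb ha) (hypow r) hx
      have h2 : (b * (a, (0 : Matrix (Fin m) (Fin m) k)) * ((R x, S x) - 1) * y ^ r).1 =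
          y.1 ^ (r + 1) := by
        rw [pow_succ', hy, hz]
        simp only [Prod.fst_mul, Prod.fst_sub, Prod.fst_one, Prod.pow_fst, mul_assoc]
      have h3 : (b * (a, (0 : Matrix (Fin m) (Fin m) k)) * ((R x, S x) - 1) * y ^ r).2 = 0 := by
        simp only [Prod.snd_mul, mul_zero, zero_mul]
      unfold tt at h1
      rw [h2, h3, Matrix.trace_zero, sub_zero] at h1
      exact h1
    have hnil := Pool.Agent.R401.Burn.isNilpotent_of_trace_pow (k := k) (V := Fin n → k)
      (fun m h1 _ => Nat.cast_ne_zero.2 h1.ne') (Matrix.toLin' y.1) (by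
        intro r
        rw [← Matrix.toLin'_pow, Matrix.trace_toLin'_eq]
        exact htr r)
    obtain ⟨e, he⟩ := hnil
    have hyv : Matrix.toLin' y.1 v = v := by
      rw [Matrix.toLin'_apply, hy, Prod.fst_mul, ← Matrix.mulVec_mulVec]
      exact hbv.symm
    have hyv' : ∀ r : ℕ, (Matrix.toLin' y.1 ^ r) v = v := by
      intro r
      induction r with
      | zero => rw [pow_zero]; rfl
      | succ r ih => rw [pow_succ, Module.End.mul_apply, hyv, ih]
    have := hyv' e
    rw [he, LinearMap.zero_apply] at this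
    exact hv0 this.symm
  -- the common kernel
  let N : Submodule k (Fin n → k) :=
    { carrier := {v | ∀ a, (a, (0 : Matrix (Fin m) (Fin m) k)) ∈ BB R S → a *ᵥ v = 0}
      add_mem' := by
        intro v w hv hw a ha
        rw [Matrix.mulVec_add, hv a ha, hw a ha, add_zero]
      zero_mem' := by
        intro a ha
        rw [Matrix.mulVec_zero]
      smul_mem' := by
        intro c v hv a ha
        rw [Matrix.mulVec_smul, hv a ha, smul_zero] }
  have hN : N = ⊥ := by
    refine (hirr' N ?_).resolve_right ?_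
    · intro g v hv a ha
      rw [Matrix.mulVec_mulVec]
      apply hv
      have h1 : (a * R g, (0 : Matrix (Fin m) (Fin m) k)) = (a, 0) * (R g, S g) := by
        rw [Prod.mk_mul_mk, zero_mul]
      rw [h1]
      exact mul_mem_BB R S ha (mem_BB R S g)
    · intro hN
      apply ha₀'
      ext i j
      have h1 : (Pi.single j 1 : Fin n → k) ∈ N := by
        rw [hN]
        trivial
      have := congrFun (h1 a₀ ha₀) i
      rwa [Matrix.mulVec_single_one, Matrix.col_apply] at this
  intro x hx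
  have h1 : ∀ v, (R x - 1) *ᵥ v = 0 := by
    intro v
    have h2 : (R x - 1) *ᵥ v ∈ N := by
      intro a ha
      rw [Matrix.mulVec_mulVec, key a ha x hx, Matrix.zero_mulVec]
    rw [hN, Submodule.mem_bot] at h2
    exact h2
  have h2 : R x - 1 = 0 := by
    ext i j
    have := congrFun (h1 (Pi.single j 1)) i
    rwa [Matrix.mulVec_single_one, Matrix.col_apply] at this
  exact sub_eq_zero.1 h2

/-- equal traces -/
theorem isSub_of_trace [CharZero k] (hirr : Irr R) (hU : ∀ y, (R y).trace = (S y).trace) :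
    IsSub R S := by
  classical
  apply isSub_of_inj R S hirr
  intro z hzB
  by_contra hne
  have hirr' := hirr.2
  obtain ⟨v, hv⟩ : ∃ v : Fin n → k, z *ᵥ v ≠ 0 := by
    by_contra hcon
    push Not at hcon
    apply hne
    ext i j
    have := congrFun (hcon (Pi.single j 1)) i
    rwa [Matrix.mulVec_single_one, Matrix.col_apply] at this
  let X : Submodule k (Fin n → k) :=
    { carrier := {y | ∃ b ∈ BB R S, y = b.1 *ᵥ (z *ᵥ v)}
      add_mem' := by
        rintro _ _ ⟨b, hb, rfl⟩ ⟨c, hc, rfl⟩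
        exact ⟨b + c, (BB R S).add_mem hb hc, by rw [Prod.fst_add, Matrix.add_mulVec]⟩
      zero_mem' := ⟨0, (BB R S).zero_mem, by rw [Prod.fst_zero, Matrix.zero_mulVec]⟩
      smul_mem' := by
        rintro c _ ⟨b, hb, rfl⟩
        exact ⟨c • b, (BB R S).smul_mem c hb, by rw [Prod.smul_fst, Matrix.smul_mulVec]⟩ }
  have hXtop : X = ⊤ := by
    refine (hirr' X ?_).resolve_left ?_
    · rintro g _ ⟨b, hb, rfl⟩
      refine ⟨(R g, S g) * b, mul_mem_BB R S (mem_BB R S g) hb, ?_⟩
      rw [Prod.fst_mul, Matrix.mulVec_mulVec]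
    · intro hX
      have h1 : z *ᵥ v ∈ X := ⟨1, one_mem_BB R S, by rw [Prod.fst_one, Matrix.one_mulVec]⟩
      rw [hX, Submodule.mem_bot] at h1
      exact hv h1
  obtain ⟨b, hb, hbv⟩ : v ∈ X := by
    rw [hXtop]
    trivial
  have hv0 : v ≠ 0 := by
    rintro rfl
    exact hv (Matrix.mulVec_zero _)
  set y := b * (z, (0 : Matrix (Fin m) (Fin m) k)) with hy
  have hyB : y ∈ BB R S := mul_mem_BB R S hb hzB
  have hypow : ∀ r, y ^ r ∈ BB R S := by
    intro r
    induction r with
    | zero =>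
      rw [pow_zero]
      exact one_mem_BB R S
    | succ r ih =>
      rw [pow_succ]
      exact mul_mem_BB R S ih hyB
  have htt : ∀ b ∈ BB R S, b.1.trace = b.2.trace := by
    intro b hb
    unfold BB at hb
    induction hb using Submodule.span_induction with
    | mem b hb =>
      obtain ⟨h, rfl⟩ := hb
      exact hU h
    | zero => rw [Prod.fst_zero, Prod.snd_zero, Matrix.trace_zero, Matrix.trace_zero]
    | add p q _ _ hp hq =>
      rw [Prod.fst_add, Prod.snd_add, Matrix.trace_add, Matrix.trace_add, hp, hq]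
    | smul c p _ hp => rw [Prod.smul_fst, Prod.smul_snd, Matrix.trace_smul, Matrix.trace_smul, hp]
  have htr : ∀ r, (y.1 ^ (r + 1)).trace = 0 := by
    intro r
    have h1 := htt _ (hypow (r + 1))
    have h3 : (y ^ (r + 1)).2 = 0 := by
      rw [pow_succ, Prod.snd_mul, hy, Prod.snd_mul, mul_zero, mul_zero]
    rw [h3, Matrix.trace_zero, Prod.pow_fst] at h1
    exact h1
  have hnil := Pool.Agent.R401.Burn.isNilpotent_of_trace_pow (k := k) (V := Fin n → k)
    (fun m h1 _ => Nat.cast_ne_zero.2 h1.ne') (Matrix.toLin' y.1) (by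
      intro r
      rw [← Matrix.toLin'_pow, Matrix.trace_toLin'_eq]
      exact htr r)
  obtain ⟨e, he⟩ := hnil
  have hyv : Matrix.toLin' y.1 v = v := by
    rw [Matrix.toLin'_apply, hy, Prod.fst_mul, ← Matrix.mulVec_mulVec]
    exact hbv.symm
  have hyv' : ∀ r : ℕ, (Matrix.toLin' y.1 ^ r) v = v := by
    intro r
    induction r with
    | zero => rw [pow_zero]; rfl
    | succ r ih => rw [pow_succ, Module.End.mul_apply, hyv, ih]
  have := hyv' e
  rw [he, LinearMap.zero_apply] at this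
  exact hv0 this.symm

end Pool.Agent.R401.Sbq
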