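import Pool.Agent.R401.Eng
import Pool.Agent.R401.Ram

/-!
# Representations whose traces of Frobenius elements are divisible by a power of the norm
-/

set_option autoImplicit false
set_option maxHeartbeats 400000

namespace Pool.Agent.R401.Sup

open NumberField Filter Topology IsDedekindDomain Pool.Agent.W401.Cheb Pool.Agent.R401.Img Module

section sep

variable {k : Type*} [Field k] [CharZero k] {n : ℕ} {G : Type*} [Group G]

/-- few elements separate the span of a semisimple representation -/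
theorem exists_sep (ρ : G →* GL (Fin n) k) (hss : SS ρ) : ∃ (m : ℕ) (h : Fin m → G), m ≤ n ^ 2 ∧
    ∀ (g g' : G) (r : k), (∀ j, (mt ρ (g' * h j)).trace = r * (mt ρ (g * h j)).trace) →
      mt ρ g' = r • mt ρ g := by
  classical
  have hk' : ∀ m : ℕ, 0 < m → m ≤ finrank k (Fin n → k) → (m : k) ≠ 0 :=
    fun m h1 _ => Nat.cast_ne_zero.2 h1.ne'
  obtain ⟨m, h, hm, hspan, -⟩ := Burn.exists_family hk' (act ρ) (fun W hW => hss.act W hW)
  rw [finrank_fin_fun] at hm
  refine ⟨m, h, hm, fun g g' r hgg => ?_⟩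
  have h0 : act ρ g' - r • act ρ g = 0 := by
    refine Burn.eq_zero_of_trace hk' (act ρ) (fun W hW => hss.act W hW)
      (Submodule.sub_mem _ (Submodule.subset_span ⟨g', rfl⟩)
        (Submodule.smul_mem _ _ (Submodule.subset_span ⟨g, rfl⟩))) fun x => ?_
    have h3 : act ρ x ∈ Submodule.span k (Set.range fun j => act ρ (h j)) := by
      rw [hspan]
      exact Submodule.subset_span ⟨x, rfl⟩
    generalize act ρ x = z at h3
    induction h3 using Submodule.span_induction with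
    | mem y hy =>
      obtain ⟨j, rfl⟩ := hy
      simp only
      rw [sub_mul, smul_mul_assoc, ← map_mul, ← map_mul, map_sub, map_smul, trace_act, trace_act,
        hgg j, smul_eq_mul, sub_self]
    | zero => rw [mul_zero, map_zero]
    | add a b _ _ ha hb => rw [mul_add, map_add, ha, hb, add_zero]
    | smul c a _ ha => rw [mul_smul_comm, map_smul, ha, smul_zero]
  have h1 : Matrix.toLinAlgEquiv' (mt ρ g' - r • mt ρ g) = 0 := by
    rw [map_sub, map_smul]
    exact h0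
  have h2 := (map_eq_zero_iff _ (Matrix.toLinAlgEquiv' :
    Matrix (Fin n) (Fin n) k ≃ₐ[k] _).injective).1 h1
  exact sub_eq_zero.1 h2

end sep

section scal

theorem mt_one {F : Type*} [Field F] {n : ℕ} {G : Type*} [Group G] (ρ : G →* GL (Fin n) F) :
    mt ρ 1 = 1 := by
  unfold Img.mt
  rw [map_one, Units.val_one]

variable {F : Type} [Field F] {n : ℕ} {G : Type*} [Group G]

theorem c_inv (c : G →* F) (a : G) : c a⁻¹ = (c a)⁻¹ := by
  apply eq_inv_of_mul_eq_one_left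
  rw [← map_mul, inv_mul_cancel, map_one]

theorem c_ne (c : G →* F) (a : G) : c a ≠ 0 := by
  intro h
  have h1 : c (a * a⁻¹) = 0 := by rw [map_mul, h, zero_mul]
  rw [mul_inv_cancel, map_one] at h1
  exact one_ne_zero h1

theorem mt_ne (hn : 0 < n) (ρ : G →* GL (Fin n) F) (g : G) : mt ρ g ≠ 0 := by
  intro h
  have h1 : mt ρ (g * g⁻¹) = 0 := by rw [mt_mul, h, zero_mul]
  rw [mul_inv_cancel, mt_one] at h1
  have h3 := congrFun (congrFun h1 ⟨0, hn⟩) ⟨0, hn⟩
  simp at h3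

/-- the elements which act as scalars `r` with `r ^ 2 = c ^ w` -/
def NN (hn : 0 < n) (ρ : G →* GL (Fin n) F) (c : G →* F) (w : ℤ) : Subgroup G where
  carrier := {x | ∃ r : F, mt ρ x = r • 1 ∧ r ^ 2 = c x ^ w}
  mul_mem' := by
    rintro a b ⟨r, hr, hr2⟩ ⟨s, hs, hs2⟩
    refine ⟨r * s, ?_, ?_⟩
    · rw [mt_mul, hr, hs, smul_mul_smul_comm, one_mul]
    · rw [mul_pow, hr2, hs2, map_mul, mul_zpow]
  one_mem' := by
    refine ⟨1, ?_, ?_⟩
    · rw [mt_one, one_smul]
    · rw [map_one, one_zpow, one_pow]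
  inv_mem' := by
    rintro a ⟨r, hr, hr2⟩
    have hr0 : r ≠ 0 := by
      rintro rfl
      rw [zero_smul] at hr
      exact mt_ne hn ρ a hr
    refine ⟨r⁻¹, ?_, ?_⟩
    · have h1 : mt ρ a * mt ρ a⁻¹ = 1 := by rw [← mt_mul, mul_inv_cancel, mt_one]
      rw [hr, smul_mul_assoc, one_mul] at h1
      rw [← h1, smul_smul, inv_mul_cancel₀ hr0, one_smul]
    · rw [inv_pow, hr2, c_inv, inv_zpow]

theorem mem_NN {hn : 0 < n} {ρ : G →* GL (Fin n) F} {c : G →* F} {w : ℤ} {x : G} :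
    x ∈ NN hn ρ c w ↔ ∃ r : F, mt ρ x = r • 1 ∧ r ^ 2 = c x ^ w := Iff.rfl

/-- the coordinates determine the coset -/
theorem coset (hn : 0 < n) (ρ : G →* GL (Fin n) F) (c : G →* F) (w : ℤ) {m : ℕ} (h : Fin m → G)
    (hsep : ∀ (g g' : G) (r : F), (∀ j, (mt ρ (g' * h j)).trace = r * (mt ρ (g * h j)).trace) →
      mt ρ g' = r • mt ρ g) (g g' : G)
    (hz : ∀ i j, (mt ρ (g * h i)).trace * (mt ρ (g * h j)).trace * (c g ^ w)⁻¹ =
      (mt ρ (g' * h i)).trace * (mt ρ (g' * h j)).trace * (c g' ^ w)⁻¹) :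
    g⁻¹ * g' ∈ NN hn ρ c w := by
  have hc : c g ^ w ≠ 0 := zpow_ne_zero _ (c_ne c g)
  have hc' : c g' ^ w ≠ 0 := zpow_ne_zero _ (c_ne c g')
  obtain ⟨i, hi⟩ : ∃ i, (mt ρ (g * h i)).trace ≠ 0 := by
    by_contra hcon
    push Not at hcon
    have h1 := hsep g g 0 (fun j => by rw [hcon j, mul_zero])
    rw [zero_smul] at h1
    exact mt_ne hn ρ g h1
  set t : Fin m → F := fun j => (mt ρ (g * h j)).trace with ht
  set t' : Fin m → F := fun j => (mt ρ (g' * h j)).trace with ht'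
  have hz' : ∀ i j, t i * t j * (c g ^ w)⁻¹ = t' i * t' j * (c g' ^ w)⁻¹ := hz
  have hti : t i ≠ 0 := hi
  have hii : t' i ^ 2 * (c g' ^ w)⁻¹ = t i ^ 2 * (c g ^ w)⁻¹ := by
    rw [pow_two, pow_two, hz' i i]
  have hi' : t' i ≠ 0 := by
    intro h0
    rw [h0] at hii
    have : t i ^ 2 * (c g ^ w)⁻¹ ≠ 0 := mul_ne_zero (pow_ne_zero _ hti) (inv_ne_zero hc)
    apply this
    rw [← hii]
    ring
  set r : F := t' i / t i with hr
  have hr2 : r ^ 2 = c g' ^ w * (c g ^ w)⁻¹ := by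
    rw [hr, div_pow]
    field_simp at hii ⊢
    linear_combination hii
  have hall : ∀ j, t' j = r * t j := by
    intro j
    have h1 := hz' i j
    have h2 : t' i * t' j = t i * t j * (c g' ^ w * (c g ^ w)⁻¹) := by
      field_simp at h1 ⊢
      linear_combination -h1
    rw [← hr2] at h2
    have h3 : t' i * t' j = t' i * (r * t j) := by
      rw [h2, hr]
      field_simp
    exact mul_left_cancel₀ hi' h3
  have h4 := hsep g g' r hall
  refine ⟨r, ?_, ?_⟩
  · rw [mt_mul, h4, mul_smul_comm, ← mt_mul, inv_mul_cancel, mt_one]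
  · rw [hr2, map_mul, mul_zpow, c_inv, inv_zpow, mul_comm]

section top

variable [TopologicalSpace F] [TopologicalSpace G]

theorem continuous_mt (ρ : G →* GL (Fin n) F) (hρ : Continuous ρ) : Continuous fun g => mt ρ g :=
  Units.continuous_val.comp hρ

theorem continuous_entry (ρ : G →* GL (Fin n) F) (hρ : Continuous ρ) (i j : Fin n) :
    Continuous fun g => mt ρ g i j := (continuous_mt ρ hρ).matrix_elem i j

variable [IsTopologicalRing F] [T2Space F] [ContinuousInv₀ F]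

theorem continuous_trace (ρ : G →* GL (Fin n) F) (hρ : Continuous ρ) :
    Continuous fun g => (mt ρ g).trace := (continuous_mt ρ hρ).matrix_trace

theorem isClosed_NN (hn : 0 < n) (ρ : G →* GL (Fin n) F) (hρ : Continuous ρ) (c : G →* F)
    (hc : Continuous c) (w : ℤ) : IsClosed (NN hn ρ c w : Set G) := by
  have h1 : (NN hn ρ c w : Set G) = {x | mt ρ x = (mt ρ x ⟨0, hn⟩ ⟨0, hn⟩) • (1 : Matrix _ _ F)} ∩
      {x | (mt ρ x ⟨0, hn⟩ ⟨0, hn⟩) ^ 2 = c x ^ w} := by
    ext x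
    constructor
    · rintro ⟨r, hr, hr2⟩
      have h2 : mt ρ x ⟨0, hn⟩ ⟨0, hn⟩ = r := by
        rw [hr, Matrix.smul_apply, Matrix.one_apply_eq, smul_eq_mul, mul_one]
      exact ⟨by rw [Set.mem_setOf_eq, h2]; exact hr, by rw [Set.mem_setOf_eq, h2]; exact hr2⟩
    · rintro ⟨h2, h3⟩
      exact ⟨_, h2, h3⟩
  rw [h1]
  refine IsClosed.inter ?_ ?_
  · exact isClosed_eq (continuous_mt ρ hρ) ((continuous_entry ρ hρ _ _).smul continuous_const)
  · exact isClosed_eq ((continuous_entry ρ hρ _ _).pow 2)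
      (hc.zpow₀ w fun x => Or.inl (c_ne c x))

/-- the good elements -/
def GG (ρ : G →* GL (Fin n) F) (c : G →* F) (w : ℤ) (Y : Set F) : Set G :=
  {g | ∃ y ∈ Y, (mt ρ g).trace ^ 2 = c g ^ w * y}

theorem isClosed_GG (ρ : G →* GL (Fin n) F) (hρ : Continuous ρ) (c : G →* F)
    (hc : Continuous c) (w : ℤ) {Y : Set F} (hY : Y.Finite) : IsClosed (GG ρ c w Y) := by
  have h1 : GG ρ c w Y = ⋃ y ∈ Y, {g | (mt ρ g).trace ^ 2 = c g ^ w * y} := by
    ext g
    simp [GG]
  rw [h1]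
  refine hY.isClosed_biUnion fun y _ => ?_
  exact isClosed_eq ((continuous_trace ρ hρ).pow 2)
    ((hc.zpow₀ w fun x => Or.inl (c_ne c x)).mul continuous_const)

end top

theorem conj_GG (ρ : G →* GL (Fin n) F) (c : G →* F) (w : ℤ) {Y : Set F} :
    ∀ g ∈ GG ρ c w Y, ∀ x : G, x * g * x⁻¹ ∈ GG ρ c w Y := by
  rintro g ⟨y, hy, hg⟩ x
  refine ⟨y, hy, ?_⟩
  have h1 : (mt ρ (x * g * x⁻¹)).trace = (mt ρ g).trace := by
    rw [mt_mul, Matrix.trace_mul_comm, ← mt_mul, ← mul_assoc, inv_mul_cancel, one_mul]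
  have h2 : c (x * g * x⁻¹) = c g := by
    rw [map_mul, map_mul, c_inv]
    field_simp [c_ne c x]
  rw [h1, h2, hg]

/-- finitely many cosets contain the good elements -/
theorem exists_cosets (hn : 0 < n) (ρ : G →* GL (Fin n) F) (c : G →* F) (w : ℤ) {m : ℕ}
    (h : Fin m → G)
    (hsep : ∀ (g g' : G) (r : F), (∀ j, (mt ρ (g' * h j)).trace = r * (mt ρ (g * h j)).trace) →
      mt ρ g' = r • mt ρ g) {Y : Set F} (hY : Y.Finite) :
    ∃ A : Finset G, ∀ g, (∀ j, g * h j ∈ GG ρ c w Y) → ∃ a ∈ A, a⁻¹ * g ∈ NN hn ρ c w := by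
  classical
  let z : G → (Fin m × Fin m → F) := fun g ij =>
    (mt ρ (g * h ij.1)).trace * (mt ρ (g * h ij.2)).trace * (c g ^ w)⁻¹
  set S : Set G := {g | ∀ j, g * h j ∈ GG ρ c w Y} with hS
  have hZ : ∀ ij : Fin m × Fin m,
      {x : F | ∃ y ∈ Y, ∃ y' ∈ Y, x ^ 2 = c (h ij.1) ^ w * c (h ij.2) ^ w * (y * y')}.Finite := by
    intro ij
    have h1 : {x : F | ∃ y ∈ Y, ∃ y' ∈ Y, x ^ 2 = c (h ij.1) ^ w * c (h ij.2) ^ w * (y * y')} ⊆
        ⋃ y ∈ Y, ⋃ y' ∈ Y, {x | x ^ 2 = c (h ij.1) ^ w * c (h ij.2) ^ w * (y * y')} := by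
      rintro x ⟨y, hy, y', hy', hx⟩
      exact Set.mem_biUnion hy (Set.mem_biUnion hy' hx)
    refine Set.Finite.subset ?_ h1
    refine hY.biUnion fun y _ => hY.biUnion fun y' _ => ?_
    set e : F := c (h ij.1) ^ w * c (h ij.2) ^ w * (y * y')
    have h2 : {x : F | x ^ 2 = e} ⊆ ((Polynomial.X ^ 2 - Polynomial.C e).roots.toFinset : Set F) := by
      intro x hx
      rw [Finset.mem_coe, Multiset.mem_toFinset, Polynomial.mem_roots
        (Polynomial.X_pow_sub_C_ne_zero two_pos e)]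
      simp only [Polynomial.IsRoot.def, Polynomial.eval_sub, Polynomial.eval_pow,
        Polynomial.eval_X, Polynomial.eval_C]
      exact sub_eq_zero.2 hx
    exact (Finset.finite_toSet _).subset h2
  have hfin : (z '' S).Finite := by
    refine (Set.Finite.pi' hZ).subset ?_
    rintro _ ⟨g, hg, rfl⟩ ij
    obtain ⟨y, hy, h1⟩ := hg ij.1
    obtain ⟨y', hy', h2⟩ := hg ij.2
    refine ⟨y, hy, y', hy', ?_⟩
    have hc : c g ^ w ≠ 0 := zpow_ne_zero _ (c_ne c g)
    rw [map_mul, mul_zpow] at h1 h2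
    simp only [z]
    rw [mul_pow, mul_pow, h1, h2, inv_pow]
    field_simp
  have hch : ∀ x ∈ z '' S, ∃ g ∈ S, z g = x := fun x hx => hx
  choose! f hf1 hf2 using hch
  refine ⟨hfin.toFinset.image f, fun g hg => ?_⟩
  have hgz : z g ∈ z '' S := ⟨g, hg, rfl⟩
  refine ⟨f (z g), Finset.mem_image_of_mem _ (hfin.mem_toFinset.2 hgz), ?_⟩
  apply coset hn ρ c w h hsep
  intro i j
  have := congrFun (hf2 _ hgz) (i, j)
  exact this

end scal

end Pool.Agent.R401.Sup
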