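import Pool.Agent.R401.Sup

/-!
# Densities
-/

set_option autoImplicit false
set_option maxHeartbeats 400000

namespace Pool.Agent.R401.Sup2

open NumberField Filter Topology IsDedekindDomain Pool.Agent.W401.Cheb Pool.Agent.R401.Eng

section odd

theorem finite_odd (E : Type) [Field E] [NumberField E] {c : E} (hc : c ≠ 0) {w : ℤ}
    (hw : ¬ (2 : ℤ) ∣ w) : {p : ℕ | p.Prime ∧ ∃ x : E, x ^ 2 = (p : E) ^ w * c}.Finite := by
  obtain ⟨s, hs⟩ := IsAlgClosed.exists_pow_nat_eq (algebraMap E (AlgebraicClosure E) c) two_pos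
  have hint : IsIntegral E s := Algebra.IsIntegral.isIntegral s
  let E' : IntermediateField E (AlgebraicClosure E) := IntermediateField.adjoin E {s}
  have hfd : FiniteDimensional E E' := IntermediateField.adjoin.finiteDimensional hint
  have hnf : NumberField E' := NumberField.of_module_finite E E'
  let s' : E' := ⟨s, IntermediateField.mem_adjoin_simple_self E s⟩
  have hs' : s' ^ 2 = algebraMap E E' c := Subtype.ext hs
  have hs0 : s' ≠ 0 := by
    intro h0
    rw [h0] at hs'
    have : algebraMap E E' c ≠ 0 := (map_ne_zero_iff _ (algebraMap E E').injective).2 hc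
    exact this (by rw [← hs']; ring)
  have hd0 : NumberField.discr E' ≠ 0 := NumberField.discr_ne_zero E'
  refine Set.Finite.subset (Set.finite_le_nat (NumberField.discr E').natAbs) ?_
  rintro p ⟨hp, x, hx⟩
  rw [Set.mem_setOf_eq]
  by_contra hcon
  have hnd : ¬ (p : ℤ) ∣ NumberField.discr E' := by
    intro hdvd
    have h1 : p ∣ (NumberField.discr E').natAbs := Int.natCast_dvd.1 hdvd
    exact hcon (Nat.le_of_dvd (Int.natAbs_pos.2 hd0) h1)
  apply hw
  refine Ram.dvd_of_pow hp hnd (x := algebraMap E E' x / s') (N := 2) two_pos (a := w) ?_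
  rw [div_pow, hs', ← map_pow, hx, map_mul, map_zpow₀, map_natCast]
  have : algebraMap E E' c ≠ 0 := (map_ne_zero_iff _ (algebraMap E E').injective).2 hc
  field_simp

end odd

variable {K : Type} [Field K] [NumberField K]

theorem card_or (P Q : HeightOneSpectrum (𝓞 K) → Prop) (N : ℕ) :
    dens (fun v => P v ∨ Q v) N ≤ dens P N + dens Q N := by
  have hfin := Pool.Agent.W352.ChAbs.finite_le (K := K) N
  unfold dens
  rw [← add_div]
  apply div_le_div_of_nonneg_right _ (Nat.cast_nonneg _)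
  have e : ∀ R : HeightOneSpectrum (𝓞 K) → Prop,
      Nat.card {v : HeightOneSpectrum (𝓞 K) // Ideal.absNorm v.asIdeal ≤ N ∧ R v} =
        {v : HeightOneSpectrum (𝓞 K) | Ideal.absNorm v.asIdeal ≤ N ∧ R v}.ncard := fun _ => rfl
  rw [e, e, e]
  have h1 : {v : HeightOneSpectrum (𝓞 K) | Ideal.absNorm v.asIdeal ≤ N ∧ (P v ∨ Q v)} =
      {v | Ideal.absNorm v.asIdeal ≤ N ∧ P v} ∪ {v | Ideal.absNorm v.asIdeal ≤ N ∧ Q v} := by
    ext v
    simp only [Set.mem_union, Set.mem_setOf_eq]
    tauto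
  rw [h1]
  exact_mod_cast Set.ncard_union_le _ _

/-- finite sets have density zero -/
theorem dens_fin (P : HeightOneSpectrum (𝓞 K) → Prop) (hP : {v | P v}.Finite) :
    Tendsto (dens P) atTop (𝓝 0) := by
  refine squeeze_zero (g := fun N : ℕ => ({v | P v}.ncard : ℝ) / (Nat.primeCounting N : ℝ)) ?_ ?_
    (Pool.Agent.W352.ChAbs.const_div_pi _)
  · intro N
    unfold dens
    positivity
  · intro N
    unfold dens
    apply div_le_div_of_nonneg_right _ (Nat.cast_nonneg _)
    have h1 : {v : HeightOneSpectrum (𝓞 K) | Ideal.absNorm v.asIdeal ≤ N ∧ P v} ⊆ {v | P v} :=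
      fun v hv => hv.2
    exact_mod_cast Set.ncard_le_ncard h1 hP

/-- the places whose norm is not a square times a constant -/
theorem dens_odd (E : Type) [Field E] [NumberField E] {c : E} (hc : c ≠ 0) {w : ℤ}
    (hw : ¬ (2 : ℤ) ∣ w) :
    Tendsto (dens fun v : HeightOneSpectrum (𝓞 K) =>
      ∃ x : E, x ^ 2 = (Ideal.absNorm v.asIdeal : E) ^ w * c) atTop (𝓝 0) := by
  classical
  set P : HeightOneSpectrum (𝓞 K) → Prop := fun v =>
    ∃ x : E, x ^ 2 = (Ideal.absNorm v.asIdeal : E) ^ w * c with hP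
  have hQ := finite_odd E hc hw
  set Q : Set ℕ := {p : ℕ | p.Prime ∧ ∃ x : E, x ^ 2 = (p : E) ^ w * c} with hQdef
  set d : ℕ := Module.finrank ℚ K with hd
  have hbound : ∀ N : ℕ, dens P N ≤ (d * Q.ncard : ℕ) / (Nat.primeCounting N : ℝ) +
      d * ((Nat.sqrt N + 1 : ℝ) / (Nat.primeCounting N : ℝ)) := by
    intro N
    obtain ⟨R, hR1, hR2⟩ := Pool.Agent.W352.ChAbs.decomp P N
    unfold dens
    rw [hR2, ← mul_div_assoc, ← add_div]
    apply div_le_div_of_nonneg_right _ (Nat.cast_nonneg _)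
    have h1 : ∑ p ∈ pr N,
        Nat.card {v : HeightOneSpectrum (𝓞 K) // Ideal.absNorm v.asIdeal = p ∧ P v} ≤
          d * Q.ncard := by
      have h2 : ∀ p ∈ pr N,
          Nat.card {v : HeightOneSpectrum (𝓞 K) // Ideal.absNorm v.asIdeal = p ∧ P v} ≤
            if p ∈ hQ.toFinset then d else 0 := by
        intro p hp
        have hpp : p.Prime := (Finset.mem_filter.mp hp).2
        have hsub : {v : HeightOneSpectrum (𝓞 K) | Ideal.absNorm v.asIdeal = p ∧ P v} ⊆
            {v | (p : 𝓞 K) ∈ v.asIdeal} := by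
          rintro v ⟨hv, -⟩
          have := Ideal.absNorm_mem v.asIdeal
          rw [hv] at this
          exact this
        split_ifs with hpQ
        · exact (Set.ncard_le_ncard hsub (Pool.Agent.W352.ChAbs.over_le p hpp).1).trans
            (Pool.Agent.W352.ChAbs.over_le p hpp).2
        · rw [Nat.le_zero]
          have : IsEmpty {v : HeightOneSpectrum (𝓞 K) // Ideal.absNorm v.asIdeal = p ∧ P v} := by
            refine ⟨?_⟩
            rintro ⟨v, hv, x, hx⟩
            apply hpQ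
            rw [hQ.mem_toFinset]
            refine ⟨hpp, x, ?_⟩
            rw [hx, hv]
          exact Nat.card_of_isEmpty
      refine (Finset.sum_le_sum h2).trans ?_
      rw [← Finset.sum_filter, Finset.sum_const, smul_eq_mul, mul_comm]
      apply Nat.mul_le_mul_left
      rw [Set.ncard_eq_toFinset_card Q hQ]
      apply Finset.card_le_card
      intro p hp
      exact (Finset.mem_filter.1 hp).2
    have h3 : (R : ℝ) ≤ d * (Nat.sqrt N + 1) := by exact_mod_cast hR1
    have h4 : ((∑ p ∈ pr N,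
        Nat.card {v : HeightOneSpectrum (𝓞 K) // Ideal.absNorm v.asIdeal = p ∧ P v} : ℕ) : ℝ) ≤
          (d * Q.ncard : ℕ) := by exact_mod_cast h1
    push_cast at h4 ⊢
    linarith
  refine squeeze_zero (fun N => ?_) hbound ?_
  · unfold dens
    positivity
  · have h1 := Pool.Agent.W352.ChAbs.const_div_pi ((d * Q.ncard : ℕ) : ℝ)
    have h2 := Pool.Agent.W352.ChAbs.sqrt_div_pi.const_mul (d : ℝ)
    simpa using h1.add h2

/-- mean values: most places have small values -/
theorem exists_finite (E : Type) [Field E] [NumberField E] (P : Set (HeightOneSpectrum (𝓞 K)))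
    (b : HeightOneSpectrum (𝓞 K) → 𝓞 E) (C : ℝ) {ε : ℝ} (hε : 0 < ε) :
    ∃ Y : Set (𝓞 E), Y.Finite ∧ ∀ N : ℕ, 0 < Nat.primeCounting N →
      ∑ᶠ v ∈ {v : HeightOneSpectrum (𝓞 K) | Ideal.absNorm v.asIdeal ≤ N ∧ v ∈ P},
        ∑ σ : E →+* ℂ, ‖σ (b v)‖ ≤ C * Nat.primeCounting N →
      dens (fun v => v ∈ P ∧ b v ∉ Y) N ≤ ε := by
  classical
  set M : ℝ := (|C| + 1) / ε with hM
  have hM0 : 0 < M := by positivity
  refine ⟨{y : 𝓞 E | ∀ σ : E →+* ℂ, ‖σ y‖ ≤ M}, ?_, fun N hN hsum => ?_⟩
  · have h1 := Embeddings.finite_of_norm_le E ℂ M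
    refine Set.Finite.of_finite_image (f := fun y : 𝓞 E => (y : E)) (h1.subset ?_)
      (fun a _ b _ hab => RingOfIntegers.ext hab)
    rintro _ ⟨y, hy, rfl⟩
    exact ⟨y.isIntegral_coe, hy⟩
  · have hfinP : {v : HeightOneSpectrum (𝓞 K) | Ideal.absNorm v.asIdeal ≤ N ∧ v ∈ P}.Finite :=
      (Pool.Agent.W352.ChAbs.finite_le (K := K) N).subset fun v hv => hv.1
    rw [finsum_mem_eq_finite_toFinset_sum _ hfinP] at hsum
    set s := hfinP.toFinset with hs
    set s' := s.filter fun v => ¬ ∀ σ : E →+* ℂ, ‖σ (b v)‖ ≤ M with hs'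
    have hcard : Nat.card {v : HeightOneSpectrum (𝓞 K) // Ideal.absNorm v.asIdeal ≤ N ∧
        (v ∈ P ∧ b v ∉ {y : 𝓞 E | ∀ σ : E →+* ℂ, ‖σ y‖ ≤ M})} = s'.card := by
      refine Nat.subtype_card s' fun v => ?_
      rw [hs', Finset.mem_filter, hs, Set.Finite.mem_toFinset]
      simp only [Set.mem_setOf_eq]
      tauto
    have h1 : (s'.card : ℝ) * M ≤ C * Nat.primeCounting N := by
      refine le_trans ?_ hsum
      rw [← nsmul_eq_mul, ← Finset.sum_const]
      calc ∑ _v ∈ s', M ≤ ∑ v ∈ s', ∑ σ : E →+* ℂ, ‖σ (b v)‖ := by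
            refine Finset.sum_le_sum fun v hv => ?_
            have h2 := (Finset.mem_filter.1 hv).2
            push Not at h2
            obtain ⟨σ, hσ⟩ := h2
            exact hσ.le.trans (Finset.single_le_sum (f := fun σ : E →+* ℂ => ‖σ (b v)‖)
              (fun _ _ => norm_nonneg _) (Finset.mem_univ σ))
        _ ≤ _ := Finset.sum_le_sum_of_subset_of_nonneg (Finset.filter_subset _ _)
            fun _ _ _ => Finset.sum_nonneg fun _ _ => norm_nonneg _
    have hNr : (0 : ℝ) < Nat.primeCounting N := by exact_mod_cast hN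
    unfold dens
    rw [hcard, div_le_iff₀ hNr]
    have h2 : (s'.card : ℝ) * M ≤ (|C| + 1) * Nat.primeCounting N := by
      refine h1.trans (mul_le_mul_of_nonneg_right ?_ hNr.le)
      linarith [le_abs_self C]
    have h3 : (|C| + 1) = ε * M := by
      rw [hM]
      field_simp
    rw [h3] at h2
    have h4 : (s'.card : ℝ) * M ≤ (ε * Nat.primeCounting N) * M := by
      linarith
    exact le_of_mul_le_mul_right h4 hM0

end Pool.Agent.R401.Sup2
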