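import Pool.Agent.R401.Sup2
import Pool.Agent.Y115.Chi

/-!
# The main argument
-/

set_option autoImplicit false
set_option maxHeartbeats 400000

namespace Pool.Agent.R401.Sup3

open NumberField Filter Topology IsDedekindDomain Pool.Agent.W401.Cheb Pool.Agent.R401.Eng
open Pool.Agent.R401.Img Pool.Agent.R401.Sup Pool.Agent.R401.Sup2

variable {K : Type} [Field K] [NumberField K]

theorem dens_biUnion {ι : Type*} (S : Finset ι) (T : ι → HeightOneSpectrum (𝓞 K) → Prop) (N : ℕ) :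
    dens (fun v => ∃ b ∈ S, T b v) N ≤ ∑ b ∈ S, dens (T b) N := by
  classical
  induction S using Finset.induction_on with
  | empty =>
    unfold dens
    simp
  | insert b S hb ih =>
    rw [Finset.sum_insert hb]
    refine le_trans ?_ (add_le_add_right ih _)
    refine le_trans (dens_le ?_ N) (card_or _ _ N)
    rintro v ⟨b', hb', hv⟩
    rcases Finset.mem_insert.1 hb' with rfl | h1
    · exact Or.inl hv
    · exact Or.inr ⟨b', h1, hv⟩

section cyc

variable (K) (p : ℕ) [Fact p.Prime] (F : Type) [NormedField F] [NormedAlgebra ℚ_[p] F]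

/-- the cyclotomic character with values in `F` -/
noncomputable def cyc : GK K →* F :=
  (algebraMap ℚ_[p] F).toMonoidHom.comp
    ((PadicInt.Coe.ringHom (p := p)).toMonoidHom.comp
      ((Units.coeHom ℤ_[p]).comp (Pool.Agent.Y115.Chi.chi K p)))

theorem cyc_apply (g : GK K) : cyc K p F g =
    algebraMap ℚ_[p] F ((Pool.Agent.Y115.Chi.chi K p g : ℤ_[p]ˣ) : ℤ_[p]) := rfl

theorem continuous_cyc : Continuous (cyc K p F) := by
  have h1 : Continuous fun g : GK K => ((Pool.Agent.Y115.Chi.chi K p g : ℤ_[p]ˣ) : ℤ_[p]) :=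
    Units.continuous_val.comp (Pool.Agent.Y115.Chi.continuous_chi K p)
  exact (continuous_algebraMap ℚ_[p] F).comp (continuous_subtype_val.comp h1)

variable {K}

theorem cyc_frob {v : HeightOneSpectrum (𝓞 K)} (hv : (p : 𝓞 K) ∉ v.asIdeal) {g : GK K}
    (hg : IsFrob v g) : cyc K p F g = Ideal.absNorm v.asIdeal := by
  obtain ⟨Q, hQ, hQv, hg⟩ := hg
  have h1 : ((p : ℕ) : 𝓞 (AlgebraicClosure K)) ∉ Q := by
    intro h
    apply hv
    rw [← hQv, Ideal.mem_comap, map_natCast]
    exact h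
  have h2 := Pool.Agent.Y115.Chi.chi_frob (ℓ := p) hQ.isPrime h1 hg
  rw [cyc_apply, h2]
  simp

end cyc

theorem main {E : Type} [Field E] [NumberField E] {p : ℕ} [Fact p.Prime] {F : Type}
    [NormedField F] [NormedAlgebra ℚ_[p] F] {n : ℕ} (hn : 0 < n) (ρ : GK K →* GL (Fin n) F)
    (hρ : Continuous ρ) (hss : SS ρ) (w : ℤ) (P : Set (HeightOneSpectrum (𝓞 K))) (τ : E →+* F)
    (a : HeightOneSpectrum (𝓞 K) → E) (b : HeightOneSpectrum (𝓞 K) → 𝓞 E) {d : ℕ} (hd : 0 < d)
    (hab : ∀ v ∈ P, (d : E) * a v ^ 2 = (Ideal.absNorm v.asIdeal : E) ^ w * b v)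
    (htr : ∀ v ∈ P, ∀ g, IsFrob v g → (mt ρ g).trace = τ (a v)) (θ C : ℝ)
    (hθ : θ * n ^ 2 < 1)
    (hfreq : ∃ᶠ N : ℕ in atTop, dens (fun v => v ∉ P) N ≤ θ ∧
      ∑ᶠ v ∈ {v : HeightOneSpectrum (𝓞 K) | Ideal.absNorm v.asIdeal ≤ N ∧ v ∈ P},
        ∑ σ : E →+* ℂ, ‖σ (b v)‖ ≤ C * Nat.primeCounting N) :
    (2 : ℤ) ∣ w ∧ IsOpen (NN hn ρ (cyc K p F) w : Set (GK K)) := by
  classical
  have hchar : CharZero F := charZero_of_injective_algebraMap (algebraMap ℚ_[p] F).injective
  obtain ⟨m, h, hm, hsep⟩ := exists_sep ρ hss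
  have hn0 : (0 : ℝ) < n ^ 2 := by positivity
  set ε : ℝ := (1 - θ * n ^ 2) / (4 * n ^ 2) with hε
  have hε0 : 0 < ε := div_pos (by linarith) (by positivity)
  have hθε : (θ + 3 * ε) * n ^ 2 < 1 := by
    have h1 : ε * n ^ 2 = (1 - θ * n ^ 2) / 4 := by
      rw [hε]
      field_simp
    have h2 : (θ + 3 * ε) * n ^ 2 = θ * n ^ 2 + 3 * (ε * n ^ 2) := by ring
    rw [h2, h1]
    linarith
  have hmθ : m * (θ + 3 * ε) < 1 := by
    rcases le_or_gt 0 (θ + 3 * ε) with h0 | h0
    · have h1 : (m : ℝ) ≤ n ^ 2 := by exact_mod_cast hm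
      calc m * (θ + 3 * ε) ≤ n ^ 2 * (θ + 3 * ε) := mul_le_mul_of_nonneg_right h1 h0
        _ = (θ + 3 * ε) * n ^ 2 := mul_comm _ _
        _ < 1 := hθε
    · have h1 : m * (θ + 3 * ε) ≤ 0 := mul_nonpos_of_nonneg_of_nonpos (Nat.cast_nonneg m) h0.le
      linarith
  obtain ⟨Y₀, hY₀, hYd⟩ := exists_finite E P b C hε0
  have hpi : ∀ᶠ N : ℕ in atTop, 0 < Nat.primeCounting N :=
    Nat.tendsto_primeCounting.eventually_gt_atTop 0
  have hdE : (d : E) ≠ 0 := by exact_mod_cast hd.ne'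
  have hdF : (d : F) ≠ 0 := by exact_mod_cast hd.ne'
  have hp : ∀ᶠ N : ℕ in atTop, dens (fun v : HeightOneSpectrum (𝓞 K) => (p : 𝓞 K) ∈ v.asIdeal) N
      ≤ ε := by
    have h1 := dens_fin (fun v : HeightOneSpectrum (𝓞 K) => (p : 𝓞 K) ∈ v.asIdeal)
      (Pool.Agent.W352.ChAbs.over_le p (Fact.out : p.Prime)).1
    exact h1.eventually (ge_mem_nhds hε0)
  have ha : ∀ v ∈ P, a v ^ 2 = (Ideal.absNorm v.asIdeal : E) ^ w * ((b v : E) / d) := by
    intro v hv
    have h1 := hab v hv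
    field_simp
    linear_combination h1
  constructor
  · by_contra hw
    set R : HeightOneSpectrum (𝓞 K) → Prop := fun v => ∃ y ∈ hY₀.toFinset.filter (fun y => y ≠ 0),
      ∃ x : E, x ^ 2 = (Ideal.absNorm v.asIdeal : E) ^ w * ((y : E) / d) with hR
    have hRlim : Tendsto (dens R) atTop (𝓝 0) := by
      have h1 : Tendsto (fun N => ∑ y ∈ hY₀.toFinset.filter (fun y => y ≠ 0),
          dens (fun v : HeightOneSpectrum (𝓞 K) =>
            ∃ x : E, x ^ 2 = (Ideal.absNorm v.asIdeal : E) ^ w * ((y : E) / d)) N) atTop (𝓝 0) := by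
        have h2 := tendsto_finset_sum (hY₀.toFinset.filter (fun y => y ≠ 0)) (fun y hy =>
          dens_odd (K := K) E (c := (y : E) / d) (div_ne_zero (by
            have := (Finset.mem_filter.1 hy).2
            exact fun h0 => this (RingOfIntegers.ext h0)) hdE) hw)
        rwa [Finset.sum_const_zero] at h2
      refine squeeze_zero (fun N => ?_) (fun N => ?_) h1
      · unfold dens
        positivity
      · exact dens_biUnion _ _ N
    have hbad : ∃ᶠ N : ℕ in atTop, dens (fun v : HeightOneSpectrum (𝓞 K) =>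
        ∃ g, IsFrob v g ∧ g ∉ GG ρ (cyc K p F) w {0}) N ≤ θ + 3 * ε := by
      refine (hfreq.and_eventually (hpi.and (hRlim.eventually (ge_mem_nhds hε0)))).mono ?_
      rintro N ⟨⟨h1, h2⟩, h3, h4⟩
      have h5 := hYd N h3 h2
      have h6 : dens (fun v : HeightOneSpectrum (𝓞 K) =>
          ∃ g, IsFrob v g ∧ g ∉ GG ρ (cyc K p F) w {0}) N ≤
            dens (fun v => v ∉ P ∨ ((v ∈ P ∧ b v ∉ Y₀) ∨ R v)) N := by
        refine dens_le ?_ N
        rintro v ⟨g, hg, hgG⟩
        by_cases hvP : v ∈ P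
        · right
          by_cases hvY : b v ∈ Y₀
          · right
            refine ⟨b v, ?_, a v, ha v hvP⟩
            rw [Finset.mem_filter, hY₀.mem_toFinset]
            refine ⟨hvY, fun h0 => hgG ⟨0, rfl, ?_⟩⟩
            have h7 := ha v hvP
            rw [h0] at h7
            have h8 : a v ^ 2 = 0 := by
              rw [h7]
              simp
            rw [htr v hvP g hg, pow_eq_zero_iff two_ne_zero |>.1 h8, map_zero]
            ring
          · exact Or.inl ⟨hvP, hvY⟩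
        · exact Or.inl hvP
      have h7 := (h6.trans (card_or _ _ N)).trans (add_le_add_right (card_or _ _ N) _)
      linarith
    have h1 := engine (GG ρ (cyc K p F) w {0})
      (isClosed_GG ρ hρ _ (continuous_cyc K p F) w (Set.finite_singleton 0))
      (conj_GG ρ _ w) hbad h ⊤ isOpen_univ ∅ (by
        intro g hg
        exfalso
        have h2 := hsep g g 0 (by
          intro j
          obtain ⟨y, hy, h3⟩ := hg j
          rw [Set.mem_singleton_iff.1 hy, mul_zero] at h3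
          rw [pow_eq_zero_iff two_ne_zero |>.1 h3, mul_zero])
        rw [zero_smul] at h2
        exact mt_ne hn ρ g h2)
    rw [Subgroup.index_top, Finset.card_empty] at h1
    push_cast at h1
    linarith
  · set Y : Set F := (fun y : 𝓞 E => τ y / d) '' Y₀ with hY
    have hYf : Y.Finite := hY₀.image _
    have hbad : ∃ᶠ N : ℕ in atTop, dens (fun v : HeightOneSpectrum (𝓞 K) =>
        ∃ g, IsFrob v g ∧ g ∉ GG ρ (cyc K p F) w Y) N ≤ θ + 3 * ε := by
      refine (hfreq.and_eventually (hpi.and hp)).mono ?_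
      rintro N ⟨⟨h1, h2⟩, h3, h4⟩
      have h5 := hYd N h3 h2
      have h6 : dens (fun v : HeightOneSpectrum (𝓞 K) =>
          ∃ g, IsFrob v g ∧ g ∉ GG ρ (cyc K p F) w Y) N ≤
            dens (fun v => v ∉ P ∨ ((v ∈ P ∧ b v ∉ Y₀) ∨ (p : 𝓞 K) ∈ v.asIdeal)) N := by
        refine dens_le ?_ N
        rintro v ⟨g, hg, hgG⟩
        by_cases hvP : v ∈ P
        · right
          by_cases hvp : (p : 𝓞 K) ∈ v.asIdeal
          · exact Or.inr hvp
          · left
            refine ⟨hvP, fun hvY => hgG ⟨τ (b v) / d, ⟨b v, hvY, rfl⟩, ?_⟩⟩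
            rw [htr v hvP g hg, ← map_pow, ha v hvP, cyc_frob p F hvp hg, map_mul, map_zpow₀,
              map_natCast, map_div₀, map_natCast]
        · exact Or.inl hvP
      have h7 := (h6.trans (card_or _ _ N)).trans (add_le_add_right (card_or _ _ N) _)
      linarith
    obtain ⟨A, hA⟩ := exists_cosets hn ρ (cyc K p F) w h hsep hYf
    exact isOpen_of_cosets (GG ρ (cyc K p F) w Y)
      (isClosed_GG ρ hρ _ (continuous_cyc K p F) w hYf) (conj_GG ρ _ w) hbad hmθ h
      (NN hn ρ (cyc K p F) w) (isClosed_NN hn ρ hρ _ (continuous_cyc K p F) w) A hA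

end Pool.Agent.R401.Sup3
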