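import Pool.Agent.R401.Sup3

/-!
# Finite image of the twist, and the embedding in a permutation representation
-/

set_option autoImplicit false
set_option maxHeartbeats 400000

namespace Pool.Agent.R401.Sup4

open NumberField Filter Topology IsDedekindDomain Pool.Agent.W401.Cheb
open Pool.Agent.R401.Img Pool.Agent.R401.Sup

variable {G : Type} [Group G] [TopologicalSpace G] [IsTopologicalGroup G] {F : Type} [Field F]
  [CharZero F] [TopologicalSpace F] [IsTopologicalRing F] [T2Space F] [ContinuousInv₀ F] {n : ℕ}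

omit [TopologicalSpace G] [IsTopologicalGroup G] [CharZero F] [TopologicalSpace F]
  [IsTopologicalRing F] [T2Space F] [ContinuousInv₀ F] in
/-- the twist -/
noncomputable def tw (ρ : G →* GL (Fin n) F) (c : G →* F) (u : ℤ) :
    G →* Matrix (Fin n) (Fin n) F where
  toFun g := (c g ^ (-u)) • mt ρ g
  map_one' := by rw [map_one, one_zpow, mt_one, one_smul]
  map_mul' g h := by rw [map_mul, mul_zpow, mt_mul, smul_mul_smul_comm]

omit [TopologicalSpace G] [IsTopologicalGroup G] [CharZero F] [TopologicalSpace F]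
  [IsTopologicalRing F] [T2Space F] [ContinuousInv₀ F] in
theorem tw_apply (ρ : G →* GL (Fin n) F) (c : G →* F) (u : ℤ) (g : G) :
    tw ρ c u g = (c g ^ (-u)) • mt ρ g := rfl

/-- the kernel of the twist -/
noncomputable def UU (ρ : G →* GL (Fin n) F) (c : G →* F) (u : ℤ) : Subgroup G := (tw ρ c u).ker

theorem isOpen_UU (hn : 0 < n) (ρ : G →* GL (Fin n) F) (hρ : Continuous ρ) (c : G →* F)
    (hc : Continuous c) (u : ℤ) (hN : IsOpen (NN hn ρ c (2 * u) : Set G)) :
    IsOpen (UU ρ c u : Set G) := by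
  apply Subgroup.isOpen_of_mem_nhds (UU ρ c u) (g := 1)
  have hcont : Continuous fun g => tw ρ c u g := by
    have h1 : Continuous fun g => c g ^ (-u) := hc.zpow₀ (-u) fun x => Or.inl (c_ne c x)
    exact h1.smul (continuous_mt ρ hρ)
  have h1 : {g | tw ρ c u g ≠ -1} ∈ 𝓝 (1 : G) := by
    apply (isOpen_ne_fun hcont continuous_const).mem_nhds
    rw [Set.mem_setOf_eq, map_one]
    intro h
    have h2 := congrFun (congrFun h ⟨0, hn⟩) ⟨0, hn⟩
    rw [Matrix.neg_apply, Matrix.one_apply_eq] at h2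
    have h3 : (2 : F) = 0 := by linear_combination h2
    exact two_ne_zero h3
  filter_upwards [h1, hN.mem_nhds (NN hn ρ c (2 * u)).one_mem] with g hg1 hg2
  obtain ⟨r, hr, hr2⟩ := hg2
  have hc0 : c g ^ u ≠ 0 := zpow_ne_zero _ (c_ne c g)
  have h2 : (r - c g ^ u) * (r + c g ^ u) = 0 := by
    have h3 : c g ^ (2 * u) = (c g ^ u) ^ 2 := by
      rw [mul_comm, zpow_mul]
      norm_cast
    rw [h3] at hr2
    linear_combination hr2
  change tw ρ c u g = 1
  rcases mul_eq_zero.1 h2 with h3 | h3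
  · rw [tw_apply, hr, smul_smul, sub_eq_zero.1 h3, zpow_neg, inv_mul_cancel₀ hc0, one_smul]
  · exfalso
    apply hg1
    rw [tw_apply, hr, smul_smul, eq_neg_of_add_eq_zero_left h3, zpow_neg, mul_neg,
      inv_mul_cancel₀ hc0, neg_smul, one_smul]

instance (ρ : G →* GL (Fin n) F) (c : G →* F) (u : ℤ) : (UU ρ c u).Normal := by
  unfold UU
  infer_instance

/-- the embedding in a permutation representation -/
theorem embed [CompactSpace G] (hn : 0 < n) (ρ : G →* GL (Fin n) F) (hρ : Continuous ρ) (c : G →* F)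
    (hc : Continuous c) (u : ℤ) (hN : IsOpen (NN hn ρ c (2 * u) : Set G)) :
    ∃ (T : Type) (_ : Finite T) (_ : MulAction G T),
      (∀ t : T, IsOpen (MulAction.stabilizer G t : Set G)) ∧
      ∃ J : (Fin n → F) →ₗ[F] (T → F), Function.Injective J ∧
        ∀ (g : G) (x : Fin n → F) (t : T),
          J ((c g ^ (-u)) • (mt ρ g).mulVec x) t = J x (g⁻¹ • t) := by
  have hU := isOpen_UU hn ρ hρ c hc u hN
  have hfin : Finite (G ⧸ UU ρ c u) := Subgroup.quotient_finite_of_isOpen _ hU
  let act : MulAction G ((G ⧸ UU ρ c u) × Fin n) :=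
    { smul := fun g t => (g • t.1, t.2)
      one_smul := fun t => Prod.ext (one_smul G t.1) rfl
      mul_smul := fun g h t => Prod.ext (mul_smul g h t.1) rfl }
  have hsmul : ∀ (g : G) (t : (G ⧸ UU ρ c u) × Fin n), g • t = (g • t.1, t.2) := fun _ _ => rfl
  let J : (Fin n → F) →ₗ[F] ((G ⧸ UU ρ c u) × Fin n → F) :=
    { toFun := fun x t => Quotient.liftOn' t.1 (fun g => (tw ρ c u g⁻¹).mulVec x t.2) (by
        intro g h hgh
        have h1 : g⁻¹ * h ∈ UU ρ c u := QuotientGroup.leftRel_apply.1 hgh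
        have h2 : tw ρ c u (g⁻¹ * h) = 1 := h1
        have h3 : tw ρ c u g⁻¹ = tw ρ c u h⁻¹ := by
          have h4 : g⁻¹ = (g⁻¹ * h) * h⁻¹ := by group
          rw [h4, map_mul, h2, one_mul]
        rw [h3])
      map_add' := by
        intro x y
        funext t
        obtain ⟨q, i⟩ := t
        induction q using QuotientGroup.induction_on with
        | H g =>
        change (tw ρ c u g⁻¹).mulVec (x + y) i = (tw ρ c u g⁻¹).mulVec x i +
          (tw ρ c u g⁻¹).mulVec y i
        rw [Matrix.mulVec_add, Pi.add_apply]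
      map_smul' := by
        intro r x
        funext t
        obtain ⟨q, i⟩ := t
        induction q using QuotientGroup.induction_on with
        | H g =>
        change (tw ρ c u g⁻¹).mulVec (r • x) i = r • (tw ρ c u g⁻¹).mulVec x i
        rw [Matrix.mulVec_smul, Pi.smul_apply] }
  have hJ : ∀ (x : Fin n → F) (g : G) (i : Fin n), J x ((g : G ⧸ UU ρ c u), i) =
      (tw ρ c u g⁻¹).mulVec x i := fun _ _ _ => rfl
  refine ⟨(G ⧸ UU ρ c u) × Fin n, inferInstance, act, ?_, J, ?_, ?_⟩
  · rintro ⟨q, i⟩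
    refine Subgroup.isOpen_mono (H₁ := UU ρ c u) ?_ hU
    intro g hg
    rw [MulAction.mem_stabilizer_iff, hsmul]
    refine Prod.ext ?_ rfl
    induction q using QuotientGroup.induction_on with
    | H h =>
    change ((g * h : G) : G ⧸ UU ρ c u) = (h : G ⧸ UU ρ c u)
    rw [QuotientGroup.eq]
    have h1 := (inferInstance : (UU ρ c u).Normal).conj_mem g⁻¹ ((UU ρ c u).inv_mem hg) h⁻¹
    have h2 : (g * h)⁻¹ * h = h⁻¹ * g⁻¹ * h⁻¹⁻¹ := by group
    rw [h2]
    exact h1
  · intro x y hxy
    funext i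
    have h1 := congrFun hxy (((1 : G) : G ⧸ UU ρ c u), i)
    rw [hJ, hJ, inv_one, map_one, Matrix.one_mulVec, Matrix.one_mulVec] at h1
    exact h1
  · rintro g x ⟨q, i⟩
    induction q using QuotientGroup.induction_on with
    | H h =>
    have h1 : g⁻¹ • (((h : G ⧸ UU ρ c u), i) : (G ⧸ UU ρ c u) × Fin n) =
        (((g⁻¹ * h : G) : G ⧸ UU ρ c u), i) := rfl
    rw [h1, hJ, hJ, ← Matrix.smul_mulVec, ← tw_apply, Matrix.mulVec_mulVec, ← map_mul]
    congr 3
    group

end Pool.Agent.R401.Sup4
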