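import Pool.Agent.R401.Pf
import Mathlib.NumberTheory.Padics.Complex

/-!
# Transport of a twist of finite order to the other members of a compatible system
-/

set_option autoImplicit false
set_option maxHeartbeats 400000

namespace Pool.Agent.R401.Tp

open NumberField Filter Topology IsDedekindDomain Pool.Agent.W401.Cheb Pool.Agent.R401.Sup
open Pool.Agent.W569.FM Pool.Agent.R401.Img Polynomial Matrix Pool.Agent.R401.Pf

section alg

/-- the characteristic polynomial of a scalar multiple -/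
theorem charpoly_smul {k : Type*} [Field k] [Infinite k] {n : ℕ} (c : k) (hc : c ≠ 0)
    (A : Matrix (Fin n) (Fin n) k) : (c • A).charpoly = A.charpoly.scaleRoots c := by
  apply Polynomial.funext
  intro x
  obtain ⟨y, rfl⟩ : ∃ y, x = c * y := ⟨c⁻¹ * x, by rw [mul_inv_cancel_left₀ hc]⟩
  have h1 : Polynomial.eval (c * y) (A.charpoly.scaleRoots c) = c ^ n * Polynomial.eval y A.charpoly := by
    have h2 := Polynomial.scaleRoots_eval₂_mul (p := A.charpoly) (RingHom.id k) y c
    rw [Matrix.charpoly_natDegree_eq_dim, Fintype.card_fin] at h2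
    exact h2
  rw [h1, Matrix.eval_charpoly, Matrix.eval_charpoly]
  have h3 : (Matrix.scalar (Fin n)) (c * y) - c • A = c • ((Matrix.scalar (Fin n)) y - A) := by
    rw [smul_sub]
    congr 1
    ext i j
    simp [Matrix.scalar_apply, Matrix.diagonal_apply]
  rw [h3, Matrix.det_smul, Fintype.card_fin]

theorem charpoly_conj {k : Type*} [Field k] {n : ℕ} (M : GL (Fin n) k)
    (A : Matrix (Fin n) (Fin n) k) :
    ((M : Matrix (Fin n) (Fin n) k) * A * (M⁻¹ : GL (Fin n) k)).charpoly = A.charpoly := by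
  rw [Matrix.charpoly_mul_comm, ← mul_assoc, ← Units.val_mul, inv_mul_cancel, Units.val_one, one_mul]

/-- transport of a character of finite order -/
theorem transport {G : Type*} [Group G] {F₁ F₂ : Type} [Field F₁] [Field F₂] [IsAlgClosed F₂]
    {E : Type} [Field E] (ψ : E →+* F₁) (φ : E →+* F₂) (χ : G →* F₁ˣ)
    (hfin : ∀ g, ∃ N, 0 < N ∧ χ g ^ N = 1) :
    ∃ χ' : G →* F₂ˣ, (∀ g, χ g = 1 → χ' g = 1) ∧ ∀ g (S P : E[X]),
      S.map ψ = (P.map ψ).scaleRoots (χ g : F₁) → S.map φ = (P.map φ).scaleRoots (χ' g : F₂) := by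
  let _ : Algebra E F₁ := ψ.toAlgebra
  let _ : Algebra E F₂ := φ.toAlgebra
  let L : IntermediateField E F₁ := algebraicClosure E F₁
  have _ : Algebra.IsAlgebraic E L := algebraicClosure.isAlgebraic E F₁
  let Φ : L →ₐ[E] F₂ := IsAlgClosed.lift
  have hmem : ∀ g, (χ g : F₁) ∈ L := by
    intro g
    obtain ⟨N, hN, h⟩ := hfin g
    rw [mem_algebraicClosure_iff]
    refine ⟨X ^ N - 1, (Polynomial.monic_X_pow_sub_C 1 hN.ne').ne_zero, ?_⟩
    have h1 : (χ g : F₁) ^ N = 1 := by
      rw [← Units.val_pow_eq_pow_val, h, Units.val_one]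
    simp [h1]
  let χL : G →* L :=
    { toFun := fun g => ⟨χ g, hmem g⟩
      map_one' := by
        apply Subtype.ext
        simp
      map_mul' := by
        intro a b
        apply Subtype.ext
        simp }
  let χ' : G →* F₂ˣ := MonoidHom.toHomUnits ((Φ : L →* F₂).comp χL)
  have hval : ∀ g, ((χ' g : F₂ˣ) : F₂) = Φ (χL g) := fun g => rfl
  refine ⟨χ', fun g hg => ?_, fun g S P h => ?_⟩
  · apply Units.ext
    rw [hval, Units.val_one]
    have h1 : χL g = 1 := by
      apply Subtype.ext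
      change (χ g : F₁) = 1
      rw [hg, Units.val_one]
    rw [h1, map_one]
  · by_cases hP : P = 0
    · rw [hP, Polynomial.map_zero, Polynomial.zero_scaleRoots] at h
      have hS : S = 0 := (Polynomial.map_eq_zero ψ).1 h
      rw [hP, hS, Polynomial.map_zero]
      exact (Polynomial.zero_scaleRoots _).symm
    have h1 : S.map (algebraMap E L) = (P.map (algebraMap E L)).scaleRoots (χL g) := by
      apply Polynomial.map_injective (algebraMap L F₁) (algebraMap L F₁).injective
      rw [Polynomial.map_map, Polynomial.map_scaleRoots, Polynomial.map_map,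
        ← IsScalarTower.algebraMap_eq]
      · exact h
      · rw [Ne, map_eq_zero, Polynomial.leadingCoeff_eq_zero, Polynomial.map_eq_zero]
        exact hP
    have h2 := congrArg (Polynomial.map (Φ : L →+* F₂)) h1
    rw [Polynomial.map_map, Polynomial.map_scaleRoots, Polynomial.map_map] at h2
    · have h3 : (Φ : L →+* F₂).comp (algebraMap E L) = φ := by
        ext x
        exact Φ.commutes x
      rw [h3] at h2
      rw [h2, hval]
      rfl
    · rw [Ne, map_eq_zero, Polynomial.leadingCoeff_eq_zero, Polynomial.map_eq_zero]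
      exact hP

end alg

section rep

variable {K : Type} [Field K] [NumberField K] {n : ℕ} {F : Type} [NormedField F]

/-- twist of a representation by a character -/
noncomputable def twist' (χ : GK K →* Fˣ) (W : GK K →* GL (Fin n) F) : GK K →* GL (Fin n) F where
  toFun g := Units.map (Matrix.scalar (Fin n)).toMonoidHom (χ g) * W g
  map_one' := by simp
  map_mul' a b := by
    rw [map_mul, map_mul, map_mul]
    apply Units.ext
    simp only [Units.val_mul, Units.coe_map]
    have h1 : ∀ (c : F) (A : Matrix (Fin n) (Fin n) F),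
        (Matrix.scalar (Fin n)).toMonoidHom c * A = A * (Matrix.scalar (Fin n)).toMonoidHom c :=
      fun c A => (Matrix.scalar_commute c (fun r => mul_comm _ _) A).eq
    rw [mul_assoc, mul_assoc]
    congr 1
    rw [← mul_assoc, ← mul_assoc, h1]

theorem twist'_mt (χ : GK K →* Fˣ) (W : GK K →* GL (Fin n) F) (g : GK K) :
    mt (twist' χ W) g = (χ g : F) • mt W g := by
  change (Matrix.scalar (Fin n)) (χ g : F) * mt W g = _
  rw [Matrix.scalar_apply, ← Matrix.smul_eq_diagonal_mul]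

theorem twist'_continuous (χ : GK K →* Fˣ) (hχ : IsOpen (χ.ker : Set (GK K)))
    (W : GK K →* GL (Fin n) F) (hW : Continuous W) : Continuous (twist' χ W) := by
  have h1 : Continuous χ := by
    apply continuous_of_continuousAt_one
    rw [ContinuousAt, map_one]
    apply tendsto_nhds_of_eventually_eq
    exact Filter.mem_of_superset (hχ.mem_nhds (one_mem χ.ker)) (fun g hg => hg)
  have h2 : Continuous (Units.map (Matrix.scalar (Fin n) : F →+* _).toMonoidHom) := by
    apply Continuous.units_map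
    change Continuous (fun c : F => Matrix.scalar (Fin n) c)
    exact Continuous.matrix_diagonal (continuous_pi fun _ => continuous_id)
  exact (h2.comp h1).mul hW

end rep

section main

variable {K : Type} [Field K] [NumberField K] {n : ℕ} {E : Type} [Field E] [NumberField E]

/-- `g` belongs to an inertia group at `v` -/
def IsIn (v : HeightOneSpectrum (𝓞 K)) (g : GK K) : Prop :=
  ∃ Q : Ideal (𝓞 (AlgebraicClosure K)), Q.IsMaximal ∧
    Q.comap (algebraMap (𝓞 K) (𝓞 (AlgebraicClosure K))) = v.asIdeal ∧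
    ∀ x : 𝓞 (AlgebraicClosure K), g • x - x ∈ Q

/-- `V` is attached to the polynomials `S v` outside of `B` -/
def Att (B : Set (HeightOneSpectrum (𝓞 K))) (q : ℕ) [Fact q.Prime] (φ : E →+* PadicAlgCl q)
    (S : HeightOneSpectrum (𝓞 K) → E[X]) (V : GK K →* GL (Fin n) (PadicAlgCl q)) : Prop :=
  Continuous V ∧ ∀ v, v ∉ B → (q : 𝓞 K) ∉ v.asIdeal →
    (∀ g, IsIn v g → V g = 1) ∧
    ∀ g, IsFrob v g → (mt V g⁻¹).charpoly = (S v).map φ ∧
      ∃ (A : GL (Fin n) (PadicAlgCl q)) (D : Fin n → PadicAlgCl q),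
        mt V g⁻¹ = (A : Matrix (Fin n) (Fin n) (PadicAlgCl q)) * Matrix.diagonal D *
          ((A⁻¹ : GL (Fin n) (PadicAlgCl q)) : Matrix (Fin n) (Fin n) (PadicAlgCl q))

theorem main (hn : 2 ≤ n) (B : Set (HeightOneSpectrum (𝓞 K)))
    (S P : HeightOneSpectrum (𝓞 K) → E[X])
    (hW : ∀ (q : ℕ) [Fact q.Prime] (φ : E →+* PadicAlgCl q),
      ∃ W : GK K →* GL (Fin n) (PadicAlgCl q), Att B q φ P W)
    (p : ℕ) [Fact p.Prime] (ψ : E →+* PadicAlgCl p) (V : GK K →* GL (Fin n) (PadicAlgCl p))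
    (hV : Att B p ψ S V) (hSF : SF V)
    (T : Set (HeightOneSpectrum (𝓞 K))) (hT : ∀ v ∈ T, v ∉ B ∧ (p : 𝓞 K) ∉ v.asIdeal)
    (Z : Finset E) (ζ : HeightOneSpectrum (𝓞 K) → E) (hζ : ∀ v ∈ T, ζ v ∈ Z)
    (w : ℤ) {d : ℕ} (hd : 0 < d) (b : HeightOneSpectrum (𝓞 K) → 𝓞 E)
    (hdiv : ∀ v ∈ T, (d : E) * ((S v).nextCoeff - ζ v * (P v).nextCoeff) ^ 2 =
      (Ideal.absNorm v.asIdeal : E) ^ w * b v)
    {δ : ℝ} (hδ : 0 < δ) (C : ℝ)
    (hTd : ∃ᶠ N : ℕ in atTop, δ ≤ dens (fun v => v ∈ T) N ∧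
      ∑ᶠ v ∈ {v : HeightOneSpectrum (𝓞 K) | Ideal.absNorm v.asIdeal ≤ N ∧ v ∈ T},
        ∑ σ : E →+* ℂ, ‖σ (b v)‖ ≤ C * Nat.primeCounting N)
    (q : ℕ) [Fact q.Prime] (φ : E →+* PadicAlgCl q) :
    ∃ V' : GK K →* GL (Fin n) (PadicAlgCl q),
      Att (B ∪ {v | (p : 𝓞 K) ∈ v.asIdeal}) q φ S V' := by
  obtain ⟨W, hWc, hWa⟩ := hW p ψ
  obtain ⟨hVc, hVa⟩ := hV
  have hnext : ∀ (f : E →+* PadicAlgCl p) (R : E[X]), (R.map f).nextCoeff = f R.nextCoeff :=
    fun f R => Polynomial.nextCoeff_map f.injective R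
  obtain ⟨χ, hχo, M, hM⟩ := isTwist p V hVc W hWc hSF hn ψ w T Z ζ
    (fun v => -((S v).nextCoeff - ζ v * (P v).nextCoeff)) b hd hζ
    (by
      intro v hv g hg
      obtain ⟨hvB, hvp⟩ := hT v hv
      have h1 := ((hVa v hvB hvp).2 g hg).1
      have h2 := ((hWa v hvB hvp).2 g hg).1
      rw [Matrix.trace_eq_neg_charpoly_nextCoeff, Matrix.trace_eq_neg_charpoly_nextCoeff, h1, h2,
        hnext, hnext]
      simp only [map_neg, map_sub, map_mul]
      ring)
    (by
      intro v hv
      rw [neg_sq]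
      exact hdiv v hv) hδ C hTd
  -- the character has finite order
  have hfin : ∀ g, ∃ N, 0 < N ∧ χ g ^ N = 1 := by
    intro g
    have : χ.ker.FiniteIndex := by
      have : Finite (GK K ⧸ χ.ker) := Subgroup.quotient_finite_of_isOpen χ.ker hχo
      exact Subgroup.finiteIndex_of_finite_quotient
    exact ⟨χ.ker.index, Nat.pos_of_ne_zero Subgroup.FiniteIndex.index_ne_zero, by
      rw [← map_pow]
      exact χ.ker.pow_index_mem g⟩
  obtain ⟨χ', hχ'1, hχ'⟩ := transport ψ φ χ hfin
  obtain ⟨W', hW'c, hW'a⟩ := hW q φ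
  have hχ'o : IsOpen (χ'.ker : Set (GK K)) :=
    Subgroup.isOpen_mono (H₁ := χ.ker) (fun g hg => hχ'1 g hg) hχo
  refine ⟨twist' χ' W', twist'_continuous χ' hχ'o W' hW'c, ?_⟩
  intro v hvB' hvq
  rw [Set.mem_union, not_or] at hvB'
  obtain ⟨hvB, hvp⟩ := hvB'
  obtain ⟨h1, h2⟩ := hVa v hvB hvp
  obtain ⟨h3, h4⟩ := hWa v hvB hvp
  obtain ⟨h5, h6⟩ := hW'a v hvB hvq
  constructor
  · intro g hg
    have hχg : χ g = 1 := by
      have h7 := hM g
      have h8 : mt V g = 1 := by
        change ((V g : GL (Fin n) (PadicAlgCl p)) : Matrix (Fin n) (Fin n) (PadicAlgCl p)) = 1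
        rw [h1 g hg, Units.val_one]
      have h9 : mt W g = 1 := by
        change ((W g : GL (Fin n) (PadicAlgCl p)) : Matrix (Fin n) (Fin n) (PadicAlgCl p)) = 1
        rw [h3 g hg, Units.val_one]
      rw [h8, h9, mul_one, ← Units.val_mul, mul_inv_cancel, Units.val_one] at h7
      have h10 := congrFun (congrFun h7 ⟨0, by omega⟩) ⟨0, by omega⟩
      rw [Matrix.smul_apply, Matrix.one_apply_eq, smul_eq_mul, mul_one] at h10
      exact Units.ext h10.symm
    apply Units.ext
    change mt (twist' χ' W') g = 1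
    rw [twist'_mt, hχ'1 g hχg, Units.val_one, one_smul]
    change ((W' g : GL (Fin n) (PadicAlgCl q)) : Matrix (Fin n) (Fin n) (PadicAlgCl q)) = 1
    rw [h5 g hg, Units.val_one]
  · intro g hg
    obtain ⟨h7, -⟩ := h2 g hg
    obtain ⟨h8, -⟩ := h4 g hg
    obtain ⟨h9, A, D, hAD⟩ := h6 g hg
    rw [twist'_mt]
    constructor
    · have h10 : (S v).map ψ = ((P v).map ψ).scaleRoots (χ g⁻¹ : PadicAlgCl p) := by
        rw [← h7, ← h8, hM g⁻¹, charpoly_smul _ (Units.ne_zero _), charpoly_conj]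
      rw [charpoly_smul _ (Units.ne_zero _), h9]
      exact (hχ' g⁻¹ _ _ h10).symm
    · refine ⟨A, fun i => (χ' g⁻¹ : PadicAlgCl q) * D i, ?_⟩
      rw [hAD, ← smul_mul_assoc, ← mul_smul_comm]
      congr 2
      ext i j
      by_cases hij : i = j
      · subst hij
        rw [Matrix.smul_apply, Matrix.diagonal_apply_eq, Matrix.diagonal_apply_eq, smul_eq_mul]
      · rw [Matrix.smul_apply, Matrix.diagonal_apply_ne _ hij, Matrix.diagonal_apply_ne _ hij,
          smul_zero]

end main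

end Pool.Agent.R401.Tp
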