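import Pool.Agent.R401.Sup4

/-!
# Trace functions
-/

set_option autoImplicit false
set_option maxHeartbeats 400000

namespace Pool.Agent.R401.Tr1

open NumberField Filter Topology IsDedekindDomain Pool.Agent.W401.Cheb Module Pool.Agent.R401.Sup

section alg

variable {F : Type} [Field F] {G : Type*} [Group G]

/-- few elements separate -/
theorem exists_sep {M : Type*} [AddCommGroup M] [Module F M] [Module.Finite F M] (R : G → M)
    (L : G → M →ₗ[F] F) (T : G → F) (hT : ∀ g x, T (g * x) = L g (R x)) :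
    ∃ (m : ℕ) (h : Fin m → G), m ≤ finrank F M ∧
      ∀ (g g' : G) (r : F), (∀ j, T (g' * h j) = r * T (g * h j)) →
        ∀ x, T (g' * x) = r * T (g * x) := by
  obtain ⟨f, hf1, hf2, -⟩ := Submodule.exists_fun_fin_finrank_span_eq F (Set.range R)
  choose h hh using hf1
  refine ⟨_, h, Submodule.finrank_le _, fun g g' r hgg x => ?_⟩
  have h1 : R x ∈ Submodule.span F (Set.range f) := by
    rw [hf2]
    exact Submodule.subset_span ⟨x, rfl⟩
  have h2 : ∀ z ∈ Submodule.span F (Set.range f), L g' z = r * L g z := by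
    intro z hz
    induction hz using Submodule.span_induction with
    | mem y hy =>
      obtain ⟨j, rfl⟩ := hy
      rw [← hh, ← hT, ← hT, hgg]
    | zero => rw [map_zero, map_zero, mul_zero]
    | add a b _ _ ha hb => rw [map_add, map_add, ha, hb, mul_add]
    | smul c a _ ha =>
      rw [map_smul, map_smul, ha, smul_eq_mul, smul_eq_mul]
      ring
  rw [hT, hT]
  exact h2 _ h1

/-- the elements which act as scalars `r` with `r ^ 2 = c ^ w` -/
def NN (T : G → F) (c : G →* F) (w : ℤ) : Subgroup G where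
  carrier := {x | ∃ r : F, (∀ g, T (g * x) = r * T g) ∧ r ^ 2 = c x ^ w}
  mul_mem' := by
    rintro a b ⟨r, hr, hr2⟩ ⟨s, hs, hs2⟩
    refine ⟨r * s, fun g => ?_, ?_⟩
    · rw [← mul_assoc, hs, hr]
      ring
    · rw [mul_pow, hr2, hs2, map_mul, mul_zpow]
  one_mem' := by
    refine ⟨1, fun g => ?_, ?_⟩
    · rw [mul_one, one_mul]
    · rw [map_one, one_zpow, one_pow]
  inv_mem' := by
    rintro a ⟨r, hr, hr2⟩
    have hr0 : r ≠ 0 := by
      rintro rfl
      have h1 : c a ^ w ≠ 0 := zpow_ne_zero _ (c_ne c a)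
      apply h1
      rw [← hr2]
      ring
    refine ⟨r⁻¹, fun g => ?_, ?_⟩
    · have h1 := hr (g * a⁻¹)
      rw [inv_mul_cancel_right] at h1
      rw [h1, inv_mul_cancel_left₀ hr0]
    · rw [inv_pow, hr2, c_inv, inv_zpow]

theorem mem_NN {T : G → F} {c : G →* F} {w : ℤ} {x : G} :
    x ∈ NN T c w ↔ ∃ r : F, (∀ g, T (g * x) = r * T g) ∧ r ^ 2 = c x ^ w := Iff.rfl

/-- the coordinates determine the coset -/
theorem coset {T : G → F} (hcyc : ∀ x y, T (x * y) = T (y * x)) {g₀ : G} (hg₀ : T g₀ ≠ 0)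
    (c : G →* F) (w : ℤ) {m : ℕ} (h : Fin m → G)
    (hsep : ∀ (g g' : G) (r : F), (∀ j, T (g' * h j) = r * T (g * h j)) →
      ∀ x, T (g' * x) = r * T (g * x)) (g g' : G)
    (hz : ∀ i j, T (g * h i) * T (g * h j) * (c g ^ w)⁻¹ =
      T (g' * h i) * T (g' * h j) * (c g' ^ w)⁻¹) :
    g⁻¹ * g' ∈ NN T c w := by
  have hc : c g ^ w ≠ 0 := zpow_ne_zero _ (c_ne c g)
  have hc' : c g' ^ w ≠ 0 := zpow_ne_zero _ (c_ne c g')
  obtain ⟨i, hi⟩ : ∃ i, T (g * h i) ≠ 0 := by
    by_contra hcon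
    push Not at hcon
    have h1 := hsep g g 0 (fun j => by rw [hcon j, mul_zero]) (g⁻¹ * g₀)
    rw [mul_inv_cancel_left, zero_mul] at h1
    exact hg₀ h1
  set t : Fin m → F := fun j => T (g * h j) with ht
  set t' : Fin m → F := fun j => T (g' * h j) with ht'
  have hz' : ∀ i j, t i * t j * (c g ^ w)⁻¹ = t' i * t' j * (c g' ^ w)⁻¹ := hz
  have hti : t i ≠ 0 := hi
  have hii : t' i ^ 2 * (c g' ^ w)⁻¹ = t i ^ 2 * (c g ^ w)⁻¹ := by
    rw [pow_two, pow_two, hz' i i]
  have hi' : t' i ≠ 0 := by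
    intro h0
    rw [h0] at hii
    have : t i ^ 2 * (c g ^ w)⁻¹ ≠ 0 := mul_ne_zero (pow_ne_zero _ hti) (inv_ne_zero hc)
    apply this
    rw [← hii]
    ring
  set r : F := t' i / t i with hr
  have hr2 : r ^ 2 = c g' ^ w * (c g ^ w)⁻¹ := by
    rw [hr, div_pow]
    field_simp at hii ⊢
    linear_combination hii
  have hall : ∀ j, t' j = r * t j := by
    intro j
    have h1 := hz' i j
    have h2 : t' i * t' j = t i * t j * (c g' ^ w * (c g ^ w)⁻¹) := by
      field_simp at h1 ⊢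
      linear_combination -h1
    rw [← hr2] at h2
    have h3 : t' i * t' j = t' i * (r * t j) := by
      rw [h2, hr]
      field_simp
    exact mul_left_cancel₀ hi' h3
  have h4 := hsep g g' r hall
  refine ⟨r, fun x => ?_, ?_⟩
  · rw [← mul_assoc, hcyc, h4, hcyc g, inv_mul_cancel_right]
  · rw [hr2, map_mul, mul_zpow, c_inv, inv_zpow, mul_comm]

/-- the good elements -/
def GG (T : G → F) (c : G →* F) (w : ℤ) (Y : Set F) : Set G :=
  {g | ∃ y ∈ Y, T g ^ 2 = c g ^ w * y}

theorem conj_GG {T : G → F} (hcyc : ∀ x y, T (x * y) = T (y * x)) (c : G →* F) (w : ℤ)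
    {Y : Set F} : ∀ g ∈ GG T c w Y, ∀ x : G, x * g * x⁻¹ ∈ GG T c w Y := by
  rintro g ⟨y, hy, hg⟩ x
  refine ⟨y, hy, ?_⟩
  have h1 : T (x * g * x⁻¹) = T g := by
    rw [mul_assoc, hcyc, inv_mul_cancel_right]
  have h2 : c (x * g * x⁻¹) = c g := by
    rw [map_mul, map_mul, c_inv]
    field_simp [c_ne c x]
  rw [h1, h2, hg]

/-- finitely many cosets contain the good elements -/
theorem exists_cosets {T : G → F} (hcyc : ∀ x y, T (x * y) = T (y * x)) {g₀ : G} (hg₀ : T g₀ ≠ 0)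
    (c : G →* F) (w : ℤ) {m : ℕ} (h : Fin m → G)
    (hsep : ∀ (g g' : G) (r : F), (∀ j, T (g' * h j) = r * T (g * h j)) →
      ∀ x, T (g' * x) = r * T (g * x)) {Y : Set F} (hY : Y.Finite) :
    ∃ A : Finset G, ∀ g, (∀ j, g * h j ∈ GG T c w Y) → ∃ a ∈ A, a⁻¹ * g ∈ NN T c w := by
  classical
  let z : G → (Fin m × Fin m → F) := fun g ij =>
    T (g * h ij.1) * T (g * h ij.2) * (c g ^ w)⁻¹
  set S : Set G := {g | ∀ j, g * h j ∈ GG T c w Y} with hS
  have hZ : ∀ ij : Fin m × Fin m,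
      {x : F | ∃ y ∈ Y, ∃ y' ∈ Y, x ^ 2 = c (h ij.1) ^ w * c (h ij.2) ^ w * (y * y')}.Finite := by
    intro ij
    have h1 : {x : F | ∃ y ∈ Y, ∃ y' ∈ Y, x ^ 2 = c (h ij.1) ^ w * c (h ij.2) ^ w * (y * y')} ⊆
        ⋃ y ∈ Y, ⋃ y' ∈ Y, {x | x ^ 2 = c (h ij.1) ^ w * c (h ij.2) ^ w * (y * y')} := by
      rintro x ⟨y, hy, y', hy', hx⟩
      exact Set.mem_biUnion hy (Set.mem_biUnion hy' hx)
    refine Set.Finite.subset ?_ h1
    refine hY.biUnion fun y _ => hY.biUnion fun y' _ => ?_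
    set e : F := c (h ij.1) ^ w * c (h ij.2) ^ w * (y * y')
    have h2 : {x : F | x ^ 2 = e} ⊆ ((Polynomial.X ^ 2 - Polynomial.C e).roots.toFinset : Set F) := by
      intro x hx
      rw [Finset.mem_coe, Multiset.mem_toFinset, Polynomial.mem_roots
        (Polynomial.X_pow_sub_C_ne_zero two_pos e)]
      simp only [Polynomial.IsRoot.def, Polynomial.eval_sub, Polynomial.eval_pow,
        Polynomial.eval_X, Polynomial.eval_C]
      exact sub_eq_zero.2 hx
    exact (Finset.finite_toSet _).subset h2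
  have hfin : (z '' S).Finite := by
    refine (Set.Finite.pi' hZ).subset ?_
    rintro _ ⟨g, hg, rfl⟩ ij
    obtain ⟨y, hy, h1⟩ := hg ij.1
    obtain ⟨y', hy', h2⟩ := hg ij.2
    refine ⟨y, hy, y', hy', ?_⟩
    have hc : c g ^ w ≠ 0 := zpow_ne_zero _ (c_ne c g)
    rw [map_mul, mul_zpow] at h1 h2
    simp only [z]
    rw [mul_pow, mul_pow, h1, h2, inv_pow]
    field_simp
  have hch : ∀ x ∈ z '' S, ∃ g ∈ S, z g = x := fun x hx => hx
  choose! f hf1 hf2 using hch
  refine ⟨hfin.toFinset.image f, fun g hg => ?_⟩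
  have hgz : z g ∈ z '' S := ⟨g, hg, rfl⟩
  refine ⟨f (z g), Finset.mem_image_of_mem _ (hfin.mem_toFinset.2 hgz), ?_⟩
  apply coset hcyc hg₀ c w h hsep
  intro i j
  have := congrFun (hf2 _ hgz) (i, j)
  exact this

/-- the group of the periods -/
def UU (T : G → F) (c : G →* F) (u : ℤ) : Subgroup G where
  carrier := {x | ∀ g, T (g * x) = c x ^ u * T g}
  mul_mem' := by
    intro a b ha hb g
    rw [← mul_assoc, hb, ha, map_mul, mul_zpow]
    ring
  one_mem' := by
    intro g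
    rw [mul_one, map_one, one_zpow, one_mul]
  inv_mem' := by
    intro a ha g
    have h0 : c a ^ u ≠ 0 := zpow_ne_zero _ (c_ne c a)
    have h1 := ha (g * a⁻¹)
    rw [inv_mul_cancel_right] at h1
    rw [h1, c_inv, inv_zpow, inv_mul_cancel_left₀ h0]

theorem mem_UU {T : G → F} {c : G →* F} {u : ℤ} {x : G} :
    x ∈ UU T c u ↔ ∀ g, T (g * x) = c x ^ u * T g := Iff.rfl

end alg

section top

variable {F : Type} [Field F] {G : Type*} [Group G] [TopologicalSpace G] [IsTopologicalGroup G]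
  [TopologicalSpace F] [IsTopologicalRing F] [T2Space F] [ContinuousInv₀ F]

omit [IsTopologicalGroup G] in
theorem isClosed_GG {T : G → F} (hT : Continuous T) {c : G →* F}
    (hc : Continuous c) (w : ℤ) {Y : Set F} (hY : Y.Finite) : IsClosed (GG T c w Y) := by
  have h1 : GG T c w Y = ⋃ y ∈ Y, {g | T g ^ 2 = c g ^ w * y} := by
    ext g
    simp [GG]
  rw [h1]
  refine hY.isClosed_biUnion fun y _ => ?_
  exact isClosed_eq (hT.pow 2)
    ((hc.zpow₀ w fun x => Or.inl (c_ne c x)).mul continuous_const)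

theorem isClosed_NN {T : G → F} (hT : Continuous T) {g₀ : G} (hg₀ : T g₀ ≠ 0) {c : G →* F}
    (hc : Continuous c) (w : ℤ) : IsClosed (NN T c w : Set G) := by
  have h1 : (NN T c w : Set G) = (⋂ g, {x | T (g * x) * T g₀ = T (g₀ * x) * T g}) ∩
      {x | T (g₀ * x) ^ 2 = c x ^ w * T g₀ ^ 2} := by
    ext x
    constructor
    · rintro ⟨r, hr, hr2⟩
      refine ⟨Set.mem_iInter.2 fun g => ?_, ?_⟩
      · rw [Set.mem_setOf_eq, hr, hr]
        ring
      · rw [Set.mem_setOf_eq, hr, ← hr2]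
        ring
    · rintro ⟨h2, h3⟩
      refine ⟨T (g₀ * x) / T g₀, fun g => ?_, ?_⟩
      · have h4 : T (g * x) * T g₀ = T (g₀ * x) * T g := Set.mem_iInter.1 h2 g
        field_simp
        exact h4
      · have h4 : T (g₀ * x) ^ 2 = c x ^ w * T g₀ ^ 2 := h3
        rw [div_pow, h4]
        field_simp
  rw [h1]
  have hmul : ∀ g : G, Continuous fun x => T (g * x) := fun g =>
    hT.comp (continuous_const.mul continuous_id)
  refine IsClosed.inter (isClosed_iInter fun g => ?_) ?_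
  · exact isClosed_eq ((hmul g).mul continuous_const) ((hmul g₀).mul continuous_const)
  · exact isClosed_eq ((hmul g₀).pow 2)
      ((hc.zpow₀ w fun x => Or.inl (c_ne c x)).mul continuous_const)

/-- the group of the periods is open -/
theorem isOpen_UU [CharZero F] {T : G → F} (hT : Continuous T) {g₀ : G} (hg₀ : T g₀ ≠ 0)
    {c : G →* F} (hc : Continuous c) (u : ℤ) (hN : IsOpen (NN T c (2 * u) : Set G)) :
    IsOpen (UU T c u : Set G) := by
  apply Subgroup.isOpen_of_mem_nhds (UU T c u) (g := 1)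
  have hcont : Continuous fun x => T (g₀ * x) + c x ^ u * T g₀ :=
    (hT.comp (continuous_const.mul continuous_id)).add
      ((hc.zpow₀ u fun x => Or.inl (c_ne c x)).mul continuous_const)
  have h1 : {x | T (g₀ * x) + c x ^ u * T g₀ ≠ 0} ∈ 𝓝 (1 : G) := by
    apply (isOpen_ne_fun hcont continuous_const).mem_nhds
    rw [Set.mem_setOf_eq, map_one, one_zpow, one_mul, mul_one]
    intro h
    have h3 : 2 * T g₀ = 0 := by linear_combination h
    rcases mul_eq_zero.1 h3 with h4 | h4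
    · exact two_ne_zero h4
    · exact hg₀ h4
  filter_upwards [h1, hN.mem_nhds (NN T c (2 * u)).one_mem] with x hx1 hx2
  obtain ⟨r, hr, hr2⟩ := hx2
  have h2 : (r - c x ^ u) * (r + c x ^ u) = 0 := by
    have h3 : c x ^ (2 * u) = (c x ^ u) ^ 2 := by
      rw [mul_comm, zpow_mul]
      norm_cast
    rw [h3] at hr2
    linear_combination hr2
  change ∀ g, T (g * x) = c x ^ u * T g
  rcases mul_eq_zero.1 h2 with h3 | h3
  · intro g
    rw [hr, sub_eq_zero.1 h3]
  · exfalso
    apply hx1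
    rw [hr, eq_neg_of_add_eq_zero_left h3]
    ring

end top

end Pool.Agent.R401.Tr1
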