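import Pool.Agent.R401.Tr9

/-!
# Comparison of two compatible families: the local factor
-/

set_option autoImplicit false
set_option maxHeartbeats 400000

namespace Pool.Agent.R401.Tr10

open NumberField Filter Topology IsDedekindDomain Pool.Agent.W401.Cheb Pool.Agent.R401.Sup
open Pool.Agent.W569.FM Pool.Agent.R401.Img Pool.Agent.R401.Sup3 Pool.Agent.R401.Sup4
open Pool.Agent.R401.Tr3 Pool.Agent.R401.Tr4 Pool.Agent.R401.Tr5 Module Polynomial Matrix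
open Pool.Agent.R401.Tr8 Pool.Agent.R401.Tr9

variable {K : Type} [Field K] [NumberField K]

section newton

/-- the power sums given by Newton's identities: `tn c k` is the trace of the `k + 1`-st power -/
noncomputable def tn (c : ℕ → ℚ) : ℕ → ℚ
  | k => -(c (k + 1) * ((k : ℚ) + 1)) - ∑ i : Fin k, c (k - i.1) * tn c i.1
decreasing_by exact i.2

theorem trace_eq_tn {L : Type} [Field L] {m : ℕ} (A : Matrix (Fin m) (Fin m) L)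
    [CharZero L] (c : ℕ → ℚ) (hc : ∀ k, A.charpolyRev.coeff k = (c k : L)) (k : ℕ) :
    (A ^ (k + 1)).trace = (tn c k : L) := by
  induction k using Nat.strong_induction_on with
  | _ k ih =>
    have h1 := Pool.Agent.TH658.Eq.newton A k
    rw [Finset.Nat.sum_antidiagonal_eq_sum_range_succ
      (fun i j => A.charpolyRev.coeff i * (A ^ (j + 1)).trace) k, ← Finset.sum_range_reflect,
      Finset.sum_range_succ] at h1
    have h2 : A.charpolyRev.coeff 0 = 1 := by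
      rw [coeff_zero_eq_eval_zero, Matrix.eval_charpolyRev]
    have h3 : k + 1 - 1 - k = 0 := by omega
    rw [h3, h2, one_mul, Nat.sub_zero] at h1
    have h4 : ∑ x ∈ Finset.range k, A.charpolyRev.coeff (k + 1 - 1 - x) *
        (A ^ (k - (k + 1 - 1 - x) + 1)).trace = ∑ i : Fin k, (c (k - i.1) : L) * (tn c i.1 : L) := by
      rw [← Fin.sum_univ_eq_sum_range (fun x => A.charpolyRev.coeff (k + 1 - 1 - x) *
        (A ^ (k - (k + 1 - 1 - x) + 1)).trace) k]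
      refine Finset.sum_congr rfl fun i _ => ?_
      have h5 : k - (k + 1 - 1 - i.1) = i.1 := by omega
      have h6 : k + 1 - 1 - i.1 = k - i.1 := by omega
      rw [h5, h6, ih i.1 i.2, hc]
    rw [h4, hc] at h1
    rw [tn]
    push_cast
    linear_combination h1

theorem coeff_rev {L : Type} [Field L] {m : ℕ} (A : Matrix (Fin m) (Fin m) L) [CharZero L]
    (h : ℚ[X]) (hA : A.charpoly = h.map (Rat.castHom L)) (k : ℕ) :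
    A.charpolyRev.coeff k = (h.coeff (revAt m k) : L) := by
  rw [← Matrix.reverse_charpoly, coeff_reverse, Matrix.charpoly_natDegree_eq_dim, Fintype.card_fin,
    hA, coeff_map]
  rfl

end newton

section one

variable {ℓ : ℕ} [Fact ℓ.Prime] {n m : ℕ} (V : GK K →* GL (Fin n) ℚ_[ℓ]) (hV : Continuous V)
  (W : GK K →* GL (Fin m) ℚ_[ℓ]) (u : ℤ)
  (φ : GK K → ℚ) (U : Subgroup (GK K)) (hUn : U.Normal) (hUo : IsOpen (U : Set (GK K)))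
  (hU : ∀ x ∈ U, ∀ y, φ (x * y) = φ y)
  (hφ : ∀ y : GK K, cyc K ℓ ℚ_[ℓ] y ^ u * ((mt V y).trace - (mt W y).trace) = (φ y : ℚ_[ℓ]))
  {P : Ideal (OO K)} (hP : P.IsMaximal) {q : ℕ} (hq : 2 ≤ q) {σ : GK K} (hσ : FrobAt q P σ)
  (hℓP : (ℓ : OO K) ∉ P) (hW : ∀ τ, InInertia P τ → mt W τ = 1)
  {w : ℤ} (hw : w = 2 * u ∨ ∀ y, φ y = 0) (e : ℚ_[ℓ] →+* ℂ)
  (hpur : ∀ z ∈ spectrum ℂ ((mt W σ⁻¹).map e), ‖z‖ ^ 2 = (q : ℝ) ^ w)
  (hVI : ∀ τ ∈ U, InInertia P τ → mt V τ = 1)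

/-- the projector -/
noncomputable def ee : Matrix (Fin n) (Fin n) ℚ_[ℓ] :=
  ((Nat.card (IG P ⧸ U.subgroupOf (IG P)) : ℚ_[ℓ])⁻¹) •
    ∑ᶠ q : IG P ⧸ U.subgroupOf (IG P), mt V ((q.out : IG P) : GK K)

include hVI in
theorem mt_out {a b : IG P} (h : (a : IG P ⧸ U.subgroupOf (IG P)) = b) :
    mt V (a : GK K) = mt V (b : GK K) := by
  have h1 := QuotientGroup.eq.1 h
  rw [Subgroup.mem_subgroupOf] at h1
  have h2 := hVI _ h1 (a⁻¹ * b).2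
  have h3 : (b : GK K) = (a : GK K) * ((a⁻¹ * b : IG P) : GK K) := by
    rw [Subgroup.coe_mul, Subgroup.coe_inv, mul_inv_cancel_left]
  rw [h3, mt_mul, h2, mul_one]

include hUo hVI in
theorem mt_mul_ee {τ : GK K} (hτ : InInertia P τ) :
    mt V τ * ee V U (P := P) = ee V U (P := P) := by
  classical
  have := Tr6.finQ U hUo (P := P)
  have hft : Fintype (IG P ⧸ U.subgroupOf (IG P)) := Fintype.ofFinite _
  unfold ee
  rw [mul_smul_comm, finsum_eq_sum_of_fintype, Finset.mul_sum]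
  congr 1
  let t : IG P := ⟨τ, hτ⟩
  conv_rhs => rw [← Equiv.sum_comp (MulAction.toPerm t : Equiv.Perm (IG P ⧸ U.subgroupOf (IG P)))]
  refine Finset.sum_congr rfl fun q _ => ?_
  rw [← mt_mul]
  have h1 : τ * ((q.out : IG P) : GK K) = ((t * q.out : IG P) : GK K) := rfl
  rw [h1]
  apply mt_out V U hVI
  rw [MulAction.toPerm_apply]
  have h2 : (((t • q).out : IG P) : IG P ⧸ U.subgroupOf (IG P)) = t • q := Quotient.out_eq _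
  rw [h2]
  conv_rhs => rw [← Quotient.out_eq q]
  rfl

variable {I : Submodule ℚ_[ℓ] (Fin n → ℚ_[ℓ])}
  (hI : ∀ x, x ∈ I ↔ ∀ τ, InInertia P τ → mt V τ *ᵥ x = x)

include hUo hVI hI in
theorem ee_mem (x : Fin n → ℚ_[ℓ]) : ee V U (P := P) *ᵥ x ∈ I := by
  rw [hI]
  intro τ hτ
  rw [Matrix.mulVec_mulVec, mt_mul_ee V U hUo hVI hτ]

include hUo hI in
theorem ee_fix (x : Fin n → ℚ_[ℓ]) (hx : x ∈ I) : ee V U (P := P) *ᵥ x = x := by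
  classical
  have := Tr6.finQ U hUo (P := P)
  have hft : Fintype (IG P ⧸ U.subgroupOf (IG P)) := Fintype.ofFinite _
  unfold ee
  rw [Matrix.smul_mulVec, finsum_eq_sum_of_fintype, Matrix.sum_mulVec]
  have h1 : ∀ q : IG P ⧸ U.subgroupOf (IG P), mt V ((q.out : IG P) : GK K) *ᵥ x = x := by
    intro q
    exact (hI x).1 hx _ q.out.2
  rw [Finset.sum_congr rfl fun q _ => h1 q, Finset.sum_const, Finset.card_univ,
    Nat.card_eq_fintype_card, ← Nat.cast_smul_eq_nsmul ℚ_[ℓ], smul_smul, inv_mul_cancel₀, one_smul]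
  exact_mod_cast Fintype.card_ne_zero

include hUo hφ hP hσ hℓP hW in
theorem trace_formula (t : ℕ → ℚ) (ht : ∀ k, (mt W σ⁻¹ ^ k).trace = (t k : ℚ_[ℓ])) (k : ℕ) :
    (mt V σ⁻¹ ^ k * ee V U (P := P)).trace =
    ((t k + Tr6.sk φ U P ((q : ℚ) ^ u) σ⁻¹ k : ℚ) : ℚ_[ℓ]) := by
  classical
  have := Tr6.finQ U hUo (P := P)
  have hft : Fintype (IG P ⧸ U.subgroupOf (IG P)) := Fintype.ofFinite _
  have hc := cyc_sigma (ℓ := ℓ) hP hσ hℓP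
  have hc0 : (q : ℚ_[ℓ]) ≠ 0 := by
    rw [← hc]
    exact c_ne _ _
  unfold ee Tr6.sk
  rw [finsum_eq_sum_of_fintype, finsum_eq_sum_of_fintype, mul_smul_comm, Matrix.trace_smul,
    Finset.mul_sum, Matrix.trace_sum, smul_eq_mul]
  have h1 : ∀ x : IG P ⧸ U.subgroupOf (IG P),
      (mt V σ⁻¹ ^ k * mt V ((x.out : IG P) : GK K)).trace =
      (t k : ℚ_[ℓ]) + ((q : ℚ_[ℓ]) ^ u) ^ k * (φ (σ⁻¹ ^ k * ((x.out : IG P) : GK K)) : ℚ_[ℓ]) := by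
    intro x
    have h2 := hφ (σ⁻¹ ^ k * ((x.out : IG P) : GK K))
    rw [map_mul, cyc_inertia hP hℓP hσ x.out.2, mul_one, mt_mul, mt_mul, hW _ x.out.2, mul_one,
      Tr9.mt_pow, Tr9.mt_pow, ht, map_pow, c_inv, hc, ← zpow_natCast, _root_.zpow_comm,
      _root_.inv_zpow, _root_.inv_zpow, zpow_natCast] at h2
    have h3 : ((q : ℚ_[ℓ]) ^ u) ^ k ≠ 0 := pow_ne_zero _ (zpow_ne_zero _ hc0)
    rw [← h2, ← mul_assoc, mul_inv_cancel₀ h3, one_mul]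
    ring
  rw [Finset.sum_congr rfl fun x _ => h1 x, Finset.sum_add_distrib, Finset.sum_const,
    Finset.card_univ, Nat.card_eq_fintype_card, nsmul_eq_mul, ← Finset.mul_sum, mul_add,
    ← mul_assoc, inv_mul_cancel₀, one_mul]
  · push_cast
    ring
  · exact_mod_cast Fintype.card_ne_zero

end one

/-- eigenvalues of matrices with a rational characteristic polynomial -/
theorem pure {ℓ : ℕ} [Fact ℓ.Prime] {m : ℕ} (A : Matrix (Fin m) (Fin m) ℚ_[ℓ]) (h : ℚ[X])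
    (hA : A.charpoly = h.map (Rat.castHom ℚ_[ℓ])) (r : ℝ)
    (hr : ∀ z : ℂ, (h.map (Rat.castHom ℂ)).IsRoot z → ‖z‖ ^ 2 = r) (e : ℚ_[ℓ] →+* ℂ) :
    ∀ z ∈ spectrum ℂ (A.map e), ‖z‖ ^ 2 = r := by
  intro z hz
  have h1 := Matrix.mem_spectrum_iff_isRoot_charpoly.1 hz
  rw [Matrix.charpoly_map, hA, Polynomial.map_map] at h1
  have h2 : e.comp (Rat.castHom ℚ_[ℓ]) = Rat.castHom ℂ := Subsingleton.elim _ _
  rw [h2] at h1
  exact hr z h1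

/-- **The local factor.** -/
theorem loc {n m : ℕ} (V : ∀ (ℓ : ℕ) [Fact ℓ.Prime], GK K →* GL (Fin n) ℚ_[ℓ])
    (hV : ∀ (ℓ : ℕ) [Fact ℓ.Prime], Continuous (V ℓ))
    (W : ∀ (ℓ : ℕ) [Fact ℓ.Prime], GK K →* GL (Fin m) ℚ_[ℓ]) (u : ℤ)
    (φ : GK K → ℚ) (U : Subgroup (GK K)) (hUn : U.Normal) (hUo : IsOpen (U : Set (GK K)))
    (hU : ∀ x ∈ U, ∀ y, φ (x * y) = φ y)
    (hφ : ∀ (ℓ : ℕ) [Fact ℓ.Prime] (y : GK K),
      cyc K ℓ ℚ_[ℓ] y ^ u * ((mt (V ℓ) y).trace - (mt (W ℓ) y).trace) = (φ y : ℚ_[ℓ]))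
    {w : ℤ} (hw : w = 2 * u ∨ ∀ y, φ y = 0)
    {P : Ideal (OO K)} (hP : P.IsMaximal) {q : ℕ} (hq : 2 ≤ q) {σ : GK K} (hσ : FrobAt q P σ)
    (hW : ∀ (ℓ : ℕ) [Fact ℓ.Prime], (ℓ : OO K) ∉ P → ∀ τ, InInertia P τ → mt (W ℓ) τ = 1)
    (h : ℚ[X]) (hh : ∀ (ℓ : ℕ) [Fact ℓ.Prime], (ℓ : OO K) ∉ P →
      (mt (W ℓ) σ⁻¹).charpoly = h.map (Rat.castHom ℚ_[ℓ]))
    (hpur : ∀ z : ℂ, (h.map (Rat.castHom ℂ)).IsRoot z → ‖z‖ ^ 2 = (q : ℝ) ^ w)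
    (I : ∀ (ℓ : ℕ) [Fact ℓ.Prime], Submodule ℚ_[ℓ] (Fin n → ℚ_[ℓ]))
    (hI : ∀ (ℓ : ℕ) [Fact ℓ.Prime] (x : Fin n → ℚ_[ℓ]),
      x ∈ I ℓ ↔ ∀ τ, InInertia P τ → mt (V ℓ) τ *ᵥ x = x) :
    (∀ (ℓ : ℕ) [Fact ℓ.Prime], (ℓ : OO K) ∉ P → ∀ τ ∈ U, InInertia P τ → mt (V ℓ) τ = 1) ∧
    ∃ f : ℚ[X], ∀ (ℓ : ℕ) [Fact ℓ.Prime], (ℓ : OO K) ∉ P →
      ∀ (r : ℕ) (b : Basis (Fin r) ℚ_[ℓ] (I ℓ)) (A : Matrix (Fin r) (Fin r) ℚ_[ℓ]),
        (∀ j, mt (V ℓ) σ⁻¹ *ᵥ (b j : Fin n → ℚ_[ℓ]) = ∑ i, A i j • (b i : Fin n → ℚ_[ℓ])) →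
        A.charpolyRev = f.map (Rat.castHom ℚ_[ℓ]) := by
  classical
  have hVI : ∀ (ℓ : ℕ) [Fact ℓ.Prime], (ℓ : OO K) ∉ P → ∀ τ ∈ U, InInertia P τ →
      mt (V ℓ) τ = 1 := by
    intro ℓ _ hℓP τ hτU hτ
    obtain ⟨e⟩ := Pool.Agent.R401.Iso.exists_iso ℓ
    let e' : ℚ_[ℓ] →+* ℂ := (e : PadicAlgCl ℓ →+* ℂ).comp (algebraMap ℚ_[ℓ] (PadicAlgCl ℓ))
    exact triv (V ℓ) (hV ℓ) (W ℓ) u φ U hUn hUo hU (hφ ℓ) hP hq hσ hℓP (hW ℓ hℓP) hw e'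
      (pure _ h (hh ℓ hℓP) _ hpur e') hτU hτ
  refine ⟨hVI, ?_⟩
  set t : ℕ → ℚ := fun k => match k with
    | 0 => m
    | k + 1 => tn (fun i => h.coeff (revAt m i)) k with ht
  have htr : ∀ (ℓ : ℕ) [Fact ℓ.Prime], (ℓ : OO K) ∉ P → ∀ k,
      (mt (W ℓ) σ⁻¹ ^ k).trace = (t k : ℚ_[ℓ]) := by
    intro ℓ _ hℓP k
    rcases k with _ | k
    · rw [pow_zero, Matrix.trace_one, Fintype.card_fin]
      simp [ht]
    · exact trace_eq_tn _ _ (coeff_rev _ h (hh ℓ hℓP)) k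
  set s : ℕ → ℚ := fun k => t k + Tr6.sk φ U P ((q : ℚ) ^ u) σ⁻¹ k with hs
  -- the coefficients
  have hcoeff : ∀ (ℓ : ℕ) [Fact ℓ.Prime], (ℓ : OO K) ∉ P →
      ∀ (r : ℕ) (b : Basis (Fin r) ℚ_[ℓ] (I ℓ)) (A : Matrix (Fin r) (Fin r) ℚ_[ℓ]),
        (∀ j, mt (V ℓ) σ⁻¹ *ᵥ (b j : Fin n → ℚ_[ℓ]) = ∑ i, A i j • (b i : Fin n → ℚ_[ℓ])) →
        ∀ k, A.charpolyRev.coeff k = (cf s k : ℚ_[ℓ]) := by
    intro ℓ _ hℓP r b A hA k
    apply coeff_eq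
    intro k
    rw [trace_pow (ee_mem (V ℓ) U hUo (hVI ℓ hℓP) (hI ℓ)) (ee_fix (V ℓ) U hUo (hI ℓ)) b hA,
      trace_formula (V ℓ) (W ℓ) u φ U hUo (hφ ℓ) hP hσ hℓP (hW ℓ hℓP) t (htr ℓ hℓP)]
  obtain ⟨ℓ₀, hℓ₀, hℓ₀P⟩ := Tr6.exists_prime_not_mem hP
  have : Fact ℓ₀.Prime := ⟨hℓ₀⟩
  obtain ⟨m₀, b₀, A₀, hA₀'⟩ := Tr6.exists_basis (V ℓ₀) hq hσ (hI ℓ₀)
  have hzero : ∀ k, m₀ < k → cf s k = 0 := by
    intro k hk
    have h1 := hcoeff ℓ₀ hℓ₀P m₀ b₀ A₀ hA₀' k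
    rw [coeff_eq_zero_of_natDegree_lt (lt_of_le_of_lt (natDegree_charpolyRev A₀) hk)] at h1
    exact_mod_cast h1.symm
  refine ⟨∑ k ∈ Finset.range (m₀ + 1), C (cf s k) * X ^ k, ?_⟩
  intro ℓ _ hℓP r b A hA
  refine Polynomial.ext fun k => ?_
  rw [hcoeff ℓ hℓP r b A hA k, coeff_map, finsetSum_coeff]
  simp only [coeff_C_mul, coeff_X_pow, mul_ite, mul_one, mul_zero]
  rw [Finset.sum_ite_eq]
  split_ifs with hk
  · rfl
  · rw [Finset.mem_range] at hk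
    rw [hzero k (by omega), Rat.cast_zero, map_zero]

end Pool.Agent.R401.Tr10
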