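import Pool.Agent.R401.Tr7
import Pool.Agent.R401.Sbq

/-!
# Comparison of two representations with coefficients
-/

set_option autoImplicit false
set_option maxHeartbeats 400000

namespace Pool.Agent.R401.Tr11

open NumberField Filter Topology IsDedekindDomain Pool.Agent.W401.Cheb Pool.Agent.R401.Sup
open Pool.Agent.W569.FM Pool.Agent.R401.Img Pool.Agent.R401.Eng Pool.Agent.R401.Sup2
open Pool.Agent.R401.Sup3 Pool.Agent.R401.Tr1 Pool.Agent.R401.Tr3 Module Pool.Agent.R401.Tr5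

variable {K : Type} [Field K] [NumberField K]
variable {ℓ : ℕ} [Fact ℓ.Prime] {F : Type} [NormedField F] [NormedAlgebra ℚ_[ℓ] F] {n m : ℕ}
variable {E : Type} [Field E] [NumberField E]

theorem oneE (ρ : GK K →* GL (Fin n) F) (hρ : Continuous ρ) (η : GK K →* GL (Fin m) F)
    (hη : Continuous η) {g₀ : GK K} (hg₀ : (mt ρ g₀).trace - (mt η g₀).trace ≠ 0)
    (B : Set (HeightOneSpectrum (𝓞 K))) (hB : B.Finite) (a : HeightOneSpectrum (𝓞 K) → E) (w : ℤ)
    (ψ : E →+* F) (htr : ∀ v, v ∉ B → (ℓ : 𝓞 K) ∉ v.asIdeal → ∀ g, IsFrob v g →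
      (mt ρ g⁻¹).trace - (mt η g⁻¹).trace = ψ (a v))
    (C : ℝ) (hC : ∀ᶠ N : ℕ in atTop, ∑ᶠ v ∈ {v : HeightOneSpectrum (𝓞 K) |
      Ideal.absNorm v.asIdeal ≤ N ∧ v ∉ B}, ∑ σ : E →+* ℂ, ‖σ (a v)‖ ^ 2 /
        (Ideal.absNorm v.asIdeal : ℝ) ^ w ≤ C * Nat.primeCounting N) (θ : ℝ)
    (hθ : θ * (n ^ 2 + m ^ 2) < 1) {d : ℕ} (hd : 0 < d)
    (hP : ∃ᶠ N : ℕ in atTop, dens (fun v : HeightOneSpectrum (𝓞 K) =>
      ¬ ∃ c : 𝓞 E, (d : E) * a v ^ 2 = (Ideal.absNorm v.asIdeal : E) ^ w * c) N ≤ θ) :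
    (2 : ℤ) ∣ w ∧ ∀ u : ℤ, w = 2 * u →
      ∃ U : Subgroup (GK K), U.Normal ∧ IsOpen (U : Set (GK K)) ∧
        ∀ x ∈ U, ∀ y, cyc K ℓ F (x * y) ^ u * ((mt ρ (x * y)).trace - (mt η (x * y)).trace) =
          cyc K ℓ F y ^ u * ((mt ρ y).trace - (mt η y).trace) := by
  classical
  have hchar : CharZero F := charZero_of_injective_algebraMap (algebraMap ℚ_[ℓ] F).injective
  set T : GK K → F := fun g => (mt ρ g⁻¹).trace - (mt η g⁻¹).trace with hT
  have hTc : Continuous T := ((continuous_trace ρ hρ).comp continuous_inv).sub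
    ((continuous_trace η hη).comp continuous_inv)
  have hcyc : ∀ x y, T (x * y) = T (y * x) := by
    intro x y
    simp only [hT]
    rw [mul_inv_rev, mul_inv_rev, mt_mul, mt_mul, mt_mul, mt_mul, Matrix.trace_mul_comm,
      Matrix.trace_mul_comm (mt η y⁻¹)]
  have hT1 : T g₀⁻¹ ≠ 0 := by
    simp only [hT]
    rw [inv_inv]
    exact hg₀
  obtain ⟨k, h, hk, hsep⟩ := exists_sep (F := F)
    (M := Matrix (Fin n) (Fin n) F × Matrix (Fin m) (Fin m) F)
    (fun x : GK K => (mt ρ x⁻¹, mt η x⁻¹))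
    (fun g => ((Matrix.traceLinearMap (Fin n) F F).comp (LinearMap.mulRight F (mt ρ g⁻¹))).comp
        (LinearMap.fst F _ _) -
      ((Matrix.traceLinearMap (Fin m) F F).comp (LinearMap.mulRight F (mt η g⁻¹))).comp
        (LinearMap.snd F _ _)) T (by
      intro g x
      simp only [hT]
      rw [mul_inv_rev, mt_mul, mt_mul]
      rfl)
  have hm' : k ≤ n ^ 2 + m ^ 2 := by
    rw [Module.finrank_prod, Module.finrank_matrix, Module.finrank_matrix, Module.finrank_self,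
      mul_one, mul_one, Fintype.card_fin, Fintype.card_fin, ← pow_two, ← pow_two] at hk
    exact hk
  set P : Set (HeightOneSpectrum (𝓞 K)) :=
    {v | v ∉ B ∧ ∃ c : 𝓞 E, (d : E) * a v ^ 2 = (Ideal.absNorm v.asIdeal : E) ^ w * c} with hPdef
  have hbe : ∀ v : HeightOneSpectrum (𝓞 K), ∃ c : 𝓞 E, v ∈ P →
      (d : E) * a v ^ 2 = (Ideal.absNorm v.asIdeal : E) ^ w * c := by
    intro v
    by_cases hv : v ∈ P
    · obtain ⟨c, hc⟩ := hv.2
      exact ⟨c, fun _ => hc⟩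
    · exact ⟨0, fun h => absurd h hv⟩
  choose b hbv using hbe
  have hN0 : ∀ v : HeightOneSpectrum (𝓞 K), 0 < Ideal.absNorm v.asIdeal := fun v =>
    Nat.pos_of_ne_zero (fun h0 => v.ne_bot (Ideal.absNorm_eq_zero_iff.1 h0))
  have hbn : ∀ v ∈ P, ∑ σ : E →+* ℂ, ‖σ (b v)‖ =
      d * ∑ σ : E →+* ℂ, ‖σ (a v)‖ ^ 2 / (Ideal.absNorm v.asIdeal : ℝ) ^ w := by
    intro v hv
    rw [Finset.mul_sum]
    refine Finset.sum_congr rfl fun σ _ => ?_
    have h1 := congrArg (fun x => ‖σ x‖) (hbv v hv)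
    have h2 : (0 : ℝ) < (Ideal.absNorm v.asIdeal : ℝ) ^ w := by
      have : (0 : ℝ) < Ideal.absNorm v.asIdeal := by exact_mod_cast hN0 v
      positivity
    simp only [map_mul, map_pow, map_zpow₀, map_natCast, norm_mul, norm_pow, norm_zpow,
      Complex.norm_natCast] at h1
    rw [← mul_div_assoc, h1, mul_div_cancel_left₀ _ h2.ne']
  -- the parameter
  set M : ℕ := n ^ 2 + m ^ 2 with hM
  have hθ' : θ * M < 1 := by
    rw [hM]
    push_cast
    exact hθ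
  set ε : ℝ := (1 - θ * M) / (2 * (M + 1)) with hε
  have hε0 : 0 < ε := div_pos (by linarith) (by positivity)
  have hθε : (θ + ε) * M < 1 := by
    have h1 : ε * (M + 1) = (1 - θ * M) / 2 := by
      rw [hε]
      field_simp
    have h2 : (θ + ε) * M = θ * M + ε * (M + 1) - ε := by ring
    rw [h2, h1]
    linarith
  have hmain := Tr2.main (K := K) (E := E) (p := ℓ) (F := F) T hTc hcyc hT1 hm' h hsep w P
    ψ a b (d := d) hd (fun v hv => hbv v hv)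
    {v | (ℓ : 𝓞 K) ∈ v.asIdeal} (Pool.Agent.W352.ChAbs.over_le ℓ (Fact.out : ℓ.Prime)).1 (by
      intro v hv hvℓ g hg
      exact htr v hv.1 hvℓ g hg)
    (θ + ε) (d * C) hθε (by
      have hBd : ∀ᶠ N : ℕ in atTop, dens (fun v : HeightOneSpectrum (𝓞 K) => v ∈ B) N ≤ ε :=
        (dens_fin (fun v : HeightOneSpectrum (𝓞 K) => v ∈ B) hB).eventually (ge_mem_nhds hε0)
      refine (hP.and_eventually (hBd.and hC)).mono ?_
      rintro N ⟨h1, h2, h3⟩
      constructor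
      · have h5 : dens (fun v => v ∉ P) N ≤ dens (fun v : HeightOneSpectrum (𝓞 K) =>
            (¬ ∃ c : 𝓞 E, (d : E) * a v ^ 2 = (Ideal.absNorm v.asIdeal : E) ^ w * c) ∨ v ∈ B) N := by
          refine dens_le ?_ N
          intro v hv
          by_cases hvB : v ∈ B
          · exact Or.inr hvB
          · left
            intro hd
            exact hv ⟨hvB, hd⟩
        have h6 := h5.trans (card_or _ _ N)
        linarith
      · have hfinP : {v : HeightOneSpectrum (𝓞 K) | Ideal.absNorm v.asIdeal ≤ N ∧ v ∈ P}.Finite :=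
          (Pool.Agent.W352.ChAbs.finite_le (K := K) N).subset fun v hv => hv.1
        have hfinB : {v : HeightOneSpectrum (𝓞 K) | Ideal.absNorm v.asIdeal ≤ N ∧ v ∉ B}.Finite :=
          (Pool.Agent.W352.ChAbs.finite_le (K := K) N).subset fun v hv => hv.1
        rw [finsum_mem_eq_finite_toFinset_sum _ hfinB] at h3
        rw [finsum_mem_eq_finite_toFinset_sum _ hfinP]
        have h5 : ∑ v ∈ hfinP.toFinset, ∑ σ : E →+* ℂ, ‖σ (b v)‖ =
            d * ∑ v ∈ hfinP.toFinset, ∑ σ : E →+* ℂ, ‖σ (a v)‖ ^ 2 /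
              (Ideal.absNorm v.asIdeal : ℝ) ^ w := by
          rw [Finset.mul_sum]
          refine Finset.sum_congr rfl fun v hv => hbn v ?_
          rw [hfinP.mem_toFinset] at hv
          exact hv.2
        have h6 : ∑ v ∈ hfinP.toFinset, ∑ σ : E →+* ℂ, ‖σ (a v)‖ ^ 2 /
              (Ideal.absNorm v.asIdeal : ℝ) ^ w ≤ ∑ v ∈ hfinB.toFinset, ∑ σ : E →+* ℂ,
              ‖σ (a v)‖ ^ 2 / (Ideal.absNorm v.asIdeal : ℝ) ^ w := by
          apply Finset.sum_le_sum_of_subset_of_nonneg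
          · intro v hv
            rw [hfinP.mem_toFinset] at hv
            rw [hfinB.mem_toFinset]
            exact ⟨hv.1, hv.2.1⟩
          · intro v _ _
            apply Finset.sum_nonneg
            intro σ _
            positivity
        rw [h5, mul_assoc]
        exact mul_le_mul_of_nonneg_left (h6.trans h3) (Nat.cast_nonneg d))
  refine ⟨hmain.1, fun u hu => ?_⟩
  have hNN := hmain.2
  rw [hu] at hNN
  have hUo := isOpen_UU hTc hT1 (continuous_cyc K ℓ F) u hNN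
  refine ⟨UU T (cyc K ℓ F) u, ⟨?_⟩, hUo, ?_⟩
  · intro x hx y g
    have h1 : g * (y * x * y⁻¹) = (g * y * x) * y⁻¹ := by group
    rw [h1, hcyc, ← mul_assoc, hx, hcyc y⁻¹, mul_assoc g y y⁻¹, mul_inv_cancel, mul_one]
    congr 2
    rw [map_mul, map_mul, c_inv]
    field_simp [c_ne (cyc K ℓ F) y]
  · intro x hx y
    have hc0 : cyc K ℓ F x ^ u ≠ 0 := zpow_ne_zero _ (c_ne _ x)
    have h1 := (UU T (cyc K ℓ F) u).inv_mem hx (y⁻¹)
    simp only [hT] at h1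
    rw [mul_inv_rev, inv_inv, inv_inv] at h1
    rw [h1, map_mul, mul_zpow, c_inv, inv_zpow]
    field_simp

/-- **Comparison.** -/
theorem compare (ρ : GK K →* GL (Fin n) F) (hρ : Continuous ρ) (η : GK K →* GL (Fin m) F)
    (hη : Continuous η) (hirr : Sbq.Irr ((Units.coeHom _).comp ρ))
    (B : Set (HeightOneSpectrum (𝓞 K))) (hB : B.Finite) (a : HeightOneSpectrum (𝓞 K) → E) (w : ℤ)
    (ψ : E →+* F) (htr : ∀ v, v ∉ B → (ℓ : 𝓞 K) ∉ v.asIdeal → ∀ g, IsFrob v g →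
      (mt ρ g⁻¹).trace - (mt η g⁻¹).trace = ψ (a v))
    (C : ℝ) (hC : ∀ᶠ N : ℕ in atTop, ∑ᶠ v ∈ {v : HeightOneSpectrum (𝓞 K) |
      Ideal.absNorm v.asIdeal ≤ N ∧ v ∉ B}, ∑ σ : E →+* ℂ, ‖σ (a v)‖ ^ 2 /
        (Ideal.absNorm v.asIdeal : ℝ) ^ w ≤ C * Nat.primeCounting N) (θ : ℝ)
    (hθ : θ * (n ^ 2 + m ^ 2) < 1) {d : ℕ} (hd : 0 < d)
    (hP : ∃ᶠ N : ℕ in atTop, dens (fun v : HeightOneSpectrum (𝓞 K) =>
      ¬ ∃ c : 𝓞 E, (d : E) * a v ^ 2 = (Ideal.absNorm v.asIdeal : E) ^ w * c) N ≤ θ) :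
    Sbq.IsSub ((Units.coeHom _).comp ρ) ((Units.coeHom _).comp η) ∨
      ∃ u : ℤ, w = 2 * u ∧ ∃ U : Subgroup (GK K), U.Normal ∧ IsOpen (U : Set (GK K)) ∧
        ∀ x ∈ U, cyc K ℓ F x ^ u • mt ρ x = 1 := by
  classical
  have hchar : CharZero F := charZero_of_injective_algebraMap (algebraMap ℚ_[ℓ] F).injective
  by_cases h0 : ∃ g₀, (mt ρ g₀).trace - (mt η g₀).trace ≠ 0
  swap
  · push Not at h0
    exact Or.inl (Sbq.isSub_of_trace _ _ hirr fun y => sub_eq_zero.1 (h0 y))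
  obtain ⟨g₀, hg₀⟩ := h0
  obtain ⟨⟨u, hu⟩, hU⟩ := oneE ρ hρ η hη hg₀ B hB a w ψ htr C hC θ hθ hd hP
  obtain ⟨U, hUn, hUo, hU'⟩ := hU u hu
  have hc0 : ∀ g, cyc K ℓ F g ^ u ≠ 0 := fun g => zpow_ne_zero _ (c_ne _ g)
  have htw : ∀ {r : ℕ} (ξ : GK K →* GL (Fin r) F) (g : GK K),
      Sup4.tw ξ (cyc K ℓ F) (-u) g = cyc K ℓ F g ^ u • mt ξ g := by
    intro r ξ g
    rw [Sup4.tw_apply, neg_neg]
  have hmt : ∀ {r : ℕ} (ξ : GK K →* GL (Fin r) F) (g : GK K),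
      ((Units.coeHom _).comp ξ : GK K →* Matrix (Fin r) (Fin r) F) g = mt ξ g := fun ξ g => rfl
  have hirr' : Sbq.Irr (Sup4.tw ρ (cyc K ℓ F) (-u)) := by
    refine ⟨hirr.1, fun X hX => hirr.2 X fun g x hx => ?_⟩
    have h1 := hX g x hx
    rw [htw, Matrix.smul_mulVec] at h1
    have h2 := X.smul_mem (cyc K ℓ F g ^ u)⁻¹ h1
    rwa [smul_smul, inv_mul_cancel₀ (hc0 g), one_smul] at h2
  rcases Sbq.dichotomy (Sup4.tw ρ (cyc K ℓ F) (-u)) (Sup4.tw η (cyc K ℓ F) (-u)) hirr' U (by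
    intro x hx y
    have h1 := hU' x hx y
    rw [htw, htw, htw, htw, Matrix.trace_smul, Matrix.trace_smul, Matrix.trace_smul,
      Matrix.trace_smul, smul_eq_mul, smul_eq_mul, smul_eq_mul, smul_eq_mul, ← mul_sub, ← mul_sub]
    exact h1) with h1 | ⟨Y, f, hY, hf, hfg⟩
  · right
    refine ⟨u, hu, U, hUn, hUo, fun x hx => ?_⟩
    rw [← htw]
    exact h1 x hx
  · left
    refine ⟨Y, f, ?_, hf, ?_⟩
    · intro g y hy
      have h2 := hY g y hy
      rw [htw, Matrix.smul_mulVec] at h2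
      have h3 := Y.smul_mem (cyc K ℓ F g ^ u)⁻¹ h2
      rwa [smul_smul, inv_mul_cancel₀ (hc0 g), one_smul] at h3
    · intro g y hy
      have h2 := hfg g y hy
      rw [htw, htw, Matrix.smul_mulVec, Matrix.smul_mulVec, map_smul] at h2
      have h3 := congrArg (fun z => (cyc K ℓ F g ^ u)⁻¹ • z) h2
      simp only [smul_smul, inv_mul_cancel₀ (hc0 g), one_smul] at h3
      exact h3

end Pool.Agent.R401.Tr11
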