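import Pool.Agent.R401.Tr7
import Pool.Agent.W401.Cheb.Frob

/-!
# One place suffices for a positive density
-/

set_option autoImplicit false
set_option maxHeartbeats 400000

namespace Pool.Agent.R401.Tr12

open NumberField Filter Topology IsDedekindDomain Pool.Agent.W401.Cheb Pool.Agent.R401.Sup
open Pool.Agent.W569.FM Pool.Agent.R401.Img Pool.Agent.R401.Eng Pool.Agent.R401.Sup2
open Pool.Agent.R401.Sup3 Pool.Agent.R401.Tr1 Pool.Agent.R401.Tr3 Module Pool.Agent.R401.Tr5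
open Polynomial

variable {K : Type} [Field K] [NumberField K]

/-- places of degree at least two have density zero -/
theorem dens_not_prime : Tendsto (dens fun v : HeightOneSpectrum (𝓞 K) =>
    ¬ (Ideal.absNorm v.asIdeal).Prime) atTop (𝓝 0) := by
  choose R hR1 hR2 using Pool.Agent.W352.ChAbs.decomp
    (fun v : HeightOneSpectrum (𝓞 K) => ¬ (Ideal.absNorm v.asIdeal).Prime)
  have h0 : Tendsto (fun N : ℕ => (Module.finrank ℚ K : ℝ) *
      ((Nat.sqrt N + 1 : ℝ) / (Nat.primeCounting N : ℝ))) atTop (𝓝 0) := by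
    simpa using Pool.Agent.W352.ChAbs.sqrt_div_pi.const_mul (Module.finrank ℚ K : ℝ)
  refine squeeze_zero (fun N => by unfold dens; positivity) (fun N => ?_) h0
  unfold dens
  rw [hR2 N, mul_div_assoc']
  apply div_le_div_of_nonneg_right _ (Nat.cast_nonneg _)
  have hz : ∑ p ∈ Pool.Agent.W401.Cheb.pr N, Nat.card {v : HeightOneSpectrum (𝓞 K) //
      Ideal.absNorm v.asIdeal = p ∧ ¬ (Ideal.absNorm v.asIdeal).Prime} = 0 := by
    apply Finset.sum_eq_zero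
    intro p hp
    have hp' : p.Prime := by
      rw [Pool.Agent.W401.Cheb.pr, Finset.mem_filter] at hp
      exact hp.2
    rw [Nat.card_eq_zero]
    left
    constructor
    rintro ⟨v, h1, h2⟩
    exact h2 (h1 ▸ hp')
  rw [hz, zero_add]
  exact_mod_cast hR1 N

section integral

variable {ℓ : ℕ} [Fact ℓ.Prime] {n : ℕ}

/-- the normalised traces are integral -/
theorem int_of_U (ρ : GK K →* GL (Fin n) ℚ_[ℓ]) (u : ℤ) (U : Subgroup (GK K))
    (hUn : U.Normal) (hUo : IsOpen (U : Set (GK K)))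
    (hU : ∀ x ∈ U, ∀ y, (Sup4.tw ρ (cyc K ℓ ℚ_[ℓ]) (-u) (x * y)).trace =
      (Sup4.tw ρ (cyc K ℓ ℚ_[ℓ]) (-u) y).trace) (x : GK K) (r : ℚ)
    (hr : (Sup4.tw ρ (cyc K ℓ ℚ_[ℓ]) (-u) x).trace = (r : ℚ_[ℓ])) : ∃ c : ℤ, r = c := by
  have hfin : Finite (GK K ⧸ U) := Subgroup.quotient_finite_of_isOpen _ hUo
  have hfi : U.FiniteIndex := Subgroup.finiteIndex_of_finite_quotient
  have hm : U.index ≠ 0 := hfi.index_ne_zero
  rcases Nat.eq_zero_or_pos n with rfl | hn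
  · refine ⟨0, ?_⟩
    rw [Matrix.trace, Finset.univ_eq_empty, Finset.sum_empty] at hr
    exact_mod_cast hr.symm
  set Z := Sup4.tw ρ (cyc K ℓ ℚ_[ℓ]) (-u) x with hZ
  have hnil : IsNilpotent (Z ^ U.index - 1) := by
    apply nilp_of_trace
    intro j
    have h1 := hU ((x ^ U.index) ^ j) (U.pow_mem (Subgroup.pow_index_mem U x) j) 1
    rw [mul_one, map_one, Matrix.trace_one, Fintype.card_fin, map_pow, map_pow] at h1
    exact h1
  obtain ⟨e, he⟩ := hnil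
  have hint := Tr4.coeff_charpoly_integral Z ((X ^ U.index - 1) ^ e)
    ((monic_X_pow_sub_C (1 : ℤ) hm).pow e) (by
      rw [map_pow, map_sub, map_pow, aeval_X, map_one, he]) (n - 1)
  have : Nonempty (Fin n) := ⟨⟨0, hn⟩⟩
  have h1 := Matrix.trace_eq_neg_charpoly_coeff Z
  rw [Fintype.card_fin] at h1
  have h2 : IsIntegral ℤ (Z.trace) := by
    rw [h1]
    exact hint.neg
  rw [hr] at h2
  have h3 : IsIntegral ℤ r := by
    have h5 : ((r : ℚ) : ℚ_[ℓ]) = algebraMap ℚ ℚ_[ℓ] r := by simp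
    rw [h5] at h2
    exact (isIntegral_algebraMap_iff (algebraMap ℚ ℚ_[ℓ]).injective).1 h2
  obtain ⟨c, hc⟩ := IsIntegrallyClosed.isIntegral_iff.1 h3
  exact ⟨c, hc.symm⟩

/-- **Divisibility at most places implies divisibility at all places.** -/
theorem all_of_most (ρ : GK K →* GL (Fin n) ℚ_[ℓ]) (hρ : Continuous ρ)
    (B : Set (HeightOneSpectrum (𝓞 K))) (hB : B.Finite) (a : HeightOneSpectrum (𝓞 K) → ℤ) (u : ℕ)
    (htr : ∀ v, v ∉ B → (ℓ : 𝓞 K) ∉ v.asIdeal → ∀ g, IsFrob v g →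
      (mt ρ g⁻¹).trace = (a v : ℚ_[ℓ]))
    (C : ℝ) (hC : ∀ v, v ∉ B → |(a v : ℝ)| ≤ C * (Ideal.absNorm v.asIdeal : ℝ) ^ u) (θ : ℝ)
    (hθ : θ * n ^ 2 < 1)
    (hP : ∃ᶠ N : ℕ in atTop, dens (fun v : HeightOneSpectrum (𝓞 K) =>
      ¬ (Ideal.absNorm v.asIdeal : ℤ) ^ u ∣ a v) N ≤ θ) :
    ∀ v, v ∉ B → (ℓ : 𝓞 K) ∉ v.asIdeal → (Ideal.absNorm v.asIdeal : ℤ) ^ u ∣ a v := by
  classical
  intro v hv hvℓ
  obtain ⟨g, hg⟩ := Pool.Agent.W401.Frob.exists_frob v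
  have hN0 : ∀ v : HeightOneSpectrum (𝓞 K), 0 < Ideal.absNorm v.asIdeal := fun v =>
    Nat.pos_of_ne_zero (fun h0 => v.ne_bot (Ideal.absNorm_eq_zero_iff.1 h0))
  rcases Nat.eq_zero_or_pos n with rfl | hn
  · have h1 := htr v hv hvℓ g hg
    rw [Matrix.trace, Finset.univ_eq_empty, Finset.sum_empty] at h1
    have h2 : a v = 0 := by exact_mod_cast h1.symm
    rw [h2]
    exact dvd_zero _
  let η : GK K →* GL (Fin 0) ℚ_[ℓ] := 1
  have hη0 : ∀ g, (mt η g).trace = 0 := fun g => by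
    rw [Matrix.trace, Finset.univ_eq_empty, Finset.sum_empty]
  have h0 : (mt ρ 1).trace - (mt η 1).trace ≠ 0 := by
    rw [hη0, sub_zero]
    unfold Img.mt
    rw [map_one, Units.val_one, Matrix.trace_one, Fintype.card_fin]
    exact_mod_cast hn.ne'
  have hz2 : ∀ {L : Type} [Field L] (z : L), z ^ (2 * (u : ℤ)) = (z ^ u) ^ 2 := by
    intro L _ z
    rw [show (2 * (u : ℤ)) = ((u * 2 : ℕ) : ℤ) by push_cast; ring, zpow_natCast, pow_mul]
  obtain ⟨-, hU⟩ := Tr7.one ρ hρ η continuous_const h0 B hB (fun v => (a v : ℚ)) (2 * (u : ℤ))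
    (Rat.castHom ℚ_[ℓ]) (by
      intro v hv hvℓ g hg
      rw [htr v hv hvℓ g hg, hη0, sub_zero]
      simp) (C ^ 2) (by
      intro v hv
      have h1 := hC v hv
      have h2 : (0 : ℝ) < Ideal.absNorm v.asIdeal := by exact_mod_cast hN0 v
      rw [hz2]
      have h3 : 0 ≤ |(a v : ℝ)| := abs_nonneg _
      calc (((a v : ℚ) : ℝ)) ^ 2 = |(a v : ℝ)| ^ 2 := by rw [sq_abs]; push_cast; rfl
        _ ≤ (C * (Ideal.absNorm v.asIdeal : ℝ) ^ u) ^ 2 := pow_le_pow_left₀ h3 h1 2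
        _ = _ := by ring) θ (by
      push_cast
      simpa using hθ) (d := 1) one_pos (by
      refine hP.mono fun N hN => le_trans (dens_le ?_ N) hN
      intro v hv hd
      apply hv
      obtain ⟨c, hc⟩ := hd
      refine ⟨c ^ 2, ?_⟩
      rw [hc, hz2]
      push_cast
      ring)
  obtain ⟨U, hUn, hUo, hU'⟩ := hU u rfl
  have htw : ∀ g, (Sup4.tw ρ (cyc K ℓ ℚ_[ℓ]) (-(u : ℤ)) g).trace =
      cyc K ℓ ℚ_[ℓ] g ^ (u : ℤ) * ((mt ρ g).trace - (mt η g).trace) := by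
    intro g
    rw [Sup4.tw_apply, neg_neg, Matrix.trace_smul, hη0, sub_zero, smul_eq_mul]
  obtain ⟨c, hc⟩ := int_of_U ρ u U hUn hUo (by
    intro x hx y
    rw [htw, htw]
    exact hU' x hx y) g⁻¹ (((Ideal.absNorm v.asIdeal : ℚ) ^ u)⁻¹ * a v) (by
    rw [htw, hη0, sub_zero, htr v hv hvℓ g hg, c_inv, cyc_frob ℓ ℚ_[ℓ] hvℓ hg, inv_zpow,
      zpow_natCast]
    push_cast
    rfl)
  refine ⟨c, ?_⟩
  have hN : ((Ideal.absNorm v.asIdeal : ℚ) ^ u) ≠ 0 := by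
    have := (hN0 v).ne'
    positivity
  rw [inv_mul_eq_iff_eq_mul₀ hN] at hc
  exact_mod_cast hc

end integral

end Pool.Agent.R401.Tr12
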