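import Pool.Agent.R401.Tr1

/-!
# The main argument for trace functions
-/

set_option autoImplicit false
set_option maxHeartbeats 400000

namespace Pool.Agent.R401.Tr2

open NumberField Filter Topology IsDedekindDomain Pool.Agent.W401.Cheb Pool.Agent.R401.Eng
open Pool.Agent.R401.Sup2 Pool.Agent.R401.Sup3 Pool.Agent.R401.Tr1

variable {K : Type} [Field K] [NumberField K]

theorem main {E : Type} [Field E] [NumberField E] {p : ℕ} [Fact p.Prime] {F : Type}
    [NormedField F] [NormedAlgebra ℚ_[p] F] (T : GK K → F) (hT : Continuous T)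
    (hcyc : ∀ x y, T (x * y) = T (y * x)) {g₀ : GK K} (hg₀ : T g₀ ≠ 0) {m M : ℕ} (hmM : m ≤ M)
    (h : Fin m → GK K)
    (hsep : ∀ (g g' : GK K) (r : F), (∀ j, T (g' * h j) = r * T (g * h j)) →
      ∀ x, T (g' * x) = r * T (g * x)) (w : ℤ) (P : Set (HeightOneSpectrum (𝓞 K))) (τ : E →+* F)
    (a : HeightOneSpectrum (𝓞 K) → E) (b : HeightOneSpectrum (𝓞 K) → 𝓞 E) {d : ℕ} (hd : 0 < d)
    (hab : ∀ v ∈ P, (d : E) * a v ^ 2 = (Ideal.absNorm v.asIdeal : E) ^ w * b v)
    (S : Set (HeightOneSpectrum (𝓞 K))) (hS : S.Finite)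
    (htr : ∀ v ∈ P, v ∉ S → ∀ g, IsFrob v g → T g = τ (a v)) (θ C : ℝ)
    (hθ : θ * M < 1)
    (hfreq : ∃ᶠ N : ℕ in atTop, dens (fun v => v ∉ P) N ≤ θ ∧
      ∑ᶠ v ∈ {v : HeightOneSpectrum (𝓞 K) | Ideal.absNorm v.asIdeal ≤ N ∧ v ∈ P},
        ∑ σ : E →+* ℂ, ‖σ (b v)‖ ≤ C * Nat.primeCounting N) :
    (2 : ℤ) ∣ w ∧ IsOpen (NN T (cyc K p F) w : Set (GK K)) := by
  classical
  have hchar : CharZero F := charZero_of_injective_algebraMap (algebraMap ℚ_[p] F).injective
  have hM0 : (0 : ℝ) ≤ M := Nat.cast_nonneg M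
  set ε : ℝ := (1 - θ * M) / (5 * (M + 1)) with hε
  have hε0 : 0 < ε := div_pos (by linarith) (by positivity)
  have hθε : (θ + 4 * ε) * M < 1 := by
    have h1 : ε * (M + 1) = (1 - θ * M) / 5 := by
      rw [hε]
      field_simp
    have h2 : (θ + 4 * ε) * M = θ * M + 4 * (ε * (M + 1)) - 4 * ε := by ring
    rw [h2, h1]
    linarith
  have hmθ : m * (θ + 4 * ε) < 1 := by
    rcases le_or_gt 0 (θ + 4 * ε) with h0 | h0
    · have h1 : (m : ℝ) ≤ M := by exact_mod_cast hmM
      calc m * (θ + 4 * ε) ≤ M * (θ + 4 * ε) := mul_le_mul_of_nonneg_right h1 h0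
        _ = (θ + 4 * ε) * M := mul_comm _ _
        _ < 1 := hθε
    · have h1 : m * (θ + 4 * ε) ≤ 0 := mul_nonpos_of_nonneg_of_nonpos (Nat.cast_nonneg m) h0.le
      linarith
  obtain ⟨Y₀, hY₀, hYd⟩ := exists_finite E P b C hε0
  have hpi : ∀ᶠ N : ℕ in atTop, 0 < Nat.primeCounting N :=
    Nat.tendsto_primeCounting.eventually_gt_atTop 0
  have hdE : (d : E) ≠ 0 := by exact_mod_cast hd.ne'
  have hdF : (d : F) ≠ 0 := by exact_mod_cast hd.ne'
  have hp : ∀ᶠ N : ℕ in atTop, dens (fun v : HeightOneSpectrum (𝓞 K) => (p : 𝓞 K) ∈ v.asIdeal) N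
      ≤ ε := by
    have h1 := dens_fin (fun v : HeightOneSpectrum (𝓞 K) => (p : 𝓞 K) ∈ v.asIdeal)
      (Pool.Agent.W352.ChAbs.over_le p (Fact.out : p.Prime)).1
    exact h1.eventually (ge_mem_nhds hε0)
  have hSd : ∀ᶠ N : ℕ in atTop, dens (fun v : HeightOneSpectrum (𝓞 K) => v ∈ S) N ≤ ε := by
    have h1 := dens_fin (fun v : HeightOneSpectrum (𝓞 K) => v ∈ S) hS
    exact h1.eventually (ge_mem_nhds hε0)
  have ha : ∀ v ∈ P, a v ^ 2 = (Ideal.absNorm v.asIdeal : E) ^ w * ((b v : E) / d) := by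
    intro v hv
    have h1 := hab v hv
    field_simp
    linear_combination h1
  constructor
  · by_contra hw
    set R : HeightOneSpectrum (𝓞 K) → Prop := fun v => ∃ y ∈ hY₀.toFinset.filter (fun y => y ≠ 0),
      ∃ x : E, x ^ 2 = (Ideal.absNorm v.asIdeal : E) ^ w * ((y : E) / d) with hR
    have hRlim : Tendsto (dens R) atTop (𝓝 0) := by
      have h1 : Tendsto (fun N => ∑ y ∈ hY₀.toFinset.filter (fun y => y ≠ 0),
          dens (fun v : HeightOneSpectrum (𝓞 K) =>
            ∃ x : E, x ^ 2 = (Ideal.absNorm v.asIdeal : E) ^ w * ((y : E) / d)) N) atTop (𝓝 0) := by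
        have h2 := tendsto_finset_sum (hY₀.toFinset.filter (fun y => y ≠ 0)) (fun y hy =>
          dens_odd (K := K) E (c := (y : E) / d) (div_ne_zero (by
            have := (Finset.mem_filter.1 hy).2
            exact fun h0 => this (RingOfIntegers.ext h0)) hdE) hw)
        rwa [Finset.sum_const_zero] at h2
      refine squeeze_zero (fun N => ?_) (fun N => ?_) h1
      · unfold dens
        positivity
      · exact dens_biUnion _ _ N
    have hbad : ∃ᶠ N : ℕ in atTop, dens (fun v : HeightOneSpectrum (𝓞 K) =>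
        ∃ g, IsFrob v g ∧ g ∉ GG T (cyc K p F) w {0}) N ≤ θ + 4 * ε := by
      refine (hfreq.and_eventually (hpi.and ((hRlim.eventually (ge_mem_nhds hε0)).and hSd))).mono ?_
      rintro N ⟨⟨h1, h2⟩, h3, h4, h4'⟩
      have h5 := hYd N h3 h2
      have h6 : dens (fun v : HeightOneSpectrum (𝓞 K) =>
          ∃ g, IsFrob v g ∧ g ∉ GG T (cyc K p F) w {0}) N ≤
            dens (fun v => v ∉ P ∨ ((v ∈ P ∧ b v ∉ Y₀) ∨ (R v ∨ v ∈ S))) N := by
        refine dens_le ?_ N
        rintro v ⟨g, hg, hgG⟩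
        by_cases hvP : v ∈ P
        · right
          by_cases hvY : b v ∈ Y₀
          · right
            by_cases hvS : v ∈ S
            · exact Or.inr hvS
            left
            refine ⟨b v, ?_, a v, ha v hvP⟩
            rw [Finset.mem_filter, hY₀.mem_toFinset]
            refine ⟨hvY, fun h0 => hgG ⟨0, rfl, ?_⟩⟩
            have h7 := ha v hvP
            rw [h0] at h7
            have h8 : a v ^ 2 = 0 := by
              rw [h7]
              simp
            rw [htr v hvP hvS g hg, pow_eq_zero_iff two_ne_zero |>.1 h8, map_zero]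
            ring
          · exact Or.inl ⟨hvP, hvY⟩
        · exact Or.inl hvP
      have h7 := (h6.trans (card_or _ _ N)).trans (add_le_add_right ((card_or _ _ N).trans
        (add_le_add_right (card_or _ _ N) _)) _)
      linarith
    have h1 := engine (GG T (cyc K p F) w {0})
      (isClosed_GG hT (continuous_cyc K p F) w (Set.finite_singleton 0))
      (conj_GG hcyc _ w) hbad h ⊤ isOpen_univ ∅ (by
        intro g hg
        exfalso
        have h2 := hsep g g 0 (by
          intro j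
          obtain ⟨y, hy, h3⟩ := hg j
          rw [Set.mem_singleton_iff.1 hy, mul_zero] at h3
          rw [pow_eq_zero_iff two_ne_zero |>.1 h3, mul_zero]) (g⁻¹ * g₀)
        rw [mul_inv_cancel_left, zero_mul] at h2
        exact hg₀ h2)
    rw [Subgroup.index_top, Finset.card_empty] at h1
    push_cast at h1
    linarith
  · set Y : Set F := (fun y : 𝓞 E => τ y / d) '' Y₀ with hY
    have hYf : Y.Finite := hY₀.image _
    have hbad : ∃ᶠ N : ℕ in atTop, dens (fun v : HeightOneSpectrum (𝓞 K) =>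
        ∃ g, IsFrob v g ∧ g ∉ GG T (cyc K p F) w Y) N ≤ θ + 4 * ε := by
      refine (hfreq.and_eventually (hpi.and (hp.and hSd))).mono ?_
      rintro N ⟨⟨h1, h2⟩, h3, h4, h4'⟩
      have h5 := hYd N h3 h2
      have h6 : dens (fun v : HeightOneSpectrum (𝓞 K) =>
          ∃ g, IsFrob v g ∧ g ∉ GG T (cyc K p F) w Y) N ≤
            dens (fun v => v ∉ P ∨ ((v ∈ P ∧ b v ∉ Y₀) ∨ ((p : 𝓞 K) ∈ v.asIdeal ∨ v ∈ S))) N := by
        refine dens_le ?_ N
        rintro v ⟨g, hg, hgG⟩
        by_cases hvP : v ∈ P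
        · right
          by_cases hvp : (p : 𝓞 K) ∈ v.asIdeal
          · exact Or.inr (Or.inl hvp)
          by_cases hvS : v ∈ S
          · exact Or.inr (Or.inr hvS)
          left
          refine ⟨hvP, fun hvY => hgG ⟨τ (b v) / d, ⟨b v, hvY, rfl⟩, ?_⟩⟩
          rw [htr v hvP hvS g hg, ← map_pow, ha v hvP, cyc_frob p F hvp hg, map_mul, map_zpow₀,
            map_natCast, map_div₀, map_natCast]
        · exact Or.inl hvP
      have h7 := (h6.trans (card_or _ _ N)).trans (add_le_add_right ((card_or _ _ N).trans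
        (add_le_add_right (card_or _ _ N) _)) _)
      linarith
    obtain ⟨A, hA⟩ := exists_cosets hcyc hg₀ (cyc K p F) w h hsep hYf
    exact isOpen_of_cosets (GG T (cyc K p F) w Y)
      (isClosed_GG hT (continuous_cyc K p F) w hYf) (conj_GG hcyc _ w) hbad hmθ h
      (NN T (cyc K p F) w) (isClosed_NN hT hg₀ (continuous_cyc K p F) w) A hA

/-- every coset of an open normal subgroup contains Frobenius elements at infinitely many places -/
theorem exists_frob (U : Subgroup (GK K)) [hU : U.Normal] (hUo : IsOpen (U : Set (GK K)))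
    (g : GK K) {S : Set (HeightOneSpectrum (𝓞 K))} (hS : S.Finite) :
    ∃ v ∉ S, ∃ γ : GK K, IsFrob v γ ∧ g⁻¹ * γ ∈ U := by
  classical
  set C : Set (GK K) := {σ | ∃ x : GK K, g⁻¹ * (x * σ * x⁻¹) ∈ U} with hC
  have hC1 : ∀ σ ∈ C, ∀ τ : GK K, τ * σ * τ⁻¹ ∈ C := by
    rintro σ ⟨x, hx⟩ τ
    refine ⟨x * τ⁻¹, ?_⟩
    have h1 : x * τ⁻¹ * (τ * σ * τ⁻¹) * (x * τ⁻¹)⁻¹ = x * σ * x⁻¹ := by group
    rwa [h1]
  have hC2 : ∀ σ ∈ C, ∀ u ∈ U, σ * u ∈ C := by
    rintro σ ⟨x, hx⟩ u hu
    refine ⟨x, ?_⟩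
    have h1 : g⁻¹ * (x * (σ * u) * x⁻¹) = g⁻¹ * (x * σ * x⁻¹) * (x * u * x⁻¹) := by group
    rw [h1]
    exact U.mul_mem hx (hU.conj_mem u hu x)
  have hcheb := Pool.Agent.Y142.chebK K U hUo C hC1 hC2
  have hfin : Finite (GK K ⧸ U) := Subgroup.quotient_finite_of_isOpen _ hUo
  have hpos : (0 : ℝ) < (((QuotientGroup.mk : GK K → GK K ⧸ U) '' C).ncard : ℝ) /
      (Nat.card (GK K ⧸ U) : ℝ) := by
    apply div_pos
    · have h1 : ((QuotientGroup.mk : GK K → GK K ⧸ U) '' C).Nonempty :=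
        ⟨_, g, ⟨1, by simp [U.one_mem]⟩, rfl⟩
      exact_mod_cast (Set.ncard_pos (Set.toFinite _)).2 h1
    · exact_mod_cast Nat.card_pos
  by_contra hcon
  push Not at hcon
  have h0 : Tendsto (dens fun v : HeightOneSpectrum (𝓞 K) => ∃ σ ∈ C, IsFrob v σ) atTop (𝓝 0) := by
    refine squeeze_zero (fun N => ?_) (fun N => ?_)
      (dens_fin (fun v : HeightOneSpectrum (𝓞 K) => v ∈ S) hS)
    · unfold dens
      positivity
    · refine dens_le ?_ N
      rintro v ⟨σ, ⟨x, hx⟩, hv⟩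
      by_contra hvS
      have h1 : IsFrob v (x * σ * x⁻¹) := by
        obtain ⟨Q, hQ, hQv, hσ⟩ := hv
        refine ⟨Q.comap (MulSemiringAction.toRingHom (GK K) (𝓞 (AlgebraicClosure K)) x⁻¹), ?_, ?_,
          fun y => ?_⟩
        · have : Function.Surjective
              (MulSemiringAction.toRingHom (GK K) (𝓞 (AlgebraicClosure K)) x⁻¹) := by
            intro y
            exact ⟨x • y, by rw [MulSemiringAction.toRingHom_apply, inv_smul_smul]⟩
          exact Ideal.comap_isMaximal_of_surjective _ this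
        · rw [← hQv]
          ext y
          rw [Ideal.mem_comap, Ideal.mem_comap, Ideal.mem_comap, MulSemiringAction.toRingHom_apply,
            smul_algebraMap]
        · rw [Ideal.mem_comap, MulSemiringAction.toRingHom_apply, smul_sub, smul_pow', smul_smul]
          have h2 : x⁻¹ * (x * σ * x⁻¹) = σ * x⁻¹ := by group
          rw [h2, mul_smul]
          exact hσ (x⁻¹ • y)
      exact hcon v hvS _ h1 hx
  exact absurd (tendsto_nhds_unique hcheb h0) hpos.ne'

end Pool.Agent.R401.Tr2
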