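import Pool.Agent.R401.Tr2
import Pool.Agent.R703.FM.Tame

/-!
# Unipotent images and inertia groups
-/

set_option autoImplicit false
set_option maxHeartbeats 400000

namespace Pool.Agent.R401.Tr3

open NumberField Filter Topology IsDedekindDomain Pool.Agent.W401.Cheb Pool.Agent.R401.Sup
open Pool.Agent.W569.FM Pool.Agent.R401.Img

section ring

variable {R : Type*} [Ring R] {k : Type*} [Field k] [CharZero k] [Algebra k R]

theorem pow_mul_geom {t : R} {d : ℕ} (hd : (t - 1) ^ (d + 1) = 0) (q : ℕ) :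
    (t ^ q - 1) ^ d = ((q : k) ^ d) • (t - 1) ^ d := by
  have h0 : (t - 1) ^ d * t = (t - 1) ^ d := by
    have h1 : (t - 1) ^ d * (t - 1) = 0 := by rw [← pow_succ, hd]
    rw [mul_sub, mul_one, sub_eq_zero] at h1
    exact h1
  have h1 : ∀ i : ℕ, (t - 1) ^ d * t ^ i = (t - 1) ^ d := by
    intro i
    induction i with
    | zero => rw [pow_zero, mul_one]
    | succ i ih => rw [pow_succ, ← mul_assoc, ih, h0]
  have h2 : (t - 1) ^ d * (∑ i ∈ Finset.range q, t ^ i) = (q : k) • (t - 1) ^ d := by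
    rw [Finset.mul_sum, Finset.sum_congr rfl fun i _ => h1 i, Finset.sum_const, Finset.card_range,
      Nat.cast_smul_eq_nsmul]
  have h3 : t ^ q - 1 = (t - 1) * ∑ i ∈ Finset.range q, t ^ i := (mul_geom_sum t q).symm
  have hcomm : Commute (t - 1) (∑ i ∈ Finset.range q, t ^ i) := by
    apply Commute.sum_right
    intro i _
    apply Commute.pow_right
    exact (Commute.refl t).sub_left (Commute.one_left t)
  rw [h3, hcomm.mul_pow]
  have h4 : ∀ j : ℕ, (t - 1) ^ d * (∑ i ∈ Finset.range q, t ^ i) ^ j =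
      ((q : k) ^ j) • (t - 1) ^ d := by
    intro j
    induction j with
    | zero => rw [pow_zero, mul_one, pow_zero, one_smul]
    | succ j ih => rw [pow_succ, ← mul_assoc, ih, smul_mul_assoc, h2, smul_smul, pow_succ]
  exact h4 d

/-- a unipotent element which is conjugate to its `q`-th power by a quasi-unipotent element -/
theorem eq_one_of_conj (k : Type*) [Field k] [CharZero k] [Algebra k R] {s s' t : R} (hs : s * s' = 1) (hs' : s' * s = 1)
    {m : ℕ} (hm : 0 < m) (hsm : IsNilpotent (s ^ m - 1)) (ht : IsNilpotent (t - 1)) {q : ℕ}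
    (hq : 2 ≤ q) (hrel : s * t * s' = t ^ q) : t = 1 := by
  classical
  by_contra ht1
  have hY : t - 1 ≠ 0 := sub_ne_zero.2 ht1
  -- the largest nonzero power
  obtain ⟨d, hd1, hd2⟩ : ∃ d : ℕ, (t - 1) ^ d ≠ 0 ∧ (t - 1) ^ (d + 1) = 0 := by
    have h1 : ∃ e : ℕ, (t - 1) ^ e = 0 := ht
    have h2 := Nat.find_spec h1
    have h3 : Nat.find h1 ≠ 0 := by
      intro h0
      rw [h0, pow_zero] at h2
      apply hY
      rw [← mul_one (t - 1), h2, mul_zero]
    obtain ⟨d, hd⟩ := Nat.exists_eq_succ_of_ne_zero h3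
    refine ⟨d, Nat.find_min h1 (by omega), ?_⟩
    rw [hd] at h2
    exact h2
  have hd0 : 0 < d := by
    rcases Nat.eq_zero_or_pos d with h0 | h0
    · subst h0
      rw [zero_add, pow_one] at hd2
      exact absurd hd2 hY
    · exact h0
  set A : R := (t - 1) ^ d with hA
  set Q : k := (q : k) ^ d with hQ
  have h1 : s * A * s' = Q • A := by
    have h2 : ∀ j : ℕ, s * (t - 1) ^ j * s' = (t ^ q - 1) ^ j := by
      intro j
      induction j with
      | zero => rw [pow_zero, pow_zero, mul_one, hs]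
      | succ j ih =>
        rw [pow_succ, pow_succ, ← ih]
        have h3 : t ^ q - 1 = s * (t - 1) * s' := by rw [mul_sub, sub_mul, hrel, mul_one, hs]
        rw [h3]
        calc s * ((t - 1) ^ j * (t - 1)) * s' = s * (t - 1) ^ j * 1 * (t - 1) * s' := by
              simp only [mul_one, mul_assoc]
          _ = s * (t - 1) ^ j * (s' * s) * (t - 1) * s' := by rw [hs']
          _ = _ := by simp only [mul_assoc]
    rw [hA, h2, pow_mul_geom (k := k) hd2]
  have h2 : s * A = Q • (A * s) := by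
    calc s * A = s * A * (s' * s) := by rw [hs', mul_one]
      _ = (s * A * s') * s := by simp only [mul_assoc]
      _ = _ := by rw [h1, smul_mul_assoc]
  have h3 : ∀ j : ℕ, s ^ j * A = (Q ^ j) • (A * s ^ j) := by
    intro j
    induction j with
    | zero => rw [pow_zero, pow_zero, one_mul, mul_one, one_smul]
    | succ j ih =>
      rw [pow_succ', mul_assoc, ih, mul_smul_comm, ← mul_assoc, h2, smul_mul_assoc, smul_smul,
        mul_assoc, ← pow_succ', ← pow_succ]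
  set Z : R := s ^ m - 1 with hZ
  have hsZ : s ^ m = 1 + Z := by rw [hZ]; abel
  have h4 := h3 m
  rw [hsZ] at h4
  -- the largest power of `Z` with `A Z ^ c ≠ 0`
  obtain ⟨c, hc1, hc2⟩ : ∃ c : ℕ, A * Z ^ c ≠ 0 ∧ A * Z ^ (c + 1) = 0 := by
    have h5 : ∃ e : ℕ, A * Z ^ e = 0 := by
      obtain ⟨e, he⟩ := hsm
      exact ⟨e, by rw [he, mul_zero]⟩
    have h6 := Nat.find_spec h5
    have h7 : Nat.find h5 ≠ 0 := by
      intro h0
      rw [h0, pow_zero, mul_one] at h6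
      exact hd1 h6
    obtain ⟨c, hc⟩ := Nat.exists_eq_succ_of_ne_zero h7
    refine ⟨c, Nat.find_min h5 (by omega), ?_⟩
    rw [hc] at h6
    exact h6
  set B : R := A * Z ^ c with hB
  have h5 : B * Z = 0 := by rw [hB, mul_assoc, ← pow_succ, hc2]
  have h6 : Z * B = (Q ^ m - 1) • B := by
    have h7 : (1 + Z) * B = (Q ^ m) • B := by
      rw [hB, ← mul_assoc, h4, smul_mul_assoc, mul_assoc, add_mul, one_mul, mul_add, ← pow_succ',
        hc2, add_zero]
    rw [add_mul, one_mul] at h7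
    rw [sub_smul, one_smul, ← h7]
    abel
  have h7 : ∀ j : ℕ, Z ^ j * B = ((Q ^ m - 1) ^ j) • B := by
    intro j
    induction j with
    | zero => rw [pow_zero, pow_zero, one_mul, one_smul]
    | succ j ih => rw [pow_succ, mul_assoc, h6, mul_smul_comm, ih, smul_smul, pow_succ']
  obtain ⟨e, he⟩ := hsm
  have h8 := h7 e
  rw [he, zero_mul] at h8
  rcases smul_eq_zero.1 h8.symm with h9 | h9
  · have h10 : Q ^ m = 1 := by
      by_contra hne
      exact pow_ne_zero e (sub_ne_zero.2 hne) h9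
    rw [hQ, ← pow_mul] at h10
    have h11 : (q : ℕ) ^ (d * m) = 1 := by exact_mod_cast h10
    have h12 : 1 < q ^ (d * m) := Nat.one_lt_pow (by positivity) (by omega)
    omega
  · exact hc1 h9

end ring

section nilp

variable {k : Type*} [Field k] [CharZero k] {n : ℕ}

theorem nilp_of_trace {A : Matrix (Fin n) (Fin n) k} (h : ∀ j : ℕ, (A ^ j).trace = n) :
    IsNilpotent (A - 1) := by
  have h1 : ∀ r j : ℕ, (A ^ j * (A - 1) ^ (r + 1)).trace = 0 := by
    intro r
    induction r with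
    | zero =>
      intro j
      rw [zero_add, pow_one, mul_sub, mul_one, ← pow_succ, Matrix.trace_sub, h, h, sub_self]
    | succ r ih =>
      intro j
      have h2 : A ^ j * (A - 1) ^ (r + 1 + 1) =
          A ^ (j + 1) * (A - 1) ^ (r + 1) - A ^ j * (A - 1) ^ (r + 1) := by
        rw [pow_succ' (A - 1) (r + 1), ← mul_assoc, mul_sub, mul_one, ← pow_succ, sub_mul]
      rw [h2, Matrix.trace_sub, ih, ih, sub_self]
  have h2 := Pool.Agent.R401.Burn.isNilpotent_of_trace_pow (k := k) (V := Fin n → k)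
    (fun m h1 _ => Nat.cast_ne_zero.2 h1.ne') (Matrix.toLin' (A - 1)) (by
      intro r
      rw [← Matrix.toLin'_pow, Matrix.trace_toLin'_eq]
      have := h1 r 0
      rwa [pow_zero, one_mul] at this)
  obtain ⟨e, he⟩ := h2
  refine ⟨e, ?_⟩
  rw [← Matrix.toLin'_pow] at he
  exact (LinearEquiv.map_eq_zero_iff Matrix.toLin').1 he

end nilp

section lim

variable (ℓ : ℕ) [Fact ℓ.Prime] {F : Type} [NormedField F] [NormedAlgebra ℚ_[ℓ] F] {n : ℕ}

include ℓ in
theorem norm_nat_le (m : ℕ) : ‖(m : F)‖ ≤ 1 := by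
  have h1 : ‖algebraMap ℚ_[ℓ] F (m : ℚ_[ℓ])‖ = ‖(m : ℚ_[ℓ])‖ := norm_algebraMap' F _
  rw [map_natCast] at h1
  rw [h1]
  exact Padic.norm_int_le_one m

theorem tendsto_choose {j : ℕ} (hj : 0 < j) :
    Tendsto (fun k : ℕ => (((ℓ ^ k).choose j : ℕ) : F)) atTop (𝓝 0) := by
  have hchar : CharZero F := charZero_of_injective_algebraMap (algebraMap ℚ_[ℓ] F).injective
  have hj0 : (j : F) ≠ 0 := Nat.cast_ne_zero.2 hj.ne'
  have hl : ‖(ℓ : F)‖ < 1 := by
    have h1 : ‖algebraMap ℚ_[ℓ] F (ℓ : ℚ_[ℓ])‖ = ‖(ℓ : ℚ_[ℓ])‖ := norm_algebraMap' F _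
    rw [map_natCast] at h1
    rw [h1]
    exact Padic.norm_p_lt_one
  rw [tendsto_zero_iff_norm_tendsto_zero]
  have h1 : Tendsto (fun k : ℕ => ‖(ℓ : F)‖ ^ k * ‖(j : F)‖⁻¹) atTop (𝓝 0) := by
    have := (tendsto_pow_atTop_nhds_zero_of_lt_one (norm_nonneg (ℓ : F)) hl).mul_const ‖(j : F)‖⁻¹
    rwa [zero_mul] at this
  refine squeeze_zero (fun _ => norm_nonneg _) (fun k => ?_) h1
  obtain ⟨i, rfl⟩ := Nat.exists_eq_succ_of_ne_zero hj.ne'
  have h2 : ∃ N, ℓ ^ k = N + 1 := ⟨ℓ ^ k - 1, (Nat.sub_add_cancel (Nat.one_le_pow _ _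
    (Fact.out : ℓ.Prime).pos)).symm⟩
  obtain ⟨N, hN⟩ := h2
  have h3 : (N + 1) * N.choose i = (N + 1).choose (i + 1) * (i + 1) := Nat.add_one_mul_choose_eq N i
  have h4 : (((ℓ ^ k).choose (i + 1) : ℕ) : F) = (ℓ : F) ^ k * (N.choose i : F) * ((i + 1 : ℕ) : F)⁻¹ := by
    rw [eq_mul_inv_iff_mul_eq₀ hj0, hN, ← Nat.cast_mul, ← h3, ← hN]
    push_cast
    ring
  rw [Nat.succ_eq_add_one, h4, norm_mul, norm_mul, norm_inv, norm_pow]
  apply mul_le_mul_of_nonneg_right _ (by positivity)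
  calc ‖(ℓ : F)‖ ^ k * ‖(N.choose i : F)‖ ≤ ‖(ℓ : F)‖ ^ k * 1 :=
        mul_le_mul_of_nonneg_left (norm_nat_le ℓ _) (by positivity)
    _ = _ := mul_one _

theorem tendsto_pow {M : Matrix (Fin n) (Fin n) F} (hM : IsNilpotent (M - 1)) :
    Tendsto (fun k : ℕ => M ^ (ℓ ^ k)) atTop (𝓝 1) := by
  obtain ⟨e, he⟩ := hM
  have he' : (M - 1) ^ (e + 1) = 0 := by rw [pow_succ, he, zero_mul]
  have h1 : ∀ N : ℕ, e ≤ N → M ^ N = ∑ j ∈ Finset.range (e + 1), ((N.choose j : ℕ) : F) • (M - 1) ^ j := by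
    intro N hN
    have h2 : M ^ N = ((M - 1) + 1) ^ N := by rw [sub_add_cancel]
    rw [h2, (Commute.one_right (M - 1)).add_pow]
    have h3 : ∑ m ∈ Finset.range (N + 1), (M - 1) ^ m * 1 ^ (N - m) * (N.choose m : Matrix (Fin n) (Fin n) F) =
        ∑ m ∈ Finset.range (N + 1), ((N.choose m : ℕ) : F) • (M - 1) ^ m := by
      refine Finset.sum_congr rfl fun m _ => ?_
      rw [one_pow, mul_one, ← Nat.cast_comm, ← nsmul_eq_mul, Nat.cast_smul_eq_nsmul]
    rw [h3]
    symm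
    apply Finset.sum_subset
    · intro j hj
      rw [Finset.mem_range] at hj ⊢
      omega
    · intro j _ hj
      rw [Finset.mem_range] at hj
      have h4 : (M - 1) ^ j = 0 := by
        rw [show j = (e + 1) + (j - (e + 1)) by omega, pow_add, he', zero_mul]
      rw [h4, smul_zero]
  have h2 : Tendsto (fun k : ℕ => ∑ j ∈ Finset.range (e + 1), (((ℓ ^ k).choose j : ℕ) : F) • (M - 1) ^ j)
      atTop (𝓝 (∑ j ∈ Finset.range (e + 1), (if j = 0 then (1 : F) else 0) • (M - 1) ^ j)) := by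
    apply tendsto_finsetSum
    intro j _
    apply Tendsto.smul_const
    split_ifs with h0
    · subst h0
      simp only [Nat.choose_zero_right, Nat.cast_one]
      exact tendsto_const_nhds
    · exact tendsto_choose ℓ (Nat.pos_of_ne_zero h0)
  have h3 : (∑ j ∈ Finset.range (e + 1), (if j = 0 then (1 : F) else 0) • (M - 1) ^ j) = 1 := by
    rw [Finset.sum_eq_single 0]
    · simp
    · intro j _ hj
      rw [if_neg hj, zero_smul]
    · intro h
      exact absurd (Finset.mem_range.2 (Nat.succ_pos e)) h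
  rw [h3] at h2
  refine h2.congr' ?_
  have h4 : Tendsto (fun k : ℕ => ℓ ^ k) atTop atTop :=
    tendsto_pow_atTop_atTop_of_one_lt (Fact.out : ℓ.Prime).one_lt
  filter_upwards [h4.eventually_ge_atTop e] with k hk
  exact (h1 _ hk).symm

end lim

section inert

variable {K : Type} [Field K] [NumberField K] {ℓ : ℕ} [Fact ℓ.Prime] {F : Type} [NormedField F]
  [NormedAlgebra ℚ_[ℓ] F] {n : ℕ}

/-- the tame relation -/
theorem tame_rel (ρ : GK K →* Matrix (Fin n) (Fin n) F) (hρ : Continuous ρ)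
    (H : Subgroup (GK K)) [hHn : H.Normal] (hH : IsOpen (H : Set (GK K)))
    (hU : ∀ x ∈ H, IsNilpotent (ρ x - 1)) {l q : ℕ} (hl : l.Prime) (hlℓ : ℓ ≠ l) (hq : 1 ≤ q)
    {P : Ideal (OO K)} (hP : P.IsMaximal) (hlP : (l : OO K) ∈ P) {τ σ : GK K} (hτH : τ ∈ H)
    (hτ : InInertia P τ) (hσ : FrobAt q P σ) : ρ (σ * τ * σ⁻¹) = ρ τ ^ q := by
  classical
  set z : GK K := σ * τ * σ⁻¹ * (τ ^ q)⁻¹ with hz
  suffices h : ρ z = 1 by
    have h1 : σ * τ * σ⁻¹ = z * τ ^ q := by rw [hz, inv_mul_cancel_right]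
    rw [h1, map_mul, h, one_mul, map_pow]
  by_contra hz1
  have hzN : z ∉ ρ.ker := fun h => hz1 h
  have hNc : IsClosed (ρ.ker : Set (GK K)) := by
    have h1 : (ρ.ker : Set (GK K)) = ρ ⁻¹' {1} := by
      ext x
      exact MonoidHom.mem_ker
    rw [h1]
    exact isClosed_singleton.preimage hρ
  have h1 : (fun u => z * u) ⁻¹' (ρ.ker : Set (GK K))ᶜ ∈ 𝓝 (1 : GK K) := by
    apply (hNc.isOpen_compl.preimage (continuous_const.mul continuous_id)).mem_nhds
    change z * 1 ∉ ρ.ker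
    rwa [mul_one]
  obtain ⟨s, hs1, hs2, hs3⟩ := mem_nhds_iff.1 h1
  obtain ⟨U, hUs⟩ := ProfiniteGrp.exist_openNormalSubgroup_sub_open_nhds_of_one hs2 hs3
  have hUn : (U : Subgroup (GK K)).Normal := U.isNormal'
  have hUo : IsOpen (((U : Subgroup (GK K)) : Subgroup (GK K)) : Set (GK K)) := U.isOpen'
  set W : Subgroup (GK K) := ρ.ker ⊔ (U : Subgroup (GK K)) with hW
  have hWo : IsOpen (W : Set (GK K)) := Subgroup.isOpen_mono le_sup_right hUo
  have hWn : W.Normal := Subgroup.sup_normal _ _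
  have hzW : z ∉ W := by
    intro h2
    obtain ⟨a, ha, u, hu, hau⟩ := Subgroup.mem_sup_of_normal_right.1 h2
    have h3 : z * u⁻¹ ∈ ρ.ker := by
      rw [← hau, mul_inv_cancel_right]
      exact ha
    exact hs1 (hUs ((U : Subgroup (GK K)).inv_mem hu)) h3
  have hpow : ∀ x ∈ H, ∃ k : ℕ, x ^ (ℓ ^ k) ∈ W := by
    intro x hx
    have hcomp : IsClosed (ρ '' (W : Set (GK K))ᶜ) :=
      (hWo.isClosed_compl.isCompact.image hρ).isClosed
    have h2 : (1 : Matrix (Fin n) (Fin n) F) ∉ ρ '' (W : Set (GK K))ᶜ := by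
      rintro ⟨y, hy, hy1⟩
      exact hy ((le_sup_left : ρ.ker ≤ W) hy1)
    have h3 := (tendsto_pow ℓ (hU x hx)).eventually (hcomp.isOpen_compl.mem_nhds h2)
    obtain ⟨k, hk⟩ := h3.exists
    refine ⟨k, ?_⟩
    by_contra hcon
    exact hk ⟨x ^ (ℓ ^ k), hcon, map_pow ρ x _⟩
  set f : H →* (GK K ⧸ W) := (QuotientGroup.mk' W).comp H.subtype with hf
  -- the image
  have hE : IsPGroup ℓ f.range := by
    rintro ⟨_, x, rfl⟩
    obtain ⟨k, hk⟩ := hpow x x.2
    refine ⟨k, Subtype.ext ?_⟩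
    change f x ^ (ℓ ^ k) = 1
    rw [← map_pow]
    exact (QuotientGroup.eq_one_iff _).2 hk
  have hopen : IsOpen (f.rangeRestrict.ker : Set H) := by
    have h2 : (f.rangeRestrict.ker : Set H) = H.subtype ⁻¹' (W : Set (GK K)) := by
      ext x
      rw [SetLike.mem_coe, MonoidHom.ker_rangeRestrict, MonoidHom.mem_ker]
      exact QuotientGroup.eq_one_iff _
    rw [h2]
    exact hWo.preimage continuous_subtype_val
  have h2 := Pool.Agent.R703.FM.tame K (Fact.out : ℓ.Prime) hl hlℓ hq H hH f.range hE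
    f.rangeRestrict hopen P hP hlP ⟨τ, hτH⟩ σ hτ hσ
  have h3 := congrArg Subtype.val h2
  have h4 : ((σ * τ * σ⁻¹ : GK K) : GK K ⧸ W) = ((τ ^ q : GK K) : GK K ⧸ W) := h3
  apply hzW
  have h5 := QuotientGroup.eq.1 h4.symm
  have h6 := hWn.conj_mem _ h5 (τ ^ q)
  have h7 : τ ^ q * ((τ ^ q)⁻¹ * (σ * τ * σ⁻¹)) * (τ ^ q)⁻¹ = z := by
    rw [hz]
    group
  rwa [h7] at h6

/-- inertia acts trivially -/
theorem inert_one (ρ : GK K →* Matrix (Fin n) (Fin n) F) (hρ : Continuous ρ)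
    (H : Subgroup (GK K)) [hHn : H.Normal] (hH : IsOpen (H : Set (GK K)))
    (hU : ∀ x ∈ H, IsNilpotent (ρ x - 1)) {l q : ℕ} (hl : l.Prime) (hlℓ : ℓ ≠ l) (hq : 2 ≤ q)
    {P : Ideal (OO K)} (hP : P.IsMaximal) (hlP : (l : OO K) ∈ P) {τ σ : GK K} (hτH : τ ∈ H)
    (hτ : InInertia P τ) (hσ : FrobAt q P σ) : ρ τ = 1 := by
  have hchar : CharZero F := charZero_of_injective_algebraMap (algebraMap ℚ_[ℓ] F).injective
  have hrel := tame_rel ρ hρ H hH hU hl hlℓ (by omega) hP hlP hτH hτ hσ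
  have hfin : Finite (GK K ⧸ H) := Subgroup.quotient_finite_of_isOpen _ hH
  have hfi : H.FiniteIndex := Subgroup.finiteIndex_of_finite_quotient
  have hm : 0 < H.index := Nat.pos_of_ne_zero hfi.index_ne_zero
  have h1 : ρ σ * ρ σ⁻¹ = 1 := by rw [← map_mul, mul_inv_cancel, map_one]
  have h2 : ρ σ⁻¹ * ρ σ = 1 := by rw [← map_mul, inv_mul_cancel, map_one]
  refine eq_one_of_conj F h1 h2 hm ?_ (hU τ hτH) hq ?_
  · rw [← map_pow]
    exact hU _ (Subgroup.pow_index_mem H σ)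
  · rw [← map_mul, ← map_mul, hrel]

end inert

end Pool.Agent.R401.Tr3
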