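import Pool.Agent.TH658.Eq.Newt

/-!
# Characteristic polynomials of restrictions
-/

set_option autoImplicit false
set_option maxHeartbeats 400000

namespace Pool.Agent.R401.Tr4

open Polynomial Matrix Module

section newton

/-- the coefficients given by Newton's identities -/
noncomputable def cf (s : ℕ → ℚ) : ℕ → ℚ
  | 0 => 1
  | k + 1 => -(∑ i : Fin (k + 1), cf s i.1 * s (k - i.1 + 1)) / ((k : ℚ) + 1)
decreasing_by exact i.2

theorem cf_zero (s : ℕ → ℚ) : cf s 0 = 1 := by rw [cf]

theorem cf_succ (s : ℕ → ℚ) (k : ℕ) : cf s (k + 1) * ((k : ℚ) + 1) =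
    - ∑ p ∈ Finset.HasAntidiagonal.antidiagonal k, cf s p.1 * s (p.2 + 1) := by
  have hk : ((k : ℚ) + 1) ≠ 0 := by exact_mod_cast Nat.succ_ne_zero k
  rw [cf, div_mul_cancel₀ _ hk, Finset.Nat.sum_antidiagonal_eq_sum_range_succ
    (fun i j => cf s i * s (j + 1)) k, Finset.sum_range]

theorem coeff_eq {L : Type} [Field L] [CharZero L] {m : ℕ} (A : Matrix (Fin m) (Fin m) L)
    (s : ℕ → ℚ) (hs : ∀ k, (A ^ (k + 1)).trace = (s (k + 1) : L)) (k : ℕ) :
    A.charpolyRev.coeff k = (cf s k : L) := by
  induction k using Nat.strong_induction_on with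
  | _ k ih =>
    rcases k with _ | k
    · rw [coeff_zero_eq_eval_zero, Matrix.eval_charpolyRev, cf_zero, Rat.cast_one]
    · have hk : ((k : L) + 1) ≠ 0 := by exact_mod_cast Nat.succ_ne_zero k
      refine mul_right_cancel₀ hk ?_
      rw [Pool.Agent.TH658.Eq.newton]
      have h1 : ((cf s (k + 1) * ((k : ℚ) + 1) : ℚ) : L) = ((- ∑ p ∈
          Finset.HasAntidiagonal.antidiagonal k, cf s p.1 * s (p.2 + 1) : ℚ) : L) := by
        rw [cf_succ]
      push_cast at h1
      rw [h1]
      congr 1
      refine Finset.sum_congr rfl fun p hp => ?_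
      have h3 := (Finset.HasAntidiagonal.mem_antidiagonal.mp hp)
      rw [ih p.1 (by omega), hs]

theorem natDegree_charpolyRev {L : Type} [Field L] {m : ℕ} (A : Matrix (Fin m) (Fin m) L) :
    A.charpolyRev.natDegree ≤ m := by
  rw [← Matrix.reverse_charpoly]
  refine (reverse_natDegree_le _).trans ?_
  rw [Matrix.charpoly_natDegree_eq_dim, Fintype.card_fin]

end newton

section sub

variable {F : Type} [Field F] {n : ℕ} {I : Submodule F (Fin n → F)} {m : ℕ}

/-- the linear map with matrix `A` -/
noncomputable def fA (b : Basis (Fin m) F I) (A : Matrix (Fin m) (Fin m) F) : I →ₗ[F] I :=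
  Matrix.toLin b b A

theorem fA_pow (b : Basis (Fin m) F I) (A : Matrix (Fin m) (Fin m) F) (k : ℕ) :
    fA b (A ^ k) = fA b A ^ k := by
  induction k with
  | zero => rw [pow_zero, pow_zero, fA, Matrix.toLin_one]; rfl
  | succ k ih =>
    rw [pow_succ, pow_succ, ← ih, fA, Matrix.toLin_mul b b b]
    rfl

theorem trace_fA (b : Basis (Fin m) F I) (A : Matrix (Fin m) (Fin m) F) :
    LinearMap.trace F I (fA b A) = A.trace := by
  rw [LinearMap.trace_eq_matrix_trace F b, fA, LinearMap.toMatrix_toLin]

theorem comm (b : Basis (Fin m) F I) {A : Matrix (Fin m) (Fin m) F}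
    {M : Matrix (Fin n) (Fin n) F}
    (hA : ∀ j, M *ᵥ (b j : Fin n → F) = ∑ i, A i j • (b i : Fin n → F)) (x : I) :
    M *ᵥ (x : Fin n → F) = (fA b A x : Fin n → F) := by
  have h1 : (Matrix.toLin' M) ∘ₗ I.subtype = I.subtype ∘ₗ fA b A := by
    refine b.ext fun j => ?_
    rw [LinearMap.comp_apply, LinearMap.comp_apply, Matrix.toLin'_apply, fA, Matrix.toLin_self,
      map_sum]
    simp only [Submodule.subtype_apply, map_smul]
    exact hA j
  exact LinearMap.congr_fun h1 x

theorem comm_pow (b : Basis (Fin m) F I) {A : Matrix (Fin m) (Fin m) F}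
    {M : Matrix (Fin n) (Fin n) F}
    (hA : ∀ j, M *ᵥ (b j : Fin n → F) = ∑ i, A i j • (b i : Fin n → F)) (k : ℕ) (x : I) :
    M ^ k *ᵥ (x : Fin n → F) = ((fA b A ^ k) x : Fin n → F) := by
  induction k generalizing x with
  | zero => rw [pow_zero, Matrix.one_mulVec, pow_zero]; rfl
  | succ k ih =>
    rw [pow_succ, ← Matrix.mulVec_mulVec, comm b hA, ih, pow_succ]
    rfl

/-- the traces of the powers -/
theorem trace_pow {e M : Matrix (Fin n) (Fin n) F} (he : ∀ x, e *ᵥ x ∈ I)
    (he' : ∀ x ∈ I, e *ᵥ x = x) (b : Basis (Fin m) F I) {A : Matrix (Fin m) (Fin m) F}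
    (hA : ∀ j, M *ᵥ (b j : Fin n → F) = ∑ i, A i j • (b i : Fin n → F)) (k : ℕ) :
    (A ^ k).trace = (M ^ k * e).trace := by
  let E : (Fin n → F) →ₗ[F] I := (Matrix.toLin' e).codRestrict I fun x => by
    rw [Matrix.toLin'_apply]
    exact he x
  have hE : ∀ x, (E x : Fin n → F) = e *ᵥ x := fun x => rfl
  have hE' : ∀ x : I, E x = x := fun x => Subtype.ext (he' x x.2)
  have h1 : LinearMap.trace F I (fA b A ^ k) =
      LinearMap.trace F (Fin n → F) ((I.subtype ∘ₗ (fA b A ^ k)) ∘ₗ E) := by
    rw [LinearMap.trace_comp_comm']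
    congr 1
    ext x
    rw [LinearMap.comp_apply, LinearMap.comp_apply, Submodule.subtype_apply, hE']
  have h2 : (I.subtype ∘ₗ (fA b A ^ k)) ∘ₗ E = Matrix.toLin' (M ^ k * e) := by
    refine LinearMap.ext fun x => ?_
    rw [LinearMap.comp_apply, LinearMap.comp_apply, Submodule.subtype_apply, ← comm_pow b hA,
      Matrix.toLin'_apply, ← Matrix.mulVec_mulVec, hE]
  rw [← trace_fA b, fA_pow, h1, h2, Matrix.trace_toLin'_eq]

/-- relations are inherited -/
theorem aeval_eq_zero (b : Basis (Fin m) F I) {A : Matrix (Fin m) (Fin m) F}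
    {M : Matrix (Fin n) (Fin n) F}
    (hA : ∀ j, M *ᵥ (b j : Fin n → F) = ∑ i, A i j • (b i : Fin n → F)) (q : ℤ[X])
    (hq : aeval M q = 0) : aeval A q = 0 := by
  have h1 : ∀ (q : ℤ[X]) (x : I), (aeval M q) *ᵥ (x : Fin n → F) =
      (fA b (aeval A q) x : Fin n → F) := by
    intro q
    induction q using Polynomial.induction_on' with
    | add p q hp hq =>
      intro x
      rw [map_add, Matrix.add_mulVec, hp, hq, map_add, fA, fA, fA, map_add, LinearMap.add_apply]
      rfl
    | monomial k c =>
      intro x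
      rw [aeval_monomial, aeval_monomial]
      have h2 : ∀ {r : ℕ} (X : Matrix (Fin r) (Fin r) F), algebraMap ℤ _ c * X = (c : F) • X := by
        intro r X
        rw [Algebra.algebraMap_eq_smul_one, smul_mul_assoc, one_mul]
        ext i j
        rw [Matrix.smul_apply, Matrix.smul_apply, zsmul_eq_mul, smul_eq_mul]
      rw [h2, h2, Matrix.smul_mulVec, comm_pow b hA, ← fA_pow, fA, fA, map_smul]
      rfl
  have h3 : fA b (aeval A q) = 0 := by
    refine LinearMap.ext fun x => Subtype.ext ?_
    rw [← h1, hq, Matrix.zero_mulVec]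
    rfl
  exact (LinearEquiv.map_eq_zero_iff (Matrix.toLin b b)).1 h3

end sub

section integral

theorem coeff_prod_integral {L : Type*} [Field L] (s : Multiset L) (hs : ∀ z ∈ s, IsIntegral ℤ z)
    (i : ℕ) : IsIntegral ℤ ((s.map fun z => X - C z).prod.coeff i) := by
  induction s using Multiset.induction_on generalizing i with
  | empty =>
    rw [Multiset.map_zero, Multiset.prod_zero, coeff_one]
    split_ifs
    · exact isIntegral_one
    · exact isIntegral_zero
  | cons a s ih =>
    have ih' := ih fun z hz => hs z (Multiset.mem_cons_of_mem hz)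
    rw [Multiset.map_cons, Multiset.prod_cons, sub_mul, coeff_sub, coeff_C_mul]
    refine IsIntegral.sub ?_ ((hs a (Multiset.mem_cons_self _ _)).mul (ih' i))
    rcases i with _ | i
    · rw [mul_coeff_zero, coeff_X_zero, zero_mul]
      exact isIntegral_zero
    · rw [coeff_X_mul]
      exact ih' i

/-- the coefficients of the characteristic polynomial of an integral matrix -/
theorem coeff_charpoly_integral {L : Type} [Field L] {m : ℕ} (A : Matrix (Fin m) (Fin m) L)
    (q : ℤ[X]) (hq : q.Monic) (h : aeval A q = 0) (i : ℕ) : IsIntegral ℤ (A.charpoly.coeff i) := by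
  classical
  set Ω := AlgebraicClosure L
  set A' : Matrix (Fin m) (Fin m) Ω := A.map (algebraMap L Ω) with hA'
  have hpow : ∀ k : ℕ, A' ^ k = (A ^ k).map (algebraMap L Ω) := fun k => by
    rw [hA', ← RingHom.mapMatrix_apply, ← RingHom.mapMatrix_apply, map_pow]
  have h' : aeval A' q = 0 := by
    have h1 := Polynomial.aeval_algHom_apply ((algebraMap L Ω).mapMatrix (m := Fin m)).toIntAlgHom A q
    rw [h, map_zero] at h1
    exact h1
  have hroot : ∀ z ∈ A'.charpoly.roots, IsIntegral ℤ z := by
    intro z hz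
    have hz1 : A'.charpoly.IsRoot z := (mem_roots A'.charpoly_monic.ne_zero).1 hz
    have h1 : (Matrix.scalar (Fin m) z - A').det = 0 := by
      rw [← Matrix.eval_charpoly]
      exact hz1
    obtain ⟨v, hv0, hv⟩ := Matrix.exists_mulVec_eq_zero_iff.2 h1
    have hMv : A'.mulVec v = z • v := by
      rw [Matrix.sub_mulVec, sub_eq_zero] at hv
      rw [← hv, Matrix.scalar_apply, ← Matrix.smul_one_eq_diagonal, Matrix.smul_mulVec,
        Matrix.one_mulVec]
    have hpow : ∀ k : ℕ, (A' ^ k).mulVec v = z ^ k • v := by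
      intro k
      induction k with
      | zero => rw [pow_zero, Matrix.one_mulVec, pow_zero, one_smul]
      | succ k ih =>
        rw [pow_succ, ← Matrix.mulVec_mulVec, hMv, Matrix.mulVec_smul, ih, smul_smul, pow_succ,
          mul_comm]
    have hev : ∀ q : ℤ[X], (aeval A' q).mulVec v = (aeval z q) • v := by
      intro q
      induction q using Polynomial.induction_on' with
      | add p q hp hq => rw [map_add, Matrix.add_mulVec, hp, hq, map_add, add_smul]
      | monomial k c =>
        rw [aeval_monomial, aeval_monomial, Algebra.algebraMap_eq_smul_one, smul_mul_assoc, one_mul]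
        have h2 : (c • A' ^ k).mulVec v = (c : Ω) • (A' ^ k).mulVec v := by
          have h3 : (c • A' ^ k) = (c : Ω) • A' ^ k := by
            ext i j
            rw [Matrix.smul_apply, Matrix.smul_apply, zsmul_eq_mul, smul_eq_mul]
          rw [h3, Matrix.smul_mulVec]
        rw [h2, hpow, smul_smul]
        simp
    have h2 := hev q
    rw [h', Matrix.zero_mulVec] at h2
    refine ⟨q, hq, ?_⟩
    rcases smul_eq_zero.1 h2.symm with h3 | h3
    · exact h3
    · exact absurd h3 hv0
  have hsplit : A'.charpoly = (A'.charpoly.roots.map fun z => X - C z).prod :=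
    (IsAlgClosed.splits A'.charpoly).eq_prod_roots_of_monic A'.charpoly_monic
  have h3 := coeff_prod_integral A'.charpoly.roots hroot i
  rw [← hsplit, hA', Matrix.charpoly_map, coeff_map] at h3
  exact (isIntegral_algebraMap_iff (algebraMap L Ω).injective).1 h3

end integral

end Pool.Agent.R401.Tr4
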