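import Pool.Agent.R401.Tr3
import Pool.Agent.R401.Tr4

/-!
# Compatible families with divisible traces
-/

set_option autoImplicit false
set_option maxHeartbeats 400000

namespace Pool.Agent.R401.Tr5

open NumberField Filter Topology IsDedekindDomain Pool.Agent.W401.Cheb Pool.Agent.R401.Sup
open Pool.Agent.W569.FM Pool.Agent.R401.Img Pool.Agent.R401.Eng Pool.Agent.R401.Sup2
open Pool.Agent.R401.Sup3 Pool.Agent.R401.Sup4 Pool.Agent.R401.Tr1 Pool.Agent.R401.Tr3 Module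

variable {K : Type} [Field K] [NumberField K]

/-- the number of places is `O(π(N))` -/
theorem dens_le_const (P : HeightOneSpectrum (𝓞 K) → Prop) :
    ∀ᶠ N : ℕ in atTop, dens P N ≤ Module.finrank ℚ K + 1 := by
  classical
  have h2 := Pool.Agent.W352.ChAbs.sqrt_div_pi.const_mul (Module.finrank ℚ K : ℝ)
  rw [mul_zero] at h2
  filter_upwards [h2.eventually (ge_mem_nhds one_pos),
    Nat.tendsto_primeCounting.eventually_gt_atTop 0] with N hN hN0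
  have hN' : (0 : ℝ) < Nat.primeCounting N := by exact_mod_cast hN0
  obtain ⟨R, hR1, hR2⟩ := Pool.Agent.W352.ChAbs.decomp P N
  set d : ℕ := Module.finrank ℚ K with hd
  have h1 : ∑ p ∈ pr N,
      Nat.card {v : HeightOneSpectrum (𝓞 K) // Ideal.absNorm v.asIdeal = p ∧ P v} ≤
        Nat.primeCounting N * d := by
    have h3 : ∀ p ∈ pr N,
        Nat.card {v : HeightOneSpectrum (𝓞 K) // Ideal.absNorm v.asIdeal = p ∧ P v} ≤ d := by
      intro p hp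
      have hpp : p.Prime := (Finset.mem_filter.mp hp).2
      have hsub : {v : HeightOneSpectrum (𝓞 K) | Ideal.absNorm v.asIdeal = p ∧ P v} ⊆
          {v | (p : 𝓞 K) ∈ v.asIdeal} := by
        rintro v ⟨hv, -⟩
        have := Ideal.absNorm_mem v.asIdeal
        rw [hv] at this
        exact this
      exact (Set.ncard_le_ncard hsub (Pool.Agent.W352.ChAbs.over_le p hpp).1).trans
        (Pool.Agent.W352.ChAbs.over_le p hpp).2
    refine (Finset.sum_le_sum h3).trans ?_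
    rw [Finset.sum_const, smul_eq_mul]
    apply Nat.mul_le_mul_right
    apply le_of_eq
    unfold pr Nat.primeCounting Nat.primeCounting'
    rw [Nat.count_eq_card_filter_range]
  unfold dens
  rw [hR2, div_le_iff₀ hN']
  have h3 : (R : ℝ) ≤ d * (Nat.sqrt N + 1) := by exact_mod_cast hR1
  have h4 : ((∑ p ∈ pr N,
      Nat.card {v : HeightOneSpectrum (𝓞 K) // Ideal.absNorm v.asIdeal = p ∧ P v} : ℕ) : ℝ) ≤
        Nat.primeCounting N * d := by exact_mod_cast h1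
  have h5 : (d : ℝ) * (Nat.sqrt N + 1) ≤ Nat.primeCounting N := by
    rw [← mul_div_assoc, div_le_one hN'] at hN
    exact hN
  push_cast at h4 ⊢
  linarith

section one

variable {ℓ : ℕ} [Fact ℓ.Prime] {F : Type} [NormedField F] [NormedAlgebra ℚ_[ℓ] F] {n : ℕ}

/-- one prime `ℓ` -/
theorem one (hn : 0 < n) (ρ : GK K →* GL (Fin n) F) (hρ : Continuous ρ)
    (B : Set (HeightOneSpectrum (𝓞 K))) (hB : B.Finite) (a : HeightOneSpectrum (𝓞 K) → ℤ) (w : ℕ)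
    (htr : ∀ v, v ∉ B → (ℓ : 𝓞 K) ∉ v.asIdeal → ∀ g, IsFrob v g → (mt ρ g⁻¹).trace = (a v : F))
    (C : ℝ) (hC : ∀ v, v ∉ B → (a v : ℝ) ^ 2 ≤ C * (Ideal.absNorm v.asIdeal : ℝ) ^ w) (θ : ℝ)
    (hθ : θ * n ^ 2 < 1)
    (hP : ∃ᶠ N : ℕ in atTop, dens (fun v : HeightOneSpectrum (𝓞 K) =>
      ¬ (Ideal.absNorm v.asIdeal : ℤ) ^ w ∣ a v ^ 2) N ≤ θ) :
    (2 : ℤ) ∣ w ∧ ∀ u : ℤ, (w : ℤ) = 2 * u →
      ∃ U : Subgroup (GK K), U.Normal ∧ IsOpen (U : Set (GK K)) ∧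
        ∀ x ∈ U, ∀ y, (tw ρ (cyc K ℓ F) (-u) (x * y)).trace = (tw ρ (cyc K ℓ F) (-u) y).trace := by
  classical
  have hchar : CharZero F := charZero_of_injective_algebraMap (algebraMap ℚ_[ℓ] F).injective
  set T : GK K → F := fun g => (mt ρ g⁻¹).trace with hT
  have hTc : Continuous T := (continuous_trace ρ hρ).comp continuous_inv
  have hcyc : ∀ x y, T (x * y) = T (y * x) := by
    intro x y
    simp only [hT]
    rw [mul_inv_rev, mul_inv_rev, mt_mul, mt_mul, Matrix.trace_mul_comm]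
  have hT1 : T 1 ≠ 0 := by
    simp only [hT]
    rw [inv_one, mt_one, Matrix.trace_one, Fintype.card_fin]
    exact_mod_cast hn.ne'
  obtain ⟨m, h, hm, hsep⟩ := exists_sep (F := F) (M := Matrix (Fin n) (Fin n) F)
    (fun x : GK K => mt ρ x⁻¹)
    (fun g => (Matrix.traceLinearMap (Fin n) F F).comp (LinearMap.mulRight F (mt ρ g⁻¹))) T (by
      intro g x
      simp only [hT]
      rw [mul_inv_rev, mt_mul]
      rfl)
  have hm' : m ≤ n ^ 2 := by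
    rw [Module.finrank_matrix, Module.finrank_self, mul_one, Fintype.card_fin, ← pow_two] at hm
    exact hm
  set P : Set (HeightOneSpectrum (𝓞 K)) :=
    {v | v ∉ B ∧ (Ideal.absNorm v.asIdeal : ℤ) ^ w ∣ a v ^ 2} with hPdef
  set b : HeightOneSpectrum (𝓞 K) → ℤ := fun v => a v ^ 2 / (Ideal.absNorm v.asIdeal : ℤ) ^ w
    with hb
  have hN0 : ∀ v : HeightOneSpectrum (𝓞 K), 0 < Ideal.absNorm v.asIdeal := fun v =>
    Nat.pos_of_ne_zero (fun h0 => v.ne_bot (Ideal.absNorm_eq_zero_iff.1 h0))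
  have hbv : ∀ v ∈ P, a v ^ 2 = (Ideal.absNorm v.asIdeal : ℤ) ^ w * b v := by
    intro v hv
    exact (Int.mul_ediv_cancel' hv.2).symm
  have hbC : ∀ v ∈ P, |(b v : ℝ)| ≤ |C| := by
    intro v hv
    have h1 := hC v hv.1
    have h2 : (a v : ℝ) ^ 2 = (Ideal.absNorm v.asIdeal : ℝ) ^ w * b v := by
      exact_mod_cast hbv v hv
    have h3 : (0 : ℝ) < (Ideal.absNorm v.asIdeal : ℝ) ^ w := by
      have : (0 : ℝ) < Ideal.absNorm v.asIdeal := by exact_mod_cast hN0 v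
      positivity
    have h4 : 0 ≤ (b v : ℝ) := by
      by_contra hcon
      rw [not_le] at hcon
      have := mul_neg_of_pos_of_neg h3 hcon
      rw [← h2] at this
      exact absurd this (not_lt.2 (sq_nonneg _))
    rw [abs_of_nonneg h4]
    refine le_trans ?_ (le_abs_self C)
    rw [h2, mul_comm C] at h1
    exact le_of_mul_le_mul_left h1 h3
  -- the parameter
  set ε : ℝ := (1 - θ * n ^ 2) / (2 * (n ^ 2 + 1)) with hε
  have hε0 : 0 < ε := div_pos (by linarith) (by positivity)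
  have hθε : (θ + ε) * (n ^ 2 : ℕ) < 1 := by
    have h1 : ε * (n ^ 2 + 1) = (1 - θ * n ^ 2) / 2 := by
      rw [hε]
      field_simp
    have h2 : (θ + ε) * (n ^ 2 : ℕ) = θ * n ^ 2 + ε * (n ^ 2 + 1) - ε := by
      push_cast
      ring
    rw [h2, h1]
    linarith
  have hmain := Tr2.main (K := K) (E := ℚ) (p := ℓ) (F := F) T hTc hcyc hT1 hm' h hsep (w : ℤ) P
    (algebraMap ℚ F) (fun v => (a v : ℚ)) (fun v => (b v : 𝓞 ℚ)) (d := 1) one_pos (by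
      intro v hv
      have h1 := hbv v hv
      rw [Nat.cast_one, one_mul, zpow_natCast]
      have h2 : (((b v : 𝓞 ℚ) : 𝓞 ℚ) : ℚ) = (b v : ℚ) := by
        exact map_intCast (algebraMap (𝓞 ℚ) ℚ) (b v)
      rw [h2]
      exact_mod_cast h1)
    {v | (ℓ : 𝓞 K) ∈ v.asIdeal} (Pool.Agent.W352.ChAbs.over_le ℓ (Fact.out : ℓ.Prime)).1 (by
      intro v hv hvℓ g hg
      simp only [hT]
      rw [htr v hv.1 hvℓ g hg, map_intCast])
    (θ + ε) (|C| * (Module.finrank ℚ K + 1)) hθε (by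
      have hBd : ∀ᶠ N : ℕ in atTop, dens (fun v : HeightOneSpectrum (𝓞 K) => v ∈ B) N ≤ ε :=
        (dens_fin (fun v : HeightOneSpectrum (𝓞 K) => v ∈ B) hB).eventually (ge_mem_nhds hε0)
      refine (hP.and_eventually (hBd.and ((dens_le_const (K := K) (fun _ => True)).and
        (Nat.tendsto_primeCounting.eventually_gt_atTop 0)))).mono ?_
      rintro N ⟨h1, h2, h3, h4⟩
      have h4' : (0 : ℝ) < Nat.primeCounting N := by exact_mod_cast h4
      constructor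
      · have h5 : dens (fun v => v ∉ P) N ≤ dens (fun v : HeightOneSpectrum (𝓞 K) =>
            (¬ (Ideal.absNorm v.asIdeal : ℤ) ^ w ∣ a v ^ 2) ∨ v ∈ B) N := by
          refine dens_le ?_ N
          intro v hv
          by_cases hvB : v ∈ B
          · exact Or.inr hvB
          · left
            intro hd
            exact hv ⟨hvB, hd⟩
        have h6 := h5.trans (card_or _ _ N)
        linarith
      · have hfinP : {v : HeightOneSpectrum (𝓞 K) | Ideal.absNorm v.asIdeal ≤ N ∧ v ∈ P}.Finite :=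
          (Pool.Agent.W352.ChAbs.finite_le (K := K) N).subset fun v hv => hv.1
        rw [finsum_mem_eq_finite_toFinset_sum _ hfinP]
        have h5 : ∀ v ∈ hfinP.toFinset, ∑ σ : ℚ →+* ℂ, ‖σ ((b v : 𝓞 ℚ) : ℚ)‖ ≤ |C| := by
          intro v hv
          rw [hfinP.mem_toFinset] at hv
          have h6 : ∀ σ : ℚ →+* ℂ, ‖σ ((b v : 𝓞 ℚ) : ℚ)‖ = |(b v : ℝ)| := by
            intro σ
            have h2 : (((b v : 𝓞 ℚ) : 𝓞 ℚ) : ℚ) = (b v : ℚ) := by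
              exact map_intCast (algebraMap (𝓞 ℚ) ℚ) (b v)
            rw [h2, map_intCast, Complex.norm_intCast]
          rw [Finset.sum_congr rfl fun σ _ => h6 σ, Finset.sum_const]
          have h7 : (Finset.univ : Finset (ℚ →+* ℂ)).card = 1 := by
            rw [Finset.card_univ]
            exact Fintype.card_eq_one_iff.2 ⟨algebraMap ℚ ℂ, fun σ => Subsingleton.elim _ _⟩
          rw [h7, one_smul]
          exact hbC v hv.2
        refine (Finset.sum_le_sum h5).trans ?_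
        rw [Finset.sum_const, nsmul_eq_mul, mul_comm, mul_assoc]
        apply mul_le_mul_of_nonneg_left _ (abs_nonneg C)
        have h8 : (hfinP.toFinset.card : ℝ) ≤ Nat.card {v : HeightOneSpectrum (𝓞 K) //
            Ideal.absNorm v.asIdeal ≤ N ∧ True} := by
          have h9 : hfinP.toFinset.card = {v : HeightOneSpectrum (𝓞 K) |
              Ideal.absNorm v.asIdeal ≤ N ∧ v ∈ P}.ncard :=
            (Set.ncard_eq_toFinset_card _ hfinP).symm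
          rw [h9]
          have h10 : {v : HeightOneSpectrum (𝓞 K) | Ideal.absNorm v.asIdeal ≤ N ∧ v ∈ P}.ncard ≤
              {v : HeightOneSpectrum (𝓞 K) | Ideal.absNorm v.asIdeal ≤ N ∧ True}.ncard :=
            Set.ncard_le_ncard (fun v hv => ⟨hv.1, trivial⟩)
              ((Pool.Agent.W352.ChAbs.finite_le (K := K) N).subset fun v hv => hv.1)
          exact_mod_cast h10
        refine h8.trans ?_
        unfold dens at h3
        rwa [div_le_iff₀ h4'] at h3)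
  refine ⟨hmain.1, fun u hu => ?_⟩
  have hNN := hmain.2
  rw [hu] at hNN
  have hUo := isOpen_UU hTc hT1 (continuous_cyc K ℓ F) u hNN
  refine ⟨UU T (cyc K ℓ F) u, ⟨?_⟩, hUo, ?_⟩
  · intro x hx y g
    have h1 : g * (y * x * y⁻¹) = (g * y * x) * y⁻¹ := by group
    rw [h1, hcyc, ← mul_assoc, hx, hcyc y⁻¹, mul_assoc g y y⁻¹, mul_inv_cancel, mul_one]
    congr 2
    rw [map_mul, map_mul, c_inv]
    field_simp [c_ne (cyc K ℓ F) y]
  · intro x hx y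
    have hc0 : cyc K ℓ F x ^ u ≠ 0 := zpow_ne_zero _ (c_ne _ x)
    have h1 := (UU T (cyc K ℓ F) u).inv_mem hx (y⁻¹)
    simp only [hT] at h1
    rw [mul_inv_rev, inv_inv, inv_inv] at h1
    rw [Sup4.tw_apply, Sup4.tw_apply, Matrix.trace_smul, Matrix.trace_smul, h1, neg_neg, map_mul, mul_zpow,
      c_inv, inv_zpow, smul_eq_mul, smul_eq_mul]
    field_simp

end one

section family

variable {n : ℕ}

theorem family (hn : 0 < n) (ρ : ∀ (ℓ : ℕ) [Fact ℓ.Prime], GK K →* GL (Fin n) ℚ_[ℓ])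
    (hρ : ∀ (ℓ : ℕ) [Fact ℓ.Prime], Continuous (ρ ℓ))
    (B : Set (HeightOneSpectrum (𝓞 K))) (hB : B.Finite) (a : HeightOneSpectrum (𝓞 K) → ℤ) (w : ℕ)
    (htr : ∀ (ℓ : ℕ) [Fact ℓ.Prime], ∀ v, v ∉ B → (ℓ : 𝓞 K) ∉ v.asIdeal → ∀ g, IsFrob v g →
      (mt (ρ ℓ) g⁻¹).trace = (a v : ℚ_[ℓ]))
    (C : ℝ) (hC : ∀ v, v ∉ B → (a v : ℝ) ^ 2 ≤ C * (Ideal.absNorm v.asIdeal : ℝ) ^ w) (θ : ℝ)
    (hθ : θ * n ^ 2 < 1)
    (hP : ∃ᶠ N : ℕ in atTop, dens (fun v : HeightOneSpectrum (𝓞 K) =>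
      ¬ (Ideal.absNorm v.asIdeal : ℤ) ^ w ∣ a v ^ 2) N ≤ θ) :
    ∃ (u : ℕ) (φ : GK K → ℚ) (U : Subgroup (GK K)), w = 2 * u ∧ U.Normal ∧
      IsOpen (U : Set (GK K)) ∧ (∀ x ∈ U, ∀ y, φ (x * y) = φ y) ∧
      ∀ (ℓ : ℕ) [Fact ℓ.Prime] (y : GK K),
        (tw (ρ ℓ) (cyc K ℓ ℚ_[ℓ]) (-(u : ℤ)) y).trace = (φ y : ℚ_[ℓ]) := by
  classical
  have h2p : Fact (Nat.Prime 2) := ⟨Nat.prime_two⟩
  obtain ⟨hw, -⟩ := one hn (ρ 2) (hρ 2) B hB a w (htr 2) C hC θ hθ hP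
  obtain ⟨u, hu⟩ : ∃ u : ℕ, w = 2 * u := by
    have h1 : 2 ∣ w := by exact_mod_cast hw
    exact h1
  have hu' : (w : ℤ) = 2 * (u : ℤ) := by exact_mod_cast hu
  have hU : ∀ (ℓ : ℕ) [Fact ℓ.Prime], ∃ U : Subgroup (GK K), U.Normal ∧
      IsOpen (U : Set (GK K)) ∧ ∀ x ∈ U, ∀ y, (tw (ρ ℓ) (cyc K ℓ ℚ_[ℓ]) (-(u : ℤ)) (x * y)).trace =
        (tw (ρ ℓ) (cyc K ℓ ℚ_[ℓ]) (-(u : ℤ)) y).trace := fun ℓ _ =>
    (one hn (ρ ℓ) (hρ ℓ) B hB a w (htr ℓ) C hC θ hθ hP).2 u hu'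
  -- a common Frobenius element
  have hcommon : ∀ (ℓ : ℕ) [Fact ℓ.Prime] (y : GK K), ∃ r : ℚ,
      (tw (ρ 2) (cyc K 2 ℚ_[2]) (-(u : ℤ)) y).trace = (r : ℚ_[2]) ∧
      (tw (ρ ℓ) (cyc K ℓ ℚ_[ℓ]) (-(u : ℤ)) y).trace = (r : ℚ_[ℓ]) := by
    intro ℓ hℓ y
    obtain ⟨U₁, hU₁n, hU₁o, hU₁⟩ := hU 2
    obtain ⟨U₂, hU₂n, hU₂o, hU₂⟩ := hU ℓ
    have hn' : (U₁ ⊓ U₂).Normal := inferInstance
    have ho' : IsOpen ((U₁ ⊓ U₂ : Subgroup (GK K)) : Set (GK K)) := by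
      rw [Subgroup.coe_inf]
      exact hU₁o.inter hU₂o
    obtain ⟨v, hv, γ, hγ, hyγ⟩ := Tr2.exists_frob (U₁ ⊓ U₂) ho' y⁻¹
      (S := B ∪ ({v | ((2 : ℕ) : 𝓞 K) ∈ v.asIdeal} ∪ {v | ((ℓ : ℕ) : 𝓞 K) ∈ v.asIdeal}))
      (hB.union ((Pool.Agent.W352.ChAbs.over_le 2 Nat.prime_two).1.union
        (Pool.Agent.W352.ChAbs.over_le ℓ (Fact.out : ℓ.Prime)).1))
    rw [Set.mem_union, Set.mem_union, not_or, not_or, Set.mem_setOf_eq, Set.mem_setOf_eq] at hv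
    rw [inv_inv] at hyγ
    have hy : y = (y * γ) * γ⁻¹ := by rw [mul_inv_cancel_right]
    have key : ∀ (ℓ' : ℕ) [Fact ℓ'.Prime], ((ℓ' : ℕ) : 𝓞 K) ∉ v.asIdeal →
        (∀ y', (tw (ρ ℓ') (cyc K ℓ' ℚ_[ℓ']) (-(u : ℤ)) ((y * γ) * y')).trace =
          (tw (ρ ℓ') (cyc K ℓ' ℚ_[ℓ']) (-(u : ℤ)) y').trace) →
        (tw (ρ ℓ') (cyc K ℓ' ℚ_[ℓ']) (-(u : ℤ)) y).trace =
          (((Ideal.absNorm v.asIdeal : ℚ) ^ u)⁻¹ * a v : ℚ) := by
      intro ℓ' _ hℓ' h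
      rw [hy, h, Sup4.tw_apply, Matrix.trace_smul, htr ℓ' v hv.1 hℓ' γ hγ, neg_neg, c_inv,
        cyc_frob ℓ' ℚ_[ℓ'] hℓ' hγ, smul_eq_mul]
      push_cast
      rw [inv_zpow, zpow_natCast]
    refine ⟨((Ideal.absNorm v.asIdeal : ℚ) ^ u)⁻¹ * a v, ?_, ?_⟩
    · exact key 2 hv.2.1 fun y' => hU₁ _ hyγ.1 y'
    · exact key ℓ hv.2.2 fun y' => hU₂ _ hyγ.2 y'
  have hφ : ∀ y : GK K, ∃ r : ℚ, (tw (ρ 2) (cyc K 2 ℚ_[2]) (-(u : ℤ)) y).trace = (r : ℚ_[2]) :=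
    fun y => by
      obtain ⟨r, hr, -⟩ := hcommon 2 y
      exact ⟨r, hr⟩
  choose φ hφ using hφ
  obtain ⟨U, hUn, hUo, hU2⟩ := hU 2
  refine ⟨u, φ, U, hu, hUn, hUo, ?_, ?_⟩
  · intro x hx y
    have h1 := hU2 x hx y
    rw [hφ, hφ] at h1
    exact_mod_cast h1
  · intro ℓ hℓ y
    obtain ⟨r, hr1, hr2⟩ := hcommon ℓ y
    have h1 : φ y = r := by
      rw [hφ] at hr1
      exact_mod_cast hr1
    rw [hr2, h1]

end family

section loc

/-- the inertia group at `P` -/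
def IG (P : Ideal (OO K)) : Subgroup (GK K) where
  carrier := {τ | InInertia P τ}
  mul_mem' := by
    intro σ τ hσ hτ x
    have h1 : (σ * τ) • x - x = (σ • (τ • x) - τ • x) + (τ • x - x) := by
      rw [mul_smul]
      abel
    rw [h1]
    exact P.add_mem (hσ _) (hτ x)
  one_mem' := by
    intro x
    rw [one_smul, sub_self]
    exact P.zero_mem
  inv_mem' := by
    intro σ hσ x
    have h1 : σ⁻¹ • x - x = -(σ • (σ⁻¹ • x) - σ⁻¹ • x) := by
      rw [smul_inv_smul]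
      abel
    rw [h1]
    exact P.neg_mem (hσ _)

variable {n : ℕ} {ℓ : ℕ} [Fact ℓ.Prime]

/-- the cyclotomic character is unramified -/
theorem cyc_inertia {F : Type} [NormedField F] [NormedAlgebra ℚ_[ℓ] F] {P : Ideal (OO K)}
    (hP : P.IsMaximal) (hℓ : (ℓ : OO K) ∉ P) {q : ℕ} {σ τ : GK K} (hσ : FrobAt q P σ)
    (hτ : InInertia P τ) : cyc K ℓ F τ = 1 := by
  have h1 : FrobAt q P (τ * σ) := by
    intro x
    have h2 : (τ * σ) • x - x ^ q = (τ • (σ • x) - σ • x) + (σ • x - x ^ q) := by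
      rw [mul_smul]
      abel
    rw [h2]
    exact P.add_mem (hτ _) (hσ x)
  have h3 := Pool.Agent.Y115.Chi.chi_frob (ℓ := ℓ) hP.isPrime hℓ hσ
  have h4 := Pool.Agent.Y115.Chi.chi_frob (ℓ := ℓ) hP.isPrime hℓ h1
  rw [map_mul, Units.val_mul, h3] at h4
  have h5 : ((Pool.Agent.Y115.Chi.chi K ℓ τ : ℤ_[ℓ]ˣ) : ℤ_[ℓ]) = 1 := by
    have h6 : (q : ℤ_[ℓ]) ≠ 0 := by
      rw [← h3]
      exact Units.ne_zero _
    have h7 : ((Pool.Agent.Y115.Chi.chi K ℓ τ : ℤ_[ℓ]ˣ) : ℤ_[ℓ]) * q = 1 * q := by rw [h4, one_mul]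
    exact mul_right_cancel₀ h6 h7
  rw [cyc_apply, h5]
  simp

end loc

end Pool.Agent.R401.Tr5
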