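import Pool.Agent.R401.Tr5

/-!
# The local factor
-/

set_option autoImplicit false
set_option maxHeartbeats 400000

namespace Pool.Agent.R401.Tr6

open NumberField Filter Topology IsDedekindDomain Pool.Agent.W401.Cheb Pool.Agent.R401.Sup
open Pool.Agent.W569.FM Pool.Agent.R401.Img Pool.Agent.R401.Sup3 Pool.Agent.R401.Sup4
open Pool.Agent.R401.Tr3 Pool.Agent.R401.Tr4 Pool.Agent.R401.Tr5 Module Polynomial Matrix

variable {K : Type} [Field K] [NumberField K] {n : ℕ}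

/-- the averages -/
noncomputable def sk (φ : GK K → ℚ) (U : Subgroup (GK K)) (P : Ideal (OO K)) (D : ℚ)
    (g : GK K) (k : ℕ) : ℚ :=
  D ^ k * ((Nat.card (IG P ⧸ U.subgroupOf (IG P)) : ℚ)⁻¹ *
    ∑ᶠ q : IG P ⧸ U.subgroupOf (IG P), φ (g ^ k * ((q.out : IG P) : GK K)))

section one

variable {ℓ : ℕ} [Fact ℓ.Prime] (ρ : GK K →* GL (Fin n) ℚ_[ℓ]) (hρ : Continuous ρ) (u : ℕ)
  (φ : GK K → ℚ) (U : Subgroup (GK K)) (hUn : U.Normal) (hUo : IsOpen (U : Set (GK K)))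
  (hU : ∀ x ∈ U, ∀ y, φ (x * y) = φ y)
  (hφ : ∀ y : GK K, (tw ρ (cyc K ℓ ℚ_[ℓ]) (-(u : ℤ)) y).trace = (φ y : ℚ_[ℓ]))
  {P : Ideal (OO K)} (hP : P.IsMaximal) {q : ℕ} (hq : 2 ≤ q) {σ : GK K} (hσ : FrobAt q P σ)
  (hℓP : (ℓ : OO K) ∉ P)

include hU hφ in
theorem unip (x : GK K) (hx : x ∈ U) :
    IsNilpotent (tw ρ (cyc K ℓ ℚ_[ℓ]) (-(u : ℤ)) x - 1) := by
  apply nilp_of_trace
  intro j
  have h1 : φ 1 = n := by
    have h2 := hφ 1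
    rw [map_one, Matrix.trace_one, Fintype.card_fin] at h2
    exact_mod_cast h2.symm
  rw [← map_pow, hφ, ← mul_one (x ^ j), hU _ (U.pow_mem hx j), h1]
  norm_cast

include hρ in
theorem continuous_tw : Continuous (tw ρ (cyc K ℓ ℚ_[ℓ]) (-(u : ℤ))) := by
  have h1 : Continuous fun g => cyc K ℓ ℚ_[ℓ] g ^ (-(-(u : ℤ))) :=
    (continuous_cyc K ℓ ℚ_[ℓ]).zpow₀ _ fun x => Or.inl (c_ne _ x)
  exact h1.smul (continuous_mt ρ hρ)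

include hρ hUn hUo hU hφ hP hq hσ hℓP in
theorem triv {τ : GK K} (hτU : τ ∈ U) (hτ : InInertia P τ) :
    tw ρ (cyc K ℓ ℚ_[ℓ]) (-(u : ℤ)) τ = 1 := by
  obtain ⟨l, hl, hlP⟩ := Pool.Agent.R703.FM.exists_prime_mem P hP
  have hne : ℓ ≠ l := by
    rintro rfl
    exact hℓP hlP
  exact inert_one _ (continuous_tw ρ hρ u) U hUo (unip ρ u φ U hU hφ) hl hne hq hP hlP hτU hτ hσ

/-- the projector -/
noncomputable def ee : Matrix (Fin n) (Fin n) ℚ_[ℓ] :=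
  ((Nat.card (IG P ⧸ U.subgroupOf (IG P)) : ℚ_[ℓ])⁻¹) •
    ∑ᶠ q : IG P ⧸ U.subgroupOf (IG P), tw ρ (cyc K ℓ ℚ_[ℓ]) (-(u : ℤ)) ((q.out : IG P) : GK K)

include hUo in
theorem finQ : Finite (IG P ⧸ U.subgroupOf (IG P)) := by
  have hfin : Finite (GK K ⧸ U) := Subgroup.quotient_finite_of_isOpen _ hUo
  have hfi : U.FiniteIndex := Subgroup.finiteIndex_of_finite_quotient
  have : (U.subgroupOf (IG P)).FiniteIndex := inferInstance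
  exact Subgroup.finite_quotient_of_finiteIndex

include hρ hUn hUo hU hφ hP hq hσ hℓP in
theorem tw_out {a b : IG P} (h : (a : IG P ⧸ U.subgroupOf (IG P)) = b) :
    tw ρ (cyc K ℓ ℚ_[ℓ]) (-(u : ℤ)) (a : GK K) = tw ρ (cyc K ℓ ℚ_[ℓ]) (-(u : ℤ)) (b : GK K) := by
  have h1 := QuotientGroup.eq.1 h
  rw [Subgroup.mem_subgroupOf] at h1
  have h2 := triv ρ hρ u φ U hUn hUo hU hφ hP hq hσ hℓP h1 (a⁻¹ * b).2
  have h3 : (b : GK K) = (a : GK K) * ((a⁻¹ * b : IG P) : GK K) := by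
    rw [Subgroup.coe_mul, Subgroup.coe_inv, mul_inv_cancel_left]
  rw [h3, map_mul, h2, mul_one]

include hρ hUn hUo hU hφ hP hq hσ hℓP in
theorem tw_mul_ee {τ : GK K} (hτ : InInertia P τ) :
    tw ρ (cyc K ℓ ℚ_[ℓ]) (-(u : ℤ)) τ * ee ρ u U (P := P) = ee ρ u U (P := P) := by
  classical
  have := finQ U hUo (P := P)
  have hft : Fintype (IG P ⧸ U.subgroupOf (IG P)) := Fintype.ofFinite _
  unfold ee
  rw [mul_smul_comm, finsum_eq_sum_of_fintype, Finset.mul_sum]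
  congr 1
  let t : IG P := ⟨τ, hτ⟩
  conv_rhs => rw [← Equiv.sum_comp (MulAction.toPerm t : Equiv.Perm (IG P ⧸ U.subgroupOf (IG P)))]
  refine Finset.sum_congr rfl fun q _ => ?_
  rw [← map_mul]
  have h1 : τ * ((q.out : IG P) : GK K) = ((t * q.out : IG P) : GK K) := rfl
  rw [h1]
  apply tw_out ρ hρ u φ U hUn hUo hU hφ hP hq hσ hℓP
  rw [MulAction.toPerm_apply]
  have h2 : (((t • q).out : IG P) : IG P ⧸ U.subgroupOf (IG P)) = t • q := Quotient.out_eq _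
  rw [h2]
  conv_rhs => rw [← Quotient.out_eq q]
  rfl

include hP hσ hℓP in
theorem tw_inert {τ : GK K} (hτ : InInertia P τ) :
    tw ρ (cyc K ℓ ℚ_[ℓ]) (-(u : ℤ)) τ = mt ρ τ := by
  rw [Sup4.tw_apply, cyc_inertia hP hℓP hσ hτ, _root_.one_zpow, one_smul]

variable {I : Submodule ℚ_[ℓ] (Fin n → ℚ_[ℓ])}
  (hI : ∀ x, x ∈ I ↔ ∀ τ, InInertia P τ → mt ρ τ *ᵥ x = x)

include hρ hUn hUo hU hφ hP hq hσ hℓP hI in
theorem ee_mem (x : Fin n → ℚ_[ℓ]) : ee ρ u U (P := P) *ᵥ x ∈ I := by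
  rw [hI]
  intro τ hτ
  rw [← tw_inert ρ u hP hσ hℓP hτ, Matrix.mulVec_mulVec,
    tw_mul_ee ρ hρ u φ U hUn hUo hU hφ hP hq hσ hℓP hτ]

include hUo hP hσ hℓP hI in
theorem ee_fix (x : Fin n → ℚ_[ℓ]) (hx : x ∈ I) : ee ρ u U (P := P) *ᵥ x = x := by
  classical
  have := finQ U hUo (P := P)
  have hft : Fintype (IG P ⧸ U.subgroupOf (IG P)) := Fintype.ofFinite _
  unfold ee
  rw [Matrix.smul_mulVec, finsum_eq_sum_of_fintype, Matrix.sum_mulVec]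
  have h1 : ∀ q : IG P ⧸ U.subgroupOf (IG P),
      tw ρ (cyc K ℓ ℚ_[ℓ]) (-(u : ℤ)) ((q.out : IG P) : GK K) *ᵥ x = x := by
    intro q
    rw [tw_inert ρ u hP hσ hℓP q.out.2]
    exact (hI x).1 hx _ q.out.2
  rw [Finset.sum_congr rfl fun q _ => h1 q, Finset.sum_const, Finset.card_univ,
    Nat.card_eq_fintype_card, ← Nat.cast_smul_eq_nsmul ℚ_[ℓ], smul_smul, inv_mul_cancel₀, one_smul]
  exact_mod_cast Fintype.card_ne_zero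

include hP hσ hℓP in
theorem mt_pow (k : ℕ) : mt ρ σ⁻¹ ^ k =
    (((q : ℚ_[ℓ]) ^ u) ^ k) • tw ρ (cyc K ℓ ℚ_[ℓ]) (-(u : ℤ)) (σ⁻¹ ^ k) := by
  have hc : cyc K ℓ ℚ_[ℓ] σ = q := by
    have h3 := Pool.Agent.Y115.Chi.chi_frob (ℓ := ℓ) hP.isPrime hℓP hσ
    rw [cyc_apply, h3]
    simp
  have hc0 : (q : ℚ_[ℓ]) ≠ 0 := by
    rw [← hc]
    exact c_ne _ _
  have h1 : mt ρ σ⁻¹ = ((q : ℚ_[ℓ]) ^ u) • tw ρ (cyc K ℓ ℚ_[ℓ]) (-(u : ℤ)) σ⁻¹ := by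
    rw [Sup4.tw_apply, smul_smul, c_inv, hc, neg_neg, _root_.inv_zpow, zpow_natCast,
      mul_inv_cancel₀ (pow_ne_zero _ hc0), one_smul]
  rw [h1, _root_.smul_pow, map_pow]

include hUo hφ hP hσ hℓP in
theorem trace_formula (k : ℕ) : (mt ρ σ⁻¹ ^ k * ee ρ u U (P := P)).trace =
    (sk φ U P ((q : ℚ) ^ u) σ⁻¹ k : ℚ_[ℓ]) := by
  classical
  have := finQ U hUo (P := P)
  have hft : Fintype (IG P ⧸ U.subgroupOf (IG P)) := Fintype.ofFinite _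
  unfold ee sk
  rw [mt_pow ρ u hP hσ hℓP, finsum_eq_sum_of_fintype, finsum_eq_sum_of_fintype, smul_mul_assoc,
    mul_smul_comm, Matrix.trace_smul, Matrix.trace_smul, Finset.mul_sum, Matrix.trace_sum,
    smul_eq_mul, smul_eq_mul]
  have h1 : ∀ q : IG P ⧸ U.subgroupOf (IG P),
      (tw ρ (cyc K ℓ ℚ_[ℓ]) (-(u : ℤ)) (σ⁻¹ ^ k) *
        tw ρ (cyc K ℓ ℚ_[ℓ]) (-(u : ℤ)) ((q.out : IG P) : GK K)).trace =
      (φ (σ⁻¹ ^ k * ((q.out : IG P) : GK K)) : ℚ_[ℓ]) := by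
    intro q
    rw [← map_mul, hφ]
  rw [Finset.sum_congr rfl fun q _ => h1 q]
  push_cast
  ring

include hUn hUo hU hφ hP hσ hℓP in
/-- the matrix is integral -/
theorem exists_monic : ∃ f : ℤ[X], f.Monic ∧ aeval (mt ρ σ⁻¹) f = 0 := by
  have hfin : Finite (GK K ⧸ U) := Subgroup.quotient_finite_of_isOpen _ hUo
  have hfi : U.FiniteIndex := Subgroup.finiteIndex_of_finite_quotient
  have hm : U.index ≠ 0 := hfi.index_ne_zero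
  obtain ⟨e, he⟩ := unip ρ u φ U hU hφ (σ⁻¹ ^ U.index) (Subgroup.pow_index_mem U σ⁻¹)
  refine ⟨(X ^ U.index - C (((q : ℤ) ^ u) ^ U.index)) ^ e, (monic_X_pow_sub_C _ hm).pow e, ?_⟩
  rw [map_pow, map_sub, map_pow, aeval_X, aeval_C, mt_pow ρ u hP hσ hℓP]
  have h1 : algebraMap ℤ (Matrix (Fin n) (Fin n) ℚ_[ℓ]) (((q : ℤ) ^ u) ^ U.index) =
      (((q : ℚ_[ℓ]) ^ u) ^ U.index) • (1 : Matrix (Fin n) (Fin n) ℚ_[ℓ]) := by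
    rw [Algebra.algebraMap_eq_smul_one]
    ext i j
    rw [Matrix.smul_apply, Matrix.smul_apply, zsmul_eq_mul, smul_eq_mul]
    push_cast
    rfl
  rw [h1, ← smul_sub, _root_.smul_pow, he, smul_zero]

include hI hσ hq in
theorem stable (x : Fin n → ℚ_[ℓ]) (hx : x ∈ I) : mt ρ σ⁻¹ *ᵥ x ∈ I := by
  rw [hI]
  intro τ hτ
  have h1 : InInertia P (σ * τ * σ⁻¹) := by
    intro y
    have h2 : (σ * τ * σ⁻¹) • y - y = σ • (τ • (σ⁻¹ • y) - σ⁻¹ • y) := by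
      rw [smul_sub, smul_inv_smul, mul_smul, mul_smul]
    rw [h2]
    have h3 := hτ (σ⁻¹ • y)
    set z := τ • (σ⁻¹ • y) - σ⁻¹ • y
    have h4 : σ • z = (σ • z - z ^ q) + z ^ q := by abel
    rw [h4]
    exact P.add_mem (hσ z) (P.pow_mem_of_mem h3 q (by omega))
  have h2 := (hI x).1 hx _ h1
  have h3 : mt ρ τ * mt ρ σ⁻¹ = mt ρ σ⁻¹ * mt ρ (σ * τ * σ⁻¹) := by
    rw [← mt_mul, ← mt_mul]
    congr 1
    group
  rw [Matrix.mulVec_mulVec, h3, ← Matrix.mulVec_mulVec, h2]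

include hI hσ hq in
/-- a matrix on the invariants exists -/
theorem exists_basis : ∃ (m : ℕ) (b : Basis (Fin m) ℚ_[ℓ] I) (A : Matrix (Fin m) (Fin m) ℚ_[ℓ]),
    ∀ j, mt ρ σ⁻¹ *ᵥ (b j : Fin n → ℚ_[ℓ]) = ∑ i, A i j • (b i : Fin n → ℚ_[ℓ]) := by
  let b₀ : Basis (Fin (finrank ℚ_[ℓ] I)) ℚ_[ℓ] I := finBasis _ _
  let E₀ : I →ₗ[ℚ_[ℓ]] I := (Matrix.toLin' (mt ρ σ⁻¹)).restrict fun x hx => by
    rw [Matrix.toLin'_apply]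
    exact stable ρ hq hσ hI x hx
  set A₀ := LinearMap.toMatrix b₀ b₀ E₀ with hA₀
  refine ⟨_, b₀, A₀, fun j => ?_⟩
  have h1 : E₀ (b₀ j) = ∑ i, A₀ i j • b₀ i := by
    rw [hA₀]
    simp only [LinearMap.toMatrix_apply]
    exact (b₀.sum_repr _).symm
  have h2 := congrArg (Subtype.val) h1
  rw [Submodule.coe_sum] at h2
  simp only [Submodule.coe_smul] at h2
  rw [← h2]
  rfl

end one

theorem exists_prime_not_mem {P : Ideal (OO K)} (hP : P.IsMaximal) :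
    ∃ ℓ : ℕ, ℓ.Prime ∧ (ℓ : OO K) ∉ P := by
  by_contra hcon
  push Not at hcon
  have h2 := hcon 2 Nat.prime_two
  have h3 := hcon 3 Nat.prime_three
  apply hP.ne_top
  rw [Ideal.eq_top_iff_one]
  have h4 := P.sub_mem h3 h2
  have h5 : ((3 : ℕ) : OO K) - ((2 : ℕ) : OO K) = 1 := by
    push_cast
    ring
  rwa [h5] at h4

/-- **The local factor.** -/
theorem loc (ρ : ∀ (ℓ : ℕ) [Fact ℓ.Prime], GK K →* GL (Fin n) ℚ_[ℓ])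
    (hρ : ∀ (ℓ : ℕ) [Fact ℓ.Prime], Continuous (ρ ℓ)) (u : ℕ)
    (φ : GK K → ℚ) (U : Subgroup (GK K)) (hUn : U.Normal) (hUo : IsOpen (U : Set (GK K)))
    (hU : ∀ x ∈ U, ∀ y, φ (x * y) = φ y)
    (hφ : ∀ (ℓ : ℕ) [Fact ℓ.Prime] (y : GK K),
      (tw (ρ ℓ) (cyc K ℓ ℚ_[ℓ]) (-(u : ℤ)) y).trace = (φ y : ℚ_[ℓ]))
    {P : Ideal (OO K)} (hP : P.IsMaximal) {q : ℕ} (hq : 2 ≤ q) {σ : GK K} (hσ : FrobAt q P σ)
    (I : ∀ (ℓ : ℕ) [Fact ℓ.Prime], Submodule ℚ_[ℓ] (Fin n → ℚ_[ℓ]))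
    (hI : ∀ (ℓ : ℕ) [Fact ℓ.Prime] (x : Fin n → ℚ_[ℓ]),
      x ∈ I ℓ ↔ ∀ τ, InInertia P τ → mt (ρ ℓ) τ *ᵥ x = x) :
    ∃ f : ℤ[X], ∀ (ℓ : ℕ) [Fact ℓ.Prime], (ℓ : OO K) ∉ P →
      ∀ (m : ℕ) (b : Basis (Fin m) ℚ_[ℓ] (I ℓ)) (A : Matrix (Fin m) (Fin m) ℚ_[ℓ]),
        (∀ j, mt (ρ ℓ) σ⁻¹ *ᵥ (b j : Fin n → ℚ_[ℓ]) = ∑ i, A i j • (b i : Fin n → ℚ_[ℓ])) →
        A.charpolyRev = f.map (Int.castRingHom ℚ_[ℓ]) := by
  classical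
  set s : ℕ → ℚ := sk φ U P ((q : ℚ) ^ u) σ⁻¹ with hs
  -- the coefficients
  have hcoeff : ∀ (ℓ : ℕ) [Fact ℓ.Prime], (ℓ : OO K) ∉ P →
      ∀ (m : ℕ) (b : Basis (Fin m) ℚ_[ℓ] (I ℓ)) (A : Matrix (Fin m) (Fin m) ℚ_[ℓ]),
        (∀ j, mt (ρ ℓ) σ⁻¹ *ᵥ (b j : Fin n → ℚ_[ℓ]) = ∑ i, A i j • (b i : Fin n → ℚ_[ℓ])) →
        ∀ k, A.charpolyRev.coeff k = (cf s k : ℚ_[ℓ]) := by
    intro ℓ _ hℓP m b A hA k
    apply coeff_eq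
    intro k
    rw [trace_pow (ee_mem (ρ ℓ) (hρ ℓ) u φ U hUn hUo hU (hφ ℓ) hP hq hσ hℓP (hI ℓ))
      (ee_fix (ρ ℓ) u U hUo hP hσ hℓP (hI ℓ)) b hA,
      trace_formula (ρ ℓ) u φ U hUo (hφ ℓ) hP hσ hℓP]
  obtain ⟨ℓ₀, hℓ₀, hℓ₀P⟩ := exists_prime_not_mem hP
  have : Fact ℓ₀.Prime := ⟨hℓ₀⟩
  obtain ⟨m₀, b₀, A₀, hA₀'⟩ := exists_basis (ρ ℓ₀) hq hσ (hI ℓ₀)
  have hint : ∀ k, ∃ c : ℤ, cf s k = c := by
    intro k
    have h1 := hcoeff ℓ₀ hℓ₀P m₀ b₀ A₀ hA₀' k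
    obtain ⟨f, hf, hf0⟩ := exists_monic (ρ ℓ₀) u φ U hUn hUo hU (hφ ℓ₀) hP hσ hℓ₀P
    have h2 := coeff_charpoly_integral A₀ f hf (aeval_eq_zero b₀ hA₀' f hf0)
    have h3 : IsIntegral ℤ (A₀.charpolyRev.coeff k) := by
      rw [← Matrix.reverse_charpoly, coeff_reverse]
      exact h2 _
    rw [h1] at h3
    have h4 : IsIntegral ℤ (cf s k) := by
      have h5 : ((cf s k : ℚ) : ℚ_[ℓ₀]) = algebraMap ℚ ℚ_[ℓ₀] (cf s k) := by simp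
      rw [h5] at h3
      exact (isIntegral_algebraMap_iff (algebraMap ℚ ℚ_[ℓ₀]).injective).1 h3
    obtain ⟨c, hc⟩ := IsIntegrallyClosed.isIntegral_iff.1 h4
    exact ⟨c, hc.symm⟩
  have hzero : ∀ k, m₀ < k → cf s k = 0 := by
    intro k hk
    have h1 := hcoeff ℓ₀ hℓ₀P m₀ b₀ A₀ hA₀' k
    rw [coeff_eq_zero_of_natDegree_lt (lt_of_le_of_lt (natDegree_charpolyRev A₀) hk)] at h1
    exact_mod_cast h1.symm
  choose c hc using hint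
  refine ⟨∑ k ∈ Finset.range (m₀ + 1), C (c k) * X ^ k, ?_⟩
  intro ℓ _ hℓP m b A hA
  refine Polynomial.ext fun k => ?_
  rw [hcoeff ℓ hℓP m b A hA k, coeff_map, finset_sum_coeff]
  simp only [coeff_C_mul, coeff_X_pow, mul_ite, mul_one, mul_zero]
  rw [Finset.sum_ite_eq, eq_intCast]
  split_ifs with hk
  · rw [hc]
    norm_cast
  · rw [Finset.mem_range] at hk
    rw [hzero k (by omega)]
    norm_cast

end Pool.Agent.R401.Tr6
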