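import Pool.Agent.R401.Tr6

/-!
# Comparison of two compatible families: global part
-/

set_option autoImplicit false
set_option maxHeartbeats 400000

namespace Pool.Agent.R401.Tr7

open NumberField Filter Topology IsDedekindDomain Pool.Agent.W401.Cheb Pool.Agent.R401.Sup
open Pool.Agent.W569.FM Pool.Agent.R401.Img Pool.Agent.R401.Eng Pool.Agent.R401.Sup2
open Pool.Agent.R401.Sup3 Pool.Agent.R401.Tr1 Pool.Agent.R401.Tr3 Module Pool.Agent.R401.Tr5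

variable {K : Type} [Field K] [NumberField K]

section one

variable {ℓ : ℕ} [Fact ℓ.Prime] {F : Type} [NormedField F] [NormedAlgebra ℚ_[ℓ] F] {n m : ℕ}

/-- one prime `ℓ` -/
theorem one (ρ : GK K →* GL (Fin n) F) (hρ : Continuous ρ) (η : GK K →* GL (Fin m) F)
    (hη : Continuous η) {g₀ : GK K} (hg₀ : (mt ρ g₀).trace - (mt η g₀).trace ≠ 0)
    (B : Set (HeightOneSpectrum (𝓞 K))) (hB : B.Finite) (a : HeightOneSpectrum (𝓞 K) → ℚ) (w : ℤ)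
    (ψ : ℚ →+* F) (htr : ∀ v, v ∉ B → (ℓ : 𝓞 K) ∉ v.asIdeal → ∀ g, IsFrob v g →
      (mt ρ g⁻¹).trace - (mt η g⁻¹).trace = ψ (a v))
    (C : ℝ) (hC : ∀ v, v ∉ B → (a v : ℝ) ^ 2 ≤ C * (Ideal.absNorm v.asIdeal : ℝ) ^ w) (θ : ℝ)
    (hθ : θ * (n ^ 2 + m ^ 2) < 1) {d : ℕ} (hd : 0 < d)
    (hP : ∃ᶠ N : ℕ in atTop, dens (fun v : HeightOneSpectrum (𝓞 K) =>
      ¬ ∃ c : ℤ, (d : ℚ) * a v ^ 2 = (Ideal.absNorm v.asIdeal : ℚ) ^ w * c) N ≤ θ) :
    (2 : ℤ) ∣ w ∧ ∀ u : ℤ, w = 2 * u →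
      ∃ U : Subgroup (GK K), U.Normal ∧ IsOpen (U : Set (GK K)) ∧
        ∀ x ∈ U, ∀ y, cyc K ℓ F (x * y) ^ u * ((mt ρ (x * y)).trace - (mt η (x * y)).trace) =
          cyc K ℓ F y ^ u * ((mt ρ y).trace - (mt η y).trace) := by
  classical
  have hchar : CharZero F := charZero_of_injective_algebraMap (algebraMap ℚ_[ℓ] F).injective
  set T : GK K → F := fun g => (mt ρ g⁻¹).trace - (mt η g⁻¹).trace with hT
  have hTc : Continuous T := ((continuous_trace ρ hρ).comp continuous_inv).sub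
    ((continuous_trace η hη).comp continuous_inv)
  have hcyc : ∀ x y, T (x * y) = T (y * x) := by
    intro x y
    simp only [hT]
    rw [mul_inv_rev, mul_inv_rev, mt_mul, mt_mul, mt_mul, mt_mul, Matrix.trace_mul_comm,
      Matrix.trace_mul_comm (mt η y⁻¹)]
  have hT1 : T g₀⁻¹ ≠ 0 := by
    simp only [hT]
    rw [inv_inv]
    exact hg₀
  obtain ⟨k, h, hk, hsep⟩ := exists_sep (F := F)
    (M := Matrix (Fin n) (Fin n) F × Matrix (Fin m) (Fin m) F)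
    (fun x : GK K => (mt ρ x⁻¹, mt η x⁻¹))
    (fun g => ((Matrix.traceLinearMap (Fin n) F F).comp (LinearMap.mulRight F (mt ρ g⁻¹))).comp
        (LinearMap.fst F _ _) -
      ((Matrix.traceLinearMap (Fin m) F F).comp (LinearMap.mulRight F (mt η g⁻¹))).comp
        (LinearMap.snd F _ _)) T (by
      intro g x
      simp only [hT]
      rw [mul_inv_rev, mt_mul, mt_mul]
      rfl)
  have hm' : k ≤ n ^ 2 + m ^ 2 := by
    rw [Module.finrank_prod, Module.finrank_matrix, Module.finrank_matrix, Module.finrank_self,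
      mul_one, mul_one, Fintype.card_fin, Fintype.card_fin, ← pow_two, ← pow_two] at hk
    exact hk
  set P : Set (HeightOneSpectrum (𝓞 K)) :=
    {v | v ∉ B ∧ ∃ c : ℤ, (d : ℚ) * a v ^ 2 = (Ideal.absNorm v.asIdeal : ℚ) ^ w * c} with hPdef
  have hbe : ∀ v : HeightOneSpectrum (𝓞 K), ∃ c : ℤ, v ∈ P →
      (d : ℚ) * a v ^ 2 = (Ideal.absNorm v.asIdeal : ℚ) ^ w * c := by
    intro v
    by_cases hv : v ∈ P
    · obtain ⟨c, hc⟩ := hv.2
      exact ⟨c, fun _ => hc⟩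
    · exact ⟨0, fun h => absurd h hv⟩
  choose b hbv using hbe
  have hN0 : ∀ v : HeightOneSpectrum (𝓞 K), 0 < Ideal.absNorm v.asIdeal := fun v =>
    Nat.pos_of_ne_zero (fun h0 => v.ne_bot (Ideal.absNorm_eq_zero_iff.1 h0))
  have hbC : ∀ v ∈ P, |(b v : ℝ)| ≤ d * |C| := by
    intro v hv
    have h1 := hC v hv.1
    have h2 : (d : ℝ) * (a v : ℝ) ^ 2 = (Ideal.absNorm v.asIdeal : ℝ) ^ w * b v := by
      have := congrArg (Rat.cast : ℚ → ℝ) (hbv v hv)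
      push_cast at this
      exact this
    have h3 : (0 : ℝ) < (Ideal.absNorm v.asIdeal : ℝ) ^ w := by
      have : (0 : ℝ) < Ideal.absNorm v.asIdeal := by exact_mod_cast hN0 v
      positivity
    have hd' : (0 : ℝ) < d := by exact_mod_cast hd
    have h4 : 0 ≤ (b v : ℝ) := by
      by_contra hcon
      rw [not_le] at hcon
      have := mul_neg_of_pos_of_neg h3 hcon
      rw [← h2] at this
      have h5 : (0 : ℝ) ≤ d * (a v : ℝ) ^ 2 := by positivity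
      linarith
    rw [abs_of_nonneg h4]
    have h5 : (Ideal.absNorm v.asIdeal : ℝ) ^ w * b v ≤
        (Ideal.absNorm v.asIdeal : ℝ) ^ w * (d * |C|) := by
      rw [← h2]
      calc (d : ℝ) * (a v : ℝ) ^ 2 ≤ d * (C * (Ideal.absNorm v.asIdeal : ℝ) ^ w) :=
            mul_le_mul_of_nonneg_left h1 hd'.le
        _ ≤ d * (|C| * (Ideal.absNorm v.asIdeal : ℝ) ^ w) :=
            mul_le_mul_of_nonneg_left (mul_le_mul_of_nonneg_right (le_abs_self C) h3.le) hd'.le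
        _ = _ := by ring
    exact le_of_mul_le_mul_left h5 h3
  -- the parameter
  set M : ℕ := n ^ 2 + m ^ 2 with hM
  have hθ' : θ * M < 1 := by
    rw [hM]
    push_cast
    exact hθ
  set ε : ℝ := (1 - θ * M) / (2 * (M + 1)) with hε
  have hε0 : 0 < ε := div_pos (by linarith) (by positivity)
  have hθε : (θ + ε) * M < 1 := by
    have h1 : ε * (M + 1) = (1 - θ * M) / 2 := by
      rw [hε]
      field_simp
    have h2 : (θ + ε) * M = θ * M + ε * (M + 1) - ε := by ring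
    rw [h2, h1]
    linarith
  have hmain := Tr2.main (K := K) (E := ℚ) (p := ℓ) (F := F) T hTc hcyc hT1 hm' h hsep w P
    ψ a (fun v => (b v : 𝓞 ℚ)) (d := d) hd (by
      intro v hv
      have h2 : (((b v : 𝓞 ℚ) : 𝓞 ℚ) : ℚ) = (b v : ℚ) := by
        exact map_intCast (algebraMap (𝓞 ℚ) ℚ) (b v)
      rw [h2]
      exact hbv v hv)
    {v | (ℓ : 𝓞 K) ∈ v.asIdeal} (Pool.Agent.W352.ChAbs.over_le ℓ (Fact.out : ℓ.Prime)).1 (by
      intro v hv hvℓ g hg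
      exact htr v hv.1 hvℓ g hg)
    (θ + ε) ((d * |C|) * (Module.finrank ℚ K + 1)) hθε (by
      have hBd : ∀ᶠ N : ℕ in atTop, dens (fun v : HeightOneSpectrum (𝓞 K) => v ∈ B) N ≤ ε :=
        (dens_fin (fun v : HeightOneSpectrum (𝓞 K) => v ∈ B) hB).eventually (ge_mem_nhds hε0)
      refine (hP.and_eventually (hBd.and ((dens_le_const (K := K) (fun _ => True)).and
        (Nat.tendsto_primeCounting.eventually_gt_atTop 0)))).mono ?_
      rintro N ⟨h1, h2, h3, h4⟩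
      have h4' : (0 : ℝ) < Nat.primeCounting N := by exact_mod_cast h4
      constructor
      · have h5 : dens (fun v => v ∉ P) N ≤ dens (fun v : HeightOneSpectrum (𝓞 K) =>
            (¬ ∃ c : ℤ, (d : ℚ) * a v ^ 2 = (Ideal.absNorm v.asIdeal : ℚ) ^ w * c) ∨ v ∈ B) N := by
          refine dens_le ?_ N
          intro v hv
          by_cases hvB : v ∈ B
          · exact Or.inr hvB
          · left
            intro hd
            exact hv ⟨hvB, hd⟩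
        have h6 := h5.trans (card_or _ _ N)
        linarith
      · have hfinP : {v : HeightOneSpectrum (𝓞 K) | Ideal.absNorm v.asIdeal ≤ N ∧ v ∈ P}.Finite :=
          (Pool.Agent.W352.ChAbs.finite_le (K := K) N).subset fun v hv => hv.1
        rw [finsum_mem_eq_finite_toFinset_sum _ hfinP]
        have h5 : ∀ v ∈ hfinP.toFinset, ∑ σ : ℚ →+* ℂ, ‖σ ((b v : 𝓞 ℚ) : ℚ)‖ ≤ d * |C| := by
          intro v hv
          rw [hfinP.mem_toFinset] at hv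
          have h6 : ∀ σ : ℚ →+* ℂ, ‖σ ((b v : 𝓞 ℚ) : ℚ)‖ = |(b v : ℝ)| := by
            intro σ
            have h2 : (((b v : 𝓞 ℚ) : 𝓞 ℚ) : ℚ) = (b v : ℚ) := by
              exact map_intCast (algebraMap (𝓞 ℚ) ℚ) (b v)
            rw [h2, map_intCast, Complex.norm_intCast]
          rw [Finset.sum_congr rfl fun σ _ => h6 σ, Finset.sum_const]
          have h7 : (Finset.univ : Finset (ℚ →+* ℂ)).card = 1 := by
            rw [Finset.card_univ]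
            exact Fintype.card_eq_one_iff.2 ⟨algebraMap ℚ ℂ, fun σ => Subsingleton.elim _ _⟩
          rw [h7, one_smul]
          exact hbC v hv.2
        refine (Finset.sum_le_sum h5).trans ?_
        rw [Finset.sum_const, nsmul_eq_mul, mul_comm, mul_assoc ((d : ℝ) * |C|)]
        apply mul_le_mul_of_nonneg_left _ (by positivity)
        have h8 : (hfinP.toFinset.card : ℝ) ≤ Nat.card {v : HeightOneSpectrum (𝓞 K) //
            Ideal.absNorm v.asIdeal ≤ N ∧ True} := by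
          have h9 : hfinP.toFinset.card = {v : HeightOneSpectrum (𝓞 K) |
              Ideal.absNorm v.asIdeal ≤ N ∧ v ∈ P}.ncard :=
            (Set.ncard_eq_toFinset_card _ hfinP).symm
          rw [h9]
          have h10 : {v : HeightOneSpectrum (𝓞 K) | Ideal.absNorm v.asIdeal ≤ N ∧ v ∈ P}.ncard ≤
              {v : HeightOneSpectrum (𝓞 K) | Ideal.absNorm v.asIdeal ≤ N ∧ True}.ncard :=
            Set.ncard_le_ncard (fun v hv => ⟨hv.1, trivial⟩)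
              ((Pool.Agent.W352.ChAbs.finite_le (K := K) N).subset fun v hv => hv.1)
          exact_mod_cast h10
        refine h8.trans ?_
        unfold dens at h3
        rwa [div_le_iff₀ h4'] at h3)
  refine ⟨hmain.1, fun u hu => ?_⟩
  have hNN := hmain.2
  rw [hu] at hNN
  have hUo := isOpen_UU hTc hT1 (continuous_cyc K ℓ F) u hNN
  refine ⟨UU T (cyc K ℓ F) u, ⟨?_⟩, hUo, ?_⟩
  · intro x hx y g
    have h1 : g * (y * x * y⁻¹) = (g * y * x) * y⁻¹ := by group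
    rw [h1, hcyc, ← mul_assoc, hx, hcyc y⁻¹, mul_assoc g y y⁻¹, mul_inv_cancel, mul_one]
    congr 2
    rw [map_mul, map_mul, c_inv]
    field_simp [c_ne (cyc K ℓ F) y]
  · intro x hx y
    have hc0 : cyc K ℓ F x ^ u ≠ 0 := zpow_ne_zero _ (c_ne _ x)
    have h1 := (UU T (cyc K ℓ F) u).inv_mem hx (y⁻¹)
    simp only [hT] at h1
    rw [mul_inv_rev, inv_inv, inv_inv] at h1
    rw [h1, map_mul, mul_zpow, c_inv, inv_zpow]
    field_simp

end one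

section family

variable {n m : ℕ}

theorem family (V : ∀ (ℓ : ℕ) [Fact ℓ.Prime], GK K →* GL (Fin n) ℚ_[ℓ])
    (hV : ∀ (ℓ : ℕ) [Fact ℓ.Prime], Continuous (V ℓ))
    (W : ∀ (ℓ : ℕ) [Fact ℓ.Prime], GK K →* GL (Fin m) ℚ_[ℓ])
    (hW : ∀ (ℓ : ℕ) [Fact ℓ.Prime], Continuous (W ℓ))
    (B : Set (HeightOneSpectrum (𝓞 K))) (hB : B.Finite) (a : HeightOneSpectrum (𝓞 K) → ℚ) (w : ℤ)
    (htr : ∀ (ℓ : ℕ) [Fact ℓ.Prime], ∀ v, v ∉ B → (ℓ : 𝓞 K) ∉ v.asIdeal → ∀ g, IsFrob v g →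
      (mt (V ℓ) g⁻¹).trace - (mt (W ℓ) g⁻¹).trace = (a v : ℚ_[ℓ]))
    (C : ℝ) (hC : ∀ v, v ∉ B → (a v : ℝ) ^ 2 ≤ C * (Ideal.absNorm v.asIdeal : ℝ) ^ w) (θ : ℝ)
    (hθ : θ * (n ^ 2 + m ^ 2) < 1) {d : ℕ} (hd : 0 < d)
    (hP : ∃ᶠ N : ℕ in atTop, dens (fun v : HeightOneSpectrum (𝓞 K) =>
      ¬ ∃ c : ℤ, (d : ℚ) * a v ^ 2 = (Ideal.absNorm v.asIdeal : ℚ) ^ w * c) N ≤ θ) :
    ∃ (u : ℤ) (φ : GK K → ℚ) (U : Subgroup (GK K)), (w = 2 * u ∨ ∀ y, φ y = 0) ∧ U.Normal ∧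
      IsOpen (U : Set (GK K)) ∧ (∀ x ∈ U, ∀ y, φ (x * y) = φ y) ∧
      ∀ (ℓ : ℕ) [Fact ℓ.Prime] (y : GK K),
        cyc K ℓ ℚ_[ℓ] y ^ u * ((mt (V ℓ) y).trace - (mt (W ℓ) y).trace) = (φ y : ℚ_[ℓ]) := by
  classical
  by_cases hne : ∃ (ℓ : ℕ) (_ : Fact ℓ.Prime) (g : GK K),
      (mt (V ℓ) g).trace - (mt (W ℓ) g).trace ≠ 0
  swap
  · push Not at hne
    refine ⟨0, fun _ => 0, ⊤, Or.inr fun _ => rfl, inferInstance, isOpen_univ,
      fun _ _ _ => rfl, fun ℓ hℓ y => ?_⟩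
    rw [hne ℓ hℓ y, mul_zero, Rat.cast_zero]
  have h2p : Fact (Nat.Prime 2) := ⟨Nat.prime_two⟩
  obtain ⟨u, hu⟩ : ∃ u : ℤ, w = 2 * u := by
    obtain ⟨ℓ, hℓ, g, hg⟩ := hne
    obtain ⟨⟨u, hu⟩, -⟩ := one (V ℓ) (hV ℓ) (W ℓ) (hW ℓ) hg B hB a w (Rat.castHom ℚ_[ℓ])
      (fun v hv hℓv g hg => htr ℓ v hv hℓv g hg) C hC θ hθ hd hP
    exact ⟨u, hu⟩
  have hU : ∀ (ℓ : ℕ) [Fact ℓ.Prime], ∃ U : Subgroup (GK K), U.Normal ∧
      IsOpen (U : Set (GK K)) ∧ ∀ x ∈ U, ∀ y,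
        cyc K ℓ ℚ_[ℓ] (x * y) ^ u * ((mt (V ℓ) (x * y)).trace - (mt (W ℓ) (x * y)).trace) =
        cyc K ℓ ℚ_[ℓ] y ^ u * ((mt (V ℓ) y).trace - (mt (W ℓ) y).trace) := by
    intro ℓ _
    by_cases h0 : ∃ g, (mt (V ℓ) g).trace - (mt (W ℓ) g).trace ≠ 0
    · obtain ⟨g, hg⟩ := h0
      exact (one (V ℓ) (hV ℓ) (W ℓ) (hW ℓ) hg B hB a w (Rat.castHom ℚ_[ℓ])
        (fun v hv hℓv g hg => htr ℓ v hv hℓv g hg) C hC θ hθ hd hP).2 u hu
    · push Not at h0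
      refine ⟨⊤, inferInstance, isOpen_univ, fun x _ y => ?_⟩
      rw [h0, h0, mul_zero, mul_zero]
  -- a common Frobenius element
  have hcommon : ∀ (ℓ : ℕ) [Fact ℓ.Prime] (y : GK K), ∃ r : ℚ,
      cyc K 2 ℚ_[2] y ^ u * ((mt (V 2) y).trace - (mt (W 2) y).trace) = (r : ℚ_[2]) ∧
      cyc K ℓ ℚ_[ℓ] y ^ u * ((mt (V ℓ) y).trace - (mt (W ℓ) y).trace) = (r : ℚ_[ℓ]) := by
    intro ℓ hℓ y
    obtain ⟨U₁, hU₁n, hU₁o, hU₁⟩ := hU 2
    obtain ⟨U₂, hU₂n, hU₂o, hU₂⟩ := hU ℓ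
    have hn' : (U₁ ⊓ U₂).Normal := inferInstance
    have ho' : IsOpen ((U₁ ⊓ U₂ : Subgroup (GK K)) : Set (GK K)) := by
      rw [Subgroup.coe_inf]
      exact hU₁o.inter hU₂o
    obtain ⟨v, hv, γ, hγ, hyγ⟩ := Tr2.exists_frob (U₁ ⊓ U₂) ho' y⁻¹
      (S := B ∪ ({v | ((2 : ℕ) : 𝓞 K) ∈ v.asIdeal} ∪ {v | ((ℓ : ℕ) : 𝓞 K) ∈ v.asIdeal}))
      (hB.union ((Pool.Agent.W352.ChAbs.over_le 2 Nat.prime_two).1.union
        (Pool.Agent.W352.ChAbs.over_le ℓ (Fact.out : ℓ.Prime)).1))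
    rw [Set.mem_union, Set.mem_union, not_or, not_or] at hv
    rw [inv_inv] at hyγ
    have hy : y = (y * γ) * γ⁻¹ := by rw [mul_inv_cancel_right]
    have key : ∀ (ℓ' : ℕ) [Fact ℓ'.Prime], ((ℓ' : ℕ) : 𝓞 K) ∉ v.asIdeal →
        (∀ y', cyc K ℓ' ℚ_[ℓ'] ((y * γ) * y') ^ u *
          ((mt (V ℓ') ((y * γ) * y')).trace - (mt (W ℓ') ((y * γ) * y')).trace) =
          cyc K ℓ' ℚ_[ℓ'] y' ^ u * ((mt (V ℓ') y').trace - (mt (W ℓ') y').trace)) →
        cyc K ℓ' ℚ_[ℓ'] y ^ u * ((mt (V ℓ') y).trace - (mt (W ℓ') y).trace) =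
          (((Ideal.absNorm v.asIdeal : ℚ) ^ u)⁻¹ * a v : ℚ) := by
      intro ℓ' _ hℓ' h
      rw [hy, h, htr ℓ' v hv.1 hℓ' γ hγ, c_inv, cyc_frob ℓ' ℚ_[ℓ'] hℓ' hγ, inv_zpow]
      push_cast
      rfl
    refine ⟨((Ideal.absNorm v.asIdeal : ℚ) ^ u)⁻¹ * a v, ?_, ?_⟩
    · exact key 2 hv.2.1 fun y' => hU₁ _ hyγ.1 y'
    · exact key ℓ hv.2.2 fun y' => hU₂ _ hyγ.2 y'
  have hφ : ∀ y : GK K, ∃ r : ℚ,
      cyc K 2 ℚ_[2] y ^ u * ((mt (V 2) y).trace - (mt (W 2) y).trace) = (r : ℚ_[2]) :=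
    fun y => by
      obtain ⟨r, hr, -⟩ := hcommon 2 y
      exact ⟨r, hr⟩
  choose φ hφ using hφ
  obtain ⟨U, hUn, hUo, hU2⟩ := hU 2
  refine ⟨u, φ, U, Or.inl hu, hUn, hUo, ?_, ?_⟩
  · intro x hx y
    have h1 := hU2 x hx y
    rw [hφ, hφ] at h1
    exact_mod_cast h1
  · intro ℓ hℓ y
    obtain ⟨r, hr1, hr2⟩ := hcommon ℓ y
    have h1 : φ y = r := by
      rw [hφ] at hr1
      exact_mod_cast hr1
    rw [hr2, h1]

end family

end Pool.Agent.R401.Tr7
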