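import Pool.Agent.R401.Tr7
import Pool.Agent.R401.Iso

/-!
# Comparison of two compatible families: linear algebra
-/

set_option autoImplicit false
set_option maxHeartbeats 400000

namespace Pool.Agent.R401.Tr8

open NumberField Filter Topology IsDedekindDomain Pool.Agent.W401.Cheb Pool.Agent.R401.Sup
open Pool.Agent.W569.FM Pool.Agent.R401.Img Pool.Agent.R401.Sup3 Pool.Agent.R401.Sup4
open Pool.Agent.R401.Tr3 Pool.Agent.R401.Tr4 Pool.Agent.R401.Tr5 Module Polynomial Matrix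

section complex

open scoped Pointwise in
/-- commutation up to a scalar -/
theorem eq_zero_of_scale {n : ℕ} {S A : Matrix (Fin n) (Fin n) ℂ} {Q : ℂ}
    (h : S * A = Q • (A * S)) {r : ℝ} (hr : 0 < r) (hS : ∀ z ∈ spectrum ℂ S, ‖z‖ ^ 2 = r)
    (hQ0 : Q ≠ 0) (hQ : ‖Q‖ ≠ 1) : A = 0 := by
  have h1 : ∀ p : ℂ[X], aeval S p * A = A * aeval (Q • S) p := by
    intro p
    induction p using Polynomial.induction_on' with
    | add p q hp hq => rw [map_add, add_mul, hp, hq, map_add, mul_add]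
    | monomial k c =>
      have h2 : ∀ j : ℕ, S ^ j * A = A * (Q • S) ^ j := by
        intro j
        induction j with
        | zero => rw [pow_zero, pow_zero, one_mul, mul_one]
        | succ j ih =>
          rw [pow_succ, pow_succ, mul_assoc, h, mul_smul_comm, ← mul_assoc, ih, mul_smul_comm,
            mul_smul_comm, mul_assoc]
      rw [aeval_monomial, aeval_monomial, Algebra.algebraMap_eq_smul_one, smul_mul_assoc, one_mul,
        smul_mul_assoc, smul_mul_assoc, one_mul, mul_smul_comm, h2]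
  have h2 : aeval S S.charpoly = 0 := Matrix.aeval_self_charpoly S
  have h3 : IsUnit (aeval (Q • S) S.charpoly) := by
    by_contra hnot
    have hsplit : S.charpoly = (S.charpoly.roots.map fun z => X - C z).prod :=
      (IsAlgClosed.splits S.charpoly).eq_prod_roots_of_monic S.charpoly_monic
    rw [hsplit] at hnot
    obtain ⟨k, hk1, hk2⟩ := spectrum.exists_mem_of_not_isUnit_aeval_prod hnot
    have hk3 : k ∈ spectrum ℂ S := Matrix.mem_spectrum_iff_isRoot_charpoly.2 hk2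
    have hk4 : k ∈ (Units.mk0 Q hQ0) • spectrum ℂ S := by
      rw [← spectrum.unit_smul_eq_smul]
      exact hk1
    obtain ⟨y, hy, hyk⟩ := Set.mem_smul_set.1 hk4
    have h4 := hS k hk3
    have h5 := hS y hy
    have h6 : k = Q * y := by
      rw [← hyk]
      rfl
    rw [h6, norm_mul, mul_pow, h5] at h4
    have h7 : ‖Q‖ ^ 2 = 1 := by
      have : ‖Q‖ ^ 2 * r = 1 * r := by rw [h4, one_mul]
      exact mul_right_cancel₀ hr.ne' this
    apply hQ
    have h8 : (‖Q‖ - 1) * (‖Q‖ + 1) = 0 := by linear_combination h7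
    rcases mul_eq_zero.1 h8 with h9 | h9
    · linarith
    · have := norm_nonneg Q
      linarith
  have h4 := h1 S.charpoly
  rw [h2, zero_mul] at h4
  exact (h3.mul_left_eq_zero).1 h4.symm

/-- the eigenvalues -/
theorem eig {n m : ℕ} {S : Matrix (Fin n) (Fin n) ℂ} {R : Matrix (Fin m) (Fin m) ℂ} {M : ℕ}
    (hM : 0 < M) {D : ℂ} {r : ℝ} (hr : 0 < r)
    (htr : ∀ k, (S ^ (M * k)).trace - (R ^ (M * k)).trace = D ^ k * (n - m))
    (hR : ∀ z ∈ spectrum ℂ R, ‖z‖ ^ 2 = r) (hD : ‖D‖ ^ 2 = r ^ M) :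
    ∀ z ∈ spectrum ℂ S, ‖z‖ ^ 2 = r := by
  intro z hz
  have hpow : ∀ {x : ℂ}, (‖x‖ ^ 2) ^ M = r ^ M → ‖x‖ ^ 2 = r := fun {x} h =>
    (pow_left_inj₀ (by positivity) hr.le hM.ne').1 h
  have hblock : ∀ (A : Matrix (Fin n) (Fin n) ℂ) (B : Matrix (Fin m) (Fin m) ℂ) (k : ℕ),
      ((fromBlocks A 0 0 B) ^ k).trace = (A ^ k).trace + (B ^ k).trace := by
    intro A B k
    rw [fromBlocks_diagonal_pow]
    simp [Matrix.trace, Fintype.sum_sum_type]
  have h1 : (fromBlocks (S ^ M) 0 0 (D • (1 : Matrix (Fin m) (Fin m) ℂ))).charpoly =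
      (fromBlocks (D • (1 : Matrix (Fin n) (Fin n) ℂ)) 0 0 (R ^ M)).charpoly := by
    apply Pool.Agent.TH658.Eq.charpoly_eq_of_traces
    intro k
    rw [hblock, hblock, ← pow_mul, ← pow_mul, _root_.smul_pow, _root_.smul_pow, one_pow, one_pow,
      Matrix.trace_smul, Matrix.trace_smul, Matrix.trace_one, Matrix.trace_one, Fintype.card_fin,
      Fintype.card_fin, smul_eq_mul, smul_eq_mul]
    linear_combination htr k
  rw [charpoly_fromBlocks_zero₁₂, charpoly_fromBlocks_zero₁₂] at h1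
  have h2 : z ^ M ∈ spectrum ℂ (S ^ M) := by
    rw [spectrum.map_pow_of_pos _ hM]
    exact ⟨z, hz, rfl⟩
  have h3 : (S ^ M).charpoly.IsRoot (z ^ M) := Matrix.mem_spectrum_iff_isRoot_charpoly.1 h2
  have h4 : ((D • (1 : Matrix (Fin n) (Fin n) ℂ)).charpoly * (R ^ M).charpoly).IsRoot (z ^ M) := by
    rw [← h1]
    exact root_mul_right_of_isRoot _ h3
  rcases root_mul.1 h4 with h5 | h5
  · have h6 : z ^ M = D := by
      have h7 := Matrix.mem_spectrum_iff_isRoot_charpoly.2 h5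
      by_contra hne
      apply h7
      change IsUnit (algebraMap ℂ (Matrix (Fin n) (Fin n) ℂ) (z ^ M) - D • 1)
      rw [show algebraMap ℂ (Matrix (Fin n) (Fin n) ℂ) (z ^ M) - D • 1 = (z ^ M - D) • 1 by
        rw [Algebra.algebraMap_eq_smul_one, sub_smul]]
      exact ((Units.mk0 (z ^ M - D) (sub_ne_zero.2 hne)) • (1 : (Matrix (Fin n) (Fin n) ℂ)ˣ)).isUnit
    apply hpow
    rw [← hD, ← h6, norm_pow, ← pow_mul, ← pow_mul, mul_comm]
  · have h7 := Matrix.mem_spectrum_iff_isRoot_charpoly.2 h5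
    rw [spectrum.map_pow_of_pos _ hM] at h7
    obtain ⟨y, hy, hyz⟩ := h7
    have hyz' : y ^ M = z ^ M := hyz
    apply hpow
    rw [← hR y hy, ← pow_mul, ← pow_mul, mul_comm 2 M, pow_mul, pow_mul, ← norm_pow _ M,
      ← norm_pow _ M, hyz']

end complex

section nil

variable {R : Type*} [Ring R] {k : Type*} [Field k] [CharZero k] [Algebra k R]

theorem exists_top {t : R} (ht : IsNilpotent (t - 1)) (ht1 : t ≠ 1) :
    ∃ d : ℕ, 0 < d ∧ (t - 1) ^ d ≠ 0 ∧ (t - 1) ^ (d + 1) = 0 := by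
  classical
  have hY : t - 1 ≠ 0 := sub_ne_zero.2 ht1
  obtain ⟨d, hd1, hd2⟩ : ∃ d : ℕ, (t - 1) ^ d ≠ 0 ∧ (t - 1) ^ (d + 1) = 0 := by
    have h1 : ∃ e : ℕ, (t - 1) ^ e = 0 := ht
    have h2 := Nat.find_spec h1
    have h3 : Nat.find h1 ≠ 0 := by
      intro h0
      rw [h0, pow_zero] at h2
      apply hY
      rw [← mul_one (t - 1), h2, mul_zero]
    obtain ⟨d, hd⟩ := Nat.exists_eq_succ_of_ne_zero h3
    refine ⟨d, Nat.find_min h1 (by omega), ?_⟩
    rw [hd] at h2
    exact h2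
  refine ⟨d, ?_, hd1, hd2⟩
  rcases Nat.eq_zero_or_pos d with h0 | h0
  · subst h0
    rw [zero_add, pow_one] at hd2
    exact absurd hd2 hY
  · exact h0

/-- unipotent elements of finite order -/
theorem eq_one_of_pow (k : Type*) [Field k] [CharZero k] [Algebra k R] {t : R}
    (ht : IsNilpotent (t - 1)) {m : ℕ} (hm : 0 < m) (h : t ^ m = 1) : t = 1 := by
  by_contra ht1
  obtain ⟨d, hd0, hd1, hd2⟩ := exists_top ht ht1
  have h1 := pow_mul_geom (k := k) hd2 m
  rw [h, sub_self, zero_pow hd0.ne'] at h1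
  rcases smul_eq_zero.1 h1.symm with h2 | h2
  · exact pow_ne_zero d (Nat.cast_ne_zero.2 hm.ne') h2
  · exact hd1 h2

/-- a unipotent element which is conjugate to its `q`-th power -/
theorem exists_scaled (k : Type*) [Field k] [CharZero k] [Algebra k R] {s s' t : R}
    (hs : s * s' = 1) (hs' : s' * s = 1) (ht : IsNilpotent (t - 1)) {q : ℕ} (hq : 2 ≤ q)
    (hrel : s * t * s' = t ^ q) (ht1 : t ≠ 1) :
    ∃ (d : ℕ) (A : R), 0 < d ∧ A ≠ 0 ∧ s' * A = (((q : k) ^ d)⁻¹) • (A * s') := by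
  obtain ⟨d, hd0, hd1, hd2⟩ := exists_top ht ht1
  refine ⟨d, (t - 1) ^ d, hd0, hd1, ?_⟩
  set A : R := (t - 1) ^ d with hA
  have hQ : ((q : k) ^ d) ≠ 0 := pow_ne_zero d (Nat.cast_ne_zero.2 (by omega))
  have h1 : s * A * s' = ((q : k) ^ d) • A := by
    have h2 : ∀ j : ℕ, s * (t - 1) ^ j * s' = (t ^ q - 1) ^ j := by
      intro j
      induction j with
      | zero => rw [pow_zero, pow_zero, mul_one, hs]
      | succ j ih =>
        rw [pow_succ, pow_succ, ← ih]
        have h3 : t ^ q - 1 = s * (t - 1) * s' := by rw [mul_sub, sub_mul, hrel, mul_one, hs]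
        rw [h3]
        calc s * ((t - 1) ^ j * (t - 1)) * s' = s * (t - 1) ^ j * 1 * (t - 1) * s' := by
              simp only [mul_one, mul_assoc]
          _ = s * (t - 1) ^ j * (s' * s) * (t - 1) * s' := by rw [hs']
          _ = _ := by simp only [mul_assoc]
    rw [hA, h2, pow_mul_geom (k := k) hd2]
  have h2 : A * s' = ((q : k) ^ d) • (s' * A) := by
    rw [← mul_smul_comm, ← h1, ← mul_assoc, ← mul_assoc, hs', one_mul]
  rw [h2, smul_smul, inv_mul_cancel₀ hQ, one_smul]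

end nil

end Pool.Agent.R401.Tr8
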