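import Pool.Agent.R401.Tr8

/-!
# Comparison of two compatible families: local part
-/

set_option autoImplicit false
set_option maxHeartbeats 400000

namespace Pool.Agent.R401.Tr9

open NumberField Filter Topology IsDedekindDomain Pool.Agent.W401.Cheb Pool.Agent.R401.Sup
open Pool.Agent.W569.FM Pool.Agent.R401.Img Pool.Agent.R401.Sup3 Pool.Agent.R401.Sup4
open Pool.Agent.R401.Tr3 Pool.Agent.R401.Tr4 Pool.Agent.R401.Tr5 Module Polynomial Matrix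
open Pool.Agent.R401.Tr8

variable {K : Type} [Field K] [NumberField K]

section small

variable {ℓ : ℕ} [Fact ℓ.Prime] {n : ℕ}

/-- bounded entries -/
def Sm (r : ℝ) (M : Matrix (Fin n) (Fin n) ℚ_[ℓ]) : Prop := ∀ i j, ‖M i j‖ ≤ r

theorem Sm.mul {r s : ℝ} (hr : 0 ≤ r) (hs : 0 ≤ s) {A B : Matrix (Fin n) (Fin n) ℚ_[ℓ]}
    (hA : Sm r A) (hB : Sm s B) : Sm (r * s) (A * B) := by
  intro i j
  rw [Matrix.mul_apply]
  refine IsUltrametricDist.norm_sum_le_of_forall_le_of_nonneg (by positivity) fun k _ => ?_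
  rw [norm_mul]
  exact mul_le_mul (hA i k) (hB k j) (norm_nonneg _) hr

theorem Sm.add {r : ℝ} {A B : Matrix (Fin n) (Fin n) ℚ_[ℓ]} (hA : Sm r A) (hB : Sm r B) :
    Sm r (A + B) := by
  intro i j
  rw [Matrix.add_apply]
  exact (IsUltrametricDist.norm_add_le_max _ _).trans (max_le (hA i j) (hB i j))

theorem Sm.mono {r s : ℝ} (h : r ≤ s) {A : Matrix (Fin n) (Fin n) ℚ_[ℓ]} (hA : Sm r A) :
    Sm s A := fun i j => (hA i j).trans h

theorem Sm.zero {r : ℝ} (hr : 0 ≤ r) : Sm r (0 : Matrix (Fin n) (Fin n) ℚ_[ℓ]) := by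
  intro i j
  rw [Matrix.zero_apply, norm_zero]
  exact hr

theorem Sm.sum {r : ℝ} (hr : 0 ≤ r) {s : Finset ℕ} {A : ℕ → Matrix (Fin n) (Fin n) ℚ_[ℓ]}
    (h : ∀ i ∈ s, Sm r (A i)) : Sm r (∑ i ∈ s, A i) := by
  intro i j
  rw [Matrix.sum_apply]
  exact IsUltrametricDist.norm_sum_le_of_forall_le_of_nonneg hr fun k hk => h k hk i j

theorem norm_l_le : ‖(ℓ : ℚ_[ℓ])‖ ≤ 1 := Padic.norm_int_le_one ℓ

theorem Sm.pow {r : ℝ} (hr : 0 ≤ r) (hr1 : r ≤ 1) {M : Matrix (Fin n) (Fin n) ℚ_[ℓ]}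
    (h : Sm r (M - 1)) (i : ℕ) : Sm r (M ^ i - 1) := by
  induction i with
  | zero =>
    rw [pow_zero, sub_self]
    exact Sm.zero hr
  | succ i ih =>
    have h1 : M ^ (i + 1) - 1 = ((M ^ i - 1) * (M - 1) + (M ^ i - 1)) + (M - 1) := by
      rw [pow_succ]
      noncomm_ring
    rw [h1]
    refine Sm.add (Sm.add ((ih.mul hr hr h).mono ?_) ih) h
    nlinarith

theorem Sm.powl {r : ℝ} (hr : 0 ≤ r) (hr1 : r ≤ ‖(ℓ : ℚ_[ℓ])‖)
    {M : Matrix (Fin n) (Fin n) ℚ_[ℓ]} (h : Sm r (M - 1)) :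
    Sm (r * ‖(ℓ : ℚ_[ℓ])‖) (M ^ ℓ - 1) := by
  have h1 : M ^ ℓ - 1 = (M - 1) * ∑ i ∈ Finset.range ℓ, M ^ i := (mul_geom_sum M ℓ).symm
  have h2 : ∑ i ∈ Finset.range ℓ, M ^ i = (∑ i ∈ Finset.range ℓ, (M ^ i - 1)) +
      (ℓ : ℚ_[ℓ]) • (1 : Matrix (Fin n) (Fin n) ℚ_[ℓ]) := by
    rw [Finset.sum_sub_distrib, Finset.sum_const, Finset.card_range, Nat.cast_smul_eq_nsmul]
    abel
  rw [h1, h2]
  refine h.mul hr (norm_nonneg _) (Sm.add (Sm.sum (norm_nonneg _) fun i _ =>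
    (h.pow hr (hr1.trans norm_l_le) i).mono hr1) ?_)
  intro i j
  rw [Matrix.smul_apply, smul_eq_mul, norm_mul]
  have h3 : ‖(1 : Matrix (Fin n) (Fin n) ℚ_[ℓ]) i j‖ ≤ 1 := by
    rw [Matrix.one_apply]
    split_ifs
    · rw [norm_one]
    · rw [norm_zero]
      exact zero_le_one
  calc ‖(ℓ : ℚ_[ℓ])‖ * ‖(1 : Matrix (Fin n) (Fin n) ℚ_[ℓ]) i j‖ ≤ ‖(ℓ : ℚ_[ℓ])‖ * 1 :=
        mul_le_mul_of_nonneg_left h3 (norm_nonneg _)
    _ = _ := mul_one _

theorem tendsto_small {M : Matrix (Fin n) (Fin n) ℚ_[ℓ]} (h : Sm ‖(ℓ : ℚ_[ℓ])‖ (M - 1)) :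
    Tendsto (fun k : ℕ => M ^ (ℓ ^ k)) atTop (𝓝 1) := by
  have h1 : ∀ k : ℕ, Sm (‖(ℓ : ℚ_[ℓ])‖ * ‖(ℓ : ℚ_[ℓ])‖ ^ k) (M ^ (ℓ ^ k) - 1) := by
    intro k
    induction k with
    | zero =>
      rw [pow_zero, pow_zero, mul_one, pow_one]
      exact h
    | succ k ih =>
      have h2 := ih.powl (by positivity) (by
        have : ‖(ℓ : ℚ_[ℓ])‖ ^ k ≤ 1 := pow_le_one₀ (norm_nonneg _) norm_l_le
        nlinarith [norm_nonneg (ℓ : ℚ_[ℓ])])
      rw [← pow_mul, ← pow_succ] at h2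
      rw [pow_succ, ← mul_assoc]
      exact h2
  have h2 : Tendsto (fun k : ℕ => ‖(ℓ : ℚ_[ℓ])‖ * ‖(ℓ : ℚ_[ℓ])‖ ^ k) atTop (𝓝 0) := by
    have := (tendsto_pow_atTop_nhds_zero_of_lt_one (norm_nonneg (ℓ : ℚ_[ℓ]))
      Padic.norm_p_lt_one).const_mul ‖(ℓ : ℚ_[ℓ])‖
    rwa [mul_zero] at this
  refine tendsto_pi_nhds.2 fun i => tendsto_pi_nhds.2 fun j => ?_
  rw [tendsto_iff_norm_sub_tendsto_zero]
  refine squeeze_zero (fun _ => norm_nonneg _) (fun k => ?_) h2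
  exact h1 k i j

theorem exists_small (ρ : GK K →* Matrix (Fin n) (Fin n) ℚ_[ℓ]) (hρ : Continuous ρ) :
    ∃ H : Subgroup (GK K), H.Normal ∧ IsOpen (H : Set (GK K)) ∧
      ∀ x ∈ H, Tendsto (fun k : ℕ => ρ x ^ (ℓ ^ k)) atTop (𝓝 1) := by
  have hl0 : 0 < ‖(ℓ : ℚ_[ℓ])‖ := norm_pos_iff.2 (Nat.cast_ne_zero.2 (Fact.out : ℓ.Prime).ne_zero)
  have h1 : ∀ᶠ x : GK K in 𝓝 1, ∀ i j, ‖(ρ x - 1) i j‖ < ‖(ℓ : ℚ_[ℓ])‖ := by
    rw [eventually_all]
    intro i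
    rw [eventually_all]
    intro j
    have h2 : Continuous fun x : GK K => ‖(ρ x - 1) i j‖ := by
      have h3 : Continuous fun x : GK K => ρ x i j := (hρ.matrix_elem i j)
      exact (h3.sub continuous_const).norm
    apply h2.continuousAt.eventually_lt_const
    have h0 : ρ 1 - 1 = 0 := by rw [map_one, sub_self]
    change ‖(ρ 1 - 1 : Matrix (Fin n) (Fin n) ℚ_[ℓ]) i j‖ < ‖(ℓ : ℚ_[ℓ])‖
    rw [h0, Matrix.zero_apply, norm_zero]
    exact hl0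
  obtain ⟨s, hs1, hs2, hs3⟩ := mem_nhds_iff.1 h1
  obtain ⟨U, hUs⟩ := ProfiniteGrp.exist_openNormalSubgroup_sub_open_nhds_of_one hs2 hs3
  refine ⟨U, U.isNormal', U.isOpen', fun x hx => tendsto_small fun i j => ?_⟩
  exact (hs1 (hUs hx) i j).le

end small

section tame

variable {ℓ : ℕ} [Fact ℓ.Prime] {F : Type} [NormedField F] [NormedAlgebra ℚ_[ℓ] F] {n : ℕ}

/-- the tame relation -/
theorem tame_rel' (ρ : GK K →* Matrix (Fin n) (Fin n) F) (hρ : Continuous ρ)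
    (H : Subgroup (GK K)) [hHn : H.Normal] (hH : IsOpen (H : Set (GK K)))
    (hU : ∀ x ∈ H, Tendsto (fun k : ℕ => ρ x ^ (ℓ ^ k)) atTop (𝓝 1)) {l q : ℕ} (hl : l.Prime)
    (hlℓ : ℓ ≠ l) (hq : 1 ≤ q)
    {P : Ideal (OO K)} (hP : P.IsMaximal) (hlP : (l : OO K) ∈ P) {τ σ : GK K} (hτH : τ ∈ H)
    (hτ : InInertia P τ) (hσ : FrobAt q P σ) : ρ (σ * τ * σ⁻¹) = ρ τ ^ q := by
  classical
  set z : GK K := σ * τ * σ⁻¹ * (τ ^ q)⁻¹ with hz
  suffices h : ρ z = 1 by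
    have h1 : σ * τ * σ⁻¹ = z * τ ^ q := by rw [hz, inv_mul_cancel_right]
    rw [h1, map_mul, h, one_mul, map_pow]
  by_contra hz1
  have hzN : z ∉ ρ.ker := fun h => hz1 h
  have hNc : IsClosed (ρ.ker : Set (GK K)) := by
    have h1 : (ρ.ker : Set (GK K)) = ρ ⁻¹' {1} := by
      ext x
      exact MonoidHom.mem_ker
    rw [h1]
    exact isClosed_singleton.preimage hρ
  have h1 : (fun u => z * u) ⁻¹' (ρ.ker : Set (GK K))ᶜ ∈ 𝓝 (1 : GK K) := by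
    apply (hNc.isOpen_compl.preimage (continuous_const.mul continuous_id)).mem_nhds
    change z * 1 ∉ ρ.ker
    rwa [mul_one]
  obtain ⟨s, hs1, hs2, hs3⟩ := mem_nhds_iff.1 h1
  obtain ⟨U, hUs⟩ := ProfiniteGrp.exist_openNormalSubgroup_sub_open_nhds_of_one hs2 hs3
  have hUn : (U : Subgroup (GK K)).Normal := U.isNormal'
  have hUo : IsOpen (((U : Subgroup (GK K)) : Subgroup (GK K)) : Set (GK K)) := U.isOpen'
  set W : Subgroup (GK K) := ρ.ker ⊔ (U : Subgroup (GK K)) with hW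
  have hWo : IsOpen (W : Set (GK K)) := Subgroup.isOpen_mono le_sup_right hUo
  have hWn : W.Normal := Subgroup.sup_normal _ _
  have hzW : z ∉ W := by
    intro h2
    obtain ⟨a, ha, u, hu, hau⟩ := Subgroup.mem_sup_of_normal_right.1 h2
    have h3 : z * u⁻¹ ∈ ρ.ker := by
      rw [← hau, mul_inv_cancel_right]
      exact ha
    exact hs1 (hUs ((U : Subgroup (GK K)).inv_mem hu)) h3
  have hpow : ∀ x ∈ H, ∃ k : ℕ, x ^ (ℓ ^ k) ∈ W := by
    intro x hx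
    have hcomp : IsClosed (ρ '' (W : Set (GK K))ᶜ) :=
      (hWo.isClosed_compl.isCompact.image hρ).isClosed
    have h2 : (1 : Matrix (Fin n) (Fin n) F) ∉ ρ '' (W : Set (GK K))ᶜ := by
      rintro ⟨y, hy, hy1⟩
      exact hy ((le_sup_left : ρ.ker ≤ W) hy1)
    have h3 := (hU x hx).eventually (hcomp.isOpen_compl.mem_nhds h2)
    obtain ⟨k, hk⟩ := h3.exists
    refine ⟨k, ?_⟩
    by_contra hcon
    exact hk ⟨x ^ (ℓ ^ k), hcon, map_pow ρ x _⟩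
  set f : H →* (GK K ⧸ W) := (QuotientGroup.mk' W).comp H.subtype with hf
  -- the image
  have hE : IsPGroup ℓ f.range := by
    rintro ⟨_, x, rfl⟩
    obtain ⟨k, hk⟩ := hpow x x.2
    refine ⟨k, Subtype.ext ?_⟩
    change f x ^ (ℓ ^ k) = 1
    rw [← map_pow]
    exact (QuotientGroup.eq_one_iff _).2 hk
  have hopen : IsOpen (f.rangeRestrict.ker : Set H) := by
    have h2 : (f.rangeRestrict.ker : Set H) = H.subtype ⁻¹' (W : Set (GK K)) := by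
      ext x
      rw [SetLike.mem_coe, MonoidHom.ker_rangeRestrict, MonoidHom.mem_ker]
      exact QuotientGroup.eq_one_iff _
    rw [h2]
    exact hWo.preimage continuous_subtype_val
  have h2 := Pool.Agent.R703.FM.tame K (Fact.out : ℓ.Prime) hl hlℓ hq H hH f.range hE
    f.rangeRestrict hopen P hP hlP ⟨τ, hτH⟩ σ hτ hσ
  have h3 := congrArg Subtype.val h2
  have h4 : ((σ * τ * σ⁻¹ : GK K) : GK K ⧸ W) = ((τ ^ q : GK K) : GK K ⧸ W) := h3
  apply hzW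
  have h5 := QuotientGroup.eq.1 h4.symm
  have h6 := hWn.conj_mem _ h5 (τ ^ q)
  have h7 : τ ^ q * ((τ ^ q)⁻¹ * (σ * τ * σ⁻¹)) * (τ ^ q)⁻¹ = z := by
    rw [hz]
    group
  rwa [h7] at h6

end tame

section one

/-- the homomorphism to matrices -/
noncomputable def mh {k : Type*} [Field k] {n : ℕ} {G : Type*} [Group G] (ρ : G →* GL (Fin n) k) :
    G →* Matrix (Fin n) (Fin n) k := (Units.coeHom _).comp ρ

theorem mh_apply {k : Type*} [Field k] {n : ℕ} {G : Type*} [Group G] (ρ : G →* GL (Fin n) k)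
    (g : G) : mh ρ g = mt ρ g := rfl

variable {ℓ : ℕ} [Fact ℓ.Prime] {n m : ℕ} (V : GK K →* GL (Fin n) ℚ_[ℓ]) (hV : Continuous V)
  (W : GK K →* GL (Fin m) ℚ_[ℓ]) (u : ℤ)
  (φ : GK K → ℚ) (U : Subgroup (GK K)) (hUn : U.Normal) (hUo : IsOpen (U : Set (GK K)))
  (hU : ∀ x ∈ U, ∀ y, φ (x * y) = φ y)
  (hφ : ∀ y : GK K, cyc K ℓ ℚ_[ℓ] y ^ u * ((mt V y).trace - (mt W y).trace) = (φ y : ℚ_[ℓ]))
  {P : Ideal (OO K)} (hP : P.IsMaximal) {q : ℕ} (hq : 2 ≤ q) {σ : GK K} (hσ : FrobAt q P σ)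
  (hℓP : (ℓ : OO K) ∉ P) (hW : ∀ τ, InInertia P τ → mt W τ = 1)
  {w : ℤ} (hw : w = 2 * u ∨ ∀ y, φ y = 0) (e : ℚ_[ℓ] →+* ℂ)
  (hpur : ∀ z ∈ spectrum ℂ ((mt W σ⁻¹).map e), ‖z‖ ^ 2 = (q : ℝ) ^ w)

theorem mt_one (ρ : GK K →* GL (Fin n) ℚ_[ℓ]) : mt ρ 1 = 1 := by
  rw [← mh_apply, map_one]

theorem mt_pow (ρ : GK K →* GL (Fin n) ℚ_[ℓ]) (x : GK K) (k : ℕ) : mt ρ (x ^ k) = mt ρ x ^ k := by
  rw [← mh_apply, ← mh_apply, map_pow]

include hφ in
theorem phi_one : (φ 1 : ℚ_[ℓ]) = n - m := by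
  rw [← hφ 1, map_one, _root_.one_zpow, one_mul, mt_one, mt_one, Matrix.trace_one,
    Matrix.trace_one, Fintype.card_fin, Fintype.card_fin]

include hU hφ hP hσ hℓP hW in
theorem unip {τ : GK K} (hτU : τ ∈ U) (hτ : InInertia P τ) : IsNilpotent (mt V τ - 1) := by
  apply nilp_of_trace
  intro j
  have h1 : InInertia P (τ ^ j) := (IG P).pow_mem (show τ ∈ IG P from hτ) j
  have h2 := hφ (τ ^ j)
  rw [cyc_inertia hP hℓP hσ h1, _root_.one_zpow, one_mul, hW _ h1, ← mul_one (τ ^ j),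
    hU _ (U.pow_mem hτU j), phi_one V W u φ hφ, mul_one, Matrix.trace_one, Fintype.card_fin,
    mt_pow] at h2
  linear_combination h2

include hP hσ hℓP in
theorem cyc_sigma : cyc K ℓ ℚ_[ℓ] σ = q := by
  have h3 := Pool.Agent.Y115.Chi.chi_frob (ℓ := ℓ) hP.isPrime hℓP hσ
  rw [cyc_apply, h3]
  simp

include hUn hUo hU hφ hP hq hσ hℓP hw hpur in
theorem eigV : ∀ z ∈ spectrum ℂ ((mt V σ⁻¹).map e), ‖z‖ ^ 2 = (q : ℝ) ^ w := by
  have hq0 : (0 : ℝ) < (q : ℝ) := by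
    have : 0 < q := by omega
    exact_mod_cast this
  have hfin : Finite (GK K ⧸ U) := Subgroup.quotient_finite_of_isOpen _ hUo
  have hfi : U.FiniteIndex := Subgroup.finiteIndex_of_finite_quotient
  have hm : 0 < U.index := Nat.pos_of_ne_zero hfi.index_ne_zero
  have hc := cyc_sigma (ℓ := ℓ) hP hσ hℓP
  have hc0 : (q : ℚ_[ℓ]) ≠ 0 := by
    rw [← hc]
    exact c_ne _ _
  have hpow : ∀ {r : ℕ} (ρ : GK K →* GL (Fin r) ℚ_[ℓ]) (k : ℕ),
      (((mt ρ σ⁻¹).map e) ^ k).trace = e (mt ρ (σ⁻¹ ^ k)).trace := by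
    intro r ρ k
    have h1 : ((mt ρ σ⁻¹).map e) ^ k = (mt ρ (σ⁻¹ ^ k)).map e := by
      rw [mt_pow, ← RingHom.mapMatrix_apply, ← RingHom.mapMatrix_apply, map_pow]
    rw [h1, Matrix.trace, Matrix.trace, map_sum]
    rfl
  have htr : ∀ k : ℕ, (mt V (σ⁻¹ ^ (U.index * k))).trace - (mt W (σ⁻¹ ^ (U.index * k))).trace =
      (((q : ℚ_[ℓ]) ^ u) ^ U.index) ^ k * (n - m) := by
    intro k
    have h1 := hφ (σ⁻¹ ^ (U.index * k))
    have h2 : σ⁻¹ ^ (U.index * k) ∈ U := by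
      rw [pow_mul]
      exact U.pow_mem (Subgroup.pow_index_mem U σ⁻¹) k
    have h3 : φ (σ⁻¹ ^ (U.index * k)) = φ 1 := by
      rw [← mul_one (σ⁻¹ ^ (U.index * k)), hU _ h2]
    rw [h3, phi_one V W u φ hφ, map_pow, c_inv, hc, ← zpow_natCast, _root_.zpow_comm,
      _root_.inv_zpow, _root_.inv_zpow] at h1
    rw [← h1, ← mul_assoc, ← pow_mul, zpow_natCast, mul_inv_cancel₀, one_mul]
    exact pow_ne_zero _ (zpow_ne_zero _ hc0)
  rcases hw with hw | hw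
  · refine eig (M := U.index) (D := ((q : ℂ) ^ u) ^ U.index) hm (by positivity) ?_ hpur ?_
    · intro k
      rw [hpow, hpow, ← map_sub, htr, map_mul, map_pow, map_pow, map_zpow₀, map_natCast, map_sub,
        map_natCast, map_natCast]
    · rw [norm_pow, norm_zpow, Complex.norm_natCast, hw, ← pow_mul, mul_comm U.index 2, pow_mul,
        ← zpow_natCast ((q : ℝ) ^ u) 2, ← _root_.zpow_mul, mul_comm u]
      rfl
  · have hnm : (n : ℚ_[ℓ]) - m = 0 := by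
      rw [← phi_one V W u φ hφ, hw, Rat.cast_zero]
    have hnm' : (n : ℂ) - m = 0 := by
      have := congrArg e hnm
      rwa [map_sub, map_natCast, map_natCast, map_zero] at this
    refine eig (M := U.index) (D := ((Real.sqrt (((q : ℝ) ^ w) ^ U.index) : ℝ) : ℂ)) hm
      (by positivity) ?_ hpur ?_
    · intro k
      rw [hpow, hpow, ← map_sub, htr, hnm, mul_zero, map_zero, hnm', mul_zero]
    · rw [Complex.norm_real, Real.norm_of_nonneg (Real.sqrt_nonneg _),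
        Real.sq_sqrt (by positivity)]

include hV hUn hUo hU hφ hP hq hσ hℓP hW hw hpur in
theorem triv {τ : GK K} (hτU : τ ∈ U) (hτ : InInertia P τ) : mt V τ = 1 := by
  have hq0 : (0 : ℝ) < (q : ℝ) := by
    have : 0 < q := by omega
    exact_mod_cast this
  have hmc : Continuous (mh V) := continuous_mt V hV
  obtain ⟨H, hHn, hHo, hH⟩ := exists_small (mh V) hmc
  obtain ⟨l, hl, hlP⟩ := Pool.Agent.R703.FM.exists_prime_mem P hP
  have hne : ℓ ≠ l := by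
    rintro rfl
    exact hℓP hlP
  -- first case
  have hfirst : ∀ τ' : GK K, τ' ∈ U → τ' ∈ H → InInertia P τ' → mt V τ' = 1 := by
    intro τ' hτ'U hτ'H hτ'
    by_contra hne1
    have hrel := tame_rel' (mh V) hmc H hHo hH hl hne (by omega) hP hlP hτ'H hτ' hσ
    have h1 : mt V σ * mt V σ⁻¹ = 1 := by rw [← mt_mul, mul_inv_cancel, mt_one]
    have h2 : mt V σ⁻¹ * mt V σ = 1 := by rw [← mt_mul, inv_mul_cancel, mt_one]
    rw [mh_apply, mh_apply, mt_mul, mt_mul] at hrel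
    obtain ⟨d, A, hd, hA, hsA⟩ := exists_scaled ℚ_[ℓ] h1 h2
      (unip V W u φ U hU hφ hP hσ hℓP hW hτ'U hτ') hq hrel hne1
    have h3 : (mt V σ⁻¹).map e * A.map e = (((q : ℂ) ^ d)⁻¹) • (A.map e * (mt V σ⁻¹).map e) := by
      rw [← Matrix.map_mul, hsA, ← Matrix.map_mul]
      ext i j
      rw [Matrix.map_apply, Matrix.smul_apply, Matrix.smul_apply, Matrix.map_apply, smul_eq_mul,
        smul_eq_mul, map_mul, map_inv₀, map_pow, map_natCast]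
    have hqd : (1 : ℝ) < (q : ℝ) ^ d := by
      have h5 : 1 < q ^ d := Nat.one_lt_pow hd.ne' (by omega)
      exact_mod_cast h5
    have h4 := eq_zero_of_scale h3 (r := (q : ℝ) ^ w) (by positivity)
      (eigV V W u φ U hUn hUo hU hφ hP hq hσ hℓP hw e hpur) (by
        apply inv_ne_zero
        apply pow_ne_zero
        have : q ≠ 0 := by omega
        exact_mod_cast this) (by
        rw [norm_inv, norm_pow, Complex.norm_natCast]
        intro h6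
        have := inv_lt_one_of_one_lt₀ hqd
        linarith)
    apply hA
    ext i j
    have h5 := congrFun (congrFun h4 i) j
    rw [Matrix.map_apply, Matrix.zero_apply] at h5
    rw [Matrix.zero_apply]
    exact (map_eq_zero e).1 h5
  have hfin : Finite (GK K ⧸ H) := Subgroup.quotient_finite_of_isOpen _ hHo
  have hfi : H.FiniteIndex := Subgroup.finiteIndex_of_finite_quotient
  have hm : 0 < H.index := Nat.pos_of_ne_zero hfi.index_ne_zero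
  refine eq_one_of_pow ℚ_[ℓ] (unip V W u φ U hU hφ hP hσ hℓP hW hτU hτ) hm ?_
  rw [← mt_pow]
  exact hfirst _ (U.pow_mem hτU _) (Subgroup.pow_index_mem H τ)
    ((IG P).pow_mem (show τ ∈ IG P from hτ) _)

end one

end Pool.Agent.R401.Tr9
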