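import Pool.Agent.R401.Pu
import Pool.Agent.R401.Tr7

/-!
# Traces which differ by a locally constant function
-/

set_option autoImplicit false
set_option maxHeartbeats 400000

namespace Pool.Agent.R401.Ua

open NumberField Filter Topology IsDedekindDomain Pool.Agent.W401.Cheb Pool.Agent.R401.Sup
open Pool.Agent.W569.FM Pool.Agent.R401.Img Pool.Agent.R401.Eng Pool.Agent.R401.Sup2
open Pool.Agent.R401.Pt Matrix

section group
variable {G : Type*} [Group G] {k : Type*} [Field k] {n m : ℕ}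

theorem trace_AA' (R : G →* Matrix (Fin n) (Fin n) k) (S : G →* Matrix (Fin m) (Fin m) k)
    (U : Subgroup G) (y : G) (c : k)
    (hc : ∀ x ∈ U, (R (x * y)).trace - (S (x * y)).trace = c) :
    ∀ a ∈ AA (R.comp U.subtype) (S.comp U.subtype),
      (a.1 * R y).trace - (a.2.1 * S y).trace = c * a.2.2 := by
  intro a ha
  let L : (Matrix (Fin n) (Fin n) k × Matrix (Fin m) (Fin m) k × k) →ₗ[k] k :=
    { toFun := fun a => (a.1 * R y).trace - (a.2.1 * S y).trace - c * a.2.2
      map_add' := fun a b => by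
        simp only [Prod.fst_add, Prod.snd_add, Matrix.trace_add, add_mul]
        ring
      map_smul' := fun c a => by
        simp only [Prod.smul_fst, Prod.smul_snd, Matrix.trace_smul, RingHom.id_apply, smul_eq_mul,
          Matrix.smul_mul]
        ring }
  have h2 : AA (R.comp U.subtype) (S.comp U.subtype) ≤ LinearMap.ker L := by
    unfold AA
    rw [Submodule.span_le]
    rintro _ ⟨g, rfl⟩
    rw [SetLike.mem_coe, LinearMap.mem_ker]
    change (R g * R y).trace - (S g * S y).trace - c * 1 = 0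
    rw [← map_mul, ← map_mul, hc g g.2, mul_one, sub_self]
  have h3 := h2 ha
  rw [LinearMap.mem_ker] at h3
  exact sub_eq_zero.1 h3

theorem eq_of_kill [CharZero k] (R : G →* Matrix (Fin n) (Fin n) k)
    (S : G →* Matrix (Fin m) (Fin m) k) (U : Subgroup G)
    (hc : ∀ x ∈ U, ∀ y, (R (x * y)).trace - (S (x * y)).trace = (R y).trace - (S y).trace)
    (hS : ¬ Triv S U) (hnm : n = m) (y : G) : (R y).trace = (S y).trace := by
  obtain ⟨e, he⟩ := exists_kill (R.comp U.subtype) (S.comp U.subtype)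
    (fun h => hS ((triv_comap S U).1 h))
  have h1 : ∀ g : U, ((R.comp U.subtype) g).trace - ((S.comp U.subtype) g).trace = 0 := by
    intro g
    have h := hc g g.2 1
    rw [mul_one] at h
    change (R g).trace - (S g).trace = 0
    rw [h, map_one, map_one, Matrix.trace_one, Matrix.trace_one, Fintype.card_fin,
      Fintype.card_fin, hnm, sub_self]
  obtain ⟨N, hN⟩ := nil_of_trace e (trace_kill _ _ h1 he)
  have h2 := trace_AA' R S U y _ (fun x hx => hc x hx y) _ (pow_mem_AA _ _ he N)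
  rw [Prod.pow_mk, Prod.pow_mk, zero_pow (Nat.succ_ne_zero N), one_pow, mul_one, pow_succ, hN,
    zero_mul, zero_mul, Matrix.zero_mul, Matrix.trace_zero, Matrix.trace_zero, sub_zero] at h2
  exact sub_eq_zero.1 h2.symm

end group

variable {K : Type} [Field K] [NumberField K] {p : ℕ} [Fact p.Prime] {s t : ℕ}

/-- the difference of the traces is locally constant -/
theorem loc (T : GK K →* GL (Fin s) ℚ_[p]) (hT : Continuous T)
    (T' : GK K →* GL (Fin t) ℚ_[p]) (hT' : Continuous T')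
    (B : Set (HeightOneSpectrum (𝓞 K))) (hB : B.Finite)
    (a a' b b' : HeightOneSpectrum (𝓞 K) → ℤ)
    (A : ℕ) (hA : ∀ v, v ∉ B → |a v| ≤ A) (hA' : ∀ v, v ∉ B → |a' v| ≤ A)
    (C : ℕ) (hw : ∀ v, v ∉ B → |b v| ≤ C * Ideal.absNorm v.asIdeal)
    (hw' : ∀ v, v ∉ B → |b' v| ≤ C * Ideal.absNorm v.asIdeal)
    (hb : ∀ v, v ∉ B → (p : 𝓞 K) ∉ v.asIdeal → ∀ g, IsFrob v g →
      (b v : ℚ_[p]) = Ideal.absNorm v.asIdeal * ((a v : ℚ_[p]) + (mt T g⁻¹).trace))
    (hb' : ∀ v, v ∉ B → (p : 𝓞 K) ∉ v.asIdeal → ∀ g, IsFrob v g →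
      (b' v : ℚ_[p]) = Ideal.absNorm v.asIdeal * ((a' v : ℚ_[p]) + (mt T' g⁻¹).trace))
    (θ : ℝ) (hθ : θ * (s ^ 2 + t ^ 2) < 1)
    (hP : ∃ᶠ x : ℕ in atTop, dens (fun v : HeightOneSpectrum (𝓞 K) =>
      ¬ (Ideal.absNorm v.asIdeal : ℤ) ∣ b v - b' v) x ≤ θ) :
    ∃ U : Subgroup (GK K), U.Normal ∧ IsOpen (U : Set (GK K)) ∧
      ∀ x ∈ U, ∀ y, (mt T (x * y)).trace - (mt T' (x * y)).trace =
        (mt T y).trace - (mt T' y).trace := by
  classical
  let R : GK K →* Matrix (Fin s) (Fin s) ℚ_[p] := (Units.coeHom _).comp T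
  let S : GK K →* Matrix (Fin t) (Fin t) ℚ_[p] := (Units.coeHom _).comp T'
  have hq : ∀ v : HeightOneSpectrum (𝓞 K), (Ideal.absNorm v.asIdeal : ℤ) ≠ 0 := fun v => by
    have : Ideal.absNorm v.asIdeal ≠ 0 := fun h0 => v.ne_bot (Ideal.absNorm_eq_zero_iff.1 h0)
    exact_mod_cast this
  change ∃ U : Subgroup (GK K), U.Normal ∧ IsOpen (U : Set (GK K)) ∧
      ∀ x ∈ U, ∀ y, (R (x * y)).trace - (S (x * y)).trace = (R y).trace - (S y).trace
  by_cases h0 : ∃ g₀ : GK K, (mt T g₀).trace - (mt T' g₀).trace ≠ 0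
  swap
  · push Not at h0
    exact ⟨⊤, inferInstance, isOpen_univ, fun x _ y => (h0 (x * y)).trans (h0 y).symm⟩
  obtain ⟨g₀, hg₀⟩ := h0
  obtain ⟨_, h1⟩ := Tr7.one (K := K) T hT T' hT' hg₀ B hB
    (fun v => ((b v - b' v : ℤ) : ℚ) / (Ideal.absNorm v.asIdeal : ℚ) - (a v - a' v : ℤ)) 0
    (Rat.castHom ℚ_[p]) (by
      intro v hv hvp g hg
      have h3 := hb v hv hvp g hg
      have h4 := hb' v hv hvp g hg
      have h5 : (Ideal.absNorm v.asIdeal : ℚ_[p]) ≠ 0 := by
        have := hq v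
        exact_mod_cast this
      rw [Rat.coe_castHom]
      push_cast
      field_simp
      linear_combination h4 - h3) ((2 * C + 2 * A : ℕ) ^ 2) (by
      intro v hv
      rw [zpow_zero, mul_one]
      have h3 := hw v hv
      have h4 := hw' v hv
      have h5 := hA v hv
      have h6 := hA' v hv
      have h7 : (0 : ℝ) < (Ideal.absNorm v.asIdeal : ℝ) := by
        have : Ideal.absNorm v.asIdeal ≠ 0 := fun h0 => v.ne_bot (Ideal.absNorm_eq_zero_iff.1 h0)
        exact_mod_cast Nat.pos_of_ne_zero this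
      have h3' : |(b v : ℝ)| ≤ C * (Ideal.absNorm v.asIdeal : ℝ) := by exact_mod_cast h3
      have h4' : |(b' v : ℝ)| ≤ C * (Ideal.absNorm v.asIdeal : ℝ) := by exact_mod_cast h4
      have h5' : |(a v : ℝ)| ≤ A := by exact_mod_cast h5
      have h6' : |(a' v : ℝ)| ≤ A := by exact_mod_cast h6
      push_cast
      rw [abs_le] at h3' h4' h5' h6'
      have h8 : |((b v : ℝ) - b' v) / (Ideal.absNorm v.asIdeal : ℝ)| ≤ 2 * C := by
        rw [abs_div, abs_of_pos h7, div_le_iff₀ h7, abs_le]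
        constructor <;> nlinarith
      rw [abs_le] at h8
      rw [← sq_abs]
      refine pow_le_pow_left₀ (abs_nonneg _) ?_ 2
      rw [abs_le]
      constructor <;> linarith) θ hθ Nat.one_pos (by
      refine hP.mono fun x hx => (dens_le ?_ x).trans hx
      intro v hv hdvd
      apply hv
      obtain ⟨c, hc⟩ := hdvd
      refine ⟨(c - (a v - a' v)) ^ 2, ?_⟩
      have h5 : (Ideal.absNorm v.asIdeal : ℚ) ≠ 0 := by
        have := hq v
        exact_mod_cast this
      rw [hc, zpow_zero, Nat.cast_one, one_mul, one_mul]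
      push_cast
      rw [mul_div_cancel_left₀ _ h5])
  obtain ⟨U, hUn, hUo, hU⟩ := h1 0 (by norm_num)
  refine ⟨U, hUn, hUo, fun x hx y => ?_⟩
  have := hU x hx y
  rw [zpow_zero, zpow_zero, one_mul, one_mul] at this
  exact this

/-- The main step. -/
theorem main (T : GK K →* GL (Fin s) ℚ_[p]) (T' : GK K →* GL (Fin t) ℚ_[p])
    (hloc : ∃ U : Subgroup (GK K), U.Normal ∧ IsOpen (U : Set (GK K)) ∧
      ∀ x ∈ U, ∀ y, (mt T (x * y)).trace - (mt T' (x * y)).trace =
        (mt T y).trace - (mt T' y).trace)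
    (hNT : Pu.NT T') :
    t ≤ s ∧ (Pu.NT T ↔ s = t) ∧ (s = t → ∀ g, (mt T g).trace = (mt T' g).trace) := by
  classical
  let R : GK K →* Matrix (Fin s) (Fin s) ℚ_[p] := (Units.coeHom _).comp T
  let S : GK K →* Matrix (Fin t) (Fin t) ℚ_[p] := (Units.coeHom _).comp T'
  obtain ⟨U, hUn, hUo, hU'⟩ := hloc
  have hU : ∀ x ∈ U, ∀ y, (R (x * y)).trace - (S (x * y)).trace = (R y).trace - (S y).trace := hU'
  have h1 : ∀ g ∈ U, (R g).trace - (S g).trace = s - t := by
    intro g hg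
    have h := hU g hg 1
    rw [mul_one] at h
    rw [h, map_one, map_one, Matrix.trace_one, Matrix.trace_one, Fintype.card_fin,
      Fintype.card_fin]
  obtain ⟨h2, h3⟩ := Pt.criterion R S U hUo h1 (fun U hU => hNT U hU)
  exact ⟨h2, h3, fun hst g => eq_of_kill R S U hU (hNT U hUo) hst g⟩

end Pool.Agent.R401.Ua
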