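import Pool.Agent.W540.BE.Freq
import Pool.Agent.H921R2.TatePole.Base
import Pool.Agent.Helper923.PNT

/-!
# Averages with logarithmic weights
-/

set_option autoImplicit false
set_option maxHeartbeats 400000

namespace Pool.Agent.R401.Ub

open NumberField Filter Topology IsDedekindDomain Pool.Agent.W401.Cheb
open Pool.Agent.W540.BE (upto mem_upto cheb_mean)
open Pool.Agent.H921R2.TatePole (nm two_le_nm card_above below below_le_nm)

variable {K : Type} [Field K] [NumberField K]

theorem pi_log : Tendsto (fun X : ℕ => (Nat.primeCounting X : ℝ) * Real.log X / X) atTop (𝓝 1) := by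
  have h := Pool.Agent.Helper923.PNT.pi_tendsto.comp (tendsto_natCast_atTop_atTop (R := ℝ))
  refine h.congr fun X => ?_
  simp

/-- the primes up to `X` -/
noncomputable def PX (X : ℕ) : Finset ℕ := (Finset.Ioc 0 X).filter Nat.Prime

theorem mem_PX {X p : ℕ} : p ∈ PX X ↔ p.Prime ∧ p ≤ X := by
  unfold PX
  rw [Finset.mem_filter, Finset.mem_Ioc]
  exact ⟨fun h => ⟨h.2, h.1.2⟩, fun h => ⟨⟨h.1.pos, h.2⟩, h.1⟩⟩

theorem theta_PX (X : ℕ) : Chebyshev.theta X = ∑ p ∈ PX X, Real.log (p : ℝ) := by
  unfold Chebyshev.theta PX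
  rw [Nat.floor_natCast]

theorem card_PX (X : ℕ) : (PX X).card = Nat.primeCounting X := by
  rw [Nat.primeCounting, Nat.primeCounting', Nat.count_eq_card_filter_range]
  congr 1
  ext x
  rw [mem_PX, Finset.mem_filter, Finset.mem_range]
  exact ⟨fun h => ⟨by omega, h.1⟩, fun h => ⟨h.2, by omega⟩⟩

theorem mem_upto' {X : ℕ} {v : HeightOneSpectrum (𝓞 K)} : v ∈ upto K X ↔ nm v ≤ X := by
  rw [mem_upto]
  rfl

theorem logdiff : Tendsto (fun X : ℕ => (∑ v ∈ upto K X, (Real.log X - Real.log (nm v))) / X) atTop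
    (𝓝 0) := by
  classical
  have h1 : Tendsto (fun X : ℕ => (Module.finrank ℚ K : ℝ) *
      ((Nat.primeCounting X : ℝ) * Real.log X / X - Chebyshev.theta X / X)) atTop (𝓝 0) := by
    have h2 : Tendsto (fun X : ℕ => Chebyshev.theta X / X) atTop (𝓝 1) :=
      Pool.Agent.Helper923.PNT.theta_div_tendsto.comp (tendsto_natCast_atTop_atTop (R := ℝ))
    have h3 := (pi_log.sub h2).const_mul (Module.finrank ℚ K : ℝ)
    simpa using h3
  refine squeeze_zero' ?_ ?_ h1
  · filter_upwards [eventually_ge_atTop 1] with X hX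
    refine div_nonneg (Finset.sum_nonneg fun v hv => ?_) (Nat.cast_nonneg _)
    rw [mem_upto'] at hv
    have hq : (0 : ℝ) < nm v := by
      have := two_le_nm v
      exact_mod_cast (by omega : 0 < nm v)
    have : Real.log (nm v) ≤ Real.log X := Real.log_le_log hq (by exact_mod_cast hv)
    linarith
  · filter_upwards [eventually_ge_atTop 1] with X hX
    have hX0 : (0 : ℝ) < X := by exact_mod_cast hX
    rw [← sub_div, ← mul_div_assoc]
    refine div_le_div_of_nonneg_right ?_ hX0.le
    have hmaps : ∀ v ∈ upto K X, ((below v : Nat.Primes) : ℕ) ∈ PX X := by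
      intro v hv
      rw [mem_upto'] at hv
      rw [mem_PX]
      exact ⟨(below v).2, (below_le_nm v).trans hv⟩
    rw [← Finset.sum_fiberwise_of_maps_to hmaps, theta_PX, ← card_PX]
    have h4 : ∀ p ∈ PX X, ∑ v ∈ (upto K X).filter (fun v => ((below v : Nat.Primes) : ℕ) = p),
        (Real.log X - Real.log (nm v)) ≤ (Module.finrank ℚ K : ℝ) *
          (Real.log X - Real.log (p : ℝ)) := by
      intro p hp
      rw [mem_PX] at hp
      have hp0 : (0 : ℝ) < (p : ℝ) := by exact_mod_cast hp.1.pos
      have hlp : 0 ≤ Real.log X - Real.log (p : ℝ) := by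
        have : Real.log (p : ℝ) ≤ Real.log X := Real.log_le_log hp0 (by exact_mod_cast hp.2)
        linarith
      refine (Finset.sum_le_card_nsmul _ _ (Real.log X - Real.log (p : ℝ)) ?_).trans ?_
      · intro v hv
        rw [Finset.mem_filter] at hv
        have h5 : (p : ℝ) ≤ nm v := by
          rw [← hv.2]
          exact_mod_cast below_le_nm v
        have := Real.log_le_log hp0 h5
        linarith
      · rw [nsmul_eq_mul]
        refine mul_le_mul_of_nonneg_right ?_ hlp
        have := card_above ⟨p, hp.1⟩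
          ((upto K X).filter (fun v => ((below v : Nat.Primes) : ℕ) = p))
          fun v hv => Subtype.ext (Finset.mem_filter.1 hv).2
        exact_mod_cast this
    refine (Finset.sum_le_sum h4).trans (le_of_eq ?_)
    rw [← Finset.mul_sum, Finset.sum_sub_distrib, Finset.sum_const, nsmul_eq_mul]

/-- from natural averages to averages with logarithmic weights -/
theorem tauber (f : HeightOneSpectrum (𝓞 K) → ℝ) (M : ℝ) (hf : ∀ v, |f v| ≤ M) (c : ℝ)
    (h : Tendsto (fun X : ℕ => (∑ v ∈ upto K X, f v) / (Nat.primeCounting X : ℝ)) atTop (𝓝 c)) :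
    Tendsto (fun X : ℕ => (X : ℝ)⁻¹ * ∑ v ∈ upto K X, f v * Real.log (nm v)) atTop (𝓝 c) := by
  have h1 := h.mul pi_log
  rw [mul_one] at h1
  have h2 : Tendsto (fun X : ℕ => (X : ℝ)⁻¹ * ∑ v ∈ upto K X, f v * Real.log X) atTop (𝓝 c) := by
    refine h1.congr' ?_
    filter_upwards [Nat.tendsto_primeCounting.eventually_gt_atTop 0] with X hX
    have h3 : (Nat.primeCounting X : ℝ) ≠ 0 := by exact_mod_cast hX.ne'
    rw [← Finset.sum_mul]
    field_simp
  have h3 : Tendsto (fun X : ℕ => (X : ℝ)⁻¹ * ∑ v ∈ upto K X,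
      f v * (Real.log X - Real.log (nm v))) atTop (𝓝 0) := by
    have h4 := (logdiff (K := K)).const_mul M
    rw [mul_zero] at h4
    refine squeeze_zero_norm' ?_ h4
    filter_upwards [eventually_ge_atTop 1] with X hX
    have hX0 : (0 : ℝ) < X := by exact_mod_cast hX
    rw [Real.norm_eq_abs, abs_mul, abs_of_nonneg (inv_nonneg.2 hX0.le), mul_div_assoc',
      inv_mul_eq_div]
    refine div_le_div_of_nonneg_right ?_ hX0.le
    refine (Finset.abs_sum_le_sum_abs _ _).trans ?_
    rw [Finset.mul_sum]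
    refine Finset.sum_le_sum fun v hv => ?_
    rw [mem_upto'] at hv
    have hq : (0 : ℝ) < nm v := by
      have := two_le_nm v
      exact_mod_cast (by omega : 0 < nm v)
    have h5 : Real.log (nm v) ≤ Real.log X := Real.log_le_log hq (by exact_mod_cast hv)
    rw [abs_mul, abs_of_nonneg (a := Real.log X - Real.log (nm v)) (by linarith)]
    exact mul_le_mul_of_nonneg_right (hf v) (by linarith)
  have h4 := h2.sub h3
  rw [sub_zero] at h4
  refine h4.congr fun X => ?_
  rw [← mul_sub, ← Finset.sum_sub_distrib]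
  congr 1
  refine Finset.sum_congr rfl fun v _ => ?_
  ring

end Pool.Agent.R401.Ub
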