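import Pool.Agent.R401.Ub

/-!
# The mean value of the traces of a representation with open kernel
-/

set_option autoImplicit false
set_option maxHeartbeats 400000

namespace Pool.Agent.R401.Uc

open NumberField Filter Topology IsDedekindDomain Pool.Agent.W401.Cheb
open Pool.Agent.W540.BE (upto mem_upto cheb_mean)

/-- the invariants in `ℚ ^ r` -/
def inv {G : Type*} [Group G] {r : ℕ} (N : G →* GL (Fin r) ℤ) : Submodule ℚ (Fin r → ℚ) where
  carrier := {x | ∀ g, Matrix.mulVec (((N g : GL (Fin r) ℤ) : Matrix (Fin r) (Fin r) ℤ).map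
    (Int.castRingHom ℚ)) x = x}
  zero_mem' := fun g => Matrix.mulVec_zero _
  add_mem' := fun {x y} hx hy g => by rw [Matrix.mulVec_add, hx g, hy g]
  smul_mem' := fun c x hx g => by rw [Matrix.mulVec_smul, hx g]

section finite
variable {Q : Type*} [Group Q] [Fintype Q] {r : ℕ}

/-- the representation on `ℚ ^ r` -/
noncomputable def rep (N : Q →* GL (Fin r) ℤ) : Representation ℚ Q (Fin r → ℚ) where
  toFun g := Matrix.toLin' (((N g : GL (Fin r) ℤ) : Matrix (Fin r) (Fin r) ℤ).map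
    (Int.castRingHom ℚ))
  map_one' := by
    rw [map_one, Units.val_one, Matrix.map_one _ (map_zero _) (map_one _), Matrix.toLin'_one]
    rfl
  map_mul' g h := by
    rw [map_mul, Units.val_mul, Matrix.map_mul, Matrix.toLin'_mul]
    rfl

theorem mean_eq (N : Q →* GL (Fin r) ℤ) :
    (Nat.card Q : ℚ)⁻¹ * ∑ g, ((((N g : GL (Fin r) ℤ) : Matrix (Fin r) (Fin r) ℤ).trace : ℤ) : ℚ) =
      Module.finrank ℚ (inv N) := by
  classical
  have hc : (Fintype.card Q : ℚ) ≠ 0 := by exact_mod_cast Fintype.card_ne_zero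
  letI : Invertible (Fintype.card Q : ℚ) := invertibleOfNonzero hc
  have h1 := (Representation.isProj_averageMap (rep N)).trace
  have h2 : (rep N).invariants = inv N := by
    ext x
    rw [Representation.mem_invariants]
    exact Iff.rfl
  rw [h2] at h1
  rw [← h1]
  unfold Representation.averageMap
  rw [GroupAlgebra.average, map_smul, map_sum, map_smul, map_sum, invOf_eq_inv,
    Nat.card_eq_fintype_card, smul_eq_mul]
  congr 1
  refine Finset.sum_congr rfl fun g _ => ?_
  rw [MonoidAlgebra.of_apply, Representation.asAlgebraHom_single_one]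
  change _ = LinearMap.trace ℚ (Fin r → ℚ) (Matrix.toLin' _)
  rw [Matrix.trace_toLin'_eq, Matrix.trace, Matrix.trace, Int.cast_sum]
  rfl

end finite

variable {K : Type} [Field K] [NumberField K] {r : ℕ}

/-- **Chebotarev for the traces of `N`.** -/
theorem natural (N : GK K →* GL (Fin r) ℤ) (hN : IsOpen (N.ker : Set (GK K)))
    (σ : HeightOneSpectrum (𝓞 K) → GK K) (hσ : ∀ v, IsFrob v (σ v)) :
    Tendsto (fun X : ℕ => (∑ v ∈ upto K X,
      ((((N (σ v)⁻¹ : GL (Fin r) ℤ) : Matrix (Fin r) (Fin r) ℤ).trace : ℤ) : ℝ)) /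
        (Nat.primeCounting X : ℝ)) atTop (𝓝 (Module.finrank ℚ (inv N))) := by
  classical
  have hfin : Finite (GK K ⧸ N.ker) := Subgroup.quotient_finite_of_isOpen _ hN
  letI : Fintype (GK K ⧸ N.ker) := Fintype.ofFinite _
  set N' : (GK K ⧸ N.ker) →* GL (Fin r) ℤ := QuotientGroup.kerLift N with hN'
  let ψ : (GK K ⧸ N.ker) → ℂ := fun q =>
    ((((N' q⁻¹ : GL (Fin r) ℤ) : Matrix (Fin r) (Fin r) ℤ).trace : ℤ) : ℂ)
  have h1 := cheb_mean N.ker hN ψ (fun a g => by
    change ((((N' (g * a * g⁻¹)⁻¹ : GL (Fin r) ℤ) : Matrix (Fin r) (Fin r) ℤ).trace : ℤ) : ℂ) = _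
    have e : (g * a * g⁻¹)⁻¹ = g * a⁻¹ * g⁻¹ := by group
    rw [e, map_mul, map_mul, Units.val_mul, Units.val_mul, Matrix.trace_mul_comm, ← mul_assoc,
      ← Units.val_mul, ← map_mul, inv_mul_cancel, map_one, Units.val_one, one_mul]) σ hσ
  have h2 : ((Nat.card (GK K ⧸ N.ker) : ℂ)⁻¹ * ∑ᶠ q, ψ q) = ((Module.finrank ℚ (inv N) : ℝ) : ℂ) := by
    have h3 := mean_eq N'
    have h4 : inv N' = inv N := by
      ext x
      constructor
      · intro h g
        exact h (QuotientGroup.mk g)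
      · intro h q
        induction q using QuotientGroup.induction_on with
        | H g => exact h g
    rw [h4] at h3
    have h5 : ∑ᶠ q, ψ q = ∑ q, ((((N' q : GL (Fin r) ℤ) : Matrix (Fin r) (Fin r) ℤ).trace : ℤ) : ℂ) := by
      rw [finsum_eq_sum_of_fintype]
      exact Equiv.sum_comp (Equiv.inv _)
        (fun q => ((((N' q : GL (Fin r) ℤ) : Matrix (Fin r) (Fin r) ℤ).trace : ℤ) : ℂ))
    rw [h5]
    have h6 := congrArg (fun z : ℚ => (z : ℂ)) h3
    push_cast at h6
    rw [Complex.ofReal_natCast]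
    exact h6
  rw [h2] at h1
  have h3 := (Complex.continuous_re.tendsto _).comp h1
  rw [Complex.ofReal_re] at h3
  refine h3.congr fun X => ?_
  rw [Function.comp_apply]
  have e : ((∑ v ∈ upto K X, ψ (QuotientGroup.mk (σ v))) / (Nat.primeCounting X : ℂ)) =
      (((∑ v ∈ upto K X, ((((N (σ v)⁻¹ : GL (Fin r) ℤ) : Matrix (Fin r) (Fin r) ℤ).trace : ℤ) : ℝ)) /
        (Nat.primeCounting X : ℝ) : ℝ) : ℂ) := by
    push_cast
    rfl
  rw [e, Complex.ofReal_re]

end Pool.Agent.R401.Uc
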