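import Pool.Agent.R401.Uc
import Pool.Agent.R401.Ua

/-!
# The averages of the question
-/

set_option autoImplicit false
set_option maxHeartbeats 400000

namespace Pool.Agent.R401.Ud

open NumberField Filter Topology IsDedekindDomain Pool.Agent.W401.Cheb
open Pool.Agent.W540.BE (upto mem_upto)
open Pool.Agent.H921R2.TatePole (nm two_le_nm)
open Pool.Agent.R401.Pu (mz NT)

variable {K : Type} [Field K] [NumberField K]

/-- the averages -/
noncomputable def average (B : Set (HeightOneSpectrum (𝓞 K))) (b : HeightOneSpectrum (𝓞 K) → ℤ)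
    (X : ℕ) : ℝ :=
  (X : ℝ)⁻¹ * ∑ᶠ v ∈ {v : HeightOneSpectrum (𝓞 K) | v ∉ B ∧ Ideal.absNorm v.asIdeal ≤ X},
    (b v : ℝ) * Real.log (Ideal.absNorm v.asIdeal : ℝ) / (Ideal.absNorm v.asIdeal : ℝ)

open scoped Classical in
/-- the normalised numbers -/
noncomputable def nb (B : Set (HeightOneSpectrum (𝓞 K))) (b : HeightOneSpectrum (𝓞 K) → ℤ)
    (v : HeightOneSpectrum (𝓞 K)) : ℝ := if v ∈ B then 0 else (b v : ℝ) / (nm v : ℝ)

theorem average_eq (B : Set (HeightOneSpectrum (𝓞 K))) (b : HeightOneSpectrum (𝓞 K) → ℤ) (X : ℕ) :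
    average B b X = (X : ℝ)⁻¹ * ∑ v ∈ upto K X, nb B b v * Real.log (nm v) := by
  classical
  unfold average
  congr 1
  have h1 : {v : HeightOneSpectrum (𝓞 K) | v ∉ B ∧ Ideal.absNorm v.asIdeal ≤ X} =
      (((upto K X).filter (fun v => v ∉ B) : Finset (HeightOneSpectrum (𝓞 K))) :
        Set (HeightOneSpectrum (𝓞 K))) := by
    ext v
    rw [Finset.mem_coe, Finset.mem_filter, mem_upto]
    exact and_comm
  rw [h1, finsum_mem_coe_finset, Finset.sum_filter]
  refine Finset.sum_congr rfl fun v _ => ?_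
  unfold nb nm
  by_cases hv : v ∈ B
  · rw [if_neg (not_not.2 hv), if_pos hv, zero_mul]
  · rw [if_pos hv, if_neg hv]
    ring

theorem nb_le {B : Set (HeightOneSpectrum (𝓞 K))} {b : HeightOneSpectrum (𝓞 K) → ℤ} {C : ℕ}
    (hw : ∀ v, v ∉ B → |b v| ≤ C * Ideal.absNorm v.asIdeal) (v : HeightOneSpectrum (𝓞 K)) :
    |nb B b v| ≤ C := by
  unfold nb
  split_ifs with hv
  · rw [abs_zero]
    exact Nat.cast_nonneg _
  · have h1 : (0 : ℝ) < nm v := by
      have := two_le_nm v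
      exact_mod_cast (by omega : 0 < nm v)
    rw [abs_div, abs_of_pos h1, div_le_iff₀ h1]
    have := hw v hv
    exact_mod_cast this

/-- **The difference of the averages.** -/
theorem diff {r r' : ℕ} (p : ℕ) [Fact p.Prime]
    (N : GK K →* GL (Fin r) ℤ) (hN : IsOpen (N.ker : Set (GK K)))
    (N' : GK K →* GL (Fin r') ℤ) (hN' : IsOpen (N'.ker : Set (GK K)))
    (B : Set (HeightOneSpectrum (𝓞 K))) (hB : B.Finite)
    (a a' b b' : HeightOneSpectrum (𝓞 K) → ℤ) (C C' : ℕ)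
    (hw : ∀ v, v ∉ B → |b v| ≤ C * Ideal.absNorm v.asIdeal)
    (hw' : ∀ v, v ∉ B → |b' v| ≤ C' * Ideal.absNorm v.asIdeal)
    (ha : ∀ v, v ∉ B → (p : 𝓞 K) ∉ v.asIdeal → ∀ g, IsFrob v g → (mz N g⁻¹).trace = a v)
    (ha' : ∀ v, v ∉ B → (p : 𝓞 K) ∉ v.asIdeal → ∀ g, IsFrob v g → (mz N' g⁻¹).trace = a' v)
    (hbb : ∀ v, v ∉ B → (p : 𝓞 K) ∉ v.asIdeal →
      b v - b' v = Ideal.absNorm v.asIdeal * (a v - a' v)) :
    Tendsto (fun X : ℕ => average B b X - average B b' X) atTop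
      (𝓝 ((Module.finrank ℚ (Uc.inv N) : ℝ) - Module.finrank ℚ (Uc.inv N'))) := by
  classical
  choose σ hσ using fun v : HeightOneSpectrum (𝓞 K) => Pool.Agent.W401.Frob.exists_frob v
  set h : HeightOneSpectrum (𝓞 K) → ℝ := fun v =>
    (((mz N (σ v)⁻¹).trace : ℤ) : ℝ) - (((mz N' (σ v)⁻¹).trace : ℤ) : ℝ) with hh
  set f : HeightOneSpectrum (𝓞 K) → ℝ := fun v => nb B b v - nb B b' v with hf
  set S : Set (HeightOneSpectrum (𝓞 K)) := B ∪ {v | (p : 𝓞 K) ∈ v.asIdeal} with hS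
  have hSf : S.Finite := hB.union (Pool.Agent.W352.ChAbs.over_le p (Fact.out : p.Prime)).1
  have h0 : ∀ v, v ∉ S → f v - h v = 0 := by
    intro v hv
    rw [hS, Set.mem_union, not_or] at hv
    have hq : (nm v : ℝ) ≠ 0 := by
      have := two_le_nm v
      exact_mod_cast (by omega : nm v ≠ 0)
    have h1 := hbb v hv.1 hv.2
    have h2 : (b v : ℝ) - b' v = (nm v : ℝ) * (a v - a' v) := by
      unfold nm
      exact_mod_cast h1
    rw [hf, hh]
    unfold nb
    simp only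
    rw [if_neg hv.1, if_neg hv.1, ha v hv.1 hv.2 _ (hσ v), ha' v hv.1 hv.2 _ (hσ v), ← sub_div, h2,
      mul_div_cancel_left₀ _ hq, sub_self]
  have h1 := (Uc.natural N hN σ hσ).sub (Uc.natural N' hN' σ hσ)
  have h2 : Tendsto (fun X : ℕ => (∑ v ∈ upto K X, (f v - h v)) / (Nat.primeCounting X : ℝ)) atTop
      (𝓝 0) := by
    refine squeeze_zero_norm' ?_
      (Pool.Agent.W352.ChAbs.const_div_pi (∑ v ∈ hSf.toFinset, |f v - h v|))
    filter_upwards with X
    rw [Real.norm_eq_abs, abs_div, abs_of_nonneg (a := (Nat.primeCounting X : ℝ))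
      (Nat.cast_nonneg _)]
    refine div_le_div_of_nonneg_right ?_ (Nat.cast_nonneg _)
    refine (Finset.abs_sum_le_sum_abs _ _).trans ?_
    have h3 : ∑ v ∈ upto K X, |f v - h v| =
        ∑ v ∈ (upto K X).filter (fun v => v ∈ S), |f v - h v| := by
      rw [Finset.sum_filter]
      refine Finset.sum_congr rfl fun v _ => ?_
      by_cases hv : v ∈ S
      · rw [if_pos hv]
      · rw [if_neg hv, h0 v hv, abs_zero]
    rw [h3]
    refine Finset.sum_le_sum_of_subset_of_nonneg ?_ fun v _ _ => abs_nonneg _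
    intro v hv
    rw [Set.Finite.mem_toFinset]
    exact (Finset.mem_filter.1 hv).2
  have h3 : Tendsto (fun X : ℕ => (∑ v ∈ upto K X, f v) / (Nat.primeCounting X : ℝ)) atTop
      (𝓝 ((Module.finrank ℚ (Uc.inv N) : ℝ) - Module.finrank ℚ (Uc.inv N'))) := by
    have h4 := h2.add h1
    rw [zero_add] at h4
    refine h4.congr fun X => ?_
    rw [← sub_div, ← Finset.sum_sub_distrib, ← add_div, ← Finset.sum_add_distrib]
    congr 1
    refine Finset.sum_congr rfl fun v _ => ?_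
    rw [hh]
    change (f v - ((((mz N (σ v)⁻¹).trace : ℤ) : ℝ) - (((mz N' (σ v)⁻¹).trace : ℤ) : ℝ))) +
      ((((mz N (σ v)⁻¹).trace : ℤ) : ℝ) - (((mz N' (σ v)⁻¹).trace : ℤ) : ℝ)) = f v
    ring
  have h5 := Ub.tauber f (C + C') (fun v => by
    rw [hf]
    have e1 := nb_le hw v
    have e2 := nb_le hw' v
    rw [abs_le] at e1 e2 ⊢
    constructor <;> linarith) _ h3
  refine h5.congr fun X => ?_
  rw [average_eq, average_eq, ← mul_sub, ← Finset.sum_sub_distrib]
  congr 1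
  refine Finset.sum_congr rfl fun v _ => ?_
  rw [hf]
  ring

end Pool.Agent.R401.Ud
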