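import Pool.Agent.R401.Uf

/-!
# Transfer of the averages by congruences
-/

set_option autoImplicit false
set_option maxHeartbeats 400000

namespace Pool.Agent.R401.Ue

open NumberField Filter Topology IsDedekindDomain Pool.Agent.W401.Cheb
open Pool.Agent.R401.Pu (mz NT finite_trace)
open Pool.Agent.R401.Ud (average)

variable {K : Type} [Field K] [NumberField K]

/-- the data -/
def ISC {p : ℕ} [Fact p.Prime] {r s : ℕ} (B : Set (HeightOneSpectrum (𝓞 K)))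
    (N : GK K →* GL (Fin r) ℤ) (T : GK K →* GL (Fin s) ℚ_[p])
    (b : HeightOneSpectrum (𝓞 K) → ℤ) : Prop :=
  B.Finite ∧ IsOpen (N.ker : Set (GK K)) ∧ Continuous T ∧
  (∃ C : ℕ, ∀ v, v ∉ B → |b v| ≤ C * Ideal.absNorm v.asIdeal) ∧
  ∀ v, v ∉ B → (p : 𝓞 K) ∉ v.asIdeal → ∃ a : ℤ, ∀ g, IsFrob v g → (mz N g⁻¹).trace = a ∧
    (b v : ℚ_[p]) = Ideal.absNorm v.asIdeal * ((a : ℚ_[p]) + (mz T g⁻¹).trace)

theorem bound {r : ℕ} (N : GK K →* GL (Fin r) ℤ) (hN : IsOpen (N.ker : Set (GK K))) :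
    ∃ A : ℕ, ∀ g, |(mz N g).trace| ≤ A := by
  have h1 := finite_trace N hN
  have h2 : (Set.range fun g => |(mz N g).trace|).Finite := by
    have h3 : (Set.range fun g => |(mz N g).trace|) =
        (fun x : ℤ => |x|) '' (Set.range fun g => (mz N g).trace) := by
      rw [← Set.range_comp]
      rfl
    rw [h3]
    exact h1.image _
  obtain ⟨M, hM⟩ := h2.bddAbove
  refine ⟨M.toNat, fun g => (hM ⟨g, rfl⟩).trans (Int.self_le_toNat M)⟩

theorem main (p : ℕ) [Fact p.Prime] {r s r' t : ℕ} (B : Set (HeightOneSpectrum (𝓞 K)))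
    (N : GK K →* GL (Fin r) ℤ) (T : GK K →* GL (Fin s) ℚ_[p])
    (b : HeightOneSpectrum (𝓞 K) → ℤ) (hX : ISC B N T b)
    (N' : GK K →* GL (Fin r') ℤ) (T' : GK K →* GL (Fin t) ℚ_[p])
    (b' : HeightOneSpectrum (𝓞 K) → ℤ) (hY : ISC B N' T' b')
    (θ : ℝ) (hθ : θ * (s ^ 2 + t ^ 2) < 1)
    (hP : ∃ᶠ x : ℕ in atTop, ({v : HeightOneSpectrum (𝓞 K) | Ideal.absNorm v.asIdeal ≤ x ∧
      ¬ (Ideal.absNorm v.asIdeal : ℤ) ∣ b v - b' v}.ncard : ℝ) ≤ θ * Nat.primeCounting x) :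
    (∀ (F : Type) [Field F] [NumberField F] (res : GK F →* GK K), Continuous res →
      ∀ (D : Set (HeightOneSpectrum (𝓞 F))) (c c' : HeightOneSpectrum (𝓞 F) → ℤ),
      ISC D (N.comp res) (T.comp res) c → ISC D (N'.comp res) (T'.comp res) c' →
      ∃ L : ℝ, Tendsto (fun x : ℕ => average D c x - average D c' x) atTop (𝓝 L)) ∧
    (NT T' → t ≤ s ∧ (NT T ↔ s = t) ∧
    (s = t → ∀ (F : Type) [Field F] [NumberField F] (res : GK F →* GK K), Continuous res →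
      ∀ (D : Set (HeightOneSpectrum (𝓞 F))) (c c' : HeightOneSpectrum (𝓞 F) → ℤ),
      ISC D (N.comp res) (T.comp res) c → ISC D (N'.comp res) (T'.comp res) c' →
      (∀ v, v ∉ D → (p : 𝓞 F) ∉ v.asIdeal → (Ideal.absNorm v.asIdeal : ℤ) ∣ c v - c' v) ∧
      Tendsto (fun x : ℕ => average D c x - average D c' x) atTop
        (𝓝 ((Module.finrank ℚ (Uc.inv (N.comp res)) : ℝ) -
          Module.finrank ℚ (Uc.inv (N'.comp res)))) ∧
      (Tendsto (average D c) atTop (𝓝 (Module.finrank ℚ (Uc.inv (N.comp res)))) ↔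
        Tendsto (average D c') atTop (𝓝 (Module.finrank ℚ (Uc.inv (N'.comp res))))))) := by
  classical
  obtain ⟨hB, hN, hT, ⟨C, hC⟩, hb⟩ := hX
  obtain ⟨_, hN', hT', ⟨C', hC'⟩, hb'⟩ := hY
  choose σ hσ using fun v : HeightOneSpectrum (𝓞 K) => Pool.Agent.W401.Frob.exists_frob v
  obtain ⟨A, hA⟩ := bound N hN
  obtain ⟨A', hA'⟩ := bound N' hN'
  have hn0 : ∀ v : HeightOneSpectrum (𝓞 K), (0 : ℤ) ≤ (Ideal.absNorm v.asIdeal : ℤ) := fun v =>
    Int.natCast_nonneg _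
  have hloc := Ua.loc (K := K) T hT T' hT' B hB (fun v => (mz N (σ v)⁻¹).trace)
    (fun v => (mz N' (σ v)⁻¹).trace) b b' (A + A')
    (fun v _ => (hA _).trans (by push_cast; omega))
    (fun v _ => (hA' _).trans (by push_cast; omega)) (C + C')
    (fun v hv => (hC v hv).trans (mul_le_mul_of_nonneg_right (by push_cast; omega) (hn0 v)))
    (fun v hv => (hC' v hv).trans (mul_le_mul_of_nonneg_right (by push_cast; omega) (hn0 v)))
    (fun v hv hvp g hg => by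
      obtain ⟨a, ha⟩ := hb v hv hvp
      rw [(ha (σ v) (hσ v)).1]
      exact (ha g hg).2)
    (fun v hv hvp g hg => by
      obtain ⟨a, ha⟩ := hb' v hv hvp
      rw [(ha (σ v) (hσ v)).1]
      exact (ha g hg).2) θ hθ
    ((hP.and_eventually (Nat.tendsto_primeCounting.eventually_gt_atTop 0)).mono (by
      rintro x ⟨hx, hx0⟩
      have h4 : (0 : ℝ) < (Nat.primeCounting x : ℝ) := by exact_mod_cast hx0
      unfold dens
      rw [div_le_iff₀ h4]
      exact hx))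
  refine ⟨?_, fun hNT => ?_⟩
  · obtain ⟨U, hUn, hUo, hU⟩ := hloc
    intro F _ _ res hres D c c' hXF hYF
    obtain ⟨hD, hNF, hTF, ⟨E, hE⟩, hc⟩ := hXF
    obtain ⟨_, hNF', hTF', ⟨E', hE'⟩, hc'⟩ := hYF
    refine Uf.exists_limit D hD (N.comp res) hNF (N'.comp res) hNF' (T.comp res) (T'.comp res)
      (U.comap res) (hUn.comap res) (hUo.preimage hres) (fun x hx y => ?_) c c' E E' hE hE'
      (fun v hv hvp g hg => ?_) (fun v hv hvp g hg => ?_)
    · have h := hU (res x) hx (res y)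
      rw [← map_mul] at h
      exact h
    · obtain ⟨a, ha⟩ := hc v hv hvp
      rw [(ha g hg).1]
      exact (ha g hg).2
    · obtain ⟨a, ha⟩ := hc' v hv hvp
      rw [(ha g hg).1]
      exact (ha g hg).2
  obtain ⟨h1, h2, h3⟩ := Ua.main T T' hloc hNT
  refine ⟨h1, h2, fun hst F _ _ res _ D c c' hXF hYF => ?_⟩
  have h4 := h3 hst
  obtain ⟨hD, hNF, hTF, ⟨E, hE⟩, hc⟩ := hXF
  obtain ⟨_, hNF', hTF', ⟨E', hE'⟩, hc'⟩ := hYF
  choose τ hτ using fun v : HeightOneSpectrum (𝓞 F) => Pool.Agent.W401.Frob.exists_frob v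
  have hq : ∀ v : HeightOneSpectrum (𝓞 F), (Ideal.absNorm v.asIdeal : ℤ) ≠ 0 := fun v => by
    have : Ideal.absNorm v.asIdeal ≠ 0 := fun h0 => v.ne_bot (Ideal.absNorm_eq_zero_iff.1 h0)
    exact_mod_cast this
  have hbb : ∀ v, v ∉ D → (p : 𝓞 F) ∉ v.asIdeal →
      c v - c' v = Ideal.absNorm v.asIdeal *
        ((mz (N.comp res) (τ v)⁻¹).trace - (mz (N'.comp res) (τ v)⁻¹).trace) := by
    intro v hv hvp
    obtain ⟨a, ha⟩ := hc v hv hvp
    obtain ⟨a', ha'⟩ := hc' v hv hvp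
    obtain ⟨e1, e2⟩ := ha (τ v) (hτ v)
    obtain ⟨e3, e4⟩ := ha' (τ v) (hτ v)
    rw [e1, e3]
    have e5 : (mz (T.comp res) (τ v)⁻¹).trace = (mz (T'.comp res) (τ v)⁻¹).trace :=
      h4 (res (τ v)⁻¹)
    have e6 : ((c v - c' v : ℤ) : ℚ_[p]) =
        (((Ideal.absNorm v.asIdeal : ℤ) * (a - a') : ℤ) : ℚ_[p]) := by
      push_cast
      rw [e2, e4, e5]
      ring
    exact_mod_cast e6
  have hlim := Ud.diff p (N.comp res) hNF (N'.comp res) hNF' D hD
    (fun v => (mz (N.comp res) (τ v)⁻¹).trace) (fun v => (mz (N'.comp res) (τ v)⁻¹).trace)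
    c c' E E' hE hE'
    (fun v hv hvp g hg => by
      obtain ⟨a, ha⟩ := hc v hv hvp
      rw [(ha (τ v) (hτ v)).1]
      exact (ha g hg).1)
    (fun v hv hvp g hg => by
      obtain ⟨a, ha⟩ := hc' v hv hvp
      rw [(ha (τ v) (hτ v)).1]
      exact (ha g hg).1) hbb
  refine ⟨fun v hv hvp => ⟨_, hbb v hv hvp⟩, hlim, fun h => ?_, fun h => ?_⟩
  · have h5 := h.sub hlim
    rw [sub_sub_cancel] at h5
    refine h5.congr fun x => ?_
    exact sub_sub_cancel _ _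
  · have h5 := hlim.add h
    rw [sub_add_cancel] at h5
    refine h5.congr fun x => ?_
    exact sub_add_cancel _ _

end Pool.Agent.R401.Ue
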