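import Pool.Agent.R401.Ud

/-!
# The limit of the difference of the averages exists
-/

set_option autoImplicit false
set_option maxHeartbeats 400000

namespace Pool.Agent.R401.Uf

open NumberField Filter Topology IsDedekindDomain Pool.Agent.W401.Cheb
open Pool.Agent.W540.BE (upto mem_upto cheb_mean)
open Pool.Agent.H921R2.TatePole (nm two_le_nm)
open Pool.Agent.R401.Pu (mz NT)
open Pool.Agent.R401.Ud

variable {F : Type} [Field F] [NumberField F] {p : ℕ} [Fact p.Prime]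

open scoped Classical in
/-- the real number for a rational element of `ℚ_p` -/
noncomputable def rv (z : ℚ_[p]) : ℝ := if h : ∃ x : ℚ, (x : ℚ_[p]) = z then (h.choose : ℝ) else 0

theorem rv_coe (x : ℚ) : rv (x : ℚ_[p]) = x := by
  have h : ∃ y : ℚ, (y : ℚ_[p]) = (x : ℚ_[p]) := ⟨x, rfl⟩
  unfold rv
  rw [dif_pos h]
  have h1 : h.choose = x := by exact_mod_cast h.choose_spec
  rw [h1]

/-- transfer of the mean -/
theorem transfer (D : Set (HeightOneSpectrum (𝓞 F))) (c c' : HeightOneSpectrum (𝓞 F) → ℤ)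
    (E E' : ℕ) (hw : ∀ v, v ∉ D → |c v| ≤ E * Ideal.absNorm v.asIdeal)
    (hw' : ∀ v, v ∉ D → |c' v| ≤ E' * Ideal.absNorm v.asIdeal)
    (S : Set (HeightOneSpectrum (𝓞 F))) (hSf : S.Finite) (h : HeightOneSpectrum (𝓞 F) → ℝ)
    (h0 : ∀ v, v ∉ S → nb D c v - nb D c' v = h v) (L : ℝ)
    (h1 : Tendsto (fun X : ℕ => (∑ v ∈ upto F X, h v) / (Nat.primeCounting X : ℝ)) atTop (𝓝 L)) :
    Tendsto (fun X : ℕ => average D c X - average D c' X) atTop (𝓝 L) := by
  classical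
  set f : HeightOneSpectrum (𝓞 F) → ℝ := fun v => nb D c v - nb D c' v with hf
  have h0' : ∀ v, v ∉ S → f v - h v = 0 := fun v hv => by
    rw [hf]
    simp only
    rw [h0 v hv, sub_self]
  have h2 : Tendsto (fun X : ℕ => (∑ v ∈ upto F X, (f v - h v)) / (Nat.primeCounting X : ℝ)) atTop
      (𝓝 0) := by
    refine squeeze_zero_norm' ?_
      (Pool.Agent.W352.ChAbs.const_div_pi (∑ v ∈ hSf.toFinset, |f v - h v|))
    filter_upwards with X
    rw [Real.norm_eq_abs, abs_div, abs_of_nonneg (a := (Nat.primeCounting X : ℝ))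
      (Nat.cast_nonneg _)]
    refine div_le_div_of_nonneg_right ?_ (Nat.cast_nonneg _)
    refine (Finset.abs_sum_le_sum_abs _ _).trans ?_
    have h3 : ∑ v ∈ upto F X, |f v - h v| =
        ∑ v ∈ (upto F X).filter (fun v => v ∈ S), |f v - h v| := by
      rw [Finset.sum_filter]
      refine Finset.sum_congr rfl fun v _ => ?_
      by_cases hv : v ∈ S
      · rw [if_pos hv]
      · rw [if_neg hv, h0' v hv, abs_zero]
    rw [h3]
    refine Finset.sum_le_sum_of_subset_of_nonneg ?_ fun v _ _ => abs_nonneg _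
    intro v hv
    rw [Set.Finite.mem_toFinset]
    exact (Finset.mem_filter.1 hv).2
  have h3 : Tendsto (fun X : ℕ => (∑ v ∈ upto F X, f v) / (Nat.primeCounting X : ℝ)) atTop
      (𝓝 L) := by
    have h4 := h2.add h1
    rw [zero_add] at h4
    refine h4.congr fun X => ?_
    rw [← add_div, ← Finset.sum_add_distrib]
    congr 1
    refine Finset.sum_congr rfl fun v _ => ?_
    ring
  have h5 := Ub.tauber f (E + E') (fun v => by
    rw [hf]
    have e1 := nb_le hw v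
    have e2 := nb_le hw' v
    rw [abs_le] at e1 e2 ⊢
    constructor <;> linarith) _ h3
  refine h5.congr fun X => ?_
  rw [average_eq, average_eq, ← mul_sub, ← Finset.sum_sub_distrib]
  congr 1
  refine Finset.sum_congr rfl fun v _ => ?_
  rw [hf]
  ring

/-- a locally constant class function with values in `ℚ_p` -/
theorem exists_mean (Ψ : GK F → ℚ_[p]) (V : Subgroup (GK F)) (hVn : V.Normal)
    (hVo : IsOpen (V : Set (GK F))) (hV : ∀ x ∈ V, ∀ y, Ψ (x * y) = Ψ y)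
    (hc : ∀ g y, Ψ (g * y * g⁻¹) = Ψ y)
    (σ : HeightOneSpectrum (𝓞 F) → GK F) (hσ : ∀ v, IsFrob v (σ v)) :
    ∃ L : ℝ, Tendsto (fun X : ℕ => (∑ v ∈ upto F X, rv (Ψ (σ v)⁻¹)) /
      (Nat.primeCounting X : ℝ)) atTop (𝓝 L) := by
  classical
  have hfin : Finite (GK F ⧸ V) := Subgroup.quotient_finite_of_isOpen _ hVo
  let Φ : (GK F ⧸ V) → ℂ := fun q => ((rv (Ψ q.out⁻¹) : ℝ) : ℂ)
  have hout : ∀ g : GK F, Ψ (QuotientGroup.mk g : GK F ⧸ V).out⁻¹ = Ψ g⁻¹ := by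
    intro g
    obtain ⟨x, hx⟩ := QuotientGroup.mk_out_eq_mul V g
    rw [hx, mul_inv_rev, hV _ (V.inv_mem x.2)]
  have h1 := cheb_mean V hVo Φ (fun a g => by
    induction a using QuotientGroup.induction_on with
    | H a =>
      induction g using QuotientGroup.induction_on with
      | H g =>
        have e : ((g : GK F ⧸ V) * (a : GK F ⧸ V) * (g : GK F ⧸ V)⁻¹) =
            ((g * a * g⁻¹ : GK F) : GK F ⧸ V) := rfl
        change ((rv (Ψ ((g : GK F ⧸ V) * (a : GK F ⧸ V) * (g : GK F ⧸ V)⁻¹).out⁻¹) : ℝ) : ℂ) =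
          ((rv (Ψ (a : GK F ⧸ V).out⁻¹) : ℝ) : ℂ)
        rw [e, hout, hout]
        have e2 : (g * a * g⁻¹)⁻¹ = g * a⁻¹ * g⁻¹ := by group
        rw [e2, hc]) σ hσ
  refine ⟨((Nat.card (GK F ⧸ V) : ℂ)⁻¹ * ∑ᶠ q, Φ q).re, ?_⟩
  have h3 := (Complex.continuous_re.tendsto _).comp h1
  refine h3.congr fun X => ?_
  rw [Function.comp_apply]
  have e : ((∑ v ∈ upto F X, Φ (QuotientGroup.mk (σ v))) / (Nat.primeCounting X : ℂ)) =
      (((∑ v ∈ upto F X, rv (Ψ (σ v)⁻¹)) / (Nat.primeCounting X : ℝ) : ℝ) : ℂ) := by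
    push_cast
    congr 1
    refine Finset.sum_congr rfl fun v _ => ?_
    change ((rv (Ψ (QuotientGroup.mk (σ v) : GK F ⧸ V).out⁻¹) : ℝ) : ℂ) = _
    rw [hout]
  rw [e, Complex.ofReal_re]

/-- **The difference of the averages converges.** -/
theorem exists_limit {r s r' t : ℕ} (D : Set (HeightOneSpectrum (𝓞 F))) (hD : D.Finite)
    (N : GK F →* GL (Fin r) ℤ) (hN : IsOpen (N.ker : Set (GK F)))
    (N' : GK F →* GL (Fin r') ℤ) (hN' : IsOpen (N'.ker : Set (GK F)))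
    (T : GK F →* GL (Fin s) ℚ_[p]) (T' : GK F →* GL (Fin t) ℚ_[p])
    (U : Subgroup (GK F)) (hUn : U.Normal) (hUo : IsOpen (U : Set (GK F)))
    (hU : ∀ x ∈ U, ∀ y, (mz T (x * y)).trace - (mz T' (x * y)).trace =
      (mz T y).trace - (mz T' y).trace)
    (c c' : HeightOneSpectrum (𝓞 F) → ℤ)
    (E E' : ℕ) (hw : ∀ v, v ∉ D → |c v| ≤ E * Ideal.absNorm v.asIdeal)
    (hw' : ∀ v, v ∉ D → |c' v| ≤ E' * Ideal.absNorm v.asIdeal)
    (hc : ∀ v, v ∉ D → (p : 𝓞 F) ∉ v.asIdeal → ∀ g, IsFrob v g →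
      (c v : ℚ_[p]) = Ideal.absNorm v.asIdeal * (((mz N g⁻¹).trace : ℚ_[p]) + (mz T g⁻¹).trace))
    (hc' : ∀ v, v ∉ D → (p : 𝓞 F) ∉ v.asIdeal → ∀ g, IsFrob v g →
      (c' v : ℚ_[p]) =
        Ideal.absNorm v.asIdeal * (((mz N' g⁻¹).trace : ℚ_[p]) + (mz T' g⁻¹).trace)) :
    ∃ L : ℝ, Tendsto (fun X : ℕ => average D c X - average D c' X) atTop (𝓝 L) := by
  classical
  choose σ hσ using fun v : HeightOneSpectrum (𝓞 F) => Pool.Agent.W401.Frob.exists_frob v
  have hm : ∀ {R : Type} [CommRing R] {n : ℕ} (W : GK F →* GL (Fin n) R) (x y : GK F),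
      mz W (x * y) = mz W x * mz W y := fun W x y => by
    unfold mz
    rw [map_mul, Units.val_mul]
  have hconj : ∀ {R : Type} [CommRing R] {n : ℕ} (W : GK F →* GL (Fin n) R) (g y : GK F),
      (mz W (g * y * g⁻¹)).trace = (mz W y).trace := fun W g y => by
    rw [hm, hm, Matrix.trace_mul_comm, ← mul_assoc, ← hm, inv_mul_cancel]
    unfold mz
    rw [map_one, Units.val_one, one_mul]
  let Ψ : GK F → ℚ_[p] := fun g => ((mz N g).trace : ℚ_[p]) - ((mz N' g).trace : ℚ_[p]) +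
    ((mz T g).trace - (mz T' g).trace)
  have hVo : IsOpen ((U ⊓ (N.ker ⊓ N'.ker) : Subgroup (GK F)) : Set (GK F)) := by
    rw [Subgroup.coe_inf, Subgroup.coe_inf]
    exact hUo.inter (hN.inter hN')
  obtain ⟨L, hL⟩ := exists_mean Ψ (U ⊓ (N.ker ⊓ N'.ker)) inferInstance hVo (by
    intro x hx y
    have e1 : mz N (x * y) = mz N y := by
      unfold mz
      rw [map_mul, MonoidHom.mem_ker.1 hx.2.1, one_mul]
    have e2 : mz N' (x * y) = mz N' y := by
      unfold mz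
      rw [map_mul, MonoidHom.mem_ker.1 hx.2.2, one_mul]
    change ((mz N (x * y)).trace : ℚ_[p]) - ((mz N' (x * y)).trace : ℚ_[p]) +
      ((mz T (x * y)).trace - (mz T' (x * y)).trace) = _
    rw [e1, e2, hU x hx.1 y]) (by
    intro g y
    change ((mz N (g * y * g⁻¹)).trace : ℚ_[p]) - ((mz N' (g * y * g⁻¹)).trace : ℚ_[p]) +
      ((mz T (g * y * g⁻¹)).trace - (mz T' (g * y * g⁻¹)).trace) = _
    rw [hconj, hconj, hconj, hconj]) σ hσ
  refine ⟨L, transfer D c c' E E' hw hw' (D ∪ {v | (p : 𝓞 F) ∈ v.asIdeal})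
    (hD.union (Pool.Agent.W352.ChAbs.over_le p (Fact.out : p.Prime)).1) _ ?_ L hL⟩
  intro v hv
  rw [Set.mem_union, not_or] at hv
  have hq : (Ideal.absNorm v.asIdeal : ℚ_[p]) ≠ 0 := by
    have : Ideal.absNorm v.asIdeal ≠ 0 := fun h0 => v.ne_bot (Ideal.absNorm_eq_zero_iff.1 h0)
    exact_mod_cast this
  have e1 : Ψ (σ v)⁻¹ = ((((c v - c' v : ℤ) : ℚ) / (Ideal.absNorm v.asIdeal : ℚ) : ℚ) : ℚ_[p]) := by
    have h1 := hc v hv.1 hv.2 _ (hσ v)
    have h2 := hc' v hv.1 hv.2 _ (hσ v)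
    change ((mz N (σ v)⁻¹).trace : ℚ_[p]) - ((mz N' (σ v)⁻¹).trace : ℚ_[p]) +
      ((mz T (σ v)⁻¹).trace - (mz T' (σ v)⁻¹).trace) = _
    push_cast
    rw [eq_div_iff hq]
    linear_combination h2 - h1
  rw [e1, rv_coe]
  unfold nb nm
  rw [if_neg hv.1, if_neg hv.1]
  push_cast
  ring

end Pool.Agent.R401.Uf
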